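import Pool.Agent.V11151.MedGraph

/-! The chamber graph of the non-Fano arrangement is mediangle and is a monolith. -/

namespace Pool.Agent.V11151.Med

/-- The cycle of an entry. -/
noncomputable def cyc (t : ℕ) : ZMod (2 * hl t) → Fin 32 := fun i => cv t (ZMod.val i)

lemma good.ne {t : ℕ} (h : good t) : NeZero (2 * hl t) :=
  ⟨by rcases h.2.1 with h | h <;> rw [h] <;> decide⟩

lemma good.le {t : ℕ} (h : good t) : 2 * hl t ≤ 6 := by
  rcases h.2.1 with h | h <;> rw [h] <;> decide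

lemma good.le' {t : ℕ} (h : good t) : 2 ≤ hl t := by
  rcases h.2.1 with h | h <;> rw [h] <;> decide

lemma cyc_natCast {t : ℕ} {j : ℕ} (hj : j < 2 * hl t) : cyc t (j : ZMod (2 * hl t)) = cv t j := by
  unfold cyc
  rw [ZMod.val_natCast_of_lt hj]

lemma val_succ {N : ℕ} [NeZero N] (hN : 2 ≤ N) (i j : ZMod N) :
    j = i + 1 ↔ j.val = (i.val + 1) % N := by
  have : Fact (1 < N) := ⟨by omega⟩
  rw [← ZMod.val_one N, ← ZMod.val_add]
  exact ⟨fun h => by rw [h], fun h => ZMod.val_injective N h⟩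

lemma range_cyc {t : ℕ} (h : good t) : Set.range (cyc t) = {v | inMask (mi t) v = true} := by
  have := h.ne
  ext v
  constructor
  · rintro ⟨i, rfl⟩
    have h1 := ZMod.val_lt i
    exact h.2.2.2.1 ⟨i.val, lt_of_lt_of_le h1 h.le⟩ h1
  · intro hv
    obtain ⟨j, hj, hj'⟩ := h.2.2.1 v hv
    exact ⟨(j.val : ZMod (2 * hl t)), by rw [cyc_natCast hj, hj']⟩

lemma cyc_ok {t : ℕ} (h : good t) : IsConvexEvenCycle Gr (hl t) (cyc t) := by
  have := h.ne
  refine ⟨h.le', ?_, ?_, ?_⟩
  · intro i j hij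
    have h1 := ZMod.val_lt i
    have h2 := ZMod.val_lt j
    have h3 := h.2.2.2.2.1 ⟨i.val, lt_of_lt_of_le h1 h.le⟩ ⟨j.val, lt_of_lt_of_le h2 h.le⟩ h1 h2 hij
    exact ZMod.val_injective _ (congrArg Fin.val h3)
  · intro i j
    have h1 := ZMod.val_lt i
    have h2 := ZMod.val_lt j
    have h3 := h.2.2.2.2.2 ⟨i.val, lt_of_lt_of_le h1 h.le⟩ ⟨j.val, lt_of_lt_of_le h2 h.le⟩ h1 h2
    rw [val_succ (by have := h.le'; omega), val_succ (by have := h.le'; omega)]
    exact h3
  · rw [range_cyc h]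
    intro a ha b hb v hv
    rw [mem_Interval] at hv
    exact mask_convex ⟨mi t, h.1⟩ a ha b hb v hv

lemma neg_one_eq {t : ℕ} (h : good t) :
    (-1 : ZMod (2 * hl t)) = ((2 * hl t - 1 : ℕ) : ZMod (2 * hl t)) := by
  rw [Nat.cast_sub (by have := h.le'; omega), ZMod.natCast_self]
  simp

lemma ent_check : ∀ (z : Fin 32) (k l : Fin 3), k ≠ l →
    cv (ent z k l) 0 = z ∧ cv (ent z k l) 1 = nb z k ∧
    cv (ent z k l) (2 * hl (ent z k l) - 1) = nb z l ∧
    ∀ o : Fin 32, D o (nb z k) = D o (nb z l) → D o (nb z k) + 1 = D o z →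
      D o (cv (ent z k l) (hl (ent z k l))) + D (cv (ent z k l) (hl (ent z k l))) (nb z k) =
        D o (nb z k) ∧
      D o (cv (ent z k l) (hl (ent z k l))) + D (cv (ent z k l) (hl (ent z k l))) (nb z l) =
        D o (nb z l) := by
  decide +kernel

lemma axiom_cycle (o x y z : Fin 32) (hxy : x ≠ y) (h1 : Gr.dist o x = Gr.dist o y)
    (h2 : Gr.dist o x + 1 = Gr.dist o z) (h3 : Gr.dist x z = 1) (h4 : Gr.dist y z = 1) :
    ∃ (n : ℕ) (c : ZMod (2 * n) → Fin 32) (i : ZMod (2 * n)), IsConvexEvenCycle Gr n c ∧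
      c i = z ∧ c (i + 1) = x ∧ c (i - 1) = y ∧ c (i + n) ∈ Interval Gr o x ∩ Interval Gr o y := by
  rw [dist_eq, dist_eq] at h1 h2
  rw [dist_eq, D_symm] at h3 h4
  obtain ⟨k, rfl⟩ := nb_surj z x h3
  obtain ⟨l, rfl⟩ := nb_surj z y h4
  have hkl : k ≠ l := fun h => hxy (by rw [h])
  have hg := ent_good z k l hkl
  have := hg.ne
  have hl2 := hg.le'
  obtain ⟨c0, c1, c2, c3⟩ := ent_check z k l hkl
  obtain ⟨c4, c5⟩ := c3 o h1 h2
  refine ⟨hl (ent z k l), cyc (ent z k l), 0, cyc_ok hg, ?_, ?_, ?_, ?_, ?_⟩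
  · have := cyc_natCast (t := ent z k l) (j := 0) (by omega)
    rw [Nat.cast_zero] at this
    rw [this, c0]
  · have := cyc_natCast (t := ent z k l) (j := 1) (by omega)
    rw [Nat.cast_one] at this
    rw [zero_add, this, c1]
  · rw [zero_sub, neg_one_eq hg, cyc_natCast (by omega), c2]
  · rw [zero_add, cyc_natCast (by omega), mem_Interval]
    exact c4
  · rw [zero_add, cyc_natCast (by omega), mem_Interval]
    exact c5

/-! ### A convex even cycle is an interval -/

section Cyc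

variable {V : Type*} {G : SimpleGraph V} {n : ℕ} {c : ZMod (2 * n) → V}

lemma natAbs_one_le (N : ℕ) : (1 : ZMod N).valMinAbs.natAbs ≤ 1 := by
  rcases N with _ | _ | _ | N
  · simp [ZMod.valMinAbs]
  · decide
  · decide
  · have := ZMod.valMinAbs_natCast_of_le_half (n := N + 3) (a := 1) (by omega)
    rw [Nat.cast_one] at this
    rw [this]
    simp

lemma exists_step (hG : G.Connected) {x y : V} {k : ℕ} (h : G.dist x y = k + 1) :
    ∃ u, G.Adj x u ∧ G.dist u y = k := by
  obtain ⟨w, hw⟩ := (hG x y).exists_walk_length_eq_dist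
  rw [h] at hw
  cases w with
  | nil => simp at hw
  | @cons _ u _ hadj w' =>
    refine ⟨u, hadj, ?_⟩
    rw [SimpleGraph.Walk.length_cons] at hw
    have h1 := SimpleGraph.dist_le w'
    have h2 := hG.dist_triangle (u := x) (v := u) (w := y)
    rw [SimpleGraph.dist_eq_one_iff_adj.mpr hadj] at h2
    omega

lemma lower_bound (hc : IsConvexEvenCycle G n c) (hG : G.Connected) :
    ∀ (k : ℕ) (i j : ZMod (2 * n)), G.dist (c i) (c j) = k →
      (i - j).valMinAbs.natAbs ≤ k := by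
  intro k
  induction k with
  | zero =>
    intro i j h
    have h1 : c i = c j := by
      rwa [(hG (c i) (c j)).dist_eq_zero_iff] at h
    rw [hc.inj h1, sub_self, ZMod.valMinAbs_zero]
    simp
  | succ k ih =>
    intro i j h
    obtain ⟨u, hu1, hu2⟩ := exists_step hG h
    have hu : u ∈ Interval G (c i) (c j) :=
      ⟨hG _ _, hG _ _, by rw [h, hu2, SimpleGraph.dist_eq_one_iff_adj.mpr hu1]; omega⟩
    obtain ⟨l, rfl⟩ := hc.convex (c i) ⟨i, rfl⟩ (c j) ⟨j, rfl⟩ hu
    have h3 := ih l j hu2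
    have h4 := natAbs_one_le (2 * n)
    rcases (hc.adj i l).mp hu1 with h5 | h5
    · have h6 : i - j = (l - j) + (-1) := by rw [h5]; ring
      have h7 := ZMod.natAbs_valMinAbs_add_le (l - j) (-1 : ZMod (2 * n))
      have h8 := ZMod.natAbs_valMinAbs_neg (1 : ZMod (2 * n))
      have h9 := Int.natAbs_add_le (l - j).valMinAbs (-1 : ZMod (2 * n)).valMinAbs
      rw [← h6] at h7
      omega
    · have h6 : i - j = (l - j) + 1 := by rw [h5]; ring
      have h7 := ZMod.natAbs_valMinAbs_add_le (l - j) (1 : ZMod (2 * n))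
      have h9 := Int.natAbs_add_le (l - j).valMinAbs (1 : ZMod (2 * n)).valMinAbs
      rw [← h6] at h7
      omega

lemma upper_bound (hc : IsConvexEvenCycle G n c) (hG : G.Connected) (i : ZMod (2 * n)) :
    ∀ (k : ℕ), G.dist (c i) (c (i + k)) ≤ k := by
  intro k
  induction k with
  | zero => simp
  | succ k ih =>
    have h1 := hG.dist_triangle (u := c i) (v := c (i + k)) (w := c (i + (k + 1 : ℕ)))
    have h2 : G.Adj (c (i + k)) (c (i + (k + 1 : ℕ))) :=
      (hc.adj _ _).mpr (Or.inl (by push_cast; ring))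
    rw [SimpleGraph.dist_eq_one_iff_adj.mpr h2] at h1
    omega

lemma natCast_two_mul (n : ℕ) : ((n : ℕ) : ZMod (2 * n)) + (n : ℕ) = 0 := by
  have := ZMod.natCast_self (2 * n)
  rw [← this]; push_cast; ring

lemma dist_opp (hc : IsConvexEvenCycle G n c) (hG : G.Connected) :
    G.dist (c 0) (c n) = n := by
  apply le_antisymm
  · have := upper_bound hc hG 0 n
    rwa [zero_add] at this
  · have h1 := lower_bound hc hG _ 0 n rfl
    rw [zero_sub, ZMod.natAbs_valMinAbs_neg,
      ZMod.valMinAbs_natCast_of_le_half (by omega)] at h1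
    simpa using h1

/-- A convex even cycle is the interval between two opposite vertices. -/
lemma range_eq_interval (hc : IsConvexEvenCycle G n c) (hG : G.Connected) :
    Set.range c = Interval G (c 0) (c n) := by
  have h2n := hc.two_le
  have : NeZero (2 * n) := ⟨by omega⟩
  apply Set.Subset.antisymm
  · rintro _ ⟨i, rfl⟩
    refine ⟨hG _ _, hG _ _, ?_⟩
    rw [dist_opp hc hG]
    have hlt := ZMod.val_lt i
    have hi : ((i.val : ℕ) : ZMod (2 * n)) = i := ZMod.natCast_zmod_val i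
    have htri := hG.dist_triangle (u := c 0) (v := c i) (w := c n)
    rw [dist_opp hc hG] at htri
    by_cases hle : i.val ≤ n
    · have u1 := upper_bound hc hG 0 i.val
      rw [zero_add, hi] at u1
      have u2 := upper_bound hc hG i (n - i.val)
      have e : i + ((n - i.val : ℕ) : ZMod (2 * n)) = n := by
        rw [Nat.cast_sub hle, hi]; ring
      rw [e] at u2
      omega
    · push Not at hle
      have u1 := upper_bound hc hG i (2 * n - i.val)
      have e1 : i + ((2 * n - i.val : ℕ) : ZMod (2 * n)) = 0 := by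
        rw [Nat.cast_sub hlt.le, hi, ZMod.natCast_self]; ring
      rw [e1, SimpleGraph.dist_comm] at u1
      have u2 := upper_bound hc hG n (i.val - n)
      have e2 : (n : ZMod (2 * n)) + ((i.val - n : ℕ) : ZMod (2 * n)) = i := by
        rw [Nat.cast_sub hle.le, hi]; ring
      rw [e2, SimpleGraph.dist_comm] at u2
      omega
  · exact hc.convex _ ⟨0, rfl⟩ _ ⟨n, rfl⟩

end Cyc

/-! ### Classification of the convex even cycles -/

/-- The interval `I(v,w)` induces a 2-regular graph. -/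
def cyc2 (v w : Fin 32) : Prop :=
  ∀ x : Fin 32, D v x + D x w = D v w → ∃ k1 k2 : Fin 3, k1 ≠ k2 ∧
    D v (nb x k1) + D (nb x k1) w = D v w ∧ D v (nb x k2) + D (nb x k2) w = D v w ∧
    ∀ k : Fin 3, D v (nb x k) + D (nb x k) w = D v w → k = k1 ∨ k = k2

instance (v w : Fin 32) : Decidable (cyc2 v w) := by unfold cyc2; infer_instance

lemma classify : ∀ v w : Fin 32, cyc2 v w →
    ∃ m : Fin 18, ∀ x : Fin 32, (D v x + D x w = D v w ↔ inMask m x = true) := by
  decide +kernel

lemma masks_inter : ∀ m m' : Fin 18, m ≠ m' →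
    ((Finset.univ : Finset (Fin 32)).filter
      (fun x => inMask m x = true ∧ inMask m' x = true)).card ≤ 2 := by
  decide +kernel

lemma cycle_mask {n : ℕ} {c : ZMod (2 * n) → Fin 32} (hc : IsConvexEvenCycle Gr n c) :
    ∃ m : Fin 18, ∀ x : Fin 32, x ∈ Set.range c ↔ inMask m x = true := by
  have hr := range_eq_interval hc conn
  have h2n := hc.two_le
  have hmem : ∀ x, x ∈ Set.range c ↔ D (c 0) x + D x (c n) = D (c 0) (c n) := by
    intro x; rw [hr, mem_Interval]
  have h2 : cyc2 (c 0) (c n) := by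
    intro x hx
    rw [← hmem] at hx
    obtain ⟨i, rfl⟩ := hx
    have a1 : Gr.Adj (c i) (c (i + 1)) := (hc.adj _ _).mpr (Or.inl rfl)
    have a2 : Gr.Adj (c i) (c (i - 1)) := (hc.adj _ _).mpr (Or.inr (by ring))
    obtain ⟨k1, hk1⟩ := nb_surj _ _ a1
    obtain ⟨k2, hk2⟩ := nb_surj _ _ a2
    refine ⟨k1, k2, ?_, ?_, ?_, ?_⟩
    · rintro rfl
      rw [hk1] at hk2
      have h3 := hc.inj hk2
      have h4 : ((2 : ℕ) : ZMod (2 * n)) = 0 := by
        push_cast
        calc (2 : ZMod (2 * n)) = (i + 1) - (i - 1) := by ring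
          _ = 0 := by rw [h3, sub_self]
      rw [ZMod.natCast_eq_zero_iff] at h4
      have := Nat.le_of_dvd (by norm_num) h4
      omega
    · rw [← hmem, hk1]; exact ⟨_, rfl⟩
    · rw [← hmem, hk2]; exact ⟨_, rfl⟩
    · intro k hk
      rw [← hmem] at hk
      obtain ⟨j, hj⟩ := hk
      have a3 : Gr.Adj (c i) (c j) := by rw [hj]; exact nb_adj _ _
      rcases (hc.adj _ _).mp a3 with h | h
      · left
        apply nb_inj (c i)
        rw [hk1, ← hj, h]
      · right
        apply nb_inj (c i)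
        rw [hk2, ← hj]
        congr 1
        rw [h]; ring
  obtain ⟨m, hm⟩ := classify _ _ h2
  exact ⟨m, fun x => by rw [hmem, hm]⟩

lemma axiom_intersection (n m : ℕ) (c : ZMod (2 * n) → Fin 32) (c' : ZMod (2 * m) → Fin 32)
    (hc : IsConvexEvenCycle Gr n c) (hc' : IsConvexEvenCycle Gr m c')
    (hne : Set.range c ≠ Set.range c') :
    ∀ e ∈ cycleEdges c ∩ cycleEdges c', ∀ f ∈ cycleEdges c ∩ cycleEdges c', e = f := by
  obtain ⟨k, hk⟩ := cycle_mask hc
  obtain ⟨k', hk'⟩ := cycle_mask hc'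
  have hkk : k ≠ k' := by
    rintro rfl
    apply hne
    ext x
    rw [hk, hk']
  have hcard := masks_inter k k' hkk
  set F := (Finset.univ : Finset (Fin 32)).filter
      (fun x => inMask k x = true ∧ inMask k' x = true) with hF
  have hF' : ∀ x, x ∈ F ↔ x ∈ Set.range c ∧ x ∈ Set.range c' := by
    intro x; rw [hF, Finset.mem_filter, hk, hk']; simp
  have key : ∀ e ∈ cycleEdges c ∩ cycleEdges c', ∃ a b, a ≠ b ∧ e = s(a, b) ∧ F = {a, b} := by
    rintro e ⟨⟨i, hi⟩, ⟨j, hj⟩⟩
    simp only at hi hj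
    refine ⟨c i, c (i + 1), ?_, hi.symm, ?_⟩
    · exact ((hc.adj _ _).mpr (Or.inl rfl)).ne
    · symm
      have hn : c i ≠ c (i + 1) := ((hc.adj _ _).mpr (Or.inl rfl)).ne
      have hsub : ({c i, c (i + 1)} : Finset (Fin 32)) ⊆ F := by
        rw [← hi, Sym2.eq_iff] at hj
        intro x hx
        rw [Finset.mem_insert, Finset.mem_singleton] at hx
        rw [hF']
        rcases hj with ⟨h1, h2⟩ | ⟨h1, h2⟩ <;> rcases hx with rfl | rfl
        · exact ⟨⟨_, rfl⟩, ⟨_, h1⟩⟩
        · exact ⟨⟨_, rfl⟩, ⟨_, h2⟩⟩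
        · exact ⟨⟨_, rfl⟩, ⟨_, h2⟩⟩
        · exact ⟨⟨_, rfl⟩, ⟨_, h1⟩⟩
      apply Finset.eq_of_subset_of_card_le hsub
      rw [Finset.card_pair hn]
      exact hcard
  intro e he f hf
  obtain ⟨a, b, hab, rfl, h1⟩ := key e he
  obtain ⟨p, q, hpq, rfl, h2⟩ := key f hf
  rw [h1] at h2
  have ha : a ∈ ({p, q} : Finset (Fin 32)) := by rw [← h2]; simp
  have hb : b ∈ ({p, q} : Finset (Fin 32)) := by rw [← h2]; simp
  rw [Finset.mem_insert, Finset.mem_singleton] at ha hb
  rw [Sym2.eq_iff]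
  rcases ha with rfl | rfl <;> rcases hb with rfl | rfl
  · exact absurd rfl hab
  · exact Or.inl ⟨rfl, rfl⟩
  · exact Or.inr ⟨rfl, rfl⟩
  · exact absurd rfl hab

/-! ### Hyperplanes -/

/-- Pointer table. -/
def NXt : ℕ := 0x9b1636052a969125610a2582453c68db6d1a5564ca983475d830a2050c4040a7171d157a598546451a8a9095328020a01d3c80002d864d3938746201ac521d0874290100a0000340c0d083408a30146050008080

/-- Pointer to another edge of the same hyperplane. -/
def nxt (p : Fin 32 × Fin 3) : Fin 32 × Fin 3 :=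
  (Fin.ofNat 32 ((NXt >>> (7 * (3 * p.1.val + p.2.val))) % 128 / 4),
    Fin.ofNat 3 ((NXt >>> (7 * (3 * p.1.val + p.2.val))) % 4))

/-- The edge of a dart. -/
def dedge (p : Fin 32 × Fin 3) : Sym2 (Fin 32) := s(p.1, nb p.1 p.2)

lemma entry_rule (z : Fin 32) (k l : Fin 3) (hkl : k ≠ l) :
    HypRule Gr s(z, nb z k)
      s(cv (ent z k l) (hl (ent z k l)), cv (ent z k l) (hl (ent z k l) + 1)) := by
  have hg := ent_good z k l hkl
  have := hg.ne
  have hl2 := hg.le'
  obtain ⟨c0, c1, c2, c3⟩ := ent_check z k l hkl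
  right
  refine ⟨hl (ent z k l), cyc (ent z k l), 0, cyc_ok hg, ?_, ?_⟩
  · have h0 := cyc_natCast (t := ent z k l) (j := 0) (by omega)
    have h1 := cyc_natCast (t := ent z k l) (j := 1) (by omega)
    rw [Nat.cast_zero] at h0
    rw [Nat.cast_one] at h1
    rw [zero_add, h0, h1, c0, c1]
  · have h1 := cyc_natCast (t := ent z k l) (j := hl (ent z k l) + 1) (by omega)
    rw [Nat.cast_add, Nat.cast_one] at h1
    rw [zero_add, cyc_natCast (by omega), h1]

lemma nxt_check : ∀ (z : Fin 32) (k : Fin 3),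
    (nxt (z, k) = (z, k)) ∨ ((nxt (z, k)).1 = nb z k ∧ nb (nxt (z, k)).1 (nxt (z, k)).2 = z) ∨
    ∃ l : Fin 3, k ≠ l ∧ (nxt (z, k)).1 = cv (ent z k l) (hl (ent z k l)) ∧
      nb (nxt (z, k)).1 (nxt (z, k)).2 = cv (ent z k l) (hl (ent z k l) + 1) := by
  decide +kernel

lemma nxt_same (p : Fin 32 × Fin 3) : SameHyp Gr (dedge p) (dedge (nxt p)) := by
  obtain ⟨z, k⟩ := p
  rcases nxt_check z k with h | ⟨h1, h2⟩ | ⟨l, hkl, h1, h2⟩
  · rw [h]; exact Relation.EqvGen.refl _
  · unfold dedge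
    rw [h2, h1, Sym2.eq_swap]
    exact Relation.EqvGen.refl _
  · unfold dedge
    rw [h2, h1]
    exact Relation.EqvGen.rel _ _ (entry_rule z k l hkl)

/-- Five steps. -/
def nxt5 (p : Fin 32 × Fin 3) : Fin 32 × Fin 3 := nxt (nxt (nxt (nxt (nxt p))))

lemma nxt5_same (p : Fin 32 × Fin 3) : SameHyp Gr (dedge p) (dedge (nxt5 p)) :=
  (((nxt_same p).trans _ _ _ (nxt_same _)).trans _ _ _ (nxt_same _)).trans _ _ _
    ((nxt_same _).trans _ _ _ (nxt_same _))

lemma nxt5_label : ∀ (z : Fin 32) (k : Fin 3) (z' : Fin 32) (k' : Fin 3),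
    code z ^^^ code (nb z k) = code z' ^^^ code (nb z' k') → nxt5 (z, k) = nxt5 (z', k') := by
  decide +kernel

lemma same_of_label {a b c d : Fin 32} (hab : D a b = 1) (hcd : D c d = 1)
    (h : code a ^^^ code b = code c ^^^ code d) : SameHyp Gr s(a, b) s(c, d) := by
  obtain ⟨k, rfl⟩ := nb_surj a b hab
  obtain ⟨l, rfl⟩ := nb_surj c d hcd
  have h1 := nxt5_same (a, k)
  have h2 := nxt5_same (c, l)
  rw [← nxt5_label a k c l h] at h2
  exact h1.trans _ _ _ (h2.symm _ _)

lemma label_pow : ∀ a b : Fin 32, D a b = 1 → ∃ i : Fin 7, code a ^^^ code b = 2 ^ i.val := by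
  decide +kernel

lemma trans_check : ∀ i j : Fin 7, i ≠ j → ∃ (z : Fin 32) (k l : Fin 3), k ≠ l ∧
    code z ^^^ code (nb z l) = 2 ^ i.val ∧ code z ^^^ code (nb z k) = 2 ^ j.val := by
  decide +kernel

lemma transverse_of_label {a b c d : Fin 32} (hab : D a b = 1) (hcd : D c d = 1)
    (h : code a ^^^ code b ≠ code c ^^^ code d) : Transverse Gr s(a, b) s(c, d) := by
  obtain ⟨i, hi⟩ := label_pow a b hab
  obtain ⟨j, hj⟩ := label_pow c d hcd
  have hij : i ≠ j := by
    rintro rfl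
    exact h (by rw [hi, hj])
  obtain ⟨z, k, l, hkl, h1, h2⟩ := trans_check i j hij
  have hg := ent_good z k l hkl
  have := hg.ne
  have hl2 := hg.le'
  obtain ⟨c0, c1, c2, c3⟩ := ent_check z k l hkl
  have e0 := cyc_natCast (t := ent z k l) (j := 0) (by omega)
  have e1 := cyc_natCast (t := ent z k l) (j := 1) (by omega)
  rw [Nat.cast_zero] at e0
  rw [Nat.cast_one] at e1
  refine ⟨hl (ent z k l), cyc (ent z k l), 0, cyc_ok hg, ?_, ?_⟩
  · rw [zero_sub, neg_one_eq hg, cyc_natCast (by omega), c2, e0, c0, Sym2.eq_swap (a := nb z l)]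
    exact same_of_label hab (nb_adj z l) (by rw [hi, h1])
  · rw [zero_add, e1, e0, c0, c1]
    exact same_of_label hcd (nb_adj z k) (by rw [hj, h2])

/-- The chamber graph is mediangle. -/
theorem gr_mediangle : IsMediangle Gr where
  connected := conn
  triangle := by
    intro o x y h1 h2
    rw [dist_eq, dist_eq] at h1
    rw [dist_eq] at h2
    exact absurd h2 (D_parity o x y h1)
  noDiamond := by
    intro a b c d hab hac hbc _ _ _
    exfalso
    exact D_parity a b c (by rw [adj_iff_D.mp hab, adj_iff_D.mp hac]) hbc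
  cycle := axiom_cycle
  intersection := axiom_intersection

/-- The whole chamber graph is a monolith. -/
theorem gr_monolith : IsMonolith Gr Set.univ := by
  refine ⟨⟨0, trivial⟩, ?_, ?_⟩
  · intro x
    refine ⟨x, trivial, fun z _ => ?_⟩
    rw [mem_Interval, D_self, zero_add]
  · intro a _ b _ c _ d _ hab hcd hne
    apply transverse_of_label hab hcd
    intro h
    exact hne (same_of_label hab hcd h)

end Pool.Agent.V11151.Med
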