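import Pool.Agent.V11151.CStep

/-! The cyclic law on arrays of labels. -/

namespace Pool.Agent.V11151.CMean

/-- Entries: `(i, k)` stands for the cyclic interval of length `k` starting at `i`. -/
abbrev Ent (h : ℕ) := Fin h × Fin h

section Abstract

variable {h q : ℕ} (K : Ent h → ℕ → (Ent h → ℕ) → ℝ)

/-- `G` depends only on the entries in `D`. -/
def DepOn (D : Finset (Ent h)) (G : (Ent h → ℕ) → ℝ) : Prop :=
  ∀ b b', (∀ e ∈ D, b e = b' e) → G b = G b'

/-- Resampling the entry `e`. -/
noncomputable def Se (q : ℕ) (e : Ent h) (G : (Ent h → ℕ) → ℝ) (b : Ent h → ℕ) : ℝ :=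
  ∑ a ∈ Finset.range q, K e a b * G (Function.update b e a)

/-- Assignments on `A`, equal to `b₀` elsewhere. -/
def asg (q : ℕ) (A : Finset (Ent h)) (b₀ : Ent h → ℕ) : Finset (Ent h → ℕ) :=
  Fintype.piFinset fun e => if e ∈ A then Finset.range q else {b₀ e}

/-- Expectation of `G` when the entries in `A` are sampled. -/
noncomputable def FA (q : ℕ) (A : Finset (Ent h)) (b₀ : Ent h → ℕ) (G : (Ent h → ℕ) → ℝ) : ℝ :=
  ∑ b ∈ asg q A b₀, (∏ e ∈ A, K e (b e) b) * G b

lemma mem_asg {A : Finset (Ent h)} {b₀ b : Ent h → ℕ} :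
    b ∈ asg q A b₀ ↔ (∀ e ∈ A, b e < q) ∧ ∀ e, e ∉ A → b e = b₀ e := by
  unfold asg
  rw [Fintype.mem_piFinset]
  constructor
  · intro H
    refine ⟨fun e he => ?_, fun e he => ?_⟩
    · have := H e
      rw [if_pos he] at this
      exact Finset.mem_range.mp this
    · have := H e
      rw [if_neg he] at this
      exact Finset.mem_singleton.mp this
  · rintro ⟨h1, h2⟩ e
    split_ifs with he
    · exact Finset.mem_range.mpr (h1 e he)
    · exact Finset.mem_singleton.mpr (h2 e he)

lemma FA_empty (b₀ : Ent h → ℕ) (G : (Ent h → ℕ) → ℝ) : FA K q ∅ b₀ G = G b₀ := by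
  unfold FA
  have : asg q ∅ b₀ = {b₀} := by
    ext b
    rw [mem_asg, Finset.mem_singleton]
    constructor
    · rintro ⟨_, h2⟩
      funext e
      exact h2 e (Finset.notMem_empty e)
    · rintro rfl
      exact ⟨fun e he => absurd he (Finset.notMem_empty e), fun _ _ => rfl⟩
  rw [this]
  simp

/-- Sampling one more entry. -/
lemma FA_insert {e : Ent h} {A : Finset (Ent h)} (he : e ∉ A)
    (hA : ∀ e' ∈ A, ∀ a b x, K e' a (Function.update b e x) = K e' a b)
    (hee : ∀ a b x, K e a (Function.update b e x) = K e a b) (b₀ : Ent h → ℕ)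
    (G : (Ent h → ℕ) → ℝ) : FA K q (insert e A) b₀ G = FA K q A b₀ (Se K q e G) := by
  classical
  unfold FA Se
  have e1 : ∀ b ∈ asg q A b₀, (∏ e' ∈ A, K e' (b e') b) *
      ∑ a ∈ Finset.range q, K e a b * G (Function.update b e a) =
      ∑ a ∈ Finset.range q, (∏ e' ∈ A, K e' (b e') b) * (K e a b * G (Function.update b e a)) :=
    fun b _ => Finset.mul_sum _ _ _
  rw [Finset.sum_congr rfl e1, ← Finset.sum_product']
  symm
  refine Finset.sum_nbij' (fun p => Function.update p.1 e p.2)
    (fun b => (Function.update b e (b₀ e), b e)) ?_ ?_ ?_ ?_ ?_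
  · rintro ⟨b, a⟩ hp
    rw [Finset.mem_product] at hp
    obtain ⟨h1, h2⟩ := hp
    rw [mem_asg] at h1 ⊢
    refine ⟨fun e' he' => ?_, fun e' he' => ?_⟩
    · by_cases hc : e' = e
      · subst hc
        simp only [Function.update_self]
        exact Finset.mem_range.mp h2
      · simp only [Function.update_of_ne hc]
        exact h1.1 e' ((Finset.mem_insert.mp he').resolve_left hc)
    · rw [Finset.mem_insert, not_or] at he'
      simp only [Function.update_of_ne he'.1]
      exact h1.2 e' he'.2
  · intro b hb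
    rw [mem_asg] at hb
    rw [Finset.mem_product, mem_asg]
    refine ⟨⟨fun e' he' => ?_, fun e' he' => ?_⟩, ?_⟩
    · have hc : e' ≠ e := fun hc => he (hc ▸ he')
      simp only [Function.update_of_ne hc]
      exact hb.1 e' (Finset.mem_insert_of_mem he')
    · by_cases hc : e' = e
      · subst hc; simp only [Function.update_self]
      · simp only [Function.update_of_ne hc]
        exact hb.2 e' fun hh => (Finset.mem_insert.mp hh).elim hc he'
    · exact Finset.mem_range.mpr (hb.1 e (Finset.mem_insert_self _ _))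
  · rintro ⟨b, a⟩ hp
    rw [Finset.mem_product, mem_asg] at hp
    simp only [Function.update_self, Function.update_idem, Prod.mk.injEq, and_true]
    rw [← hp.1.2 e he, Function.update_eq_self]
  · intro b _
    simp only [Function.update_idem, Function.update_eq_self]
  · rintro ⟨b, a⟩ _
    simp only
    rw [Finset.prod_insert he, Function.update_self, hee]
    have e2 : ∏ e' ∈ A, K e' (Function.update b e a e') (Function.update b e a) =
        ∏ e' ∈ A, K e' (b e') b := by
      refine Finset.prod_congr rfl fun e' he' => ?_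
      have hc : e' ≠ e := fun hc => he (hc ▸ he')
      rw [Function.update_of_ne hc, hA e' he']
    rw [e2]
    ring

variable (hK1 : ∀ e b, ∑ a ∈ Finset.range q, K e a b = 1)

include hK1 in
lemma Se_of_indep {e : Ent h} {G : (Ent h → ℕ) → ℝ}
    (hG : ∀ b x, G (Function.update b e x) = G b) : Se K q e G = G := by
  funext b
  unfold Se
  simp only [hG]
  rw [← Finset.sum_mul, hK1, one_mul]

/-- The strict order of dependence. -/
def low (e' e : Ent h) : Prop :=
  1 ≤ e'.2.val ∧ e'.2.val < e.2.val ∧ ((e'.1.val + e'.2.val) % h = (e.1.val + e.2.val) % h ∨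
    (e'.1.val + e'.2.val + 1) % h = (e.1.val + e.2.val) % h)

variable (hKd : ∀ e a b b', (∀ e', low e' e → b e' = b' e') → K e a b = K e a b')

include hKd in
lemma K_update {e e' : Ent h} (hl : ¬ low e' e) (a : ℕ) (b : Ent h → ℕ) (x : ℕ) :
    K e a (Function.update b e' x) = K e a b := by
  apply hKd
  intro f hf
  have : f ≠ e' := fun h => hl (h ▸ hf)
  rw [Function.update_of_ne this]

lemma not_low_self (e : Ent h) : ¬ low e e := fun h => lt_irrefl _ h.2.1

include hK1 hKd in
/-- Entries outside a down-closed set can be summed out. -/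
lemma FA_eq {W : Finset (Ent h)} (hW : ∀ e e', e ∈ W → low e' e → e' ∈ W)
    {G : (Ent h → ℕ) → ℝ} (hG : DepOn W G) (b₀ : Ent h → ℕ) :
    ∀ (n : ℕ) (B : Finset (Ent h)), W ⊆ B → (B \ W).card = n → FA K q B b₀ G = FA K q W b₀ G := by
  classical
  intro n
  induction n with
  | zero =>
    intro B hWB hc
    rw [Finset.card_eq_zero, Finset.sdiff_eq_empty_iff_subset] at hc
    rw [Finset.Subset.antisymm hc hWB]
  | succ n ih =>
    intro B hWB hc
    have hne : (B \ W).Nonempty := by rw [← Finset.card_pos]; omega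
    obtain ⟨e, heB, hmax⟩ := Finset.exists_max_image (B \ W) (fun e => e.2.val) hne
    rw [Finset.mem_sdiff] at heB
    have hins : insert e (B.erase e) = B := Finset.insert_erase heB.1
    have hlow : ∀ e' ∈ B.erase e, ¬ low e e' := by
      intro e' he' hl
      rw [Finset.mem_erase] at he'
      by_cases hw : e' ∈ W
      · exact heB.2 (hW e' e hw hl)
      · have := hmax e' (Finset.mem_sdiff.mpr ⟨he'.2, hw⟩)
        have h2 := hl.2.1
        omega
    rw [← hins, FA_insert K (Finset.notMem_erase _ _)
      (fun e' he' => K_update K hKd (hlow e' he')) (K_update K hKd (not_low_self e)),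
      Se_of_indep K hK1 (fun b x => hG _ _ fun f hf => by
        have : f ≠ e := fun hfe => heB.2 (hfe ▸ hf)
        rw [Function.update_of_ne this])]
    apply ih
    · intro f hf
      rw [Finset.mem_erase]
      exact ⟨fun hfe => heB.2 (hfe ▸ hf), hWB hf⟩
    · have : (B.erase e) \ W = (B \ W).erase e := by
        ext f; simp only [Finset.mem_sdiff, Finset.mem_erase]; tauto
      rw [this, Finset.card_erase_of_mem (Finset.mem_sdiff.mpr heB)]
      omega

end Abstract

end Pool.Agent.V11151.CMean
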