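import Pool.Agent.V11151.CThm

/-! The cyclic lemma: pairwise exclusive rotations have mean at most `1/h`. -/

namespace Pool.Agent.V11151.CMean

variable (m : Mean ℕ) {h : ℕ} [NeZero h]

lemma FA_rotn (q : ℕ) (v : List ℕ → ℕ) (b₀ : Ent h → ℕ) (G : (Ent h → ℕ) → ℝ) (r : ℕ) :
    FA (Kk m v) q Finset.univ b₀ (fun b => G (rot^[r] b)) =
      FA (Kk m v) q Finset.univ b₀ G := by
  induction r with
  | zero => rfl
  | succ r ih =>
    have e : (fun b => G (rot^[r + 1] b)) = fun b => (fun b => G (rot^[r] b)) (rot b) := by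
      funext b
      simp only [Function.iterate_succ_apply]
    rw [e, FA_rot m q v b₀ (fun b => G (rot^[r] b)), ih]

lemma FA_univ_one {q : ℕ} {v : List ℕ → ℕ} (hv : ∀ l, v l < q) (b₀ : Ent h → ℕ) :
    FA (Kk m v) q Finset.univ b₀ (fun _ => 1) = 1 := by
  rw [FA_eq (Kk m v) (Kk_sum m hv) (Kk_dep m v) (W := ∅)
    (fun e _ he => absurd he (Finset.notMem_empty e)) (fun _ _ _ => rfl) b₀ _ Finset.univ
    (Finset.empty_subset _) rfl, FA_empty]

/-- Exclusive rotations. -/
lemma FA_excl {q : ℕ} {v : List ℕ → ℕ} (hv : ∀ l, v l < q) (b₀ : Ent h → ℕ)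
    {Z : (Ent h → ℕ) → Prop}
    (hex : ∀ b, ∀ r s : ℕ, r < s → s < h → ¬ (Z (rot^[r] b) ∧ Z (rot^[s] b))) :
    (h : ℝ) * FA (Kk m v) q Finset.univ b₀ (fun b => ind (Z b)) ≤ 1 := by
  have e1 : (h : ℝ) * FA (Kk m v) q Finset.univ b₀ (fun b => ind (Z b)) =
      ∑ r ∈ Finset.range h, FA (Kk m v) q Finset.univ b₀ (fun b => ind (Z (rot^[r] b))) := by
    have : ∀ r ∈ Finset.range h, FA (Kk m v) q Finset.univ b₀ (fun b => ind (Z (rot^[r] b))) =
        FA (Kk m v) q Finset.univ b₀ (fun b => ind (Z b)) := fun r _ =>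
      FA_rotn m q v b₀ (fun b => ind (Z b)) r
    rw [Finset.sum_congr rfl this]
    simp
  have e2 : ∑ r ∈ Finset.range h, FA (Kk m v) q Finset.univ b₀ (fun b => ind (Z (rot^[r] b))) =
      FA (Kk m v) q Finset.univ b₀ (fun b => ∑ r ∈ Finset.range h, ind (Z (rot^[r] b))) := by
    unfold FA
    rw [Finset.sum_comm]
    refine Finset.sum_congr rfl fun b _ => ?_
    rw [Finset.mul_sum]
  rw [e1, e2, ← FA_univ_one m hv b₀]
  unfold FA
  refine Finset.sum_le_sum fun b _ => ?_
  apply mul_le_mul_of_nonneg_left _ (Finset.prod_nonneg fun e _ => Kk_nonneg m v e _ b)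
  dsimp only
  by_cases hc : ∃ r ∈ Finset.range h, Z (rot^[r] b)
  · obtain ⟨r, hr, hZ⟩ := hc
    rw [Finset.sum_eq_single r]
    · exact ind_le_one _
    · intro s hs hsr
      apply ind_false
      intro hZs
      rw [Finset.mem_range] at hr hs
      rcases Nat.lt_or_gt_of_ne hsr with hlt | hlt
      · exact hex b s r hlt hr ⟨hZs, hZ⟩
      · exact hex b r s hlt hs ⟨hZ, hZs⟩
    · intro hr'
      exact absurd hr hr'
  · rw [Finset.sum_eq_zero]
    · norm_num
    · intro r hr
      exact ind_false fun hZ => hc ⟨r, hr, hZ⟩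

omit [NeZero h] in
lemma le_of_forall_small {a b C : ℝ} (hC : 0 ≤ C) (H : ∀ ε : ℝ, 0 < ε → a ≤ b + C * ε) :
    a ≤ b := by
  by_contra hc
  push Not at hc
  have h1 := H ((a - b) / (2 * (C + 1))) (by
    apply div_pos (by linarith) (by linarith))
  have h2 : C * ((a - b) / (2 * (C + 1))) ≤ (a - b) / 2 := by
    rw [mul_div_assoc', div_le_div_iff₀ (by linarith) (by norm_num)]
    nlinarith
  linarith

/-- **The cyclic lemma.** If `Z` depends only on the labels of the proper intervals of a list of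
length `h`, and the rotations of `Z` are pairwise exclusive on every cyclic array of labels, then
the iterated mean of `Z` is at most `1/h`. -/
theorem cyclic {q : ℕ} (v : List ℕ → ℕ) (hv : ∀ l, v l < q) {Z : (Ent h → ℕ) → Prop}
    (hZ : ∀ b b', (∀ e ∈ Dn h h (h - 1), b e = b' e) → (Z b → Z b'))
    (hex : ∀ b, ∀ r s : ℕ, r < s → s < h → ¬ (Z (rot^[r] b) ∧ Z (rot^[s] b))) :
    (m.iter h).I (fun z => ind (Z (arr v z))) ≤ 1 / h := by
  have hh : 0 < h := Nat.pos_of_ne_zero (NeZero.ne h)
  have hh' : (0 : ℝ) < h := by exact_mod_cast hh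
  apply le_of_forall_small (C := ((h * h + (h - 1) : ℕ) : ℝ)) (by positivity)
  intro ε hε
  obtain ⟨v', q', hv', ⟨π, hπ⟩, hR⟩ := exists_refinement m h q v hv hε
  set Z' : (Ent h → ℕ) → Prop := fun b => Z (fun e => π e.2.val (b e)) with hZ'
  have hex' : ∀ b, ∀ r s : ℕ, r < s → s < h → ¬ (Z' (rot^[r] b) ∧ Z' (rot^[s] b)) := by
    have key : ∀ (r : ℕ) (b : Ent h → ℕ), (fun e => π e.2.val (rot^[r] b e)) =
        rot^[r] (fun e => π e.2.val (b e)) := by
      intro r
      induction r with
      | zero => intro b; rfl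
      | succ r ih =>
        intro b
        rw [Function.iterate_succ_apply, ih (rot b), Function.iterate_succ_apply]
        rfl
    intro b r s hrs hs hc
    simp only [hZ', key] at hc
    exact hex _ r s hrs hs hc
  have hdep : DepOn (Dn h h (h - 1)) (fun b : Ent h → ℕ => ind (Z' b)) := by
    intro b b' hb
    have h1 : Z' b ↔ Z' b' := by
      constructor
      · exact hZ _ _ fun e he => by rw [hb e he]
      · exact hZ _ _ fun e he => by rw [hb e he]
    simp only [h1]
  have e1 : (m.iter h).I (fun z => ind (Z (arr v z))) =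
      (m.iter h).I (fun z => ind (Z' (arr v' z))) := by
    apply m.iter_congr h
    intro z hz
    have key : ∀ e ∈ Dn h h (h - 1), arr v z e = π e.2.val (arr v' z e) := by
      intro e he
      rw [mem_Dn] at he
      unfold arr
      have hlen : ((z.drop e.1.val).take e.2.val).length = e.2.val := by
        rw [List.length_take, List.length_drop, hz]
        omega
      have := hπ ((z.drop e.1.val).take e.2.val) (by rw [hlen]; exact e.2.isLt)
      rw [hlen] at this
      exact this
    have h1 : Z (arr v z) ↔ Z' (arr v' z) := by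
      constructor
      · exact hZ _ _ fun e he => key e he
      · exact hZ _ _ fun e he => (key e he).symm
    simp only [h1]
  rw [e1]
  have h1 := linear m hv' hε.le hR (fun _ => 0) h (h - 1) le_rfl (by omega) (by omega)
    (fun b => ind (Z' b)) (fun b => abs_ind_le _) hdep
  have h2 := FA_eq (Kk m v') (Kk_sum m hv') (Kk_dep m v') (W := Dn h h (h - 1))
    (fun e e' he hl => window_closed e e' he hl) hdep (fun _ => 0) _ Finset.univ
    (Finset.subset_univ _) rfl
  have h3 := FA_excl m hv' (fun _ => 0) hex'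
  rw [h2] at h3
  have h4 : FA (Kk m v') q' (Dn h h (h - 1)) (fun _ => 0) (fun b => ind (Z' b)) ≤ 1 / h := by
    rw [le_div_iff₀ hh']
    linarith
  have h5 := (abs_le.mp h1).2
  linarith

end Pool.Agent.V11151.CMean
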