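import Pool.Agent.V11151.CMean

/-! Conditional expectations on finite partitions and near-maximal energy. -/

namespace Pool.Agent.V11151.CMean

open scoped Classical in
/-- Indicator of a proposition. -/
noncomputable def ind (p : Prop) : ℝ := if p then 1 else 0

lemma ind_true {p : Prop} (h : p) : ind p = 1 := by unfold ind; rw [if_pos h]

lemma ind_false {p : Prop} (h : ¬ p) : ind p = 0 := by unfold ind; rw [if_neg h]

lemma ind_nonneg (p : Prop) : 0 ≤ ind p := by
  by_cases h : p
  · rw [ind_true h]; norm_num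
  · rw [ind_false h]

lemma ind_le_one (p : Prop) : ind p ≤ 1 := by
  by_cases h : p
  · rw [ind_true h]
  · rw [ind_false h]; norm_num

lemma abs_ind_le (p : Prop) : |ind p| ≤ 1 := by
  rw [abs_of_nonneg (ind_nonneg p)]; exact ind_le_one p

lemma bdd_ind {X : Type*} (p : X → Prop) : Bdd (fun x => ind (p x)) :=
  ⟨1, fun x => abs_ind_le (p x)⟩

/-- Any function of a function with values in a finite set is bounded. -/
lemma bdd_of_finset {X Y : Type*} {c : X → Y} {Ys : Finset Y} (hc : ∀ x, c x ∈ Ys)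
    (φ : Y → ℝ) : Bdd (fun x => φ (c x)) := by
  refine ⟨∑ y ∈ Ys, |φ y|, fun x => ?_⟩
  exact Finset.single_le_sum (f := fun y => |φ y|) (fun y _ => abs_nonneg _) (hc x)

section condE

variable {X Y : Type*} (m : Mean X) (c : X → Y) (f : X → ℝ)

/-- Conditional expectation of `f` on the cell `c = y`. -/
noncomputable def condE (y : Y) : ℝ :=
  m.I (fun x => f x * ind (c x = y)) / m.I (fun x => ind (c x = y))

variable {f}

lemma prob_nonneg (y : Y) : 0 ≤ m.I (fun x => ind (c x = y)) :=
  m.nonneg (bdd_ind _) fun _ => ind_nonneg _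

lemma null_mul (hf : Bdd f) {y : Y} (h0 : m.I (fun x => ind (c x = y)) = 0) :
    m.I (fun x => f x * ind (c x = y)) = 0 := by
  obtain ⟨C, hC⟩ := hf
  have h1 : |m.I (fun x => f x * ind (c x = y))| ≤ C * m.I (fun x => ind (c x = y)) := by
    rw [← m.smul C (bdd_ind _)]
    refine (m.abs_le ((Bdd.mul ⟨C, hC⟩ (bdd_ind _)))).trans
      (m.mono (Bdd.mul ⟨C, hC⟩ (bdd_ind _)).abs ((Bdd.const C).mul (bdd_ind _)) fun x => ?_)
    rw [abs_mul, abs_of_nonneg (ind_nonneg _)]
    exact mul_le_mul_of_nonneg_right (hC x) (ind_nonneg _)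
  rw [h0, mul_zero] at h1
  exact abs_nonpos_iff.mp h1

lemma condE_mul (hf : Bdd f) (y : Y) :
    condE m c f y * m.I (fun x => ind (c x = y)) = m.I (fun x => f x * ind (c x = y)) := by
  unfold condE
  by_cases h : m.I (fun x => ind (c x = y)) = 0
  · rw [h, mul_zero, null_mul m c hf h]
  · rw [div_mul_cancel₀ _ h]

variable {Ys : Finset Y}

/-- Decomposition over the cells. -/
lemma decomp (hc : ∀ x, c x ∈ Ys) (hf : Bdd f) (φ : Y → ℝ) :
    m.I (fun x => f x * φ (c x)) = ∑ y ∈ Ys, φ y * m.I (fun x => f x * ind (c x = y)) := by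
  have e : (fun x => f x * φ (c x)) = fun x => ∑ y ∈ Ys, φ y * (f x * ind (c x = y)) := by
    funext x
    rw [Finset.sum_eq_single (c x)]
    · rw [ind_true rfl]; ring
    · intro y _ hy
      rw [ind_false (fun h => hy h.symm)]; ring
    · intro h; exact absurd (hc x) h
  rw [e, m.sum Ys fun y _ => (Bdd.const (φ y)).mul (hf.mul (bdd_ind _))]
  refine Finset.sum_congr rfl fun y _ => ?_
  rw [m.smul _ (hf.mul (bdd_ind _))]

/-- The defining property of the conditional expectation. -/
lemma condE_integral (hc : ∀ x, c x ∈ Ys) (hf : Bdd f) (φ : Y → ℝ) :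
    m.I (fun x => condE m c f (c x) * φ (c x)) = m.I (fun x => f x * φ (c x)) := by
  rw [decomp m c hc hf φ]
  have h1 := decomp m c hc (Bdd.const 1) (fun y => condE m c f y * φ y)
  simp only [one_mul] at h1
  rw [h1]
  refine Finset.sum_congr rfl fun y _ => ?_
  rw [mul_comm (condE m c f y), mul_assoc, condE_mul m c hf]

end condE

section Energy

variable {X Y Y' : Type*} (m : Mean X) {c : X → Y} {c' : X → Y'} {f : X → ℝ}
  {Ys : Finset Y} {Ys' : Finset Y'}

/-- `g` depends only on `c` (on the set `P` that carries the mean). -/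
lemma exists_factor {P : X → Prop} {g : X → ℝ}
    (h : ∀ x x', P x → P x' → c x = c x' → g x = g x') :
    ∃ φ : Y → ℝ, ∀ x, P x → g x = φ (c x) := by
  classical
  refine ⟨fun y => if hy : ∃ x, P x ∧ c x = y then g hy.choose else 0, fun x hx => ?_⟩
  have hy : ∃ x', P x' ∧ c x' = c x := ⟨x, hx, rfl⟩
  simp only [dif_pos hy]
  exact h _ _ hx hy.choose_spec.1 hy.choose_spec.2.symm

/-- Energy. -/
noncomputable def energy (c : X → Y) (f : X → ℝ) : ℝ := m.I (fun x => condE m c f (c x) ^ 2)

lemma condE_inner (hc : ∀ x, c x ∈ Ys) (hf : Bdd f) :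
    m.I (fun x => f x * condE m c f (c x)) = energy m c f := by
  rw [← condE_integral m c hc hf]
  unfold energy
  congr 1
  funext x
  ring

lemma energy_le (hc : ∀ x, c x ∈ Ys) (hf : Bdd f) : energy m c f ≤ m.I (fun x => f x ^ 2) := by
  have hb := bdd_of_finset hc (condE m c f)
  have h1 : 0 ≤ m.I (fun x => (f x - condE m c f (c x)) ^ 2) :=
    m.nonneg (hf.sub hb).sq fun _ => sq_nonneg _
  have h2 : m.I (fun x => (f x - condE m c f (c x)) ^ 2) =
      m.I (fun x => f x ^ 2) - 2 * m.I (fun x => f x * condE m c f (c x)) + energy m c f := by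
    have e : (fun x => (f x - condE m c f (c x)) ^ 2) = fun x =>
        (f x ^ 2 - 2 * (f x * condE m c f (c x))) + condE m c f (c x) ^ 2 := by
      funext x; ring
    rw [e, m.add (hf.sq.sub ((Bdd.const 2).mul (hf.mul hb))) hb.sq,
      m.sub hf.sq ((Bdd.const 2).mul (hf.mul hb)), m.smul _ (hf.mul hb)]
    rfl
  rw [condE_inner m hc hf] at h2
  linarith

/-- Pythagoras. -/
lemma pythagoras (hc : ∀ x, c x ∈ Ys) (hc' : ∀ x, c' x ∈ Ys') (hf : Bdd f) (φ : Y' → ℝ)
    (hφ : m.I (fun x => condE m c' f (c' x) * condE m c f (c x)) =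
      m.I (fun x => condE m c' f (c' x) * φ (c' x)))
    (hφ' : m.I (fun x => f x * φ (c' x)) = m.I (fun x => f x * condE m c f (c x))) :
    m.I (fun x => (condE m c' f (c' x) - condE m c f (c x)) ^ 2) =
      energy m c' f - energy m c f := by
  have hb := bdd_of_finset hc (condE m c f)
  have hb' := bdd_of_finset hc' (condE m c' f)
  have e : (fun x => (condE m c' f (c' x) - condE m c f (c x)) ^ 2) = fun x =>
      (condE m c' f (c' x) ^ 2 - 2 * (condE m c' f (c' x) * condE m c f (c x))) +
        condE m c f (c x) ^ 2 := by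
    funext x; ring
  rw [e, m.add (hb'.sq.sub ((Bdd.const 2).mul (hb'.mul hb))) hb.sq,
    m.sub hb'.sq ((Bdd.const 2).mul (hb'.mul hb)), m.smul _ (hb'.mul hb), hφ,
    condE_integral m c' hc' hf, hφ', condE_inner m hc hf]
  unfold energy
  ring

end Energy

end Pool.Agent.V11151.CMean
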