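import Pool.Agent.V11151.CCyc

/-! The linear window: the iterated mean is close to the product of kernels. -/

namespace Pool.Agent.V11151.CMean

variable (m : Mean ℕ) {h : ℕ} [NeZero h]

/-- The cell of the interval `(i, k)` read off from an array. -/
def acell (v0 : ℕ) (b : Ent h → ℕ) (i k : ℕ) : Fin h → ℕ := fun j =>
  if j.val < k then b (Fin.ofNat h (i + j.val), Fin.ofNat h (k - j.val)) else v0

/-- The kernel at an entry. -/
noncomputable def Kk (v : List ℕ → ℕ) (e : Ent h) (a : ℕ) (b : Ent h → ℕ) : ℝ :=
  if e.2.val = 0 then ind (a = 0) else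
    ker m h e.2.val v a (acell (v []) b e.1.val (e.2.val - 1),
      acell (v []) b (e.1.val + 1) (e.2.val - 1))

/-- The array of labels of a list. -/
def arr (v : List ℕ → ℕ) (z : List ℕ) : Ent h → ℕ := fun e => v ((z.drop e.1.val).take e.2.val)

lemma Kk_nonneg (v : List ℕ → ℕ) (e : Ent h) (a : ℕ) (b : Ent h → ℕ) : 0 ≤ Kk m v e a b := by
  unfold Kk
  split_ifs
  · exact ind_nonneg _
  · exact ker_nonneg _ _ _ _ _ _

lemma Kk_sum {q : ℕ} {v : List ℕ → ℕ} (hv : ∀ l, v l < q) (e : Ent h) (b : Ent h → ℕ) :
    ∑ a ∈ Finset.range q, Kk m v e a b = 1 := by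
  unfold Kk
  split_ifs with h0
  · have hq : 0 < q := lt_of_le_of_lt (Nat.zero_le _) (hv [])
    rw [Finset.sum_eq_single 0]
    · exact ind_true rfl
    · intro b _ hb
      exact ind_false hb
    · intro h
      exact absurd (Finset.mem_range.mpr hq) h
  · exact ker_sum m hv _

lemma Kk_dep (v : List ℕ → ℕ) (e : Ent h) (a : ℕ) (b b' : Ent h → ℕ)
    (H : ∀ e', low e' e → b e' = b' e') : Kk m v e a b = Kk m v e a b' := by
  have hh : 0 < h := Nat.pos_of_ne_zero (NeZero.ne h)
  unfold Kk
  split_ifs with h0
  · rfl
  · have hk := e.2.isLt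
    have e1 : acell (v []) b e.1.val (e.2.val - 1) = acell (v []) b' e.1.val (e.2.val - 1) := by
      funext j
      unfold acell
      split_ifs with hj
      · apply H
        unfold low
        simp only [Fin.val_ofNat]
        rw [Nat.mod_eq_of_lt (show e.2.val - 1 - j.val < h by omega)]
        refine ⟨by omega, by omega, Or.inr ?_⟩
        rw [add_assoc, Nat.mod_add_mod]
        congr 1
        omega
      · rfl
    have e2 : acell (v []) b (e.1.val + 1) (e.2.val - 1) =
        acell (v []) b' (e.1.val + 1) (e.2.val - 1) := by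
      funext j
      unfold acell
      split_ifs with hj
      · apply H
        unfold low
        simp only [Fin.val_ofNat]
        rw [Nat.mod_eq_of_lt (show e.2.val - 1 - j.val < h by omega)]
        refine ⟨by omega, by omega, Or.inl ?_⟩
        rw [Nat.mod_add_mod]
        congr 1
        omega
      · rfl
    rw [e1, e2]

/-- The cells of the array of a list. -/
lemma acell_arr (v : List ℕ → ℕ) (z : List ℕ) {i k : ℕ} (hik : i + k ≤ h) (hk : k < h) :
    acell (v []) (arr (h := h) v z) i k = cell h v ((z.drop i).take k) := by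
  funext j
  unfold acell arr cell
  split_ifs with hj
  · simp only [Fin.val_ofNat]
    rw [Nat.mod_eq_of_lt (show i + j.val < h by omega),
      Nat.mod_eq_of_lt (show k - j.val < h by omega), List.drop_take, List.drop_drop]
  · have : ((z.drop i).take k).drop j.val = [] := by
      apply List.drop_eq_nil_of_le
      rw [List.length_take]
      omega
    rw [this]

/-- Window entries ending before `n`, or ending at `n` with length at most `k`. -/
def Dn (h n k : ℕ) : Finset (Ent h) := Finset.univ.filter fun e =>
  1 ≤ e.2.val ∧ (e.1.val + e.2.val < n ∨ (e.1.val + e.2.val = n ∧ e.2.val ≤ k))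

lemma mem_Dn {n k : ℕ} {e : Ent h} : e ∈ Dn h n k ↔
    1 ≤ e.2.val ∧ (e.1.val + e.2.val < n ∨ (e.1.val + e.2.val = n ∧ e.2.val ≤ k)) := by
  unfold Dn
  rw [Finset.mem_filter]
  simp

/-- Removing one label: the core estimate. -/
lemma remove {n k q : ℕ} (hn : n + 1 ≤ h) (hkn : k ≤ n) (hk : k + 1 < h) {v : List ℕ → ℕ}
    (hv : ∀ l, v l < q) {ε : ℝ} (hR : Rob m h (k + 1) (lab v) ε v)
    {G : (Ent h → ℕ) → ℝ} (hG1 : ∀ b, |G b| ≤ 1) (hG : DepOn (Dn h (n + 1) (k + 1)) G) :
    |(m.iter (n + 1)).I (fun z => G (arr v z)) - (m.iter (n + 1)).I (fun z =>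
      Se (Kk m v) q (Fin.ofNat h (n - k), Fin.ofNat h (k + 1)) G (arr v z))| ≤ ε := by
  classical
  set e : Ent h := (Fin.ofNat h (n - k), Fin.ofNat h (k + 1)) with he
  have he1 : e.1.val = n - k := by
    rw [he]; simp only [Fin.val_ofNat]; exact Nat.mod_eq_of_lt (by omega)
  have he2 : e.2.val = k + 1 := by
    rw [he]; simp only [Fin.val_ofNat]; exact Nat.mod_eq_of_lt hk
  have hSe1 : ∀ b, |Se (Kk m v) q e G b| ≤ 1 := by
    intro b
    unfold Se
    calc |∑ a ∈ Finset.range q, Kk m v e a b * G (Function.update b e a)|
        ≤ ∑ a ∈ Finset.range q, |Kk m v e a b * G (Function.update b e a)| :=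
          Finset.abs_sum_le_sum_abs _ _
      _ ≤ ∑ a ∈ Finset.range q, Kk m v e a b := by
          refine Finset.sum_le_sum fun a _ => ?_
          rw [abs_mul, abs_of_nonneg (Kk_nonneg m v e a b)]
          calc _ ≤ Kk m v e a b * 1 :=
                mul_le_mul_of_nonneg_left (hG1 _) (Kk_nonneg m v e a b)
            _ = _ := mul_one _
      _ = 1 := Kk_sum m hv e b
  have hb1 : Bdd (fun z : List ℕ => G (arr v z)) := ⟨1, fun z => hG1 _⟩
  have hb2 : Bdd (fun z : List ℕ => Se (Kk m v) q e G (arr v z)) := ⟨1, fun z => hSe1 _⟩
  rw [← (m.iter (n + 1)).sub hb1 hb2, m.iter_succ']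
  -- the bound for a fixed prefix
  have hdb : ∀ a ∈ Finset.range q, ∀ s, Bdd (fun l => |dis m h k v a s l|) := fun a ha s =>
    Bdd.abs ⟨1, fun l => m.abs_le_const fun w =>
      dis_bdd_aux m hv a (Finset.mem_range.mp ha) s l w⟩
  have main : ∀ l : List ℕ, l.length = n →
      |m.I (fun w => G (arr v (l ++ [w])) - Se (Kk m v) q e G (arr v (l ++ [w])))| ≤
      (fun l => ∑ a ∈ Finset.range q, ∑ s ∈ cellSet h q, |dis m h k v a s l|)
        (l.drop (n - k)) := by
    intro l hl
    set L := l.drop (n - k) with hL
    have hLk : L.length = k := by rw [hL, List.length_drop]; omega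
    -- the array with prescribed last diagonal
    let β : ℕ → (Fin h → ℕ) → Ent h → ℕ := fun a s f =>
      if f.1.val + f.2.val = n + 1 then
        (if f.2.val = k + 1 then a else s (Fin.ofNat h (k - f.2.val)))
      else arr v l f
    have hdrop : ∀ w, (l ++ [w]).drop (n - k) = L ++ [w] := by
      intro w
      rw [List.drop_append_of_le_length (by omega)]
    have harr : ∀ (w : ℕ) (a : ℕ) (f : Ent h), f ∈ Dn h (n + 1) (k + 1) → f ≠ e →
        arr v (l ++ [w]) f = β a (cell h v (L ++ [w]).tail) f := by
      intro w a f hf hfe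
      rw [mem_Dn] at hf
      simp only [β]
      have hf1 := f.1.isLt
      have hf2 := f.2.isLt
      by_cases hd : f.1.val + f.2.val = n + 1
      · rw [if_pos hd]
        by_cases hk2 : f.2.val = k + 1
        · exfalso
          apply hfe
          apply Prod.ext
          · apply Fin.ext; omega
          · apply Fin.ext; omega
        · rw [if_neg hk2]
          unfold arr cell
          simp only [Fin.val_ofNat]
          rw [Nat.mod_eq_of_lt (show k - f.2.val < h by omega)]
          congr 1
          have e1 : (L ++ [w]).tail.drop (k - f.2.val) = (l ++ [w]).drop f.1.val := by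
            rw [← hdrop w, ← List.drop_one, List.drop_drop, List.drop_drop]
            congr 1
            omega
          rw [e1]
          apply List.take_of_length_le
          rw [List.length_drop, List.length_append, hl]
          simp only [List.length_cons, List.length_nil]
          omega
      · rw [if_neg hd]
        unfold arr
        congr 1
        rw [List.drop_append_of_le_length (by omega), List.take_append_of_le_length
          (by rw [List.length_drop]; omega)]
    have hGa : ∀ w, G (arr v (l ++ [w])) =
        G (β (v (L ++ [w])) (cell h v (L ++ [w]).tail)) := by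
      intro w
      apply hG
      intro f hf
      by_cases hfe : f = e
      · rw [hfe]
        simp only [β]
        rw [if_pos (by omega), if_pos he2]
        unfold arr
        rw [he1, he2, hdrop]
        congr 1
        apply List.take_of_length_le
        rw [List.length_append, hLk]
        simp
      · exact harr w _ f hf hfe
    have hGu : ∀ w a, G (Function.update (arr v (l ++ [w])) e a) =
        G (β a (cell h v (L ++ [w]).tail)) := by
      intro w a
      apply hG
      intro f hf
      by_cases hfe : f = e
      · rw [hfe, Function.update_self]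
        simp only [β]
        rw [if_pos (by omega), if_pos he2]
      · rw [Function.update_of_ne hfe]
        exact harr w a f hf hfe
    have hKe : ∀ w a, Kk m v e a (arr v (l ++ [w])) =
        ker m h (k + 1) v a (cell h v L, cell h v (L ++ [w]).tail) := by
      intro w a
      unfold Kk
      rw [if_neg (by omega), he1, he2]
      simp only [Nat.add_sub_cancel]
      rw [acell_arr v _ (by omega) (by omega), acell_arr v _ (by omega) (by omega)]
      have e1 : ((l ++ [w]).drop (n - k)).take k = L := by
        rw [hdrop, List.take_append_of_le_length (by omega), List.take_of_length_le (by omega)]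
      have e2 : ((l ++ [w]).drop (n - k + 1)).take k = (L ++ [w]).tail := by
        rw [← List.drop_drop, hdrop, List.drop_one]
        apply List.take_of_length_le
        rw [List.length_tail, List.length_append, hLk]
        simp
      rw [e1, e2]
    have hexp : ∀ w, G (arr v (l ++ [w])) - Se (Kk m v) q e G (arr v (l ++ [w])) =
        ∑ a ∈ Finset.range q, ∑ s ∈ cellSet h q, G (β a s) *
          ((lab v a (L ++ [w]) - ker m h (k + 1) v a (cell h v L, s)) *
            ind (cell h v (L ++ [w]).tail = s)) := by
      intro w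
      have e1 : ∀ a ∈ Finset.range q, ∑ s ∈ cellSet h q, G (β a s) *
          ((lab v a (L ++ [w]) - ker m h (k + 1) v a (cell h v L, s)) *
            ind (cell h v (L ++ [w]).tail = s)) =
          G (β a (cell h v (L ++ [w]).tail)) * lab v a (L ++ [w]) -
          Kk m v e a (arr v (l ++ [w])) * G (Function.update (arr v (l ++ [w])) e a) := by
        intro a _
        rw [Finset.sum_eq_single (cell h v (L ++ [w]).tail)]
        · rw [ind_true rfl, hKe, hGu]; ring
        · intro s _ hs
          rw [ind_false fun h => hs h.symm]; ring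
        · intro hc
          exact absurd (cell_mem hv _) hc
      rw [Finset.sum_congr rfl e1, Finset.sum_sub_distrib]
      congr 1
      rw [hGa, Finset.sum_eq_single (v (L ++ [w]))]
      · unfold lab
        rw [ind_true rfl, mul_one]
      · intro a _ ha
        unfold lab
        rw [ind_false fun h => ha h.symm, mul_zero]
      · intro hc
        exact absurd (Finset.mem_range.mpr (hv _)) hc
    have hbt : ∀ a ∈ Finset.range q, ∀ s ∈ cellSet h q, Bdd (fun w => G (β a s) *
          ((lab v a (L ++ [w]) - ker m h (k + 1) v a (cell h v L, s)) *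
            ind (cell h v (L ++ [w]).tail = s))) := fun a ha s _ =>
      (Bdd.const _).mul ⟨1, fun w => dis_bdd_aux m hv a (Finset.mem_range.mp ha) s L w⟩
    have e3 : (fun w => G (arr v (l ++ [w])) - Se (Kk m v) q e G (arr v (l ++ [w]))) =
        fun w => ∑ a ∈ Finset.range q, ∑ s ∈ cellSet h q, G (β a s) *
          ((lab v a (L ++ [w]) - ker m h (k + 1) v a (cell h v L, s)) *
            ind (cell h v (L ++ [w]).tail = s)) := funext hexp
    rw [e3, m.sum _ fun a ha => Bdd.sum _ fun s hs => hbt a ha s hs]
    refine (Finset.abs_sum_le_sum_abs _ _).trans (Finset.sum_le_sum fun a ha => ?_)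
    rw [m.sum _ fun s hs => hbt a ha s hs]
    refine (Finset.abs_sum_le_sum_abs _ _).trans (Finset.sum_le_sum fun s hs => ?_)
    rw [m.smul _ ⟨1, fun w => dis_bdd_aux m hv a (Finset.mem_range.mp ha) s L w⟩, abs_mul]
    calc |G (β a s)| * _ ≤ 1 * _ := mul_le_mul_of_nonneg_right (hG1 _) (abs_nonneg _)
      _ = |dis m h k v a s L| := by rw [one_mul]; rfl
  have hbig : Bdd (fun l => m.I (fun w => G (arr v (l ++ [w])) -
      Se (Kk m v) q e G (arr v (l ++ [w])))) := by
    refine ⟨2, fun l => m.abs_le_const fun w => ?_⟩
    have h1 := abs_sub (G (arr v (l ++ [w]))) (Se (Kk m v) q e G (arr v (l ++ [w])))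
    have h2 := hG1 (arr v (l ++ [w]))
    have h3 := hSe1 (arr v (l ++ [w]))
    linarith
  have hdist : Bdd (fun l : List ℕ => ∑ a ∈ Finset.range q, ∑ s ∈ cellSet h q,
      |dis m h k v a s l|) := Bdd.sum _ fun a ha => Bdd.sum _ fun s _ => hdb a ha s
  refine ((m.iter n).abs_le hbig).trans ?_
  refine (m.iter_mono' n hbig.abs (hdist.comp (fun l : List ℕ => l.drop (n - k))) main).trans ?_
  have := m.iter_drop (n - k) k (fun l => ∑ a ∈ Finset.range q, ∑ s ∈ cellSet h q,
      |dis m h k v a s l|)
  rw [show n - k + k = n by omega] at this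
  rw [this]
  exact astep m hk hv hR

end Pool.Agent.V11151.CMean
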