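import Mathlib

/-! Finitely additive means and iterated means on lists. -/

namespace Pool.Agent.V11151.CMean

/-- Bounded real functions. -/
def Bdd {X : Type*} (f : X → ℝ) : Prop := ∃ C : ℝ, ∀ x, |f x| ≤ C

namespace Bdd

variable {X Y : Type*} {f g : X → ℝ}

lemma const (c : ℝ) : Bdd (fun _ : X => c) := ⟨|c|, fun _ => le_rfl⟩

lemma add (hf : Bdd f) (hg : Bdd g) : Bdd (fun x => f x + g x) := by
  obtain ⟨C, hC⟩ := hf
  obtain ⟨D, hD⟩ := hg
  exact ⟨C + D, fun x => (abs_add_le _ _).trans (add_le_add (hC x) (hD x))⟩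

lemma neg (hf : Bdd f) : Bdd (fun x => - f x) := by
  obtain ⟨C, hC⟩ := hf
  exact ⟨C, fun x => by rw [abs_neg]; exact hC x⟩

lemma sub (hf : Bdd f) (hg : Bdd g) : Bdd (fun x => f x - g x) := by
  simpa only [sub_eq_add_neg] using hf.add hg.neg

lemma mul (hf : Bdd f) (hg : Bdd g) : Bdd (fun x => f x * g x) := by
  obtain ⟨C, hC⟩ := hf
  obtain ⟨D, hD⟩ := hg
  refine ⟨C * D, fun x => ?_⟩
  rw [abs_mul]
  exact mul_le_mul (hC x) (hD x) (abs_nonneg _) ((abs_nonneg _).trans (hC x))

lemma abs (hf : Bdd f) : Bdd (fun x => |f x|) := by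
  obtain ⟨C, hC⟩ := hf
  exact ⟨C, fun x => by rw [abs_abs]; exact hC x⟩

lemma sq (hf : Bdd f) : Bdd (fun x => f x ^ 2) := by
  simpa only [_root_.sq] using hf.mul hf

lemma comp (hf : Bdd f) (e : Y → X) : Bdd (fun y => f (e y)) := by
  obtain ⟨C, hC⟩ := hf
  exact ⟨C, fun y => hC _⟩

lemma sum {ι : Type*} (s : Finset ι) {F : ι → X → ℝ} (h : ∀ i ∈ s, Bdd (F i)) :
    Bdd (fun x => ∑ i ∈ s, F i x) := by
  classical
  induction s using Finset.induction_on with
  | empty => simpa using const (X := X) 0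
  | insert a s ha ih =>
    simp only [Finset.sum_insert ha]
    exact (h a (Finset.mem_insert_self _ _)).add
      (ih fun i hi => h i (Finset.mem_insert_of_mem hi))

lemma ite (p : X → Prop) [DecidablePred p] : Bdd (fun x => if p x then (1 : ℝ) else 0) :=
  ⟨1, fun x => by dsimp only; split_ifs <;> simp⟩

lemma of_le {C : ℝ} (h : ∀ x, |f x| ≤ C) : Bdd f := ⟨C, h⟩

end Bdd

/-- A mean (finitely additive probability), as a functional on bounded functions. -/
structure Mean (X : Type*) where
  /-- the functional -/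
  I : (X → ℝ) → ℝ
  add : ∀ {f g : X → ℝ}, Bdd f → Bdd g → I (fun x => f x + g x) = I f + I g
  smul : ∀ (c : ℝ) {f : X → ℝ}, Bdd f → I (fun x => c * f x) = c * I f
  mono : ∀ {f g : X → ℝ}, Bdd f → Bdd g → (∀ x, f x ≤ g x) → I f ≤ I g
  one : I (fun _ => 1) = 1

namespace Mean

variable {X Y : Type*} (m : Mean X) {f g : X → ℝ}

lemma const (c : ℝ) : m.I (fun _ => c) = c := by
  have := m.smul c (Bdd.const (X := X) 1)
  simpa [m.one] using this

lemma neg (hf : Bdd f) : m.I (fun x => - f x) = - m.I f := by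
  have := m.smul (-1) hf
  simpa using this

lemma sub (hf : Bdd f) (hg : Bdd g) : m.I (fun x => f x - g x) = m.I f - m.I g := by
  have := m.add hf hg.neg
  rw [m.neg hg] at this
  simpa only [sub_eq_add_neg] using this

lemma abs_le (hf : Bdd f) : |m.I f| ≤ m.I (fun x => |f x|) := by
  rw [abs_le']
  refine ⟨m.mono hf hf.abs fun x => le_abs_self _, ?_⟩
  rw [← m.neg hf]
  exact m.mono hf.neg hf.abs fun x => neg_le_abs _

lemma nonneg (hf : Bdd f) (h : ∀ x, 0 ≤ f x) : 0 ≤ m.I f := by
  have := m.mono (Bdd.const 0) hf h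
  rwa [m.const] at this

lemma le_const (hf : Bdd f) {c : ℝ} (h : ∀ x, f x ≤ c) : m.I f ≤ c := by
  have := m.mono hf (Bdd.const c) h
  rwa [m.const] at this

lemma abs_le_const {c : ℝ} (h : ∀ x, |f x| ≤ c) : |m.I f| ≤ c :=
  (m.abs_le ⟨c, h⟩).trans (m.le_const (Bdd.abs ⟨c, h⟩) h)

lemma sum {ι : Type*} (s : Finset ι) {F : ι → X → ℝ} (h : ∀ i ∈ s, Bdd (F i)) :
    m.I (fun x => ∑ i ∈ s, F i x) = ∑ i ∈ s, m.I (F i) := by
  classical
  induction s using Finset.induction_on with
  | empty => simpa using m.const 0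
  | insert a s ha ih =>
    simp only [Finset.sum_insert ha]
    rw [m.add (h a (Finset.mem_insert_self _ _))
      (Bdd.sum s fun i hi => h i (Finset.mem_insert_of_mem hi)),
      ih fun i hi => h i (Finset.mem_insert_of_mem hi)]

/-- Cauchy-Schwarz. -/
lemma sq_le (hf : Bdd f) (hg : Bdd g) :
    m.I (fun x => f x * g x) ^ 2 ≤ m.I (fun x => f x ^ 2) * m.I (fun x => g x ^ 2) := by
  set A := m.I (fun x => f x ^ 2) with hA
  set B := m.I (fun x => g x ^ 2) with hB
  set C := m.I (fun x => f x * g x) with hC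
  have key : ∀ t : ℝ, 0 ≤ A * (t * t) + (2 * C) * t + B := by
    intro t
    have h1 : 0 ≤ m.I (fun x => (t * f x + g x) ^ 2) :=
      m.nonneg (((Bdd.const t).mul hf).add hg).sq fun x => sq_nonneg _
    have h2 : m.I (fun x => (t * f x + g x) ^ 2) = A * (t * t) + (2 * C) * t + B := by
      have e : (fun x => (t * f x + g x) ^ 2) =
          fun x => ((t * t) * (f x ^ 2) + (2 * t) * (f x * g x)) + g x ^ 2 := by
        funext x; ring
      rw [e, m.add (((Bdd.const _).mul hf.sq).add ((Bdd.const _).mul (hf.mul hg))) hg.sq,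
        m.add ((Bdd.const _).mul hf.sq) ((Bdd.const _).mul (hf.mul hg)),
        m.smul _ hf.sq, m.smul _ (hf.mul hg)]
      ring
    rw [← h2]; exact h1
  have := discrim_le_zero key
  rw [discrim] at this
  nlinarith

/-- Product (iterated) mean. -/
noncomputable def prod (m : Mean X) (n : Mean Y) : Mean (X × Y) where
  I f := m.I (fun x => n.I (fun y => f (x, y)))
  add := by
    intro f g hf hg
    have hb : ∀ {u : X × Y → ℝ}, Bdd u → Bdd (fun x => n.I (fun y => u (x, y))) := by
      rintro u ⟨C, hC⟩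
      exact ⟨C, fun x => n.abs_le_const fun y => hC (x, y)⟩
    rw [← m.add (hb hf) (hb hg)]
    congr 1
    funext x
    exact n.add (hf.comp fun y => (x, y)) (hg.comp fun y => (x, y))
  smul := by
    intro c f hf
    have hb : ∀ {u : X × Y → ℝ}, Bdd u → Bdd (fun x => n.I (fun y => u (x, y))) := by
      rintro u ⟨C, hC⟩
      exact ⟨C, fun x => n.abs_le_const fun y => hC (x, y)⟩
    rw [← m.smul c (hb hf)]
    congr 1
    funext x
    exact n.smul c (hf.comp fun y => (x, y))
  mono := by
    intro f g hf hg h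
    have hb : ∀ {u : X × Y → ℝ}, Bdd u → Bdd (fun x => n.I (fun y => u (x, y))) := by
      rintro u ⟨C, hC⟩
      exact ⟨C, fun x => n.abs_le_const fun y => hC (x, y)⟩
    exact m.mono (hb hf) (hb hg) fun x =>
      n.mono (hf.comp fun y => (x, y)) (hg.comp fun y => (x, y)) fun y => h (x, y)
  one := by
    simp only [n.one]
    exact m.one

/-- Image of a mean. -/
def map (m : Mean X) (e : X → Y) : Mean Y where
  I f := m.I (fun x => f (e x))
  add hf hg := m.add (hf.comp e) (hg.comp e)
  smul c _ hf := m.smul c (hf.comp e)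
  mono hf hg h := m.mono (hf.comp e) (hg.comp e) fun x => h (e x)
  one := m.one

/-- Point mass. -/
def dirac (x : X) : Mean X where
  I f := f x
  add _ _ := rfl
  smul _ _ _ := rfl
  mono _ _ h := h x
  one := rfl

/-- The iterated mean on lists of length `k` (first letter outermost). -/
noncomputable def iter (m : Mean X) : ℕ → Mean (List X)
  | 0 => dirac []
  | k + 1 => (m.prod (iter m k)).map fun p => p.1 :: p.2

lemma iter_zero (f : List X → ℝ) : (m.iter 0).I f = f [] := rfl

lemma iter_succ (k : ℕ) (f : List X → ℝ) :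
    (m.iter (k + 1)).I f = m.I (fun z => (m.iter k).I (fun l => f (z :: l))) := rfl

/-- Last letter innermost. -/
lemma iter_succ' (k : ℕ) : ∀ f : List X → ℝ,
    (m.iter (k + 1)).I f = (m.iter k).I (fun l => m.I (fun z => f (l ++ [z]))) := by
  induction k with
  | zero => intro f; rfl
  | succ k ih =>
    intro f
    rw [iter_succ]
    have : (fun z => (m.iter (k + 1)).I (fun l => f (z :: l))) =
        fun z => (m.iter k).I (fun l => m.I (fun w => f (z :: (l ++ [w])))) := by
      funext z; rw [ih]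
    rw [this]
    rfl

/-- Only lists of length `k` matter. -/
lemma iter_congr (k : ℕ) : ∀ {f g : List X → ℝ}, (∀ l, l.length = k → f l = g l) →
    (m.iter k).I f = (m.iter k).I g := by
  induction k with
  | zero => intro f g h; exact h [] rfl
  | succ k ih =>
    intro f g h
    rw [iter_succ, iter_succ]
    congr 1
    funext z
    exact ih fun l hl => h (z :: l) (by simp [hl])

lemma iter_mono' (k : ℕ) : ∀ {f g : List X → ℝ}, Bdd f → Bdd g →
    (∀ l, l.length = k → f l ≤ g l) → (m.iter k).I f ≤ (m.iter k).I g := by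
  intro f g hf hg h
  classical
  have e1 : (m.iter k).I g = (m.iter k).I (fun l => if l.length = k then g l else f l) :=
    m.iter_congr k fun l hl => by rw [if_pos hl]
  rw [e1]
  obtain ⟨C, hC⟩ := hf
  obtain ⟨D, hD⟩ := hg
  refine (m.iter k).mono ⟨C, hC⟩ ⟨max C D, fun l => ?_⟩ fun l => ?_
  · dsimp only
    split_ifs
    · exact (hD l).trans (le_max_right _ _)
    · exact (hC l).trans (le_max_left _ _)
  · split_ifs with hl
    · exact h l hl
    · exact le_rfl

/-- Dropping letters at the front. -/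
lemma iter_drop (j k : ℕ) (f : List X → ℝ) :
    (m.iter (j + k)).I (fun l => f (l.drop j)) = (m.iter k).I f := by
  induction j with
  | zero => simp
  | succ j ih =>
    rw [show j + 1 + k = (j + k) + 1 by ring, iter_succ]
    simp only [List.drop_succ_cons]
    rw [ih, m.const]

end Mean

end Pool.Agent.V11151.CMean
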