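import Pool.Agent.V11151.CEnergy

/-! Label functions on lists, refinements, and selection of a near-maximal refinement. -/

namespace Pool.Agent.V11151.CMean

/-- Labels of all suffixes of `l`. -/
def cell (h : ℕ) (u : List ℕ → ℕ) (l : List ℕ) : Fin h → ℕ := fun i => u (l.drop i)

/-- Labels of the suffixes of `l.dropLast` and of `l.tail`. -/
def sub (h : ℕ) (u : List ℕ → ℕ) (l : List ℕ) : (Fin h → ℕ) × (Fin h → ℕ) :=
  (cell h u l.dropLast, cell h u l.tail)

/-- Possible cells. -/
def cellSet (h q : ℕ) : Finset (Fin h → ℕ) := Fintype.piFinset fun _ : Fin h => Finset.range q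

/-- Possible pairs of cells. -/
def subSet (h q : ℕ) : Finset ((Fin h → ℕ) × (Fin h → ℕ)) := cellSet h q ×ˢ cellSet h q

lemma cell_mem {h q : ℕ} {u : List ℕ → ℕ} (hu : ∀ l, u l < q) (l : List ℕ) :
    cell h u l ∈ cellSet h q := by
  unfold cellSet
  rw [Fintype.mem_piFinset]
  intro i
  exact Finset.mem_range.mpr (hu _)

lemma sub_mem {h q : ℕ} {u : List ℕ → ℕ} (hu : ∀ l, u l < q) (l : List ℕ) :
    sub h u l ∈ subSet h q :=
  Finset.mem_product.mpr ⟨cell_mem hu _, cell_mem hu _⟩

/-- `u'` refines `u` on lists of length less than `j`. -/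
def Ref (j : ℕ) (u u' : List ℕ → ℕ) : Prop :=
  ∃ π : ℕ → ℕ → ℕ, ∀ l, l.length < j → u l = π l.length (u' l)

lemma Ref.refl (j : ℕ) (u : List ℕ → ℕ) : Ref j u u := ⟨fun _ x => x, fun _ _ => rfl⟩

lemma Ref.trans {j : ℕ} {u u' u'' : List ℕ → ℕ} (h : Ref j u u') (h' : Ref j u' u'') :
    Ref j u u'' := by
  obtain ⟨π, hπ⟩ := h
  obtain ⟨ρ, hρ⟩ := h'
  exact ⟨fun k x => π k (ρ k x), fun l hl => by rw [hπ l hl, hρ l hl]⟩

lemma Ref.mono {j k : ℕ} (hjk : j ≤ k) {u u' : List ℕ → ℕ} (h : Ref k u u') : Ref j u u' := by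
  obtain ⟨π, hπ⟩ := h
  exact ⟨π, fun l hl => hπ l (lt_of_lt_of_le hl hjk)⟩

lemma Ref.of_eq {j : ℕ} {u u' : List ℕ → ℕ} (h : ∀ l, l.length < j → u l = u' l) : Ref j u u' :=
  ⟨fun _ x => x, h⟩

/-- The refinement determines the coarser cells. -/
lemma Ref.cell_eq {h j : ℕ} {u u' : List ℕ → ℕ} (hr : Ref j u u') {l l' : List ℕ}
    (hl : l.length < j) (hl' : l'.length = l.length) (he : cell h u' l = cell h u' l') :
    cell h u l = cell h u l' := by
  obtain ⟨π, hπ⟩ := hr
  funext i
  have h1 := congrFun he i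
  unfold cell at h1 ⊢
  rw [hπ _ (by rw [List.length_drop]; omega), hπ _ (by rw [List.length_drop]; omega), h1,
    List.length_drop, List.length_drop, hl']

lemma Ref.sub_eq {h j : ℕ} {u u' : List ℕ → ℕ} (hr : Ref j u u') (hj : 0 < j) {l l' : List ℕ}
    (hl : l.length = j) (hl' : l'.length = j) (he : sub h u' l = sub h u' l') :
    sub h u l = sub h u l' := by
  unfold sub at he ⊢
  rw [Prod.mk.injEq] at he ⊢
  exact ⟨hr.cell_eq (by rw [List.length_dropLast]; omega)
      (by rw [List.length_dropLast, List.length_dropLast]; omega) he.1,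
    hr.cell_eq (by rw [List.length_tail]; omega)
      (by rw [List.length_tail, List.length_tail]; omega) he.2⟩

variable (m : Mean ℕ)

lemma condE_congr {Y : Type*} (j : ℕ) {c c' : List ℕ → Y} {f f' : List ℕ → ℝ}
    (hc : ∀ l, l.length = j → c l = c' l) (hf : ∀ l, l.length = j → f l = f' l) (y : Y) :
    condE (m.iter j) c f y = condE (m.iter j) c' f' y := by
  unfold condE
  congr 1
  · exact m.iter_congr j fun l hl => by rw [hc l hl, hf l hl]
  · exact m.iter_congr j fun l hl => by rw [hc l hl]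

/-- Conditional expectation of `f` given the labels `u` (level `j`). -/
noncomputable def ce (h j : ℕ) (u : List ℕ → ℕ) (f : List ℕ → ℝ) (l : List ℕ) : ℝ :=
  condE (m.iter j) (sub h u) f (sub h u l)

lemma ce_bdd {h j q : ℕ} {u : List ℕ → ℕ} (hu : ∀ l, u l < q) (f : List ℕ → ℝ) :
    Bdd (ce m h j u f) := bdd_of_finset (sub_mem hu) _

lemma ce_congr {h j : ℕ} (hj : 0 < j) {u u' : List ℕ → ℕ} {f f' : List ℕ → ℝ}
    (hu : ∀ l, l.length < j → u l = u' l) (hf : ∀ l, l.length = j → f l = f' l)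
    {l : List ℕ} (hl : l.length = j) : ce m h j u f l = ce m h j u' f' l := by
  have hs : ∀ l : List ℕ, l.length = j → sub h u l = sub h u' l := by
    intro l hl
    unfold sub cell
    rw [Prod.mk.injEq]
    constructor <;> funext i
    · exact hu _ (by rw [List.length_drop, List.length_dropLast]; omega)
    · exact hu _ (by rw [List.length_drop, List.length_tail]; omega)
  unfold ce
  rw [condE_congr m j hs hf, hs l hl]

/-- Integral of the conditional expectation against a function of the labels. -/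
lemma ce_integral {h j q : ℕ} {u : List ℕ → ℕ} (hu : ∀ l, u l < q) {f : List ℕ → ℝ}
    (hf : Bdd f) {φ : List ℕ → ℝ}
    (hφ : ∀ l l' : List ℕ, l.length = j → l'.length = j → sub h u l = sub h u l' → φ l = φ l') :
    (m.iter j).I (fun l => ce m h j u f l * φ l) = (m.iter j).I (fun l => f l * φ l) := by
  obtain ⟨ψ, hψ⟩ := exists_factor (c := sub h u) (P := fun l => l.length = j) (g := φ)
    (fun x x' hx hx' he => hφ x x' hx hx' he)
  rw [m.iter_congr j (g := fun l => ce m h j u f l * ψ (sub h u l))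
      (fun l hl => by rw [hψ l hl]),
    m.iter_congr j (f := fun l => f l * φ l) (g := fun l => f l * ψ (sub h u l))
      (fun l hl => by rw [hψ l hl])]
  exact condE_integral _ _ (sub_mem hu) hf ψ

/-- Energy at level `j`. -/
noncomputable def en (h j : ℕ) (u : List ℕ → ℕ) (f : List ℕ → ℝ) : ℝ :=
  (m.iter j).I (fun l => ce m h j u f l ^ 2)

lemma ce_inner {h j q : ℕ} {u : List ℕ → ℕ} (hu : ∀ l, u l < q) {f : List ℕ → ℝ} (hf : Bdd f) :
    (m.iter j).I (fun l => f l * ce m h j u f l) = en m h j u f := by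
  have := ce_integral (h := h) (j := j) m hu hf (φ := ce m h j u f)
    (fun l l' _ _ he => by unfold ce; rw [he])
  rw [← this]
  unfold en
  congr 1
  funext l
  ring

lemma en_le {h j q : ℕ} {u : List ℕ → ℕ} (hu : ∀ l, u l < q) {f : List ℕ → ℝ}
    (hf : ∀ l, |f l| ≤ 1) : en m h j u f ≤ 1 := by
  have hb := ce_bdd (h := h) (j := j) m hu f
  have hfb : Bdd f := ⟨1, hf⟩
  have h1 : 0 ≤ (m.iter j).I (fun l => (f l - ce m h j u f l) ^ 2) :=
    (m.iter j).nonneg (hfb.sub hb).sq fun _ => sq_nonneg _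
  have e : (fun l => (f l - ce m h j u f l) ^ 2) = fun l =>
      (f l ^ 2 - 2 * (f l * ce m h j u f l)) + ce m h j u f l ^ 2 := by
    funext x; ring
  rw [e, (m.iter j).add (hfb.sq.sub ((Bdd.const 2).mul (hfb.mul hb))) hb.sq,
    (m.iter j).sub hfb.sq ((Bdd.const 2).mul (hfb.mul hb)), (m.iter j).smul _ (hfb.mul hb),
    ce_inner m hu hfb] at h1
  have h2 : (m.iter j).I (fun l => f l ^ 2) ≤ 1 :=
    (m.iter j).le_const hfb.sq fun l => by
      have := hf l
      rw [← sq_abs]
      nlinarith [abs_nonneg (f l)]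
  have h3 : (m.iter j).I (fun l => ce m h j u f l ^ 2) = en m h j u f := rfl
  rw [h3] at h1
  linarith

/-- Pythagoras at level `j`. -/
lemma ce_pyth {h j q q' : ℕ} (hj : 0 < j) {u u' : List ℕ → ℕ} (hu : ∀ l, u l < q)
    (hu' : ∀ l, u' l < q') (hr : Ref j u u') {f : List ℕ → ℝ} (hf : Bdd f) :
    (m.iter j).I (fun l => (ce m h j u' f l - ce m h j u f l) ^ 2) =
      en m h j u' f - en m h j u f := by
  have hb := ce_bdd (h := h) (j := j) m hu f
  have hb' := ce_bdd (h := h) (j := j) m hu' f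
  have e : (fun l => (ce m h j u' f l - ce m h j u f l) ^ 2) = fun l =>
      (ce m h j u' f l ^ 2 - 2 * (ce m h j u' f l * ce m h j u f l)) + ce m h j u f l ^ 2 := by
    funext x; ring
  have h1 : (m.iter j).I (fun l => ce m h j u' f l * ce m h j u f l) = en m h j u f := by
    rw [ce_integral m hu' hf (φ := ce m h j u f) (fun l l' hl hl' he => by
      unfold ce; rw [hr.sub_eq hj hl hl' he]), ce_inner m hu hf]
  rw [e, (m.iter j).add (hb'.sq.sub ((Bdd.const 2).mul (hb'.mul hb))) hb.sq,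
    (m.iter j).sub hb'.sq ((Bdd.const 2).mul (hb'.mul hb)), (m.iter j).smul _ (hb'.mul hb), h1]
  unfold en
  ring

end Pool.Agent.V11151.CMean
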