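import Pool.Agent.V11151.CRefine

/-! Selection of refinements with the approximate independence property. -/

namespace Pool.Agent.V11151.CMean

variable (m : Mean ℕ)

/-- `L¹` gain from refining. -/
noncomputable def gain (h j : ℕ) (f : ℕ → List ℕ → ℝ) (A : Finset ℕ) (u u' : List ℕ → ℕ) : ℝ :=
  ∑ a ∈ A, (m.iter j).I (fun l => |ce m h j u' (f a) l - ce m h j u (f a) l|)

/-- No refinement gains more than `ε`. -/
def Rob (h j : ℕ) (f : ℕ → List ℕ → ℝ) (ε : ℝ) (u : List ℕ → ℕ) : Prop :=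
  ∀ (u' : List ℕ → ℕ) (q' : ℕ), (∀ l, u' l < q') → Ref j u u' → ∀ A : Finset ℕ,
    gain m h j f A u u' ≤ ε

/-- Total energy. -/
noncomputable def toten (h j : ℕ) (f : ℕ → List ℕ → ℝ) (q : ℕ) (u : List ℕ → ℕ) : ℝ :=
  ∑ a ∈ Finset.range q, en m h j u (f a)

lemma toten_le {h j q p : ℕ} {u : List ℕ → ℕ} (hu : ∀ l, u l < p) {f : ℕ → List ℕ → ℝ}
    (hf : ∀ a l, |f a l| ≤ 1) : toten m h j f q u ≤ q := by
  unfold toten
  calc ∑ a ∈ Finset.range q, en m h j u (f a) ≤ ∑ _a ∈ Finset.range q, (1 : ℝ) :=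
        Finset.sum_le_sum fun a _ => en_le m hu (hf a)
    _ = q := by simp

lemma gain_range_le {h j q p p' : ℕ} (hj : 0 < j) {u u' : List ℕ → ℕ} (hu : ∀ l, u l < p)
    (hu' : ∀ l, u' l < p') (hr : Ref j u u') {f : ℕ → List ℕ → ℝ} (hf : ∀ a l, |f a l| ≤ 1)
    {t : ℝ} (ht : 0 < t) :
    gain m h j f (Finset.range q) u u' ≤
      (toten m h j f q u' - toten m h j f q u) / (2 * t) + q * (t / 2) := by
  unfold gain toten
  rw [← Finset.sum_sub_distrib, Finset.sum_div]
  have e : (q : ℝ) * (t / 2) = ∑ _a ∈ Finset.range q, t / 2 := by simp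
  rw [e, ← Finset.sum_add_distrib]
  refine Finset.sum_le_sum fun a _ => ?_
  have hfb : Bdd (f a) := ⟨1, hf a⟩
  have hb := ce_bdd (h := h) (j := j) m hu (f a)
  have hb' := ce_bdd (h := h) (j := j) m hu' (f a)
  rw [← ce_pyth m hj hu hu' hr hfb]
  have h1 : (m.iter j).I (fun l => |ce m h j u' (f a) l - ce m h j u (f a) l|) ≤
      (m.iter j).I (fun l => 1 / (2 * t) * (ce m h j u' (f a) l - ce m h j u (f a) l) ^ 2 +
        t / 2) := by
    refine (m.iter j).mono (hb'.sub hb).abs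
      (((Bdd.const _).mul (hb'.sub hb).sq).add (Bdd.const _)) fun l => ?_
    set d := ce m h j u' (f a) l - ce m h j u (f a) l
    have h2 : 0 ≤ (|d| - t) ^ 2 := sq_nonneg _
    have h3 : |d| ^ 2 = d ^ 2 := sq_abs d
    have h4 : 1 / (2 * t) * d ^ 2 + t / 2 - |d| = (|d| - t) ^ 2 / (2 * t) := by
      field_simp
      rw [← h3]
      ring
    have h5 : 0 ≤ (|d| - t) ^ 2 / (2 * t) := by positivity
    linarith
  refine h1.trans (le_of_eq ?_)
  rw [(m.iter j).add ((Bdd.const _).mul (hb'.sub hb).sq) (Bdd.const _),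
    (m.iter j).smul _ (hb'.sub hb).sq, (m.iter j).const]
  ring

lemma en_congr {h j : ℕ} (hj : 0 < j) {u u' : List ℕ → ℕ} {f f' : List ℕ → ℝ}
    (hu : ∀ l, l.length < j → u l = u' l) (hf : ∀ l, l.length = j → f l = f' l) :
    en m h j u f = en m h j u' f' := by
  unfold en
  exact m.iter_congr j fun l hl => by rw [ce_congr m hj hu hf hl]

/-- Labels that do not occur give nothing. -/
lemma ce_zero {h j : ℕ} {u : List ℕ → ℕ} {f : List ℕ → ℝ} (hf : ∀ l, l.length = j → f l = 0)
    (l : List ℕ) : ce m h j u f l = 0 := by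
  unfold ce condE
  have : (m.iter j).I (fun x => f x * ind (sub h u x = sub h u l)) = 0 := by
    rw [m.iter_congr j (g := fun _ => 0) fun x hx => by rw [hf x hx, zero_mul], (m.iter j).const]
  rw [this, zero_div]

lemma gain_le_range {h j q p p' : ℕ} {u u' : List ℕ → ℕ} (hu : ∀ l, u l < p)
    (hu' : ∀ l, u' l < p') {f : ℕ → List ℕ → ℝ} (hf : ∀ a, q ≤ a → ∀ l, l.length = j → f a l = 0)
    (A : Finset ℕ) : gain m h j f A u u' ≤ gain m h j f (Finset.range q) u u' := by
  classical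
  have hnn : ∀ a, 0 ≤ (m.iter j).I (fun l => |ce m h j u' (f a) l - ce m h j u (f a) l|) :=
    fun a => (m.iter j).nonneg ((ce_bdd m hu' (f a)).sub (ce_bdd m hu (f a))).abs
      fun _ => abs_nonneg _
  have h1 : gain m h j f A u u' = gain m h j f (A.filter (· < q)) u u' := by
    unfold gain
    symm
    apply Finset.sum_subset (Finset.filter_subset _ _)
    intro a haA ha
    have hqa : q ≤ a := by
      by_contra hc
      exact ha (Finset.mem_filter.mpr ⟨haA, not_le.mp hc⟩)
    have : (fun l => |ce m h j u' (f a) l - ce m h j u (f a) l|) = fun _ => 0 := by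
      funext l
      rw [ce_zero m (hf a hqa), ce_zero m (hf a hqa)]
      simp
    rw [this, (m.iter j).const]
  rw [h1]
  unfold gain
  refine Finset.sum_le_sum_of_subset_of_nonneg ?_ fun a _ _ => hnn a
  intro a ha
  exact Finset.mem_range.mpr (Finset.mem_filter.mp ha).2

/-- Near-maximal energy refinement. -/
lemma select {h j q p : ℕ} (hj : 0 < j) {f : ℕ → List ℕ → ℝ} (hf : ∀ a l, |f a l| ≤ 1)
    (hf0 : ∀ a, q ≤ a → ∀ l, l.length = j → f a l = 0) {u₀ : List ℕ → ℕ}
    (hu₀ : ∀ l, u₀ l < p) {ε : ℝ} (hε : 0 < ε) :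
    ∃ (u : List ℕ → ℕ) (p' : ℕ), (∀ l, u l < p') ∧ (∀ l, j ≤ l.length → u l = u₀ l) ∧
      Ref j u₀ u ∧ Rob m h j f ε u := by
  classical
  set S : Set ℝ := {x | ∃ (u : List ℕ → ℕ) (p' : ℕ), (∀ l, u l < p') ∧
    (∀ l, j ≤ l.length → u l = u₀ l) ∧ Ref j u₀ u ∧ x = toten m h j f q u} with hS
  have hne : S.Nonempty := ⟨_, u₀, p, hu₀, fun _ _ => rfl, Ref.refl _ _, rfl⟩
  have hbd : BddAbove S := by
    refine ⟨q, ?_⟩
    rintro x ⟨u, p', hu, _, _, rfl⟩
    exact toten_le m hu hf
  set t : ℝ := ε / (q + 1) with ht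
  have hq : (0 : ℝ) < q + 1 := by positivity
  have htp : 0 < t := by positivity
  have hδ : 0 < t * ε := by positivity
  obtain ⟨x, ⟨u, p', hu, hag, hr, rfl⟩, hx⟩ := exists_lt_of_lt_csSup hne
    (show sSup S - t * ε < sSup S by linarith)
  refine ⟨u, p', hu, hag, hr, ?_⟩
  intro u' q' hu' hr' A
  refine (gain_le_range m hu hu' hf0 A).trans ?_
  refine (gain_range_le m hj hu hu' hr' hf htp).trans ?_
  -- the refinement cannot beat the supremum
  have hsup : toten m h j f q u' ≤ sSup S := by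
    apply le_csSup hbd
    refine ⟨fun l => if l.length < j then u' l else u₀ l, max q' p, ?_, ?_, ?_, ?_⟩
    · intro l
      dsimp only
      split_ifs
      · exact lt_of_lt_of_le (hu' l) (le_max_left _ _)
      · exact lt_of_lt_of_le (hu₀ l) (le_max_right _ _)
    · intro l hl
      dsimp only
      rw [if_neg (not_lt.mpr hl)]
    · refine (hr.trans hr').trans (Ref.of_eq fun l hl => ?_)
      rw [if_pos hl]
    · unfold toten
      refine Finset.sum_congr rfl fun a _ => ?_
      exact en_congr m hj (fun l hl => by rw [if_pos hl]) fun _ _ => rfl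
  have h1 : (toten m h j f q u' - toten m h j f q u) / (2 * t) ≤ ε / 2 := by
    rw [div_le_iff₀ (by positivity)]
    nlinarith
  have h2 : (q : ℝ) * (t / 2) ≤ ε / 2 := by
    have h3 : (q : ℝ) * t ≤ ε := by
      rw [ht, mul_div_assoc', div_le_iff₀ hq]
      nlinarith
    linarith
  linarith

lemma gain_triangle {h j p p' p'' : ℕ} {u u' u'' : List ℕ → ℕ} (hu : ∀ l, u l < p)
    (hu' : ∀ l, u' l < p') (hu'' : ∀ l, u'' l < p'') (f : ℕ → List ℕ → ℝ) (A : Finset ℕ) :
    gain m h j f A u' u'' ≤ gain m h j f A u u'' + gain m h j f A u u' := by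
  unfold gain
  rw [← Finset.sum_add_distrib]
  refine Finset.sum_le_sum fun a _ => ?_
  have hb := ce_bdd (h := h) (j := j) m hu (f a)
  have hb' := ce_bdd (h := h) (j := j) m hu' (f a)
  have hb'' := ce_bdd (h := h) (j := j) m hu'' (f a)
  rw [← (m.iter j).add (hb''.sub hb).abs (hb'.sub hb).abs]
  refine (m.iter j).mono (hb''.sub hb').abs ((hb''.sub hb).abs.add (hb'.sub hb).abs) fun l => ?_
  have : ce m h j u'' (f a) l - ce m h j u' (f a) l =
      (ce m h j u'' (f a) l - ce m h j u (f a) l) -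
        (ce m h j u' (f a) l - ce m h j u (f a) l) := by ring
  rw [this]
  exact abs_sub _ _

lemma gain_congr {h j : ℕ} (hj : 0 < j) {u₁ u₁' u₂ u₂' : List ℕ → ℕ} {f f' : ℕ → List ℕ → ℝ}
    (h1 : ∀ l, l.length < j → u₁ l = u₁' l) (h2 : ∀ l, l.length < j → u₂ l = u₂' l)
    (hf : ∀ a l, l.length = j → f a l = f' a l) (A : Finset ℕ) :
    gain m h j f A u₁ u₂ = gain m h j f' A u₁' u₂' := by
  unfold gain
  refine Finset.sum_congr rfl fun a _ => ?_
  exact m.iter_congr j fun l hl => by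
    rw [ce_congr m hj h1 (hf a) hl, ce_congr m hj h2 (hf a) hl]

/-- The label indicators. -/
noncomputable def lab (v : List ℕ → ℕ) (a : ℕ) (l : List ℕ) : ℝ := ind (v l = a)

/-- A refinement all of whose levels are robust. -/
theorem exists_refinement (h q : ℕ) (v : List ℕ → ℕ) (hv : ∀ l, v l < q) {ε : ℝ} (hε : 0 < ε) :
    ∃ (v' : List ℕ → ℕ) (q' : ℕ), (∀ l, v' l < q') ∧ Ref h v v' ∧
      ∀ j, 0 < j → j < h → Rob m h j (lab v') ε v' := by
  have main : ∀ n : ℕ, ∃ (v' : List ℕ → ℕ) (q' : ℕ), (∀ l, v' l < q') ∧ Ref h v v' ∧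
      ∀ j, 0 < j → j < h → h - n ≤ j → ∃ (w : List ℕ → ℕ) (p : ℕ), (∀ l, w l < p) ∧
        Rob m h j (lab v') (ε / 2) w ∧ Ref j w v' := by
    intro n
    induction n with
    | zero => exact ⟨v, q, hv, Ref.refl _ _, fun j _ h1 h2 => absurd h1 (by omega)⟩
    | succ n ih =>
      obtain ⟨v', q', hv', hr, hrob⟩ := ih
      by_cases hj0 : 0 < h - (n + 1)
      · obtain ⟨u, p', hu, hag, hru, hR⟩ := select (h := h) (j := h - (n + 1)) (q := q') m hj0
          (f := lab v') (fun a l => abs_ind_le _)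
          (fun a ha l _ => ind_false (by have := hv' l; omega)) hv' (half_pos hε)
        have hlab : ∀ j, h - (n + 1) ≤ j → ∀ a l, l.length = j → lab v' a l = lab u a l := by
          intro j hj a l hl
          unfold lab
          rw [hag l (by omega)]
        have hRef : Ref h v' u := by
          obtain ⟨π, hπ⟩ := hru
          refine ⟨fun k x => if k < h - (n + 1) then π k x else x, fun l _ => ?_⟩
          dsimp only
          split_ifs with hc
          · exact hπ l hc
          · exact (hag l (by omega)).symm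
        refine ⟨u, p', hu, hr.trans hRef, fun j hj1 hj2 hj3 => ?_⟩
        by_cases hjn : h - n ≤ j
        · obtain ⟨w, p, hw, hRw, hrw⟩ := hrob j hj1 hj2 hjn
          refine ⟨w, p, hw, ?_, hrw.trans (hRef.mono hj2.le)⟩
          intro u' q'' hu' hr' A
          rw [← gain_congr m hj1 (fun _ _ => rfl) (fun _ _ => rfl) (hlab j (by omega))]
          exact hRw u' q'' hu' hr' A
        · have hje : j = h - (n + 1) := by omega
          subst hje
          refine ⟨u, p', hu, ?_, Ref.refl _ _⟩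
          intro u' q'' hu' hr' A
          rw [← gain_congr m hj1 (fun _ _ => rfl) (fun _ _ => rfl) (hlab _ le_rfl)]
          exact hR u' q'' hu' hr' A
      · exact ⟨v', q', hv', hr, fun j h1 h2 h3 => hrob j h1 h2 (by omega)⟩
  obtain ⟨v', q', hv', hr, hrob⟩ := main h
  refine ⟨v', q', hv', hr, fun j h1 h2 => ?_⟩
  obtain ⟨w, p, hw, hRw, hrw⟩ := hrob j h1 h2 (by omega)
  intro u' p' hu' hr' A
  have := gain_triangle (h := h) (j := j) m hw hv' hu' (lab v') A
  have h3 := hRw u' p' hu' (hrw.trans hr') A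
  have h4 := hRw v' q' hv' hrw A
  linarith

end Pool.Agent.V11151.CMean
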