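import Pool.Agent.V11151.CSelect

/-! The kernels and the approximate independence of the last letter. -/

namespace Pool.Agent.V11151.CMean

variable (m : Mean ℕ)

open scoped Classical in
/-- Conditional probability of the label `a` given the proper suffix labels. -/
noncomputable def ker (h j : ℕ) (v : List ℕ → ℕ) (a : ℕ) (y : (Fin h → ℕ) × (Fin h → ℕ)) : ℝ :=
  if (m.iter j).I (fun l => ind (sub h v l = y)) = 0 then ind (a = 0)
  else condE (m.iter j) (sub h v) (lab v a) y

lemma lab_bdd (v : List ℕ → ℕ) (a : ℕ) : Bdd (lab v a) := ⟨1, fun _ => abs_ind_le _⟩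

lemma lab_nonneg (v : List ℕ → ℕ) (a : ℕ) (l : List ℕ) : 0 ≤ lab v a l := ind_nonneg _

lemma lab_sum {q : ℕ} {v : List ℕ → ℕ} (hv : ∀ l, v l < q) (l : List ℕ) :
    ∑ a ∈ Finset.range q, lab v a l = 1 := by
  rw [Finset.sum_eq_single (v l)]
  · exact ind_true rfl
  · intro b _ hb
    exact ind_false fun h => hb h.symm
  · intro h
    exact absurd (Finset.mem_range.mpr (hv l)) h

lemma ker_nonneg (h j : ℕ) (v : List ℕ → ℕ) (a : ℕ) (y : (Fin h → ℕ) × (Fin h → ℕ)) :
    0 ≤ ker m h j v a y := by
  unfold ker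
  split_ifs
  · exact ind_nonneg _
  · unfold condE
    exact div_nonneg ((m.iter j).nonneg ((lab_bdd v a).mul (bdd_ind _)) fun l =>
      mul_nonneg (lab_nonneg v a l) (ind_nonneg _)) (prob_nonneg _ _ _)

lemma ker_sum {h j q : ℕ} {v : List ℕ → ℕ} (hv : ∀ l, v l < q)
    (y : (Fin h → ℕ) × (Fin h → ℕ)) : ∑ a ∈ Finset.range q, ker m h j v a y = 1 := by
  unfold ker
  have hq : 0 < q := lt_of_le_of_lt (Nat.zero_le _) (hv [])
  split_ifs with h0
  · rw [Finset.sum_eq_single 0]
    · exact ind_true rfl
    · intro b _ hb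
      exact ind_false hb
    · intro h
      exact absurd (Finset.mem_range.mpr hq) h
  · unfold condE
    rw [← Finset.sum_div, ← (m.iter j).sum _ fun a _ => (lab_bdd v a).mul (bdd_ind _)]
    rw [div_eq_one_iff_eq h0]
    congr 1
    funext l
    rw [← Finset.sum_mul, lab_sum hv, one_mul]

/-- The kernel agrees with the conditional expectation up to null cells. -/
lemma ker_sub_ce {h j q : ℕ} {v : List ℕ → ℕ} (hv : ∀ l, v l < q) (a : ℕ) {φ : List ℕ → ℝ}
    (hφ : Bdd φ) : (m.iter j).I (fun l => φ l * (ker m h j v a (sub h v l) -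
      ce m h j v (lab v a) l)) = 0 := by
  have := decomp (m.iter j) (sub h v) (sub_mem hv) hφ
    (fun y => ker m h j v a y - condE (m.iter j) (sub h v) (lab v a) y)
  have e : (fun l => φ l * (ker m h j v a (sub h v l) - ce m h j v (lab v a) l)) =
      fun l => φ l * (fun y => ker m h j v a y - condE (m.iter j) (sub h v) (lab v a) y)
        (sub h v l) := rfl
  rw [e, this]
  apply Finset.sum_eq_zero
  intro y _
  by_cases h0 : (m.iter j).I (fun l => ind (sub h v l = y)) = 0
  · rw [null_mul _ _ hφ h0, mul_zero]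
  · simp only [ker, if_neg h0, sub_self, zero_mul]

/-- The elementary discrepancy. -/
noncomputable def dis (h k : ℕ) (v : List ℕ → ℕ) (a : ℕ) (s : Fin h → ℕ) (l : List ℕ) : ℝ :=
  m.I (fun w => (lab v a (l ++ [w]) - ker m h (k + 1) v a (cell h v l, s)) *
    ind (cell h v (l ++ [w]).tail = s))

lemma dis_bdd_aux {h k q : ℕ} {v : List ℕ → ℕ} (hv : ∀ l, v l < q) (a : ℕ) (ha : a < q)
    (s : Fin h → ℕ) (l : List ℕ) (w : ℕ) :
    |(lab v a (l ++ [w]) - ker m h (k + 1) v a (cell h v l, s)) *
    ind (cell h v (l ++ [w]).tail = s)| ≤ 1 := by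
  rw [abs_mul]
  have h1 : ker m h (k + 1) v a (cell h v l, s) ≤ 1 := by
    rw [← ker_sum m hv (h := h) (j := k + 1) (cell h v l, s)]
    exact Finset.single_le_sum (f := fun a => ker m h (k + 1) v a (cell h v l, s))
      (fun a _ => ker_nonneg m h _ v a _) (Finset.mem_range.mpr ha)
  have h2 := ker_nonneg m h (k + 1) v a (cell h v l, s)
  have h3 := lab_nonneg v a (l ++ [w])
  have h4 : lab v a (l ++ [w]) ≤ 1 := ind_le_one _
  have h5 : |lab v a (l ++ [w]) - ker m h (k + 1) v a (cell h v l, s)| ≤ 1 := by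
    rw [abs_le]; constructor <;> linarith
  calc _ ≤ 1 * 1 := mul_le_mul h5 (abs_ind_le _) (abs_nonneg _) (by norm_num)
    _ = 1 := by norm_num

/-- Approximate independence of the last letter. -/
theorem astep {h k q : ℕ} (hk : k + 1 < h) {v : List ℕ → ℕ} (hv : ∀ l, v l < q) {ε : ℝ}
    (hR : Rob m h (k + 1) (lab v) ε v) :
    (m.iter k).I (fun l => ∑ a ∈ Finset.range q, ∑ s ∈ cellSet h q, |dis m h k v a s l|) ≤ ε := by
  classical
  have hh : 0 < h := by omega
  have hdis1 : ∀ a ∈ Finset.range q, ∀ s l, |dis m h k v a s l| ≤ 1 := fun a ha s l =>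
    m.abs_le_const fun w => dis_bdd_aux m hv a (Finset.mem_range.mp ha) s l w
  have hdb : ∀ a ∈ Finset.range q, ∀ s, Bdd (fun l => |dis m h k v a s l|) := fun a ha s =>
    Bdd.abs ⟨1, hdis1 a ha s⟩
  -- signs
  let T := ↥(Finset.range q ×ˢ cellSet h q) → Bool
  let bits : List ℕ → T := fun l p => decide (0 ≤ dis m h k v p.1.1 p.1.2 l)
  let sgn : ℕ → (Fin h → ℕ) → List ℕ → ℝ := fun a s l => if 0 ≤ dis m h k v a s l then 1 else -1
  have hsgn : ∀ a s l, sgn a s l * dis m h k v a s l = |dis m h k v a s l| := by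
    intro a s l
    simp only [sgn]
    split_ifs with hc
    · rw [abs_of_nonneg hc, one_mul]
    · rw [abs_of_neg (not_le.mp hc)]; ring
  have hsgn1 : ∀ a s l, |sgn a s l| ≤ 1 := by
    intro a s l
    simp only [sgn]
    split_ifs <;> simp
  let u : List ℕ → ℕ := fun l => Nat.pair (v l) (Fintype.equivFin T (bits l)).val
  set N := (max q (Fintype.card T) + 1) ^ 2 with hN
  have hu : ∀ l, u l < N := by
    intro l
    have h1 := Nat.pair_lt_max_add_one_sq (v l) (Fintype.equivFin T (bits l)).val
    refine lt_of_lt_of_le h1 ?_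
    have h2 := hv l
    have h3 := (Fintype.equivFin T (bits l)).isLt
    apply Nat.pow_le_pow_left
    omega
  have hRef : Ref (k + 1) v u := ⟨fun _ x => (Nat.unpair x).1, fun l _ => by
    simp only [u, Nat.unpair_pair]⟩
  let φ : ℕ → List ℕ → ℝ := fun a l => sgn a (cell h v l.tail) l.dropLast
  have hφb : ∀ a, Bdd (φ a) := fun a => ⟨1, fun l => hsgn1 _ _ _⟩
  have hφf : ∀ a ∈ Finset.range q, ∀ l l' : List ℕ, l.length = k + 1 → l'.length = k + 1 →
      sub h u l = sub h u l' → φ a l = φ a l' := by
    intro a ha l l' hl hl' he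
    have he' := he
    unfold sub at he
    rw [Prod.mk.injEq] at he
    have h1 := congrFun he.1 ⟨0, hh⟩
    unfold cell at h1
    simp only [List.drop_zero, u] at h1
    have h2 := (Nat.pair_eq_pair.mp h1).2
    have h3 : bits l.dropLast = bits l'.dropLast :=
      (Fintype.equivFin T).injective (Fin.ext h2)
    have h4 : cell h v l.tail = cell h v l'.tail :=
      hRef.cell_eq (by rw [List.length_tail]; omega)
        (by rw [List.length_tail, List.length_tail]; omega) he.2
    have h5 := congrFun h3 ⟨(a, cell h v l.tail), Finset.mem_product.mpr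
      ⟨ha, cell_mem hv _⟩⟩
    simp only [bits] at h5
    simp only [φ, sgn]
    rw [← h4]
    by_cases hc : 0 ≤ dis m h k v a (cell h v l.tail) l.dropLast
    · have hc' : 0 ≤ dis m h k v a (cell h v l.tail) l'.dropLast := by
        simpa [hc] using h5
      rw [if_pos hc, if_pos hc']
    · have hc' : ¬ 0 ≤ dis m h k v a (cell h v l.tail) l'.dropLast := by
        simpa [hc] using h5
      rw [if_neg hc, if_neg hc']
  -- rewrite the left-hand side
  have key : ∀ a ∈ Finset.range q,
      (m.iter k).I (fun l => ∑ s ∈ cellSet h q, |dis m h k v a s l|) =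
      (m.iter (k + 1)).I (fun l => φ a l * (lab v a l - ker m h (k + 1) v a (sub h v l))) := by
    intro a ha
    have ha' := Finset.mem_range.mp ha
    rw [m.iter_succ']
    congr 1
    funext l
    have e1 : (fun z => φ a (l ++ [z]) * (lab v a (l ++ [z]) -
        ker m h (k + 1) v a (sub h v (l ++ [z])))) = fun z => ∑ s ∈ cellSet h q,
        sgn a s l * ((lab v a (l ++ [z]) - ker m h (k + 1) v a (cell h v l, s)) *
          ind (cell h v (l ++ [z]).tail = s)) := by
      funext z
      rw [Finset.sum_eq_single (cell h v (l ++ [z]).tail)]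
      · rw [ind_true rfl, mul_one]
        simp only [φ, sub, List.dropLast_concat]
      · intro s _ hs
        rw [ind_false fun h => hs h.symm]; ring
      · intro hc
        exact absurd (cell_mem hv _) hc
    rw [e1, m.sum _ fun s _ => (Bdd.const _).mul
      ⟨1, fun w => dis_bdd_aux m hv a ha' s l w⟩]
    refine Finset.sum_congr rfl fun s _ => ?_
    rw [m.smul _ ⟨1, fun w => dis_bdd_aux m hv a ha' s l w⟩, ← hsgn a s l]
    rfl
  rw [(m.iter k).sum _ fun a ha => Bdd.sum _ fun s _ => hdb a ha s]
  have hkerb : ∀ a, Bdd (fun l => ker m h (k + 1) v a (sub h v l)) := fun a =>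
    bdd_of_finset (sub_mem hv) (fun y => ker m h (k + 1) v a y)
  calc ∑ a ∈ Finset.range q, (m.iter k).I (fun l => ∑ s ∈ cellSet h q, |dis m h k v a s l|)
      = ∑ a ∈ Finset.range q, (m.iter (k + 1)).I
          (fun l => (ce m h (k + 1) u (lab v a) l - ce m h (k + 1) v (lab v a) l) * φ a l) := by
        refine Finset.sum_congr rfl fun a ha => ?_
        rw [key a ha]
        have hl := lab_bdd v a
        have hb := ce_bdd (h := h) (j := k + 1) m hv (lab v a)
        have hb' := ce_bdd (h := h) (j := k + 1) m hu (lab v a)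
        have e2 : (fun l => φ a l * (lab v a l - ker m h (k + 1) v a (sub h v l))) =
            fun l => (lab v a l * φ a l - ce m h (k + 1) v (lab v a) l * φ a l) -
              φ a l * (ker m h (k + 1) v a (sub h v l) - ce m h (k + 1) v (lab v a) l) := by
          funext l; ring
        have e3 : (fun l => (ce m h (k + 1) u (lab v a) l - ce m h (k + 1) v (lab v a) l) *
            φ a l) = fun l => ce m h (k + 1) u (lab v a) l * φ a l -
              ce m h (k + 1) v (lab v a) l * φ a l := by
          funext l; ring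
        rw [e2, e3, (m.iter (k + 1)).sub ((hl.mul (hφb a)).sub (hb.mul (hφb a)))
          ((hφb a).mul ((hkerb a).sub hb)), ker_sub_ce m hv a (hφb a), sub_zero,
          (m.iter (k + 1)).sub (hl.mul (hφb a)) (hb.mul (hφb a)),
          (m.iter (k + 1)).sub (hb'.mul (hφb a)) (hb.mul (hφb a)),
          ce_integral m hu hl (hφf a ha)]
    _ ≤ gain m h (k + 1) (lab v) (Finset.range q) v u := by
        unfold gain
        refine Finset.sum_le_sum fun a _ => ?_
        have hb := ce_bdd (h := h) (j := k + 1) m hv (lab v a)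
        have hb' := ce_bdd (h := h) (j := k + 1) m hu (lab v a)
        refine (m.iter (k + 1)).mono ((hb'.sub hb).mul (hφb a)) (hb'.sub hb).abs fun l => ?_
        refine (le_abs_self _).trans ?_
        rw [abs_mul]
        calc _ ≤ |ce m h (k + 1) u (lab v a) l - ce m h (k + 1) v (lab v a) l| * 1 :=
              mul_le_mul_of_nonneg_left (hsgn1 _ _ _) (abs_nonneg _)
          _ = _ := mul_one _
    _ ≤ ε := hR u N hu hRef _

end Pool.Agent.V11151.CMean
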