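import Pool.Agent.V11151.CLin

/-! The cyclic lemma. -/

namespace Pool.Agent.V11151.CMean

lemma mod_eq_lt {x y h : ℕ} (hxy : x % h = y % h) (h1 : y ≤ x) (h2 : x < y + h) : x = y := by
  have h3 : y ≡ x [MOD h] := hxy.symm
  have h4 := (Nat.modEq_iff_dvd' h1).mp h3
  have h5 : x - y = 0 := by
    by_contra hc
    have := Nat.le_of_dvd (Nat.pos_of_ne_zero hc) h4
    omega
  omega

variable (m : Mean ℕ) {h : ℕ} [NeZero h]

lemma Dn_zero_zero : Dn h 0 0 = ∅ := by
  ext e
  rw [mem_Dn]
  simp only [Finset.notMem_empty, iff_false]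
  omega

lemma Dn_succ_zero (n : ℕ) : Dn h (n + 1) 0 = Dn h n n := by
  ext e
  rw [mem_Dn, mem_Dn]
  omega

/-- The entry removed from the last diagonal. -/
def eN (h : ℕ) [NeZero h] (n k : ℕ) : Ent h := (Fin.ofNat h (n - k), Fin.ofNat h (k + 1))

lemma eN_fst {n k : ℕ} (hn : n + 1 ≤ h) : (eN h n k).1.val = n - k := by
  unfold eN
  simp only [Fin.val_ofNat]
  exact Nat.mod_eq_of_lt (by omega)

lemma eN_snd {n k : ℕ} (hk : k + 1 < h) : (eN h n k).2.val = k + 1 := by
  unfold eN
  simp only [Fin.val_ofNat]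
  exact Nat.mod_eq_of_lt hk

lemma Dn_insert {n k : ℕ} (hn : n + 1 ≤ h) (hkn : k ≤ n) (hk : k + 1 < h) :
    Dn h (n + 1) (k + 1) = insert (eN h n k) (Dn h (n + 1) k) := by
  ext e
  rw [Finset.mem_insert, mem_Dn, mem_Dn]
  have h1 := eN_fst (h := h) (k := k) hn
  have h2 := eN_snd (h := h) (n := n) hk
  constructor
  · rintro ⟨a, b⟩
    by_cases hc : e.1.val + e.2.val = n + 1 ∧ e.2.val = k + 1
    · left
      apply Prod.ext <;> apply Fin.ext <;> omega
    · right; omega
  · rintro (rfl | ⟨a, b⟩)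
    · omega
    · omega

lemma eN_notMem {n k : ℕ} (hn : n + 1 ≤ h) (hk : k + 1 < h) :
    eN h n k ∉ Dn h (n + 1) k := by
  rw [mem_Dn]
  have h1 := eN_fst (h := h) (k := k) hn
  have h2 := eN_snd (h := h) (n := n) hk
  omega

lemma not_low_eN {n k : ℕ} (hn : n + 1 ≤ h) (hkn : k ≤ n) (hk : k + 1 < h) {e' : Ent h}
    (he' : e' ∈ Dn h (n + 1) k) : ¬ low (eN h n k) e' := by
  rintro ⟨_, h4, h5⟩
  rw [mem_Dn] at he'
  have h1 := eN_fst (h := h) (k := k) hn
  have h2 := eN_snd (h := h) (n := n) hk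
  rw [h2] at h4
  rw [h1, h2, show n - k + (k + 1) = n + 1 by omega] at h5
  rcases h5 with h5 | h5
  · have := mod_eq_lt h5 (by omega) (by omega)
    omega
  · by_cases hc : n + 1 + 1 < e'.1.val + e'.2.val + h
    · have := mod_eq_lt h5 (by omega) (by omega)
      omega
    · omega

/-- The entries on which the kernel of a window entry depends. -/
lemma low_mem {n k : ℕ} (hn : n + 1 ≤ h) (hkn : k ≤ n) (hk : k + 1 < h) {e' : Ent h}
    (hl : low e' (eN h n k)) : e' ∈ Dn h (n + 1) k := by
  obtain ⟨h3, h4, h5⟩ := hl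
  rw [mem_Dn]
  have h1 := eN_fst (h := h) (k := k) hn
  have h2 := eN_snd (h := h) (n := n) hk
  have h6 := e'.1.isLt
  rw [h2] at h4
  rw [h1, h2, show n - k + (k + 1) = n + 1 by omega] at h5
  refine ⟨h3, ?_⟩
  rcases h5 with h5 | h5
  · by_cases hc : e'.1.val + e'.2.val < n + 1
    · left; exact hc
    · have := mod_eq_lt h5 (by omega) (by omega)
      omega
  · by_cases hc : e'.1.val + e'.2.val + 1 < n + 1
    · omega
    · have := mod_eq_lt h5 (by omega) (by omega)
      omega

lemma Se_dep {n k q : ℕ} (hn : n + 1 ≤ h) (hkn : k ≤ n) (hk : k + 1 < h) (v : List ℕ → ℕ)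
    {G : (Ent h → ℕ) → ℝ} (hG : DepOn (Dn h (n + 1) (k + 1)) G) :
    DepOn (Dn h (n + 1) k) (Se (Kk m v) q (eN h n k) G) := by
  intro b b' hb
  unfold Se
  refine Finset.sum_congr rfl fun a _ => ?_
  rw [Kk_dep m v _ a b b' fun e' he' => hb e' (low_mem hn hkn hk he')]
  congr 1
  apply hG
  intro f hf
  rw [Dn_insert hn hkn hk, Finset.mem_insert] at hf
  by_cases hfe : f = eN h n k
  · rw [hfe, Function.update_self, Function.update_self]
  · rw [Function.update_of_ne hfe, Function.update_of_ne hfe]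
    exact hb f (hf.resolve_left hfe)

lemma Se_abs {q : ℕ} {v : List ℕ → ℕ} (hv : ∀ l, v l < q) (e : Ent h)
    {G : (Ent h → ℕ) → ℝ} (hG1 : ∀ b, |G b| ≤ 1) (b : Ent h → ℕ) :
    |Se (Kk m v) q e G b| ≤ 1 := by
  unfold Se
  calc |∑ a ∈ Finset.range q, Kk m v e a b * G (Function.update b e a)|
      ≤ ∑ a ∈ Finset.range q, |Kk m v e a b * G (Function.update b e a)| :=
        Finset.abs_sum_le_sum_abs _ _
    _ ≤ ∑ a ∈ Finset.range q, Kk m v e a b := by
        refine Finset.sum_le_sum fun a _ => ?_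
        rw [abs_mul, abs_of_nonneg (Kk_nonneg m v e a b)]
        calc _ ≤ Kk m v e a b * 1 :=
              mul_le_mul_of_nonneg_left (hG1 _) (Kk_nonneg m v e a b)
          _ = _ := mul_one _
    _ = 1 := Kk_sum m hv e b

/-- The iterated mean of a function of the window labels is close to its kernel expectation. -/
theorem linear {q : ℕ} {v : List ℕ → ℕ} (hv : ∀ l, v l < q) {ε : ℝ} (hε : 0 ≤ ε)
    (hR : ∀ j, 0 < j → j < h → Rob m h j (lab v) ε v) (b₀ : Ent h → ℕ) :
    ∀ n k : ℕ, n ≤ h → k ≤ n → k < h → ∀ G : (Ent h → ℕ) → ℝ, (∀ b, |G b| ≤ 1) →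
      DepOn (Dn h n k) G →
      |(m.iter n).I (fun z => G (arr v z)) - FA (Kk m v) q (Dn h n k) b₀ G| ≤
        ((n * h + k : ℕ) : ℝ) * ε := by
  intro n
  induction n with
  | zero =>
    intro k _ hk _ G _ hG
    obtain rfl : k = 0 := by omega
    rw [Dn_zero_zero, FA_empty, Mean.iter_zero]
    rw [Dn_zero_zero] at hG
    rw [hG (arr v []) b₀ fun e he => absurd he (Finset.notMem_empty e), sub_self, abs_zero]
    positivity
  | succ n ihn =>
    intro k
    induction k with
    | zero =>
      intro hn _ _ G hG1 hG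
      rw [Dn_succ_zero] at hG ⊢
      have e1 : (m.iter (n + 1)).I (fun z => G (arr v z)) =
          (m.iter n).I (fun z => G (arr v z)) := by
        rw [m.iter_succ']
        apply m.iter_congr n
        intro l hl
        have : (fun w => G (arr v (l ++ [w]))) = fun _ => G (arr v l) := by
          funext w
          apply hG
          intro f hf
          rw [mem_Dn] at hf
          unfold arr
          congr 1
          rw [List.drop_append_of_le_length (by omega), List.take_append_of_le_length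
            (by rw [List.length_drop]; omega)]
        rw [this, m.const]
      rw [e1]
      refine (ihn n (by omega) le_rfl (by omega) G hG1 hG).trans ?_
      apply mul_le_mul_of_nonneg_right _ hε
      have : n * h + n ≤ (n + 1) * h + 0 := by
        have : (n + 1) * h = n * h + h := by ring
        omega
      exact_mod_cast this
    | succ k ihk =>
      intro hn hkn hk G hG1 hG
      have hkn' : k ≤ n := by omega
      rw [Dn_insert hn hkn' hk, FA_insert (Kk m v) (eN_notMem hn hk)
        (fun e' he' => K_update (Kk m v) (Kk_dep m v) (not_low_eN hn hkn' hk he'))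
        (K_update (Kk m v) (Kk_dep m v) (not_low_self _))]
      have h1 := remove m (n := n) (k := k) hn hkn' hk hv (hR (k + 1) (by omega) hk) hG1 hG
      have h2 := ihk hn (by omega) (by omega) (Se (Kk m v) q (eN h n k) G)
        (Se_abs m hv _ hG1) (Se_dep m hn hkn' hk v hG)
      have h3 := abs_sub_le ((m.iter (n + 1)).I (fun z => G (arr v z)))
        ((m.iter (n + 1)).I (fun z => Se (Kk m v) q (eN h n k) G (arr v z)))
        (FA (Kk m v) q (Dn h (n + 1) k) b₀ (Se (Kk m v) q (eN h n k) G))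
      have h4 : (((n + 1) * h + (k + 1) : ℕ) : ℝ) * ε =
          ε + (((n + 1) * h + k : ℕ) : ℝ) * ε := by
        push_cast; ring
      rw [h4]
      exact h3.trans (add_le_add h1 h2)

/-- The window set is down-closed. -/
lemma window_closed (e e' : Ent h) (he : e ∈ Dn h h (h - 1)) (hl : low e' e) :
    e' ∈ Dn h h (h - 1) := by
  obtain ⟨h3, h4, h5⟩ := hl
  rw [mem_Dn] at he ⊢
  have h6 := e'.1.isLt
  have h7 := e'.2.isLt
  have h8 := e.1.isLt
  have h9 := e.2.isLt
  refine ⟨h3, ?_⟩
  by_contra hc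
  have hc' : h < e'.1.val + e'.2.val := by omega
  have e1 : (e'.1.val + e'.2.val) % h = (e'.1.val + e'.2.val - h) % h := by
    conv_lhs => rw [show e'.1.val + e'.2.val = (e'.1.val + e'.2.val - h) + h by omega]
    exact Nat.add_mod_right _ _
  have e2 : (e'.1.val + e'.2.val + 1) % h = (e'.1.val + e'.2.val - h + 1) % h := by
    conv_lhs => rw [show e'.1.val + e'.2.val + 1 = (e'.1.val + e'.2.val - h + 1) + h by omega]
    exact Nat.add_mod_right _ _
  rcases h5 with h5 | h5
  · rw [e1] at h5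
    have := mod_eq_lt h5.symm (by omega) (by omega)
    omega
  · rw [e2] at h5
    have := mod_eq_lt h5.symm (by omega) (by omega)
    omega

/-- Rotation of arrays. -/
def rho (h : ℕ) [NeZero h] : Ent h ≃ Ent h := (Equiv.addRight (1 : Fin h)).prodCongr (Equiv.refl _)

/-- Rotation acting on arrays. -/
def rot (b : Ent h → ℕ) : Ent h → ℕ := fun e => b (rho h e)

lemma acell_mod (v0 : ℕ) (b : Ent h → ℕ) (i k : ℕ) :
    acell v0 b (i % h) k = acell v0 b i k := by
  funext j
  unfold acell
  have : Fin.ofNat h (i % h + j.val) = Fin.ofNat h (i + j.val) := by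
    apply Fin.ext
    simp only [Fin.val_ofNat, Nat.mod_add_mod]
  rw [this]

lemma acell_rot (v0 : ℕ) (b : Ent h → ℕ) (i k : ℕ) :
    acell v0 (rot b) i k = acell v0 b (i + 1) k := by
  funext j
  unfold acell rot rho
  split_ifs
  · congr 1
    apply Prod.ext
    · apply Fin.ext
      simp only [Equiv.prodCongr_apply, Prod.map_apply, Equiv.coe_addRight, Fin.val_add,
        Fin.val_ofNat, Fin.val_one']
      rw [Nat.add_mod_mod, Nat.mod_add_mod]
      congr 1
      ring
    · rfl
  · rfl

lemma Kk_rot (v : List ℕ → ℕ) (e : Ent h) (a : ℕ) (b : Ent h → ℕ) :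
    Kk m v e a (rot b) = Kk m v (rho h e) a b := by
  unfold Kk
  have e1 : (rho h e).2 = e.2 := rfl
  have e2 : (rho h e).1.val = (e.1.val + 1) % h := by
    change (e.1 + 1 : Fin h).val = _
    rw [Fin.val_add, Fin.val_one', Nat.add_mod_mod]
  rw [e1, e2]
  split_ifs
  · rfl
  · rw [acell_rot, acell_rot, acell_mod]
    have : acell (v []) b ((e.1.val + 1) % h + 1) (e.2.val - 1) =
        acell (v []) b (e.1.val + 1 + 1) (e.2.val - 1) := by
      rw [← acell_mod, Nat.mod_add_mod, acell_mod]
    rw [this]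

/-- Rotation invariance of the cyclic law. -/
lemma FA_rot (q : ℕ) (v : List ℕ → ℕ) (b₀ : Ent h → ℕ) (G : (Ent h → ℕ) → ℝ) :
    FA (Kk m v) q Finset.univ b₀ (fun b => G (rot b)) = FA (Kk m v) q Finset.univ b₀ G := by
  unfold FA
  refine Finset.sum_nbij' (fun b => rot b) (fun b => fun e => b ((rho h).symm e)) ?_ ?_ ?_ ?_ ?_
  · intro b hb
    rw [mem_asg] at hb ⊢
    exact ⟨fun e _ => hb.1 _ (Finset.mem_univ _), fun e he => absurd (Finset.mem_univ e) he⟩
  · intro b hb
    rw [mem_asg] at hb ⊢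
    exact ⟨fun e _ => hb.1 _ (Finset.mem_univ _), fun e he => absurd (Finset.mem_univ e) he⟩
  · intro b _
    funext e
    change b ((rho h) ((rho h).symm e)) = b e
    rw [Equiv.apply_symm_apply]
  · intro b _
    funext e
    change b ((rho h).symm ((rho h) e)) = b e
    rw [Equiv.symm_apply_apply]
  · intro b _
    congr 1
    simp only [Kk_rot]
    exact (Equiv.prod_comp (rho h) (fun e => Kk m v e (b e) b)).symm

end Pool.Agent.V11151.CMean
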