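import Mathlib

/-!
# The face polynomial of the crown order polytope is log-concave
-/

namespace Pool.Agent.V11151.CrownPoly

open Polynomial

/-- A strong form of log-concavity, preserved by multiplication with `X + a`, `a > 0`. -/
structure ULC (h : ℝ[X]) : Prop where
  nonneg : ∀ k, 0 ≤ h.coeff k
  zero : ∀ k, h.coeff k = 0 → h.coeff (k + 1) = 0
  conc : ∀ k : ℕ, ((k : ℝ) + 2) * (h.coeff k * h.coeff (k + 2)) ≤ (k + 1) * h.coeff (k + 1) ^ 2

lemma coeff_mul_zero (h : ℝ[X]) (a : ℝ) : (h * (X + C a)).coeff 0 = a * h.coeff 0 := by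
  rw [mul_add, coeff_add, coeff_mul_X_zero, coeff_mul_C]; ring

lemma coeff_mul_succ (h : ℝ[X]) (a : ℝ) (k : ℕ) :
    (h * (X + C a)).coeff (k + 1) = h.coeff k + a * h.coeff (k + 1) := by
  rw [mul_add, coeff_add, coeff_mul_X, coeff_mul_C]; ring

lemma ULC.cross {h : ℝ[X]} (H : ULC h) (k : ℕ) :
    ((k : ℝ) + 3) * (h.coeff k * h.coeff (k + 3)) ≤
      (k + 1) * (h.coeff (k + 1) * h.coeff (k + 2)) := by
  have n0 := H.nonneg k
  have n1 := H.nonneg (k + 1)
  have n2 := H.nonneg (k + 2)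
  have n3 := H.nonneg (k + 3)
  have c1 := H.conc k
  have c2 := H.conc (k + 1)
  push_cast at c2
  have c2' : ((k : ℝ) + 3) * (h.coeff (k + 1) * h.coeff (k + 3)) ≤ (k + 2) * h.coeff (k + 2) ^ 2 := by
    have e : ((k : ℝ) + 1 + 2) = k + 3 := by ring
    have e' : ((k : ℝ) + 1 + 1) = k + 2 := by ring
    rw [e, e'] at c2
    exact c2
  rcases eq_or_lt_of_le n1 with h1 | h1
  · have z2 := H.zero (k + 1) h1.symm
    have z3 := H.zero (k + 2) z2
    rw [z3, z2]; simp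
  rcases eq_or_lt_of_le n2 with h2 | h2
  · have z3 := H.zero (k + 2) h2.symm
    rw [z3, ← h2]; simp
  have hp : 0 < h.coeff (k + 1) * h.coeff (k + 2) := mul_pos h1 h2
  have hk : (0 : ℝ) ≤ k := Nat.cast_nonneg k
  have m1 : (((k : ℝ) + 2) * (h.coeff k * h.coeff (k + 2))) *
      (((k : ℝ) + 3) * (h.coeff (k + 1) * h.coeff (k + 3))) ≤
      ((k + 1) * h.coeff (k + 1) ^ 2) * ((k + 2) * h.coeff (k + 2) ^ 2) :=
    mul_le_mul c1 c2' (by positivity) (by positivity)
  have m2 : (((k : ℝ) + 3) * (h.coeff k * h.coeff (k + 3))) *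
      (((k : ℝ) + 2) * (h.coeff (k + 1) * h.coeff (k + 2))) ≤
      ((k + 1) * (h.coeff (k + 1) * h.coeff (k + 2))) *
      (((k : ℝ) + 2) * (h.coeff (k + 1) * h.coeff (k + 2))) := by
    calc _ = _ := by ring
      _ ≤ _ := m1
      _ = _ := by ring
  exact le_of_mul_le_mul_right m2 (by positivity)

lemma ULC.mul {h : ℝ[X]} (H : ULC h) {a : ℝ} (ha : 0 < a) : ULC (h * (X + C a)) := by
  refine ⟨fun k => ?_, fun k hk => ?_, fun k => ?_⟩
  · cases k with
    | zero => rw [coeff_mul_zero]; exact mul_nonneg ha.le (H.nonneg 0)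
    | succ k =>
      rw [coeff_mul_succ]
      exact add_nonneg (H.nonneg k) (mul_nonneg ha.le (H.nonneg _))
  · cases k with
    | zero =>
      rw [coeff_mul_zero] at hk
      have h0 : h.coeff 0 = 0 := (mul_eq_zero.1 hk).resolve_left ha.ne'
      rw [coeff_mul_succ, h0, H.zero 0 h0]; ring
    | succ k =>
      rw [coeff_mul_succ] at hk ⊢
      have n0 := H.nonneg k
      have n1 := mul_nonneg ha.le (H.nonneg (k + 1))
      have h1 : a * h.coeff (k + 1) = 0 := by linarith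
      have h1' : h.coeff (k + 1) = 0 := (mul_eq_zero.1 h1).resolve_left ha.ne'
      rw [h1', H.zero _ h1']; ring
  · cases k with
    | zero =>
      rw [coeff_mul_zero, coeff_mul_succ, coeff_mul_succ]
      have c := H.conc 0
      push_cast at c ⊢
      simp only [zero_add] at c ⊢
      nlinarith [sq_nonneg (h.coeff 0), mul_le_mul_of_nonneg_left c (sq_nonneg a)]
    | succ k =>
      rw [coeff_mul_succ, coeff_mul_succ, coeff_mul_succ]
      have n0 := H.nonneg k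
      have n1 := H.nonneg (k + 1)
      have n2 := H.nonneg (k + 2)
      have n3 := H.nonneg (k + 3)
      have hk : (0 : ℝ) ≤ k := Nat.cast_nonneg k
      have c1 := H.conc k
      have c2 := H.conc (k + 1)
      have c3 := H.cross k
      push_cast at c2 ⊢
      have e : ((k : ℝ) + 1 + 2) = k + 3 := by ring
      have e' : ((k : ℝ) + 1 + 1) = k + 2 := by ring
      rw [e, e'] at c2 ⊢
      have e2 : k + 1 + 2 = k + 3 := rfl
      have e1 : k + 1 + 1 = k + 2 := rfl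
      rw [e2, e1] at *
      set x0 := h.coeff k
      set x1 := h.coeff (k + 1)
      set x2 := h.coeff (k + 2)
      set x3 := h.coeff (k + 3)
      have f1 : ((k : ℝ) + 3) * (x0 * x2) ≤ (k + 2) * x1 ^ 2 := by
        have : ((k : ℝ) + 1) * (((k : ℝ) + 3) * (x0 * x2)) ≤ ((k : ℝ) + 1) * ((k + 2) * x1 ^ 2) := by
          have h1 : ((k : ℝ) + 2) * (((k : ℝ) + 2) * (x0 * x2)) ≤
              ((k : ℝ) + 2) * ((k + 1) * x1 ^ 2) := mul_le_mul_of_nonneg_left c1 (by linarith)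
          have h2 : 0 ≤ x0 * x2 := mul_nonneg n0 n2
          nlinarith
        exact le_of_mul_le_mul_left this (by linarith)
      have f3 := mul_le_mul_of_nonneg_left c2 (sq_nonneg a)
      have f2 := mul_le_mul_of_nonneg_left c3 ha.le
      nlinarith

lemma ULC.one : ULC (1 : ℝ[X]) := by
  refine ⟨fun k => ?_, fun k _ => ?_, fun k => ?_⟩
  · rw [coeff_one]; split_ifs <;> norm_num
  · rw [coeff_one]; simp
  · have h1 : (1 : ℝ[X]).coeff (k + 2) = 0 := by rw [coeff_one]; simp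
    rw [h1]
    simp only [mul_zero]
    positivity

/-- products of linear factors -/
lemma ULC.prod {ι : Type*} (s : Finset ι) (a : ι → ℝ) (ha : ∀ i ∈ s, 1 ≤ a i) {h : ℝ[X]}
    (H : ULC h) {N : ℕ} (hN : h.coeff 1 ≤ N * h.coeff 0) :
    ULC (h * ∏ i ∈ s, (X + C (a i))) ∧
    (h * ∏ i ∈ s, (X + C (a i))).coeff 1 ≤
      ((N + s.card : ℕ) : ℝ) * (h * ∏ i ∈ s, (X + C (a i))).coeff 0 := by
  classical
  induction s using Finset.induction_on with
  | empty => simpa using ⟨H, hN⟩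
  | insert i s hi ih =>
    obtain ⟨h1, h2⟩ := ih fun j hj => ha j (Finset.mem_insert_of_mem hj)
    have hai : 1 ≤ a i := ha i (Finset.mem_insert_self i s)
    rw [Finset.prod_insert hi, mul_comm (X + C (a i)), ← mul_assoc, Finset.card_insert_of_notMem hi]
    set G := h * ∏ i ∈ s, (X + C (a i)) with hG
    refine ⟨h1.mul (by linarith), ?_⟩
    rw [coeff_mul_zero, coeff_mul_succ]
    have g0 := h1.nonneg 0
    push_cast at h2 ⊢
    have h3 := mul_le_mul_of_nonneg_left h2 (by linarith : (0 : ℝ) ≤ a i)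
    nlinarith

/-- `λ^n + μ^n` where `λ + μ = (1 + X)(3 + X)` and `λ μ = (1 + X)²` -/
noncomputable def ell : ℕ → ℝ[X]
  | 0 => 2
  | 1 => (1 + X) * (3 + X)
  | (n + 2) => (1 + X) * (3 + X) * ell (n + 1) - (1 + X) ^ 2 * ell n

lemma ell_eval {l u t : ℝ} (h1 : l + u = (1 + t) * (3 + t)) (h2 : l * u = (1 + t) ^ 2) :
    ∀ n, (ell n).eval t = l ^ n + u ^ n ∧ (ell (n + 1)).eval t = l ^ (n + 1) + u ^ (n + 1) := by
  intro n
  induction n with
  | zero =>
    constructor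
    · simp [ell]; norm_num
    · simp [ell, ← h1]
  | succ n ih =>
    refine ⟨ih.2, ?_⟩
    show (ell (n + 2)).eval t = _
    rw [ell]
    simp only [eval_sub, eval_mul, eval_add, eval_one, eval_X, eval_pow, eval_ofNat]
    rw [ih.1, ih.2, ← h1, ← h2]
    ring

lemma U_prod (m : ℕ) (x : ℝ) : (Chebyshev.U ℝ m).eval x =
    2 ^ m * ∏ k ∈ Finset.range m, (x - Real.cos (((k : ℕ) + 1) * Real.pi / (m + 1))) := by
  have hr := Chebyshev.roots_U_real m
  have hnd := Chebyshev.roots_U_real_nodup m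
  have hmap : (Chebyshev.U ℝ m).roots = (Multiset.range m).map
      (fun k : ℕ => Real.cos ((k + 1) * Real.pi / (m + 1))) := by
    rw [hr, Finset.image_val, Finset.range_val, Multiset.dedup_eq_self.2 hnd]
  have hcard : Multiset.card (Chebyshev.U ℝ m).roots = (Chebyshev.U ℝ m).natDegree := by
    rw [hmap, Multiset.card_map, Multiset.card_range, Chebyshev.natDegree_U_natCast]
  have h := C_leadingCoeff_mul_prod_multiset_X_sub_C hcard
  rw [← h, Chebyshev.leadingCoeff_U_natCast, hmap, Multiset.map_map, eval_mul, eval_C,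
    eval_multiset_prod, Multiset.map_map]
  congr 1
  simp only [Function.comp_def, eval_sub, eval_X, eval_C]
  rfl

lemma U_sq (m : ℕ) (x : ℝ) : (Chebyshev.U ℝ m).eval x ^ 2 =
    ∏ k ∈ Finset.range m, (4 * x ^ 2 - 4 * Real.cos (((k : ℕ) + 1) * Real.pi / (m + 1)) ^ 2) := by
  have h1 : (Chebyshev.U ℝ m).eval x ^ 2 =
      (-1) ^ m * ((Chebyshev.U ℝ m).eval x * (Chebyshev.U ℝ m).eval (-x)) := by
    have h := Chebyshev.U_eval_neg ℝ m x
    rw [h]
    have h2 : (((m : ℤ).negOnePow : ℤ) : ℝ) = (-1) ^ m := by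
      rw [Int.negOnePow_def]
      simp
    have h3 : ((-1 : ℝ) ^ m) * (-1) ^ m = 1 := by
      rw [← mul_pow]; norm_num
    rw [sq]
    have h4 : (((m : ℤ).negOnePow : ℤˣ) : ℝ) = (-1 : ℝ) ^ m := by
      simp [Int.negOnePow_def]
    rw [h4]
    calc _ = ((-1 : ℝ) ^ m * (-1) ^ m) * (eval x (Chebyshev.U ℝ m) * eval x (Chebyshev.U ℝ m)) := by
          rw [h3, one_mul]
      _ = _ := by ring
  rw [h1, U_prod, U_prod]
  have h5 : ∀ A B : ℝ, (-1 : ℝ) ^ m * ((2 ^ m * A) * (2 ^ m * B)) =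
      (∏ k ∈ Finset.range m, (-4 : ℝ)) * (A * B) := by
    intro A B
    rw [Finset.prod_const, Finset.card_range, show (-4 : ℝ) = (-1) * 2 * 2 by norm_num, mul_pow,
      mul_pow]
    ring
  rw [h5]
  rw [← Finset.prod_mul_distrib, ← Finset.prod_mul_distrib]
  apply Finset.prod_congr rfl
  intro k _
  ring

/-- the roots -/
noncomputable def rt (m k : ℕ) : ℝ := 5 - 4 * Real.cos (((k : ℕ) + 1) * Real.pi / (m + 1)) ^ 2

lemma one_le_rt (m k : ℕ) : 1 ≤ rt m k := by
  unfold rt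
  have := Real.cos_sq_le_one (((k : ℕ) + 1) * Real.pi / (m + 1))
  linarith

/-- real-rooted part of the face polynomial -/
noncomputable def HH (m : ℕ) : ℝ[X] :=
  (X + C 1) ^ (m + 2) * ∏ k ∈ Finset.range m, (X + C (rt m k))

lemma U_closed {w : ℝ} (hw : w ≠ 0) : ∀ n : ℕ,
    (Chebyshev.U ℝ n).eval ((w + w⁻¹) / 2) * (w - w⁻¹) = w ^ (n + 1) - (w⁻¹) ^ (n + 1) ∧
    (Chebyshev.U ℝ (n + 1 : ℕ)).eval ((w + w⁻¹) / 2) * (w - w⁻¹) =
      w ^ (n + 2) - (w⁻¹) ^ (n + 2) := by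
  intro n
  induction n with
  | zero =>
    constructor
    · simp
    · simp only [zero_add, Nat.cast_one, Chebyshev.U_one, eval_mul, eval_ofNat, eval_X]
      ring
  | succ n ih =>
    refine ⟨ih.2, ?_⟩
    have h := Chebyshev.U_add_two ℝ (n : ℤ)
    have e : ((n + 1 + 1 : ℕ) : ℤ) = (n : ℤ) + 2 := by push_cast; ring
    rw [e, h]
    simp only [eval_sub, eval_mul, eval_ofNat, eval_X]
    have h1 := ih.1
    have h2 := ih.2
    have e' : ((n + 1 : ℕ) : ℤ) = (n : ℤ) + 1 := by push_cast; ring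
    rw [e'] at h2
    have hww : w * w⁻¹ = 1 := mul_inv_cancel₀ hw
    have h3 : (2 * ((w + w⁻¹) / 2) * eval ((w + w⁻¹) / 2) (Chebyshev.U ℝ ((n : ℤ) + 1)) -
        eval ((w + w⁻¹) / 2) (Chebyshev.U ℝ (n : ℤ))) * (w - w⁻¹) =
        (w + w⁻¹) * (eval ((w + w⁻¹) / 2) (Chebyshev.U ℝ ((n : ℤ) + 1)) * (w - w⁻¹)) -
        eval ((w + w⁻¹) / 2) (Chebyshev.U ℝ (n : ℤ)) * (w - w⁻¹) := by ring
    rw [h3, h1, h2]
    have h4 : (w + w⁻¹) * (w ^ (n + 2) - w⁻¹ ^ (n + 2)) =
        w ^ (n + 3) - w⁻¹ ^ (n + 3) + (w * w⁻¹) * (w ^ (n + 1) - w⁻¹ ^ (n + 1)) := by ring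
    rw [h4, hww]
    ring

/-- The main identity. -/
lemma ell_eq (m : ℕ) : ell (m + 1) = 2 * (X + C 1) ^ (m + 1) + HH m := by
  apply eq_of_infinite_eval_eq
  apply (Set.Ici_infinite (0 : ℝ)).mono
  intro t (ht : 0 ≤ t)
  show (ell (m + 1)).eval t = _
  -- parametrize
  set z := Real.sqrt (t + 5) with hz
  have hz2 : z ^ 2 = t + 5 := Real.sq_sqrt (by linarith)
  have hz0 : 0 ≤ z := Real.sqrt_nonneg _
  set d := Real.sqrt (t + 1) with hd
  have hd2 : d ^ 2 = t + 1 := Real.sq_sqrt (by linarith)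
  have hd0 : 0 ≤ d := Real.sqrt_nonneg _
  set w := (z + d) / 2 with hw
  have hzpos : 0 < z := Real.sqrt_pos.2 (by linarith)
  have hwpos : 0 < w := by rw [hw]; positivity
  have hwi : w⁻¹ = (z - d) / 2 := by
    apply inv_eq_of_mul_eq_one_right
    rw [hw]; nlinarith
  have e1 : w + w⁻¹ = z := by rw [hwi, hw]; ring
  have e2 : w - w⁻¹ = d := by rw [hwi, hw]; ring
  have hww : w * w⁻¹ = 1 := mul_inv_cancel₀ hwpos.ne'
  have hl : (1 + t) * w ^ 2 + (1 + t) * w⁻¹ ^ 2 = (1 + t) * (3 + t) := by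
    have : w ^ 2 + w⁻¹ ^ 2 = z ^ 2 - 2 := by
      rw [← e1]
      have : (w + w⁻¹) ^ 2 - 2 = w ^ 2 + w⁻¹ ^ 2 + 2 * (w * w⁻¹) - 2 := by ring
      rw [this, hww]; ring
    rw [← mul_add, this, hz2]; ring
  have hm : ((1 + t) * w ^ 2) * ((1 + t) * w⁻¹ ^ 2) = (1 + t) ^ 2 := by
    have : ((1 + t) * w ^ 2) * ((1 + t) * w⁻¹ ^ 2) = (1 + t) ^ 2 * (w * w⁻¹) ^ 2 := by ring
    rw [this, hww]; ring
  rw [(ell_eval hl hm m).2]
  have hU := (U_closed hwpos.ne' m).1
  rw [e1, e2] at hU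
  have hUs := U_sq m (z / 2)
  have hprod : (∏ k ∈ Finset.range m, (X + C (rt m k))).eval t =
      (Chebyshev.U ℝ m).eval (z / 2) ^ 2 := by
    rw [hUs, eval_prod]
    apply Finset.prod_congr rfl
    intro k _
    rw [eval_add, eval_X, eval_C]
    unfold rt
    have : 4 * (z / 2) ^ 2 = t + 5 := by rw [← hz2]; ring
    rw [this]; ring
  rw [HH, eval_add, eval_mul, eval_mul, hprod, eval_pow, eval_pow, eval_add, eval_X, eval_C,
    eval_ofNat]
  have h6 : ((Chebyshev.U ℝ m).eval (z / 2)) ^ 2 * (t + 1) =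
      (w ^ (m + 1) - w⁻¹ ^ (m + 1)) ^ 2 := by
    rw [← hd2, ← mul_pow, hU]
  have h7 : (w ^ (m + 1) - w⁻¹ ^ (m + 1)) ^ 2 =
      (w ^ 2) ^ (m + 1) + (w⁻¹ ^ 2) ^ (m + 1) - 2 := by
    have : (w ^ (m + 1) - w⁻¹ ^ (m + 1)) ^ 2 =
      (w ^ 2) ^ (m + 1) + (w⁻¹ ^ 2) ^ (m + 1) - 2 * (w * w⁻¹) ^ (m + 1) := by ring
    rw [this, hww, one_pow, mul_one]
  have h8 : (t + 1) ^ (m + 2) * (Chebyshev.U ℝ m).eval (z / 2) ^ 2 =
      (t + 1) ^ (m + 1) * ((Chebyshev.U ℝ m).eval (z / 2) ^ 2 * (t + 1)) := by ring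
  rw [h8, h6, h7, mul_pow, mul_pow]
  ring

lemma HH_ulc (m : ℕ) : ULC (HH m) ∧ (HH m).coeff 1 ≤ ((2 * m + 2 : ℕ) : ℝ) * (HH m).coeff 0 := by
  have h1 := ULC.prod (Finset.range (m + 2)) (fun _ => (1 : ℝ)) (fun _ _ => le_rfl) ULC.one
    (N := 0) (by rw [coeff_one]; norm_num)
  rw [Finset.prod_const, Finset.card_range, one_mul] at h1
  have h2 := ULC.prod (Finset.range m) (rt m) (fun k _ => one_le_rt m k) h1.1 h1.2
  rw [Finset.card_range] at h2
  refine ⟨h2.1, ?_⟩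
  have e : 0 + (m + 2) + m = 2 * m + 2 := by ring
  rw [e] at h2
  exact h2.2

lemma HH_one_ge (m : ℕ) : (HH m).coeff 0 ≤ (HH m).coeff 1 := by
  have h1 := ULC.prod (Finset.range (m + 1)) (fun _ => (1 : ℝ)) (fun _ _ => le_rfl) ULC.one
    (N := 0) (by rw [coeff_one]; norm_num)
  have h2 := ULC.prod (Finset.range m) (rt m) (fun k _ => one_le_rt m k) h1.1 h1.2
  rw [Finset.prod_const, Finset.card_range, one_mul] at h2
  have e : HH m = ((X + C 1) ^ (m + 1) * ∏ k ∈ Finset.range m, (X + C (rt m k))) * (X + C 1) := by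
    unfold HH; ring
  rw [e, coeff_mul_zero, coeff_mul_succ]
  have := h2.1.nonneg 1
  linarith

lemma ell_zero (n : ℕ) : (ell n).eval 0 ≤ (ell (n + 1)).eval 0 ∧
    2 * ((n : ℝ) + 1) ≤ (ell (n + 1)).eval 0 := by
  induction n with
  | zero => simp [ell]; norm_num
  | succ n ih =>
    have h : (ell (n + 2)).eval 0 = 3 * (ell (n + 1)).eval 0 - (ell n).eval 0 := by
      rw [ell]; simp
    rw [show n + 1 + 1 = n + 2 from rfl, h]
    have hn : (0 : ℝ) ≤ n := Nat.cast_nonneg n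
    push_cast
    constructor <;> linarith [ih.1, ih.2]

lemma HH_zero (m : ℕ) : 2 * (m : ℝ) ≤ (HH m).coeff 0 := by
  have h := congrArg (eval 0) (ell_eq m)
  rw [eval_add, ← coeff_zero_eq_eval_zero (HH m)] at h
  simp only [eval_mul, eval_ofNat, eval_pow, eval_add, eval_X, eval_C, zero_add, one_pow,
    mul_one] at h
  have := (ell_zero m).2
  linarith

/-- the face polynomial -/
noncomputable def FF (m : ℕ) : ℝ[X] := 2 + X + HH m

lemma FF_zero (m : ℕ) : (FF m).coeff 0 = 2 + (HH m).coeff 0 := by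
  unfold FF; simp

lemma FF_one (m : ℕ) : (FF m).coeff 1 = 1 + (HH m).coeff 1 := by
  unfold FF
  rw [coeff_add, coeff_add, coeff_X_one]
  have : (2 : ℝ[X]).coeff 1 = 0 := by
    rw [show (2 : ℝ[X]) = C 2 from rfl, coeff_C]; simp
  rw [this]; ring

lemma FF_ge (m k : ℕ) : (FF m).coeff (k + 2) = (HH m).coeff (k + 2) := by
  unfold FF
  rw [coeff_add, coeff_add, coeff_X]
  have : (2 : ℝ[X]).coeff (k + 2) = 0 := by
    rw [show (2 : ℝ[X]) = C 2 from rfl, coeff_C]; simp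
  rw [this]; simp

lemma HH_m0 : HH 0 = 1 + 2 * X + X ^ 2 := by
  unfold HH
  simp only [Finset.range_zero, Finset.prod_empty, mul_one, map_one]
  ring

/-- The sequence `1, F_0, F_1, ...` is log-concave. -/
theorem FF_logconcave (m : ℕ) : (FF m).coeff 1 ≤ (FF m).coeff 0 ^ 2 ∧
    ∀ k, (FF m).coeff k * (FF m).coeff (k + 2) ≤ (FF m).coeff (k + 1) ^ 2 := by
  obtain ⟨H, h10⟩ := HH_ulc m
  have h0 := HH_zero m
  have h01 := HH_one_ge m
  have n0 := H.nonneg 0
  have n1 := H.nonneg 1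
  have n2 := H.nonneg 2
  have n3 := H.nonneg 3
  push_cast at h10
  constructor
  · rw [FF_zero, FF_one]
    nlinarith
  · intro k
    rcases Nat.eq_zero_or_pos m with rfl | hm
    · have e : FF 0 = 3 + 3 * X + X ^ 2 := by
        unfold FF; rw [HH_m0]; ring
      have c : ∀ j, (FF 0).coeff j = if j = 0 then 3 else if j = 1 then 3 else
          if j = 2 then 1 else 0 := by
        intro j
        rw [e, coeff_add, coeff_add, coeff_X_pow, show (3 : ℝ[X]) = C 3 from rfl, coeff_C,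
          coeff_C_mul, coeff_X]
        rcases j with _ | _ | _ | j
        · norm_num
        · norm_num
        · norm_num
        · simp
      rw [c, c, c]
      rcases k with _ | _ | k
      · norm_num
      · norm_num
      · simp
    · have hm' : (1 : ℝ) ≤ m := by exact_mod_cast hm
      have c0 := H.conc 0
      have c1 := H.conc 1
      push_cast at c0 c1
      simp only [zero_add, one_mul] at c0
      rcases k with _ | _ | k
      · rw [FF_zero, FF_one, show (0 : ℕ) + 2 = 0 + 2 from rfl, FF_ge]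
        simp only [zero_add]
        nlinarith
      · rw [show 0 + 1 = 1 from rfl, FF_one, show (1 : ℕ) + 2 = 1 + 2 from rfl, FF_ge,
          show (1 : ℕ) + 1 = 0 + 2 from rfl, FF_ge]
        norm_num at c1 ⊢
        nlinarith [mul_nonneg n1 n3]
      · rw [show k + 1 + 1 = k + 2 from rfl, FF_ge, show k + 2 + 2 = (k + 2) + 2 from rfl, FF_ge,
          show k + 2 + 1 = (k + 1) + 2 from rfl, FF_ge]
        have c := H.conc (k + 2)
        have p := mul_nonneg (H.nonneg (k + 2)) (H.nonneg (k + 2 + 2))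
        have hk : (0 : ℝ) ≤ ((k + 2 : ℕ) : ℝ) := Nat.cast_nonneg _
        have e3 : k + 2 + 1 = k + 1 + 2 := rfl
        rw [e3] at c
        nlinarith

end Pool.Agent.V11151.CrownPoly
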