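import Pool.Agent.V11151.CrownFaces
import Pool.Agent.V11151.CrownPoly

/-!
# Counting the faces of the crown order polytope
-/

namespace Pool.Agent.V11151.CrownCount

open Polynomial Pool.Agent.V11151.CrownFaces Pool.Agent.V11151.CrownPoly Pool.Agent.W304.HL

variable {m : ℕ}

/-! ### Closed walks and traces -/

section trace

variable {S : Type*} [Fintype S] [DecidableEq S] {R : Type*} [CommRing R]

lemma sum_paths (M : Matrix S S R) (k : ℕ) : ∀ phi : S → S → R,
    ∑ s : Fin (k + 1) → S, (∏ j : Fin k, M (s j.castSucc) (s j.succ)) * phi (s 0) (s (Fin.last k)) =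
      ∑ a, ∑ b, (M ^ k) a b * phi a b := by
  induction k with
  | zero =>
    intro phi
    rw [← (Equiv.funUnique (Fin 1) S).symm.sum_comp]
    simp only [Finset.univ_eq_empty, Finset.prod_empty, one_mul, pow_zero]
    apply Finset.sum_congr rfl
    intro a _
    rw [Finset.sum_eq_single a]
    · simp
    · intro b _ hb
      rw [Matrix.one_apply_ne (Ne.symm hb), zero_mul]
    · intro h; exact absurd (Finset.mem_univ _) h
  | succ k ih =>
    intro phi
    rw [← (Fin.consEquiv (fun _ : Fin (k + 1 + 1) => S)).sum_comp, Fintype.sum_prod_type]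
    have h1 : ∀ a : S, ∀ s : Fin (k + 1) → S,
        (∏ j : Fin (k + 1), M ((Fin.consEquiv (fun _ : Fin (k + 1 + 1) => S)) (a, s) j.castSucc)
          ((Fin.consEquiv (fun _ : Fin (k + 1 + 1) => S)) (a, s) j.succ)) *
          phi ((Fin.consEquiv (fun _ : Fin (k + 1 + 1) => S)) (a, s) 0)
            ((Fin.consEquiv (fun _ : Fin (k + 1 + 1) => S)) (a, s) (Fin.last (k + 1))) =
        (∏ j : Fin k, M (s j.castSucc) (s j.succ)) * (M a (s 0) * phi a (s (Fin.last k))) := by
      intro a s
      rw [Fin.prod_univ_succ]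
      simp only [Fin.consEquiv_apply]
      have e1 : (Fin.cons a s : Fin (k + 1 + 1) → S) (Fin.last (k + 1)) = s (Fin.last k) := by
        rw [← Fin.succ_last, Fin.cons_succ]
      have e2 : ∀ j : Fin k, (Fin.cons a s : Fin (k + 1 + 1) → S) j.succ.castSucc = s j.castSucc := by
        intro j
        rw [← Fin.succ_castSucc, Fin.cons_succ]
      have e3 : (Fin.cons a s : Fin (k + 1 + 1) → S) (Fin.castSucc 0) = a := by
        simp
      simp only [Fin.cons_succ, Fin.cons_zero, e1, e2, e3]
      ring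
    simp only [h1]
    have h2 : ∀ a : S, ∑ s : Fin (k + 1) → S, (∏ j : Fin k, M (s j.castSucc) (s j.succ)) *
        (M a (s 0) * phi a (s (Fin.last k))) = ∑ a', ∑ b, (M ^ k) a' b * (M a a' * phi a b) :=
      fun a => ih (fun a' b => M a a' * phi a b)
    simp only [h2]
    apply Finset.sum_congr rfl
    intro a _
    rw [Finset.sum_comm]
    apply Finset.sum_congr rfl
    intro b _
    rw [pow_succ', Matrix.mul_apply, Finset.sum_mul]
    apply Finset.sum_congr rfl
    intro a' _
    ring

lemma trace_eq (M : Matrix S S R) (m : ℕ) :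
    ∑ s : Fin (m + 1) → S, ∏ j, M (s j) (s (j + 1)) = (M ^ (m + 1)).trace := by
  have h1 : ∀ s : Fin (m + 1) → S, ∏ j, M (s j) (s (j + 1)) =
      (∏ j : Fin m, M (s j.castSucc) (s j.succ)) * M (s (Fin.last m)) (s 0) := by
    intro s
    rw [Fin.prod_univ_castSucc]
    congr 1
    · apply Finset.prod_congr rfl
      intro j _
      congr 2
      simp
    · congr 2
      simp
  simp only [h1]
  rw [sum_paths M m (fun a b => M b a), pow_succ, Matrix.trace]
  apply Finset.sum_congr rfl
  intro a _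
  rw [Matrix.diag_apply, Matrix.mul_apply]

end trace

/-! ### The transfer matrix -/

/-- weights of the up-edges -/
noncomputable def al (s u : Fin 3) (b : Bool) : ℝ[X] :=
  if Up s u b = true then (if u = 1 ∧ b = false then X else 1) else 0

/-- weights of the down-edges -/
noncomputable def be (s u : Fin 3) (b : Bool) : ℝ[X] :=
  if Up s u b = true then (if s = 1 ∧ b = false then X else 1) else 0

/-- the transfer matrix -/
noncomputable def MM : Matrix (Fin 3) (Fin 3) ℝ[X] :=
  Matrix.of fun s s' => ∑ t, (∑ b, al s t b) * ∑ b, be s' t b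

lemma up00t : Up 0 0 true = true := rfl
lemma up00f : Up 0 0 false = false := rfl
lemma up01t : Up 0 1 true = false := rfl
lemma up01f : Up 0 1 false = true := rfl
lemma up02t : Up 0 2 true = false := rfl
lemma up02f : Up 0 2 false = true := rfl
lemma up10t : Up 1 0 true = false := rfl
lemma up10f : Up 1 0 false = false := rfl
lemma up11t : Up 1 1 true = true := rfl
lemma up11f : Up 1 1 false = true := rfl
lemma up12t : Up 1 2 true = false := rfl
lemma up12f : Up 1 2 false = true := rfl
lemma up20t : Up 2 0 true = false := rfl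
lemma up20f : Up 2 0 false = false := rfl
lemma up21t : Up 2 1 true = false := rfl
lemma up21f : Up 2 1 false = false := rfl
lemma up22t : Up 2 2 true = true := rfl
lemma up22f : Up 2 2 false = false := rfl

lemma MM_eq : MM = !![2 + X, 2 * X + X ^ 2, 1; 2 + X, 1 + 3 * X + X ^ 2, 1; 1, X, 1] := by
  ext1 i j
  unfold MM
  rw [Matrix.of_apply]
  fin_cases i <;> fin_cases j <;>
    simp only [Fin.sum_univ_three, Fintype.sum_bool, al, be, Fin.zero_eta, Fin.mk_one,
      Fin.reduceFinMk, up00t, up00f, up01t, up01f, up02t, up02f, up10t, up10f, up11t, up11f, up12t, up12f, up20t, up20f, up21t, up21f, up22t, up22f] <;> simp <;> ring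

lemma MM_cube : MM ^ 3 = ((1 + X) * (3 + X) + 1 : ℝ[X]) • MM ^ 2 -
    ((1 + X) * (3 + X) + (1 + X) ^ 2 : ℝ[X]) • MM + ((1 + X) ^ 2 : ℝ[X]) • (1 : Matrix (Fin 3) (Fin 3) ℝ[X]) := by
  rw [MM_eq, pow_succ, pow_two]
  ext1 i j
  fin_cases i <;> fin_cases j <;>
    simp [Matrix.mul_apply, Fin.sum_univ_three] <;> ring

lemma trace_MM (n : ℕ) : (MM ^ n).trace = 1 + ell n ∧ (MM ^ (n + 1)).trace = 1 + ell (n + 1) ∧
    (MM ^ (n + 2)).trace = 1 + ell (n + 2) := by
  induction n with
  | zero =>
    refine ⟨?_, ?_, ?_⟩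
    · simp [ell]; norm_num
    · rw [zero_add, pow_one, MM_eq]
      simp [Matrix.trace, Fin.sum_univ_three, ell]; ring
    · rw [zero_add, pow_two, MM_eq]
      simp [Matrix.trace, Matrix.mul_apply, Fin.sum_univ_three, ell]; ring
  | succ n ih =>
    refine ⟨ih.2.1, ih.2.2, ?_⟩
    have h : MM ^ (n + 1 + 2) = ((1 + X) * (3 + X) + 1 : ℝ[X]) • MM ^ (n + 2) -
        ((1 + X) * (3 + X) + (1 + X) ^ 2 : ℝ[X]) • MM ^ (n + 1) + ((1 + X) ^ 2 : ℝ[X]) • MM ^ n := by
      have e : n + 1 + 2 = n + 3 := by ring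
      rw [e, pow_add, MM_cube, Matrix.mul_add, Matrix.mul_sub, Matrix.mul_smul, Matrix.mul_smul,
        Matrix.mul_smul, mul_one, ← pow_add, ← pow_succ]
    rw [h, Matrix.trace_add, Matrix.trace_sub, Matrix.trace_smul, Matrix.trace_smul,
      Matrix.trace_smul, ih.1, ih.2.1, ih.2.2, smul_eq_mul, smul_eq_mul, smul_eq_mul]
    rw [show n + 1 + 2 = (n + 1) + 2 from rfl]
    conv_rhs => rw [ell]
    rw [show n + 1 + 1 = n + 2 from rfl]
    have e2 : ell (n + 2) = (1 + X) * (3 + X) * ell (n + 1) - (1 + X) ^ 2 * ell n := by rw [ell]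
    rw [e2]
    ring

/-! ### Summation over words -/

/-- words as tuples -/
def wEquiv : Word m ≃ (Fin (m + 1) → Fin 3) × (Fin (m + 1) → Fin 3) × (Fin (m + 1) → Bool) ×
    (Fin (m + 1) → Bool) where
  toFun w := (w.s, w.u, w.e, w.g)
  invFun p := ⟨p.1, p.2.1, p.2.2.1, p.2.2.2⟩
  left_inv _ := rfl
  right_inv _ := rfl

instance : Fintype (Word m) := Fintype.ofEquiv _ wEquiv.symm
instance : DecidableEq (Word m) := wEquiv.decidableEq

lemma sum_words (F : Word m → ℝ[X]) : ∑ w, F w =
    ∑ s : Fin (m + 1) → Fin 3, ∑ u : Fin (m + 1) → Fin 3, ∑ e : Fin (m + 1) → Bool,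
      ∑ g : Fin (m + 1) → Bool, F ⟨s, u, e, g⟩ := by
  rw [← wEquiv.symm.sum_comp, Fintype.sum_prod_type]
  apply Finset.sum_congr rfl
  intro s _
  rw [Fintype.sum_prod_type]
  apply Finset.sum_congr rfl
  intro u _
  rw [Fintype.sum_prod_type]
  rfl

lemma prod_ite_pow (p : Fin (m + 1) → Prop) [DecidablePred p] :
    ∏ j, (if p j then (X : ℝ[X]) else 1) = X ^ (Finset.univ.filter p).card := by
  rw [Finset.prod_ite, Finset.prod_const, Finset.prod_const_one, mul_one]

open Classical in
lemma term_eq (w : Word m) : (if w.Valid then (X : ℝ[X]) ^ comp0 w else 0) =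
    (∏ j, al (w.s j) (w.u j) (w.e j)) * ∏ j, be (w.s (j + 1)) (w.u j) (w.g j) := by
  by_cases hw : w.Valid
  · rw [if_pos hw, comp0, pow_add, ← prod_ite_pow, ← prod_ite_pow]
    congr 1
    · apply Finset.prod_congr rfl
      intro j _
      unfold al
      rw [if_pos (hw.1 j)]
    · apply Finset.prod_congr rfl
      intro j _
      unfold be
      rw [if_pos (hw.2 j)]
  · rw [if_neg hw]
    symm
    have : (∃ j, Up (w.s j) (w.u j) (w.e j) ≠ true) ∨ ∃ j, Up (w.s (j + 1)) (w.u j) (w.g j) ≠ true := by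
      by_contra h
      push Not at h
      exact hw ⟨h.1, h.2⟩
    rcases this with ⟨j, hj⟩ | ⟨j, hj⟩
    · have : ∏ j, al (w.s j) (w.u j) (w.e j) = 0 := by
        apply Finset.prod_eq_zero (Finset.mem_univ j)
        unfold al; rw [if_neg hj]
      rw [this, zero_mul]
    · have : ∏ j, be (w.s (j + 1)) (w.u j) (w.g j) = 0 := by
        apply Finset.prod_eq_zero (Finset.mem_univ j)
        unfold be; rw [if_neg hj]
      rw [this, mul_zero]

lemma sum_prod_fun (f : Fin (m + 1) → Bool → ℝ[X]) :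
    ∑ e : Fin (m + 1) → Bool, ∏ j, f j (e j) = ∏ j, ∑ b, f j b := by
  rw [Finset.prod_univ_sum, Fintype.piFinset_univ]

lemma sum_prod_fun3 (f : Fin (m + 1) → Fin 3 → ℝ[X]) :
    ∑ e : Fin (m + 1) → Fin 3, ∏ j, f j (e j) = ∏ j, ∑ b, f j b := by
  rw [Finset.prod_univ_sum, Fintype.piFinset_univ]

open Classical in
lemma valid_sum : ∑ w : Word m, (if w.Valid then (X : ℝ[X]) ^ comp0 w else 0) = 1 + ell (m + 1) := by
  rw [← (trace_MM (m + 1)).1, ← trace_eq, sum_words]
  apply Finset.sum_congr rfl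
  intro s _
  have h1 : ∀ u : Fin (m + 1) → Fin 3, ∑ e : Fin (m + 1) → Bool, ∑ g : Fin (m + 1) → Bool,
      (if (Word.mk s u e g).Valid then (X : ℝ[X]) ^ comp0 (Word.mk s u e g) else 0) =
      ∏ j, ((∑ b, al (s j) (u j) b) * ∑ b, be (s (j + 1)) (u j) b) := by
    intro u
    simp only [term_eq]
    rw [Finset.prod_mul_distrib, ← sum_prod_fun (fun j b => al (s j) (u j) b),
      ← sum_prod_fun (fun j b => be (s (j + 1)) (u j) b), Finset.sum_mul]
    apply Finset.sum_congr rfl
    intro e _
    rw [Finset.mul_sum]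
  simp only [h1]
  rw [sum_prod_fun3 (fun j t => (∑ b, al (s j) t b) * ∑ b, be (s (j + 1)) t b)]
  rfl

lemma sum_cf : ∑ g : Fin (m + 1) → Bool, (X : ℝ[X]) ^ (Finset.univ.filter fun j => g j = false).card =
    (1 + X) ^ (m + 1) := by
  have h : ∀ g : Fin (m + 1) → Bool, (X : ℝ[X]) ^ (Finset.univ.filter fun j => g j = false).card =
      ∏ j, (fun (_ : Fin (m + 1)) (b : Bool) => if b = false then (X : ℝ[X]) else 1) j (g j) :=
    fun g => (prod_ite_pow _).symm
  rw [Finset.sum_congr rfl fun g _ => h g]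
  refine (sum_prod_fun (fun (_ : Fin (m + 1)) (b : Bool) => if b = false then (X : ℝ[X]) else 1)).trans ?_
  simp [add_comm]

/-- the word with all states in the middle -/
def mid (e g : Fin (m + 1) → Bool) : Word m := ⟨fun _ => 1, fun _ => 1, e, g⟩

lemma comp0_mid (e g : Fin (m + 1) → Bool) : comp0 (mid e g) =
    (Finset.univ.filter fun j => e j = false).card + (Finset.univ.filter fun j => g j = false).card := by
  unfold comp0 mid
  simp

/-- all equal -/
def tt : Fin (m + 1) → Bool := fun _ => true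

lemma ne_tt {e : Fin (m + 1) → Bool} : e ≠ tt ↔ ∃ j, e j = false := by
  constructor
  · intro h
    by_contra hc
    push Not at hc
    exact h (funext fun j => by simpa [tt] using hc j)
  · rintro ⟨j, hj⟩ rfl
    exact absurd hj (by simp [tt])

lemma comp0_tt : (Finset.univ.filter fun j => (tt : Fin (m + 1) → Bool) j = false).card = 0 := by
  simp [tt]

open Classical in
lemma bad_sum : ∑ w : Word m, (if w.Bad then (X : ℝ[X]) ^ comp0 w else 0) =
    2 * ((1 + X) ^ (m + 1) - 1) := by
  have hset : (Finset.univ.filter fun w : Word m => w.Bad) =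
      ((Finset.univ.filter fun g : Fin (m + 1) → Bool => g ≠ tt).image (fun g => mid tt g)) ∪
      ((Finset.univ.filter fun e : Fin (m + 1) → Bool => e ≠ tt).image (fun e => mid e tt)) := by
    ext w
    simp only [Finset.mem_filter, Finset.mem_univ, true_and, Finset.mem_union, Finset.mem_image]
    constructor
    · rintro ⟨hs, hu, ⟨he, hg⟩ | ⟨hg, he⟩⟩
      · left
        refine ⟨w.g, ne_tt.2 hg, ?_⟩
        cases w
        simp only [mid, Word.mk.injEq] at *
        exact ⟨funext fun j => (hs j).symm, funext fun j => (hu j).symm,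
          funext fun j => (he j).symm, trivial⟩
      · right
        refine ⟨w.e, ne_tt.2 he, ?_⟩
        cases w
        simp only [mid, Word.mk.injEq] at *
        exact ⟨funext fun j => (hs j).symm, funext fun j => (hu j).symm, trivial,
          funext fun j => (hg j).symm⟩
    · rintro (⟨g, hg, rfl⟩ | ⟨e, he, rfl⟩)
      · exact ⟨fun _ => rfl, fun _ => rfl, Or.inl ⟨fun _ => rfl, ne_tt.1 hg⟩⟩
      · exact ⟨fun _ => rfl, fun _ => rfl, Or.inr ⟨fun _ => rfl, ne_tt.1 he⟩⟩
  have hdisj : Disjoint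
      ((Finset.univ.filter fun g : Fin (m + 1) → Bool => g ≠ tt).image (fun g => mid tt g))
      ((Finset.univ.filter fun e : Fin (m + 1) → Bool => e ≠ tt).image (fun e => mid e tt)) := by
    rw [Finset.disjoint_left]
    intro w h1 h2
    simp only [Finset.mem_filter, Finset.mem_univ, true_and, Finset.mem_image] at h1 h2
    obtain ⟨g, hg, rfl⟩ := h1
    obtain ⟨e, he, h3⟩ := h2
    exact hg (congrArg Word.g h3).symm
  rw [← Finset.sum_filter, hset, Finset.sum_union hdisj, Finset.sum_image, Finset.sum_image]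
  · have key : ∑ g ∈ (Finset.univ.filter fun g : Fin (m + 1) → Bool => g ≠ tt),
        (X : ℝ[X]) ^ (Finset.univ.filter fun j => g j = false).card = (1 + X) ^ (m + 1) - 1 := by
      rw [← sum_cf, Finset.filter_ne', ← Finset.sum_erase_add Finset.univ _ (Finset.mem_univ (tt : Fin (m + 1) → Bool)), comp0_tt]
      simp
    have e1 : ∀ g : Fin (m + 1) → Bool, (X : ℝ[X]) ^ comp0 (mid tt g) =
        X ^ (Finset.univ.filter fun j => g j = false).card := by
      intro g; rw [comp0_mid, comp0_tt, zero_add]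
    have e2 : ∀ g : Fin (m + 1) → Bool, (X : ℝ[X]) ^ comp0 (mid g tt) =
        X ^ (Finset.univ.filter fun j => g j = false).card := by
      intro g; rw [comp0_mid, comp0_tt, add_zero]
    simp only [e1, e2, key]
    ring
  · intro e _ e' _ h
    exact congrArg Word.e h
  · intro g _ g' _ h
    exact congrArg Word.g h

lemma bad_valid {w : Word m} (h : w.Bad) : w.Valid := by
  have hd : ∀ b : Bool, Up 1 1 b = true := by decide
  refine ⟨fun j => ?_, fun j => ?_⟩
  · rw [h.1, h.2.1]; exact hd _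
  · rw [h.1, h.2.1]; exact hd _

lemma flat_iff {w : Word m} : w.Flat ↔ w = mid tt tt := by
  constructor
  · rintro ⟨hs, hu, he, hg⟩
    cases w
    simp only [mid, Word.mk.injEq] at *
    exact ⟨funext hs, funext hu, funext he, funext hg⟩
  · rintro rfl
    exact ⟨fun _ => rfl, fun _ => rfl, fun _ => rfl, fun _ => rfl⟩

open Classical in
/-- The face polynomial. -/
noncomputable def GG (m : ℕ) : ℝ[X] :=
  ∑ w ∈ Finset.univ.filter (fun w : Word m => w.Valid ∧ ¬ w.Bad),
    X ^ (Module.finrank ℝ (dirn (cc (m := m)) w.T))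

lemma GG_coeff (k : ℕ) : (GG m).coeff k =
    ((facesOfDim (orderPolytope (Crown (m + 1))) k).ncard : ℝ) := by
  classical
  rw [orderPolytope_eq, ncard_faces, ftypes_eq,
    (T_injOn.mono (fun w (h : w ∈ {w : Word m | w.Valid ∧ ¬ w.Bad ∧ _}) => h.1)).ncard_image]
  unfold GG
  rw [finsetSum_coeff]
  simp only [coeff_X_pow]
  rw [Finset.sum_boole, Finset.filter_filter, ← Set.ncard_coe_finset]
  congr 2
  ext w
  simp only [Finset.coe_filter, Finset.mem_univ, true_and, Set.mem_ofPred_eq]
  constructor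
  · rintro ⟨⟨h1, h2⟩, h3⟩; exact ⟨h1, h2, h3.symm⟩
  · rintro ⟨h1, h2, h3⟩; exact ⟨⟨h1, h2⟩, h3.symm⟩

lemma GG_eq : GG m = FF m := by
  classical
  have h1 : GG m = ∑ w ∈ Finset.univ.filter (fun w : Word m => w.Valid ∧ ¬ w.Bad),
      ((X : ℝ[X]) ^ comp0 w + if w = mid tt tt then X - 1 else 0) := by
    unfold GG
    apply Finset.sum_congr rfl
    intro w hw
    obtain ⟨hv, hb⟩ := (Finset.mem_filter.1 hw).2
    by_cases hf : w.Flat
    · rw [finrank_dirn_flat w hf, if_pos (flat_iff.1 hf), flat_iff.1 hf, comp0_mid, comp0_tt]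
      simp
    · rw [finrank_dirn w hv hf, if_neg (fun h => hf (flat_iff.2 h)), add_zero]
  have h2 : ∑ w ∈ Finset.univ.filter (fun w : Word m => w.Valid ∧ ¬ w.Bad),
      (if w = mid tt tt then (X : ℝ[X]) - 1 else 0) = X - 1 := by
    rw [Finset.sum_ite_eq', if_pos]
    rw [Finset.mem_filter]
    have hf : (mid tt tt : Word m).Flat := flat_iff.2 rfl
    refine ⟨Finset.mem_univ _, ?_, ?_⟩
    · have hd : Up 1 1 true = true := by decide
      exact ⟨fun j => hd, fun j => hd⟩
    · rintro ⟨-, -, ⟨-, j, hj⟩ | ⟨-, j, hj⟩⟩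
      · exact absurd hj (by simp [mid, tt])
      · exact absurd hj (by simp [mid, tt])
  have h3 : ∑ w ∈ Finset.univ.filter (fun w : Word m => w.Valid ∧ ¬ w.Bad), (X : ℝ[X]) ^ comp0 w =
      ∑ w : Word m, (if w.Valid then (X : ℝ[X]) ^ comp0 w else 0) -
      ∑ w : Word m, (if w.Bad then (X : ℝ[X]) ^ comp0 w else 0) := by
    rw [Finset.sum_filter, ← Finset.sum_sub_distrib]
    apply Finset.sum_congr rfl
    intro w _
    by_cases hb : w.Bad
    · rw [if_neg (fun h => h.2 hb), if_pos (bad_valid hb), if_pos hb, sub_self]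
    · by_cases hv : w.Valid
      · rw [if_pos ⟨hv, hb⟩, if_pos hv, if_neg hb, sub_zero]
      · rw [if_neg (fun h => hv h.1), if_neg hv, if_neg hb, sub_zero]
  rw [h1, Finset.sum_add_distrib, h2, h3, valid_sum, bad_sum]
  unfold FF
  rw [ell_eq, map_one]
  ring

/-- The face numbers of the crown order polytope. -/
theorem faces_eq (m k : ℕ) : ((facesOfDim (orderPolytope (Crown (m + 1))) k).ncard : ℝ) =
    (FF m).coeff k := by
  rw [← GG_coeff, GG_eq]

end Pool.Agent.V11151.CrownCount
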