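import Pool.Agent.W304.HL.Faces

/-!
# Faces of the order polytope of a crown poset

The tight sets of the order polytope of the crown poset are encoded by cyclic words.
-/

namespace Pool.Agent.V11151.CrownFaces

open Pool.Agent.W304.HL

/-- The order polytope of a poset. -/
def orderPolytope (P : Type*) [PartialOrder P] : Set (P → ℝ) :=
  {x | (∀ a, 0 ≤ x a ∧ x a ≤ 1) ∧ ∀ a b, a ≤ b → x a ≤ x b}

/-- The ground set of the crown poset `C_{2n}`: `(j, false)` is the odd element `2j - 1` and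
`(j, true)` is the even element `2j`, with `j` read modulo `n`. -/
def Crown (n : ℕ) : Type := Fin n × Bool

instance (n : ℕ) : Fintype (Crown n) := inferInstanceAs (Fintype (Fin n × Bool))
instance (n : ℕ) : DecidableEq (Crown n) := inferInstanceAs (DecidableEq (Fin n × Bool))

/-- The crown poset: `(j, false) < (j, true)` and `(j + 1, false) < (j, true)` for all `j`, where
`j + 1` is read modulo `n`. -/
instance (n : ℕ) [NeZero n] : PartialOrder (Crown n) where
  le x y := x = y ∨ (x.2 = false ∧ y.2 = true ∧ (x.1 = y.1 ∨ x.1 = y.1 + 1))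
  le_refl x := Or.inl rfl
  le_trans x y z := by
    rintro (rfl | ⟨h1, h2, h3⟩) h
    · exact h
    · rcases h with rfl | ⟨h4, h5, h6⟩
      · exact Or.inr ⟨h1, h2, h3⟩
      · rw [h2] at h4; exact absurd h4 (by decide)
  le_antisymm x y := by
    rintro (rfl | ⟨h1, h2, h3⟩) h
    · rfl
    · rcases h with h | ⟨h4, h5, h6⟩
      · exact h.symm
      · rw [h2] at h4; exact absurd h4 (by decide)

/-- the constraints of the order polytope of the crown -/
inductive Con (m : ℕ)
  | Z (j : Fin (m + 1))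
  | O (j : Fin (m + 1))
  | U (j : Fin (m + 1))
  | D (j : Fin (m + 1))
  deriving Fintype

variable {m : ℕ}

/-- the minimal elements -/
def pa (j : Fin (m + 1)) : Crown (m + 1) := (j, false)
/-- the maximal elements -/
def pb (j : Fin (m + 1)) : Crown (m + 1) := (j, true)

lemma pa_inj {i j : Fin (m + 1)} : pa i = pa j ↔ i = j := by
  unfold pa; constructor
  · intro h; exact congrArg Prod.fst h
  · rintro rfl; rfl

lemma pb_inj {i j : Fin (m + 1)} : pb i = pb j ↔ i = j := by
  unfold pb; constructor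
  · intro h; exact congrArg Prod.fst h
  · rintro rfl; rfl

/-- coordinates -/
def pr (p : Crown (m + 1)) : (Crown (m + 1) → ℝ) →ₗ[ℝ] ℝ where
  toFun x := x p
  map_add' _ _ := rfl
  map_smul' _ _ := rfl

/-- left hand sides of the constraints -/
noncomputable def cc : Con m → (Crown (m + 1) → ℝ) →ₗ[ℝ] ℝ
  | .Z j => - pr (pa j)
  | .O j => pr (pb j)
  | .U j => pr (pa j) - pr (pb j)
  | .D j => pr (pa (j + 1)) - pr (pb j)

/-- right hand sides of the constraints -/
def dd : Con m → ℝ
  | .Z _ => 0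
  | .O _ => 1
  | .U _ => 0
  | .D _ => 0

@[simp] lemma cc_Z (j : Fin (m + 1)) (x : Crown (m + 1) → ℝ) : cc (.Z j) x = - x (pa j) := rfl
@[simp] lemma cc_O (j : Fin (m + 1)) (x : Crown (m + 1) → ℝ) : cc (.O j) x = x (pb j) := rfl
@[simp] lemma cc_U (j : Fin (m + 1)) (x : Crown (m + 1) → ℝ) :
    cc (.U j) x = x (pa j) - x (pb j) := rfl
@[simp] lemma cc_D (j : Fin (m + 1)) (x : Crown (m + 1) → ℝ) :
    cc (.D j) x = x (pa (j + 1)) - x (pb j) := rfl

lemma mem_poly {x : Crown (m + 1) → ℝ} : x ∈ poly (cc (m := m)) dd ↔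
    (∀ j, 0 ≤ x (pa j)) ∧ (∀ j, x (pb j) ≤ 1) ∧ (∀ j, x (pa j) ≤ x (pb j)) ∧
      ∀ j, x (pa (j + 1)) ≤ x (pb j) := by
  constructor
  · intro h
    refine ⟨fun j => ?_, fun j => h (.O j), fun j => ?_, fun j => ?_⟩
    · have := h (.Z j); simp [dd] at this; exact this
    · have := h (.U j); simp [dd] at this; exact this
    · have := h (.D j); simp [dd] at this; exact this
  · rintro ⟨h1, h2, h3, h4⟩ i
    cases i with
    | Z j => simp [dd]; exact h1 j
    | O j => exact h2 j
    | U j => simp [dd]; exact h3 j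
    | D j => simp [dd]; exact h4 j

lemma orderPolytope_eq : orderPolytope (Crown (m + 1)) = poly (cc (m := m)) dd := by
  ext x
  rw [mem_poly]
  constructor
  · rintro ⟨h1, h2⟩
    refine ⟨fun j => (h1 _).1, fun j => (h1 _).2, fun j => h2 _ _ ?_, fun j => h2 _ _ ?_⟩
    · exact Or.inr ⟨rfl, rfl, Or.inl rfl⟩
    · exact Or.inr ⟨rfl, rfl, Or.inr rfl⟩
  · rintro ⟨h1, h2, h3, h4⟩
    constructor
    · rintro ⟨j, b⟩
      cases b with
      | false => exact ⟨h1 j, (h3 j).trans (h2 j)⟩
      | true => exact ⟨(h1 j).trans (h3 j), h2 j⟩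
    · rintro ⟨i, b⟩ ⟨j, c⟩ (h | ⟨hb, hc, h | h⟩)
      · rw [h]
      · change b = false at hb
        change c = true at hc
        change i = j at h
        subst hb hc h
        exact h3 i
      · change b = false at hb
        change c = true at hc
        change i = j + 1 at h
        subst hb hc h
        exact h4 j

/-! ### Words -/

/-- Admissible local patterns: state of the lower element, state of the upper element (`0` for
value `0`, `1` for a value strictly between `0` and `1`, `2` for value `1`), and whether the two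
values agree. -/
def Up : Fin 3 → Fin 3 → Bool → Bool
  | 0, 0, true => true
  | 0, 1, false => true
  | 0, 2, false => true
  | 1, 1, _ => true
  | 1, 2, false => true
  | 2, 2, true => true
  | _, _, _ => false

/-- words -/
structure Word (m : ℕ) where
  /-- states of the lower elements -/
  s : Fin (m + 1) → Fin 3
  /-- states of the upper elements -/
  u : Fin (m + 1) → Fin 3
  /-- equalities on the up-edges -/
  e : Fin (m + 1) → Bool
  /-- equalities on the down-edges -/
  g : Fin (m + 1) → Bool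

/-- local validity -/
def Word.Valid (w : Word m) : Prop :=
  (∀ j, Up (w.s j) (w.u j) (w.e j) = true) ∧ ∀ j, Up (w.s (j + 1)) (w.u j) (w.g j) = true

/-- bad words -/
def Word.Bad (w : Word m) : Prop :=
  (∀ j, w.s j = 1) ∧ (∀ j, w.u j = 1) ∧
    (((∀ j, w.e j = true) ∧ ∃ j, w.g j = false) ∨ ((∀ j, w.g j = true) ∧ ∃ j, w.e j = false))

/-- all-equal words -/
def Word.Flat (w : Word m) : Prop :=
  (∀ j, w.s j = 1) ∧ (∀ j, w.u j = 1) ∧ (∀ j, w.e j = true) ∧ ∀ j, w.g j = true

/-- the tight set of a word -/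
def Word.T (w : Word m) : Set (Con m) := {c | match c with
  | .Z j => w.s j = 0
  | .O j => w.u j = 2
  | .U j => w.e j = true
  | .D j => w.g j = true}

@[simp] lemma Word.mem_T_Z (w : Word m) (j : Fin (m + 1)) : Con.Z j ∈ w.T ↔ w.s j = 0 := Iff.rfl
@[simp] lemma Word.mem_T_O (w : Word m) (j : Fin (m + 1)) : Con.O j ∈ w.T ↔ w.u j = 2 := Iff.rfl
@[simp] lemma Word.mem_T_U (w : Word m) (j : Fin (m + 1)) : Con.U j ∈ w.T ↔ w.e j = true := Iff.rfl
@[simp] lemma Word.mem_T_D (w : Word m) (j : Fin (m + 1)) : Con.D j ∈ w.T ↔ w.g j = true := Iff.rfl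

lemma up_det : ∀ s u s' u' : Fin 3, ∀ e : Bool, Up s u e = true → Up s' u' e = true →
    (s = 0 ↔ s' = 0) → (u = 2 ↔ u' = 2) → s = s' ∧ u = u' := by decide

lemma T_injOn : Set.InjOn Word.T {w : Word m | w.Valid} := by
  intro w hw w' hw' h
  have he : w.e = w'.e := by
    funext j
    have : Con.U j ∈ w.T ↔ Con.U j ∈ w'.T := by rw [h]
    simp only [Word.mem_T_U] at this
    exact Bool.eq_iff_iff.2 this
  have hg : w.g = w'.g := by
    funext j
    have : Con.D j ∈ w.T ↔ Con.D j ∈ w'.T := by rw [h]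
    simp only [Word.mem_T_D] at this
    exact Bool.eq_iff_iff.2 this
  have hs0 : ∀ j, w.s j = 0 ↔ w'.s j = 0 := fun j => by
    have : Con.Z j ∈ w.T ↔ Con.Z j ∈ w'.T := by rw [h]
    simpa using this
  have hu2 : ∀ j, w.u j = 2 ↔ w'.u j = 2 := fun j => by
    have : Con.O j ∈ w.T ↔ Con.O j ∈ w'.T := by rw [h]
    simpa using this
  have key := fun j => up_det _ _ _ _ _ (hw.1 j) (by rw [he]; exact hw'.1 j) (hs0 j) (hu2 j)
  cases w; cases w'
  simp only [Word.mk.injEq] at *
  exact ⟨funext fun j => (key j).1, funext fun j => (key j).2, he, hg⟩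

/-! ### The word of a point -/

/-- the state of a number -/
noncomputable def st (r : ℝ) : Fin 3 := if r = 0 then 0 else if r = 1 then 2 else 1

lemma st_zero {r : ℝ} : st r = 0 ↔ r = 0 := by
  unfold st; split_ifs with h1 h2 <;> simp [h1]

lemma st_two {r : ℝ} : st r = 2 ↔ r = 1 := by
  unfold st; split_ifs with h1 h2
  · simp [h1]
  · simp [h2]
  · simp [h2]

lemma st_one {r : ℝ} : st r = 1 ↔ r ≠ 0 ∧ r ≠ 1 := by
  unfold st; split_ifs with h1 h2
  · simp [h1]
  · simp [h2]
  · simp [h1, h2]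

open Classical in
/-- the word of a point -/
noncomputable def wd (x : Crown (m + 1) → ℝ) : Word m where
  s j := st (x (pa j))
  u j := st (x (pb j))
  e j := decide (x (pa j) = x (pb j))
  g j := decide (x (pa (j + 1)) = x (pb j))

open Classical in
lemma up_of_le {r q : ℝ} (h0 : 0 ≤ r) (h1 : r ≤ q) (h2 : q ≤ 1) :
    Up (st r) (st q) (decide (r = q)) = true := by
  rcases eq_or_ne r 0 with hr | hr
  · have e1 : st r = 0 := st_zero.2 hr
    rcases eq_or_ne q 0 with hq | hq
    · have e2 : st q = 0 := st_zero.2 hq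
      have e3 : r = q := by rw [hr, hq]
      rw [e1, e2, decide_eq_true e3]; rfl
    · have e3 : r ≠ q := by rw [hr]; exact hq.symm
      rcases eq_or_ne q 1 with hq' | hq'
      · rw [e1, st_two.2 hq', decide_eq_false e3]; rfl
      · rw [e1, st_one.2 ⟨hq, hq'⟩, decide_eq_false e3]; rfl
  · rcases eq_or_ne r 1 with hr' | hr'
    · have hq : q = 1 := le_antisymm h2 (hr' ▸ h1)
      have e3 : r = q := by rw [hr', hq]
      rw [st_two.2 hr', st_two.2 hq, decide_eq_true e3]; rfl
    · have hr0 : 0 < r := lt_of_le_of_ne h0 hr.symm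
      have hq0 : q ≠ 0 := (hr0.trans_le h1).ne'
      rcases eq_or_ne q 1 with hq' | hq'
      · have e3 : r ≠ q := by rw [hq']; exact hr'
        rw [st_one.2 ⟨hr, hr'⟩, st_two.2 hq', decide_eq_false e3]; rfl
      · rw [st_one.2 ⟨hr, hr'⟩, st_one.2 ⟨hq0, hq'⟩]
        cases decide (r = q) <;> rfl

lemma sum_shift (f : Fin (m + 1) → ℝ) : ∑ j, f (j + 1) = ∑ j, f j :=
  Equiv.sum_comp (Equiv.addRight (1 : Fin (m + 1))) f

lemma wd_valid {x : Crown (m + 1) → ℝ} (hx : x ∈ poly (cc (m := m)) dd) : (wd x).Valid := by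
  obtain ⟨h1, h2, h3, h4⟩ := mem_poly.1 hx
  exact ⟨fun j => up_of_le (h1 j) (h3 j) (h2 j), fun j => up_of_le (h1 _) (h4 j) (h2 j)⟩

lemma wd_not_bad {x : Crown (m + 1) → ℝ} (hx : x ∈ poly (cc (m := m)) dd) : ¬ (wd x).Bad := by
  obtain ⟨h1, h2, h3, h4⟩ := mem_poly.1 hx
  rintro ⟨-, -, ⟨he, j, hj⟩ | ⟨hg, j, hj⟩⟩
  · have he' : ∀ j, x (pa j) = x (pb j) := fun j => of_decide_eq_true (he j)
    have hj' : x (pa (j + 1)) ≠ x (pb j) := of_decide_eq_false hj
    have hs : ∑ j, x (pa (j + 1)) < ∑ j, x (pb j) :=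
      Finset.sum_lt_sum (fun i _ => h4 i) ⟨j, Finset.mem_univ _, lt_of_le_of_ne (h4 j) hj'⟩
    rw [sum_shift (fun j => x (pa j)), Finset.sum_congr rfl fun j _ => he' j] at hs
    exact lt_irrefl _ hs
  · have hg' : ∀ j, x (pa (j + 1)) = x (pb j) := fun j => of_decide_eq_true (hg j)
    have hj' : x (pa j) ≠ x (pb j) := of_decide_eq_false hj
    have hs : ∑ j, x (pa j) < ∑ j, x (pb j) :=
      Finset.sum_lt_sum (fun i _ => h3 i) ⟨j, Finset.mem_univ _, lt_of_le_of_ne (h3 j) hj'⟩
    rw [← sum_shift (fun j => x (pa j)), Finset.sum_congr rfl fun j _ => hg' j] at hs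
    exact lt_irrefl _ hs

lemma tight_eq (x : Crown (m + 1) → ℝ) : tight (cc (m := m)) dd x = (wd x).T := by
  ext i
  cases i with
  | Z j =>
    show cc (.Z j) x = dd (.Z j) ↔ st (x (pa j)) = 0
    rw [st_zero]; simp [dd]
  | O j =>
    show cc (.O j) x = dd (.O j) ↔ st (x (pb j)) = 2
    rw [st_two]; simp [dd]
  | U j =>
    show cc (.U j) x = dd (.U j) ↔ decide (x (pa j) = x (pb j)) = true
    simp [dd, sub_eq_zero]
  | D j =>
    show cc (.D j) x = dd (.D j) ↔ decide (x (pa (j + 1)) = x (pb j)) = true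
    simp [dd, sub_eq_zero]

/-! ### Potentials -/

lemma potential (q : Fin (m + 1) → ℝ) (hq : ∑ j, q j = 0) :
    ∃ h : Fin (m + 1) → ℝ, ∀ j, h (j + 1) = h j + q j := by
  refine ⟨fun j => ∑ i ∈ Finset.univ.filter (· < j), q i, fun j => ?_⟩
  by_cases hj : j = Fin.last m
  · subst hj
    have h0 : (Fin.last m + 1 : Fin (m + 1)) = 0 := by simp
    rw [h0]
    have h1 : (Finset.univ.filter (· < (0 : Fin (m + 1)))) = ∅ := by
      ext i; simp
    have h2 : ∑ i ∈ Finset.univ.filter (· < Fin.last m), q i + q (Fin.last m) = ∑ j, q j := by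
      rw [← Finset.sum_erase_add Finset.univ q (Finset.mem_univ (Fin.last m))]
      congr 1
      apply Finset.sum_congr _ fun _ _ => rfl
      ext i
      simp only [Finset.mem_filter, Finset.mem_univ, true_and, Finset.mem_erase, and_true]
      exact Fin.lt_last_iff_ne_last
    simp only [h1, Finset.sum_empty]
    rw [h2, hq]
  · have h3 : Finset.univ.filter (· < j + 1) = insert j (Finset.univ.filter (· < j)) := by
      ext i
      simp only [Finset.mem_filter, Finset.mem_univ, true_and, Finset.mem_insert]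
      have hlt : j.val + 1 < m + 1 := by
        have := Fin.val_lt_last hj
        omega
      have hv : (j + 1 : Fin (m + 1)).val = j.val + 1 := Fin.val_add_one_of_lt (Fin.lt_last_iff_ne_last.2 hj)
      rw [Fin.lt_def, hv, Fin.lt_def]
      constructor
      · intro h
        rcases Nat.lt_succ_iff_lt_or_eq.1 h with h | h
        · exact Or.inr h
        · exact Or.inl (Fin.ext h)
      · rintro (rfl | h) <;> omega
    show ∑ i ∈ Finset.univ.filter (· < j + 1), q i = _
    rw [h3, Finset.sum_insert (by simp), add_comm]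

lemma potential2 (E1 E2 : Fin (m + 1) → Prop) (z1 z2 : Fin (m + 1) → ℝ)
    (hfree : (∃ j, ¬ E1 j) ∨ ∃ j, ¬ E2 j) :
    ∃ h p : Fin (m + 1) → ℝ, (∀ j, E1 j → p j = h j + z1 j) ∧
      ∀ j, E2 j → h (j + 1) = p j + z2 j := by
  classical
  set S := ∑ j, (z1 j + z2 j) with hS
  rcases hfree with ⟨j0, h0⟩ | ⟨j0, h0⟩
  · obtain ⟨h, hh⟩ := potential (fun j => (z1 j + if j = j0 then -S else 0) + z2 j) (by
      have : ∀ j, (z1 j + if j = j0 then -S else 0) + z2 j =
        (z1 j + z2 j) + if j = j0 then -S else 0 := fun j => by ring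
      simp only [this]
      rw [Finset.sum_add_distrib, ← hS]
      simp)
    refine ⟨h, fun j => h j + (z1 j + if j = j0 then -S else 0), ?_, ?_⟩
    · intro j hj
      have : j ≠ j0 := fun e => h0 (e ▸ hj)
      simp [this]
    · intro j _
      rw [hh j]; ring
  · obtain ⟨h, hh⟩ := potential (fun j => z1 j + (z2 j + if j = j0 then -S else 0)) (by
      have : ∀ j, z1 j + (z2 j + if j = j0 then -S else 0) =
        (z1 j + z2 j) + if j = j0 then -S else 0 := fun j => by ring
      simp only [this]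
      rw [Finset.sum_add_distrib, ← hS]
      simp)
    refine ⟨h, fun j => h j + z1 j, ?_, ?_⟩
    · intro j _; rfl
    · intro j hj
      have : j ≠ j0 := fun e => h0 (e ▸ hj)
      rw [hh j]
      simp [this]; ring

/-- levels for a good word -/
lemma levels (w : Word m) (hb : ¬ w.Bad) : ∃ h p : Fin (m + 1) → ℝ,
    (∀ j, w.s j = 1 → w.u j = 1 → (w.e j = true → h j = p j) ∧ (w.e j = false → h j < p j)) ∧
    (∀ j, w.s (j + 1) = 1 → w.u j = 1 → (w.g j = true → h (j + 1) = p j) ∧
      (w.g j = false → h (j + 1) < p j)) := by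
  classical
  by_cases hall : (∀ j, w.s j = 1) ∧ ∀ j, w.u j = 1
  · obtain ⟨hs, hu⟩ := hall
    by_cases hE : ∀ j, w.e j = true
    · have hG : ∀ j, w.g j = true := by
        intro j
        by_contra hj
        exact hb ⟨hs, hu, Or.inl ⟨hE, j, Bool.eq_false_iff.2 hj⟩⟩
      refine ⟨fun _ => 0, fun _ => 0, fun j _ _ => ⟨fun _ => rfl, fun h => ?_⟩,
        fun j _ _ => ⟨fun _ => rfl, fun h => ?_⟩⟩
      · rw [hE j] at h; exact absurd h (by decide)
      · rw [hG j] at h; exact absurd h (by decide)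
    · push Not at hE
      obtain ⟨j1, hj1⟩ := hE
      have hG : ∃ j, w.g j = false := by
        by_contra h
        push Not at h
        exact hb ⟨hs, hu, Or.inr ⟨fun j => by simpa using h j, j1, Bool.eq_false_iff.2 hj1⟩⟩
      obtain ⟨j2, hj2⟩ := hG
      set A : ℝ := ((Finset.univ.filter fun j => w.e j = false).card : ℝ) with hA
      set B : ℝ := ((Finset.univ.filter fun j => w.g j = false).card : ℝ) with hB
      have hA0 : 0 < A := by
        rw [hA]
        exact_mod_cast Finset.card_pos.2 ⟨j1, by simpa using Bool.eq_false_iff.2 hj1⟩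
      have hB0 : 0 < B := by
        rw [hB]
        exact_mod_cast Finset.card_pos.2 ⟨j2, by simpa using hj2⟩
      obtain ⟨h, hh⟩ := potential (fun j => (if w.e j = false then B else 0) +
          (if w.g j = false then -A else 0)) (by
        rw [Finset.sum_add_distrib, ← Finset.sum_filter, ← Finset.sum_filter,
          Finset.sum_const, Finset.sum_const, nsmul_eq_mul, nsmul_eq_mul, ← hA, ← hB]
        ring)
      refine ⟨h, fun j => h j + (if w.e j = false then B else 0), ?_, ?_⟩
      · intro j _ _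
        constructor
        · intro he; simp [he]
        · intro he; simp [he, hB0]
      · intro j _ _
        rw [hh j]
        constructor
        · intro hg; simp [hg]
        · intro hg; simp [hg, hA0]
  · have hfree : (∃ j, ¬ (w.s j = 1 ∧ w.u j = 1)) ∨ ∃ j, ¬ (w.s (j + 1) = 1 ∧ w.u j = 1) := by
      by_contra hc
      push Not at hc
      exact hall ⟨fun j => (hc.1 j).1, fun j => (hc.1 j).2⟩
    obtain ⟨h, p, h1, h2⟩ := potential2 (fun j => w.s j = 1 ∧ w.u j = 1)
      (fun j => w.s (j + 1) = 1 ∧ w.u j = 1) (fun j => if w.e j = false then 1 else 0)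
      (fun j => if w.g j = false then -1 else 0) hfree
    refine ⟨h, p, fun j hs hu => ?_, fun j hs hu => ?_⟩
    · rw [h1 j ⟨hs, hu⟩]
      constructor
      · intro he; simp [he]
      · intro he; simp [he]
    · rw [h2 j ⟨hs, hu⟩]
      constructor
      · intro he; simp [he]
      · intro he; simp [he]

/-! ### Realizing words -/

/-- the value of a state -/
noncomputable def val (K : ℝ) (s : Fin 3) (h : ℝ) : ℝ :=
  if s = 0 then 0 else if s = 2 then 1 else 1 / 2 + h / K

lemma st_val {K : ℝ} {s : Fin 3} {h : ℝ} (hK : |h| < K / 2) : st (val K s h) = s := by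
  have hK0 : 0 < K := by
    have := abs_nonneg h
    linarith
  have hb := abs_lt.1 hK
  have h1 : -(1 / 2) < h / K := by
    rw [lt_div_iff₀ hK0]; linarith [hb.1]
  have h2 : h / K < 1 / 2 := by
    rw [div_lt_iff₀ hK0]; linarith [hb.2]
  unfold val
  fin_cases s
  · simp [st_zero]
  · simp only [Fin.mk_one, Fin.isValue, one_ne_zero, ↓reduceIte, Fin.reduceEq]
    rw [st_one]
    constructor <;> intro hh <;> linarith
  · simp [st_two]

lemma val_mem {K : ℝ} {s : Fin 3} {h : ℝ} (hK : |h| < K / 2) : 0 ≤ val K s h ∧ val K s h ≤ 1 := by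
  have hK0 : 0 < K := by
    have := abs_nonneg h
    linarith
  have hb := abs_lt.1 hK
  have h1 : -(1 / 2) < h / K := by
    rw [lt_div_iff₀ hK0]; linarith [hb.1]
  have h2 : h / K < 1 / 2 := by
    rw [div_lt_iff₀ hK0]; linarith [hb.2]
  unfold val
  split_ifs <;> constructor <;> linarith

lemma val_cmp {K h p : ℝ} (hKh : |h| < K / 2) (hKp : |p| < K / 2) {s u : Fin 3} {e : Bool}
    (hU : Up s u e = true)
    (hM : s = 1 → u = 1 → (e = true → h = p) ∧ (e = false → h < p)) :
    val K s h ≤ val K u p ∧ (val K s h = val K u p ↔ e = true) := by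
  have hK0 : 0 < K := by
    have := abs_nonneg h
    linarith
  have hs := st_val (s := s) hKh
  have hu := st_val (s := u) hKp
  have hms := val_mem (s := s) hKh
  have hmu := val_mem (s := u) hKp
  have hd : ∀ s u : Fin 3, ∀ e : Bool, Up s u e = true →
      (s = 1 ∧ u = 1) ∨ (s = u ∧ e = true ∧ s ≠ 1) ∨ (s ≠ u ∧ e = false ∧ (s = 0 ∨ u = 2)) := by
    decide
  rcases hd s u e hU with ⟨h1, h2⟩ | ⟨h1, h2, h3⟩ | ⟨h1, h2, h3⟩
  · obtain ⟨ha, hb⟩ := hM h1 h2
    have e1 : val K s h = 1 / 2 + h / K := by rw [h1]; rfl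
    have e2 : val K u p = 1 / 2 + p / K := by rw [h2]; rfl
    rw [e1, e2]
    cases e with
    | true =>
      rw [ha rfl]
      exact ⟨le_rfl, by simp⟩
    | false =>
      have h4 : h / K < p / K := div_lt_div_of_pos_right (hb rfl) hK0
      refine ⟨by linarith, ?_⟩
      constructor
      · intro h5; exfalso; linarith
      · intro h5; exact absurd h5 (by decide)
  · have h4 : val K s h = val K u p := by
      rw [← h1]
      unfold val
      have h02 : ∀ s : Fin 3, s ≠ 1 → s = 0 ∨ s = 2 := by decide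
      rcases h02 s h3 with h | h <;> simp [h]
    exact ⟨h4.le, by simp [h4, h2]⟩
  · have h4 : val K s h ≠ val K u p := by
      intro h5
      rw [h5, hu] at hs
      exact h1 hs.symm
    refine ⟨?_, by simp [h4, h2]⟩
    rcases h3 with h6 | h6
    · have : val K s h = 0 := by rw [h6]; rfl
      rw [this]; exact hmu.1
    · have : val K u p = 1 := by rw [h6]; rfl
      rw [this]; exact hms.2

/-- Every good valid word comes from a point. -/
lemma realize (w : Word m) (hw : w.Valid) (hb : ¬ w.Bad) :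
    ∃ x ∈ poly (cc (m := m)) dd, tight (cc (m := m)) dd x = w.T := by
  obtain ⟨h, p, h1, h2⟩ := levels w hb
  set K : ℝ := 2 * (1 + ∑ j, (|h j| + |p j|)) with hK
  have hsum : ∀ j, |h j| + |p j| ≤ ∑ j, (|h j| + |p j|) := fun j =>
    Finset.single_le_sum (f := fun j => |h j| + |p j|) (fun i _ => by positivity)
      (Finset.mem_univ j)
  have hh : ∀ j, |h j| < K / 2 := fun j => by
    have := hsum j
    have := abs_nonneg (p j)
    rw [hK]; linarith
  have hp : ∀ j, |p j| < K / 2 := fun j => by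
    have := hsum j
    have := abs_nonneg (h j)
    rw [hK]; linarith
  let x : Crown (m + 1) → ℝ := fun q => match q with
    | (j, false) => val K (w.s j) (h j)
    | (j, true) => val K (w.u j) (p j)
  have xa : ∀ j, x (pa j) = val K (w.s j) (h j) := fun j => rfl
  have xb : ∀ j, x (pb j) = val K (w.u j) (p j) := fun j => rfl
  have c1 := fun j => val_cmp (hh j) (hp j) (hw.1 j) (h1 j)
  have c2 := fun j => val_cmp (hh (j + 1)) (hp j) (hw.2 j) (h2 j)
  refine ⟨x, mem_poly.2 ⟨fun j => ?_, fun j => ?_, fun j => ?_, fun j => ?_⟩, ?_⟩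
  · rw [xa]; exact (val_mem (hh j)).1
  · rw [xb]; exact (val_mem (hp j)).2
  · rw [xa, xb]; exact (c1 j).1
  · rw [xa, xb]; exact (c2 j).1
  · rw [tight_eq]
    congr 1
    have e1 : (wd x).s = w.s := by
      funext j
      show st (x (pa j)) = _
      rw [xa, st_val (hh j)]
    have e2 : (wd x).u = w.u := by
      funext j
      show st (x (pb j)) = _
      rw [xb, st_val (hp j)]
    have e3 : (wd x).e = w.e := by
      funext j
      show decide (x (pa j) = x (pb j)) = _
      rw [xa, xb]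
      rw [Bool.eq_iff_iff, decide_eq_true_iff]
      exact (c1 j).2
    have e4 : (wd x).g = w.g := by
      funext j
      show decide (x (pa (j + 1)) = x (pb j)) = _
      rw [xa, xb]
      rw [Bool.eq_iff_iff, decide_eq_true_iff]
      exact (c2 j).2
    cases w
    cases hwd : wd x
    simp only [hwd] at e1 e2 e3 e4
    subst e1 e2 e3 e4
    rfl

lemma ftypes_eq (k : ℕ) : ftypes (cc (m := m)) dd k =
    Word.T '' {w | w.Valid ∧ ¬ w.Bad ∧ Module.finrank ℝ (dirn (cc (m := m)) w.T) = k} := by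
  ext T
  constructor
  · rintro ⟨⟨x, hx, rfl⟩, hk⟩
    exact ⟨wd x, ⟨wd_valid hx, wd_not_bad hx, by rw [← tight_eq]; exact hk⟩, (tight_eq x).symm⟩
  · rintro ⟨w, ⟨h1, h2, h3⟩, rfl⟩
    exact ⟨realize w h1 h2, h3⟩

/-! ### Dimensions -/

lemma mem_dirn_word (w : Word m) (v : Crown (m + 1) → ℝ) : v ∈ dirn (cc (m := m)) w.T ↔
    (∀ j, w.s j = 0 → v (pa j) = 0) ∧ (∀ j, w.u j = 2 → v (pb j) = 0) ∧
    (∀ j, w.e j = true → v (pa j) = v (pb j)) ∧ ∀ j, w.g j = true → v (pa (j + 1)) = v (pb j) := by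
  rw [mem_dirn]
  constructor
  · intro h
    refine ⟨fun j hj => ?_, fun j hj => ?_, fun j hj => ?_, fun j hj => ?_⟩
    · have := h (.Z j) hj; simpa using this
    · have := h (.O j) hj; simpa using this
    · have := h (.U j) hj; simpa [sub_eq_zero] using this
    · have := h (.D j) hj; simpa [sub_eq_zero] using this
  · rintro ⟨h1, h2, h3, h4⟩ i hi
    cases i with
    | Z j => simp [h1 j hi]
    | O j => simp [h2 j hi]
    | U j => simp [h3 j hi]
    | D j => simp [h4 j hi]

/-- number of starts of runs -/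
def comp0 (w : Word m) : ℕ :=
  (Finset.univ.filter fun j => w.u j = 1 ∧ w.e j = false).card +
    (Finset.univ.filter fun j => w.s (j + 1) = 1 ∧ w.g j = false).card

/-- the map whose kernel is the direction space -/
def Psi (w : Word m) : (Crown (m + 1) → ℝ) →ₗ[ℝ]
    (({j // w.s j ≠ 1} → ℝ) × ({j // w.u j ≠ 1} → ℝ)) ×
    (({j // w.s j = 1 ∧ w.u j = 1 ∧ w.e j = true} → ℝ) ×
      ({j // w.s (j + 1) = 1 ∧ w.u j = 1 ∧ w.g j = true} → ℝ)) where
  toFun v := ((fun j => v (pa j.1), fun j => v (pb j.1)),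
    (fun j => v (pb j.1) - v (pa j.1), fun j => v (pa (j.1 + 1)) - v (pb j.1)))
  map_add' x y := by
    refine Prod.ext (Prod.ext rfl rfl) (Prod.ext ?_ ?_)
    · funext j
      show (x (pb j.1) + y (pb j.1)) - (x (pa j.1) + y (pa j.1)) =
        (x (pb j.1) - x (pa j.1)) + (y (pb j.1) - y (pa j.1))
      ring
    · funext j
      show (x (pa (j.1 + 1)) + y (pa (j.1 + 1))) - (x (pb j.1) + y (pb j.1)) =
        (x (pa (j.1 + 1)) - x (pb j.1)) + (y (pa (j.1 + 1)) - y (pb j.1))
      ring
  map_smul' r x := by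
    refine Prod.ext (Prod.ext rfl rfl) (Prod.ext ?_ ?_)
    · funext j
      show r * x (pb j.1) - r * x (pa j.1) = r * (x (pb j.1) - x (pa j.1))
      ring
    · funext j
      show r * x (pa (j.1 + 1)) - r * x (pb j.1) = r * (x (pa (j.1 + 1)) - x (pb j.1))
      ring

lemma ker_Psi (w : Word m) (hw : w.Valid) : LinearMap.ker (Psi w) = dirn (cc (m := m)) w.T := by
  have hd : ∀ s u : Fin 3, ∀ e : Bool, Up s u e = true → (s ≠ 1 → s = 0 ∨ (e = true ∧ u = 2)) ∧
      (u ≠ 1 → u = 2 ∨ (e = true ∧ s = 0)) ∧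
      (e = true → (s = 1 ∧ u = 1) ∨ (s ≠ 1 ∧ u ≠ 1)) := by decide
  ext v
  rw [LinearMap.mem_ker, mem_dirn_word]
  constructor
  · intro h
    have h1 : ∀ j, w.s j ≠ 1 → v (pa j) = 0 := fun j hj =>
      congrFun (congrArg (fun z => z.1.1) h) ⟨j, hj⟩
    have h2 : ∀ j, w.u j ≠ 1 → v (pb j) = 0 := fun j hj =>
      congrFun (congrArg (fun z => z.1.2) h) ⟨j, hj⟩
    have h3 : ∀ j, w.s j = 1 ∧ w.u j = 1 ∧ w.e j = true → v (pb j) - v (pa j) = 0 := fun j hj =>
      congrFun (congrArg (fun z => z.2.1) h) ⟨j, hj⟩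
    have h4 : ∀ j, w.s (j + 1) = 1 ∧ w.u j = 1 ∧ w.g j = true → v (pa (j + 1)) - v (pb j) = 0 :=
      fun j hj => congrFun (congrArg (fun z => z.2.2) h) ⟨j, hj⟩
    refine ⟨fun j hj => h1 j (by rw [hj]; decide), fun j hj => h2 j (by rw [hj]; decide),
      fun j hj => ?_, fun j hj => ?_⟩
    · rcases (hd _ _ _ (hw.1 j)).2.2 hj with ⟨a, b⟩ | ⟨a, b⟩
      · linarith [h3 j ⟨a, b, hj⟩]
      · rw [h1 j a, h2 j b]
    · rcases (hd _ _ _ (hw.2 j)).2.2 hj with ⟨a, b⟩ | ⟨a, b⟩
      · linarith [h4 j ⟨a, b, hj⟩]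
      · rw [h1 _ a, h2 j b]
  · rintro ⟨h1, h2, h3, h4⟩
    refine Prod.ext (Prod.ext ?_ ?_) (Prod.ext ?_ ?_)
    · funext ⟨j, hj⟩
      show v (pa j) = 0
      rcases (hd _ _ _ (hw.1 j)).1 hj with h | ⟨h, h'⟩
      · exact h1 j h
      · rw [h3 j h]; exact h2 j h'
    · funext ⟨j, hj⟩
      show v (pb j) = 0
      rcases (hd _ _ _ (hw.1 j)).2.1 hj with h | ⟨h, h'⟩
      · exact h2 j h
      · rw [← h3 j h]; exact h1 j h'
    · funext ⟨j, hj⟩
      show v (pb j) - v (pa j) = 0
      rw [h3 j hj.2.2, sub_self]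
    · funext ⟨j, hj⟩
      show v (pa (j + 1)) - v (pb j) = 0
      rw [h4 j hj.2.2, sub_self]

lemma surj_Psi (w : Word m) (hf : ¬ w.Flat) : LinearMap.range (Psi w) = ⊤ := by
  classical
  rw [LinearMap.range_eq_top]
  rintro ⟨⟨y1, y2⟩, ⟨z1, z2⟩⟩
  have hfree : (∃ j, ¬ (w.s j = 1 ∧ w.u j = 1 ∧ w.e j = true)) ∨
      ∃ j, ¬ (w.s (j + 1) = 1 ∧ w.u j = 1 ∧ w.g j = true) := by
    by_contra hc
    push Not at hc
    exact hf ⟨fun j => (hc.1 j).1, fun j => (hc.1 j).2.1, fun j => (hc.1 j).2.2,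
      fun j => (hc.2 j).2.2⟩
  obtain ⟨h, p, h1, h2⟩ := potential2 (fun j => w.s j = 1 ∧ w.u j = 1 ∧ w.e j = true)
    (fun j => w.s (j + 1) = 1 ∧ w.u j = 1 ∧ w.g j = true)
    (fun j => if hj : w.s j = 1 ∧ w.u j = 1 ∧ w.e j = true then z1 ⟨j, hj⟩ else 0)
    (fun j => if hj : w.s (j + 1) = 1 ∧ w.u j = 1 ∧ w.g j = true then z2 ⟨j, hj⟩ else 0) hfree
  let v : Crown (m + 1) → ℝ := fun q => match q with
    | (j, false) => if hj : w.s j ≠ 1 then y1 ⟨j, hj⟩ else h j
    | (j, true) => if hj : w.u j ≠ 1 then y2 ⟨j, hj⟩ else p j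
  have va : ∀ j, v (pa j) = if hj : w.s j ≠ 1 then y1 ⟨j, hj⟩ else h j := fun j => rfl
  have vb : ∀ j, v (pb j) = if hj : w.u j ≠ 1 then y2 ⟨j, hj⟩ else p j := fun j => rfl
  refine ⟨v, ?_⟩
  refine Prod.ext (Prod.ext ?_ ?_) (Prod.ext ?_ ?_)
  · funext ⟨j, hj⟩
    show v (pa j) = _
    rw [va, dif_pos hj]
  · funext ⟨j, hj⟩
    show v (pb j) = _
    rw [vb, dif_pos hj]
  · funext ⟨j, hj⟩
    show v (pb j) - v (pa j) = _
    rw [va, vb, dif_neg (not_not.2 hj.1), dif_neg (not_not.2 hj.2.1), h1 j hj, dif_pos hj]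
    simp
  · funext ⟨j, hj⟩
    show v (pa (j + 1)) - v (pb j) = _
    rw [va, vb, dif_neg (not_not.2 hj.1), dif_neg (not_not.2 hj.2.1), h2 j hj, dif_pos hj]
    simp

lemma count_aux (A : Fin (m + 1) → Fin 3) (B : Fin (m + 1) → Bool) :
    (Finset.univ.filter fun j => A j = 1 ∧ B j = false).card +
    (Finset.univ.filter fun j => A j = 1 ∧ B j = true).card +
    (Finset.univ.filter fun j => A j ≠ 1).card = m + 1 := by
  have h : ∀ j, (if A j = 1 ∧ B j = false then 1 else 0) + (if A j = 1 ∧ B j = true then 1 else 0) +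
      (if A j ≠ 1 then 1 else 0) = 1 := by
    intro j
    by_cases h1 : A j = 1 <;> cases h2 : B j <;> simp [h1]
  rw [Finset.card_filter, Finset.card_filter, Finset.card_filter, ← Finset.sum_add_distrib,
    ← Finset.sum_add_distrib, Finset.sum_congr rfl fun j _ => h j]
  simp

lemma finrank_dirn (w : Word m) (hw : w.Valid) (hf : ¬ w.Flat) :
    Module.finrank ℝ (dirn (cc (m := m)) w.T) = comp0 w := by
  classical
  have h1 := LinearMap.finrank_range_add_finrank_ker (Psi w)
  rw [surj_Psi w hf, ker_Psi w hw, finrank_top] at h1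
  rw [Module.finrank_prod, Module.finrank_prod, Module.finrank_prod, Module.finrank_fintype_fun_eq_card,
    Module.finrank_fintype_fun_eq_card, Module.finrank_fintype_fun_eq_card,
    Module.finrank_fintype_fun_eq_card, Module.finrank_fintype_fun_eq_card] at h1
  have hV : Fintype.card (Crown (m + 1)) = 2 * (m + 1) := by
    show Fintype.card (Fin (m + 1) × Bool) = _
    simp [mul_comm]
  rw [hV] at h1
  have hd : ∀ s u : Fin 3, ∀ e : Bool, Up s u e = true → e = true → (u = 1 ↔ s = 1) := by decide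
  have e3 : Fintype.card {j // w.s j = 1 ∧ w.u j = 1 ∧ w.e j = true} =
      (Finset.univ.filter fun j => w.u j = 1 ∧ w.e j = true).card := by
    rw [Fintype.card_subtype]
    congr 1
    ext j
    simp only [Finset.mem_filter, Finset.mem_univ, true_and]
    constructor
    · rintro ⟨-, a, b⟩; exact ⟨a, b⟩
    · rintro ⟨a, b⟩; exact ⟨(hd _ _ _ (hw.1 j) b).1 a, a, b⟩
  have e4 : Fintype.card {j // w.s (j + 1) = 1 ∧ w.u j = 1 ∧ w.g j = true} =
      (Finset.univ.filter fun j => w.s (j + 1) = 1 ∧ w.g j = true).card := by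
    rw [Fintype.card_subtype]
    congr 1
    ext j
    simp only [Finset.mem_filter, Finset.mem_univ, true_and]
    constructor
    · rintro ⟨a, -, b⟩; exact ⟨a, b⟩
    · rintro ⟨a, b⟩; exact ⟨a, (hd _ _ _ (hw.2 j) b).2 a, b⟩
  have e2 : Fintype.card {j // w.u j ≠ 1} = (Finset.univ.filter fun j => w.u j ≠ 1).card :=
    Fintype.card_subtype _
  have e1 : Fintype.card {j // w.s j ≠ 1} = (Finset.univ.filter fun j => w.s (j + 1) ≠ 1).card := by
    rw [Fintype.card_subtype]
    symm
    apply Finset.card_bij (fun j _ => j + 1)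
    · intro j hj
      simpa using hj
    · intro i _ j _ h
      exact add_right_cancel h
    · intro j hj
      exact ⟨j - 1, by simpa using hj, by simp⟩
  have c1 := count_aux (fun j => w.u j) w.e
  have c2 := count_aux (fun j => w.s (j + 1)) w.g
  unfold comp0
  rw [e1, e2, e3, e4] at h1
  simp only [ne_eq] at h1 c1 c2 ⊢
  omega

lemma finrank_dirn_flat (w : Word m) (hf : w.Flat) :
    Module.finrank ℝ (dirn (cc (m := m)) w.T) = 1 := by
  have key : dirn (cc (m := m)) w.T = Submodule.span ℝ {fun _ => (1 : ℝ)} := by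
    ext v
    rw [mem_dirn_word, Submodule.mem_span_singleton]
    constructor
    · rintro ⟨-, -, h3, h4⟩
      have ha : ∀ j : Fin (m + 1), v (pa j) = v (pa 0) := by
        intro j
        induction j using Fin.induction with
        | zero => rfl
        | succ i ih =>
          have : (i.succ : Fin (m + 1)) = i.castSucc + 1 := by simp
          rw [this, h4 _ (hf.2.2.2 _), ← h3 _ (hf.2.2.1 _), ih]
      refine ⟨v (pa 0), ?_⟩
      funext ⟨j, b⟩
      cases b with
      | false => 
        show v (pa 0) * 1 = v (pa j)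
        rw [ha j, mul_one]
      | true =>
        show v (pa 0) * 1 = v (pb j)
        rw [← h3 _ (hf.2.2.1 _), ha j, mul_one]
    · rintro ⟨a, rfl⟩
      refine ⟨fun j hj => ?_, fun j hj => ?_, fun _ _ => rfl, fun _ _ => rfl⟩
      · rw [hf.1 j] at hj; exact absurd hj (by decide)
      · rw [hf.2.1 j] at hj; exact absurd hj (by decide)
  rw [key]
  apply finrank_span_singleton
  intro h
  exact one_ne_zero (congrFun h (pa 0))

end Pool.Agent.V11151.CrownFaces
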