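import Mathlib

/-!
# Face numbers of pyramids
-/

namespace Pool.Agent.V11151.Pyramid

open Set

/-- The dimension of a face: `-1` for the empty set, the dimension of the affine hull otherwise. -/
noncomputable def fdim {V : Type*} [AddCommGroup V] [Module ℝ V] (F : Set V) : ℤ :=
  open Classical in if F = ∅ then -1 else (Module.finrank ℝ (vectorSpan ℝ F) : ℤ)

/-- The number of faces of `Q` of dimension `k`: faces are the exposed faces (the empty set and `Q`
itself included). -/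
noncomputable def fNum {V : Type*} [AddCommGroup V] [Module ℝ V] [TopologicalSpace V]
    (Q : Set V) (k : ℤ) : ℕ :=
  {F : Set V | IsExposed ℝ Q F ∧ fdim F = k}.ncard

lemma fdim_empty {V : Type*} [AddCommGroup V] [Module ℝ V] : fdim (∅ : Set V) = -1 := by
  simp [fdim]

lemma fdim_of_nonempty {V : Type*} [AddCommGroup V] [Module ℝ V] {F : Set V} (h : F.Nonempty) :
    fdim F = Module.finrank ℝ (vectorSpan ℝ F) := by
  simp [fdim, h.ne_empty]

variable {V : Type*} [NormedAddCommGroup V] [NormedSpace ℝ V]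

/-- the pyramid over `F` with apex `p` -/
def pyr (p : V) (F : Set V) : Set V := convexJoin ℝ {p} F ∪ {p}

lemma mem_pyr {p : V} {F : Set V} {x : V} : x ∈ pyr p F ↔
    x = p ∨ ∃ y ∈ F, ∃ t : ℝ, 0 ≤ t ∧ t ≤ 1 ∧ x = (1 - t) • y + t • p := by
  unfold pyr
  rw [mem_union, mem_singleton_iff, or_comm]
  apply or_congr Iff.rfl
  rw [mem_convexJoin]
  constructor
  · rintro ⟨a, ha, y, hy, hx⟩
    rw [mem_singleton_iff] at ha
    subst ha
    obtain ⟨c, d, hc, hd, hcd, rfl⟩ := hx
    refine ⟨y, hy, c, hc, by linarith, ?_⟩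
    rw [show 1 - c = d by linarith, add_comm]
  · rintro ⟨y, hy, t, h0, h1, rfl⟩
    exact ⟨p, rfl, y, hy, t, 1 - t, h0, by linarith, by ring, by rw [add_comm]⟩

lemma apex_mem (p : V) (F : Set V) : p ∈ pyr p F := mem_pyr.2 (Or.inl rfl)

lemma sub_pyr (p : V) (F : Set V) : F ⊆ pyr p F := fun y hy =>
  mem_pyr.2 (Or.inr ⟨y, hy, 0, le_rfl, zero_le_one, by simp⟩)

variable {B : Set V} {p : V} {φ : StrongDual ℝ V} {c : ℝ}

lemma base_eq (hB : ∀ y ∈ B, φ y = c) (hp : φ p ≠ c) {x : V} (hx : x ∈ pyr p B) (hφ : φ x = c) :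
    x ∈ B := by
  rcases mem_pyr.1 hx with rfl | ⟨y, hy, t, h0, h1, rfl⟩
  · exact absurd hφ hp
  · rw [map_add, map_smul, map_smul, hB y hy, smul_eq_mul, smul_eq_mul] at hφ
    have : t * (φ p - c) = 0 := by linarith
    have ht : t = 0 := (mul_eq_zero.1 this).resolve_right (sub_ne_zero.2 hp)
    simpa [ht] using hy

/-- the set of maximisers -/
def mx (K : Set V) (l : StrongDual ℝ V) : Set V := {x ∈ K | ∀ y ∈ K, l y ≤ l x}

lemma exposed_mx (K : Set V) (l : StrongDual ℝ V) : IsExposed ℝ K (mx K l) := fun _ => ⟨l, rfl⟩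

/-- maximum over a pyramid -/
lemma mx_pyr_lt {l : StrongDual ℝ V} {y0 : V} (hy0 : y0 ∈ B) (hmax : ∀ y ∈ B, l y ≤ l y0)
    (hlt : l p < l y0) : mx (pyr p B) l = mx B l := by
  ext x
  constructor
  · rintro ⟨hx, hm⟩
    have h1 := hm y0 (sub_pyr p B hy0)
    rcases mem_pyr.1 hx with rfl | ⟨y, hy, t, h0, ht1, rfl⟩
    · exact absurd h1 (not_le.2 hlt)
    · rw [map_add, map_smul, map_smul, smul_eq_mul, smul_eq_mul] at h1
      have hy1 := hmax y hy
      have ht : t = 0 := by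
        by_contra hne
        have htp : 0 < t := lt_of_le_of_ne h0 (Ne.symm hne)
        nlinarith
      subst ht
      simp only [sub_zero, one_smul, zero_smul, add_zero] at hm h1 ⊢
      exact ⟨hy, fun z hz => hm z (sub_pyr p B hz)⟩
  · rintro ⟨hx, hm⟩
    refine ⟨sub_pyr p B hx, fun z hz => ?_⟩
    have e : l x = l y0 := le_antisymm (hmax x hx) (hm y0 hy0)
    rcases mem_pyr.1 hz with rfl | ⟨y, hy, t, h0, ht1, rfl⟩
    · rw [e]; exact hlt.le
    · rw [map_add, map_smul, map_smul, smul_eq_mul, smul_eq_mul]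
      have := hm y hy
      nlinarith

lemma mx_pyr_eq {l : StrongDual ℝ V} {y0 : V} (hy0 : y0 ∈ B) (hmax : ∀ y ∈ B, l y ≤ l y0)
    (heq : l p = l y0) : mx (pyr p B) l = pyr p (mx B l) := by
  ext x
  constructor
  · rintro ⟨hx, hm⟩
    have h1 := hm y0 (sub_pyr p B hy0)
    rcases mem_pyr.1 hx with rfl | ⟨y, hy, t, h0, ht1, rfl⟩
    · exact apex_mem _ _
    · rcases eq_or_lt_of_le ht1 with rfl | ht
      · simp only [sub_self, zero_smul, one_smul, zero_add]; exact apex_mem _ _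
      · refine mem_pyr.2 (Or.inr ⟨y, ⟨hy, fun z hz => ?_⟩, t, h0, ht1, rfl⟩)
        rw [map_add, map_smul, map_smul, smul_eq_mul, smul_eq_mul, heq] at h1
        have h2 : l y0 ≤ l y := by nlinarith
        exact (hmax z hz).trans h2
  · intro hx
    have key : l x = l y0 ∧ x ∈ pyr p B := by
      rcases mem_pyr.1 hx with rfl | ⟨y, hy, t, h0, ht1, rfl⟩
      · exact ⟨heq, apex_mem _ _⟩
      · refine ⟨?_, mem_pyr.2 (Or.inr ⟨y, hy.1, t, h0, ht1, rfl⟩)⟩
        have e : l y = l y0 := le_antisymm (hmax y hy.1) (hy.2 y0 hy0)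
        rw [map_add, map_smul, map_smul, smul_eq_mul, smul_eq_mul, heq, e]; ring
    refine ⟨key.2, fun z hz => ?_⟩
    rw [key.1]
    rcases mem_pyr.1 hz with rfl | ⟨y, hy, t, h0, ht1, rfl⟩
    · exact heq.le
    · rw [map_add, map_smul, map_smul, smul_eq_mul, smul_eq_mul, heq]
      have := hmax y hy
      nlinarith

lemma mx_pyr_gt {l : StrongDual ℝ V} {y0 : V} (hy0 : y0 ∈ B) (hmax : ∀ y ∈ B, l y ≤ l y0)
    (hgt : l y0 < l p) : mx (pyr p B) l = pyr p ∅ := by
  ext x
  constructor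
  · rintro ⟨hx, hm⟩
    have h1 := hm p (apex_mem _ _)
    rcases mem_pyr.1 hx with rfl | ⟨y, hy, t, h0, ht1, rfl⟩
    · exact apex_mem _ _
    · rw [map_add, map_smul, map_smul, smul_eq_mul, smul_eq_mul] at h1
      have := hmax y hy
      have ht : t = 1 := by
        by_contra hne
        have : t < 1 := lt_of_le_of_ne ht1 hne
        nlinarith
      subst ht
      simp only [sub_self, zero_smul, one_smul, zero_add]; exact apex_mem _ _
  · intro hx
    rcases mem_pyr.1 hx with rfl | ⟨y, hy, _⟩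
    · refine ⟨apex_mem _ _, fun z hz => ?_⟩
      rcases mem_pyr.1 hz with rfl | ⟨y, hy, t, h0, ht1, rfl⟩
      · exact le_rfl
      · rw [map_add, map_smul, map_smul, smul_eq_mul, smul_eq_mul]
        have := hmax y hy
        nlinarith
    · exact absurd hy (notMem_empty _)

/-- exposed faces of a pyramid -/
lemma exposed_pyr (hBc : IsCompact B) (hBn : B.Nonempty) (hB : ∀ y ∈ B, φ y = c) (hp : φ p ≠ c)
    (G : Set V) : IsExposed ℝ (pyr p B) G ↔
      IsExposed ℝ B G ∨ ∃ F, IsExposed ℝ B F ∧ G = pyr p F := by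
  constructor
  · intro hG
    rcases G.eq_empty_or_nonempty with rfl | hne
    · exact Or.inl isExposed_empty
    obtain ⟨l, hl⟩ := hG hne
    change G = mx (pyr p B) l at hl
    obtain ⟨y0, hy0, hmax⟩ := hBc.exists_isMaxOn hBn l.continuous.continuousOn
    have hmax' : ∀ y ∈ B, l y ≤ l y0 := fun y hy => hmax hy
    rcases lt_trichotomy (l p) (l y0) with h | h | h
    · left; rw [hl, mx_pyr_lt hy0 hmax' h]; exact exposed_mx B l
    · right; exact ⟨mx B l, exposed_mx B l, by rw [hl, mx_pyr_eq hy0 hmax' h]⟩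
    · right; exact ⟨∅, isExposed_empty, by rw [hl, mx_pyr_gt hy0 hmax' h]⟩
  · have hd : φ p - c ≠ 0 := sub_ne_zero.2 hp
    -- adjust a functional so that it takes a given value at the apex
    have adj : ∀ (l : StrongDual ℝ V) (r : ℝ), ∃ l' : StrongDual ℝ V, ∃ s : ℝ,
        (∀ y ∈ B, l' y = l y + s) ∧ l' p = r + s := by
      intro l r
      refine ⟨l + ((r - l p) / (φ p - c)) • φ, ((r - l p) / (φ p - c)) * c, ?_, ?_⟩
      · intro y hy
        simp only [_root_.add_apply, _root_.smul_apply, smul_eq_mul, hB y hy]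
      · simp only [_root_.add_apply, _root_.smul_apply, smul_eq_mul]
        field_simp
        ring
    have mxB : ∀ (l l' : StrongDual ℝ V) (s : ℝ), (∀ y ∈ B, l' y = l y + s) → mx B l' = mx B l := by
      intro l l' s h
      ext x
      constructor
      · rintro ⟨hx, hm⟩
        refine ⟨hx, fun y hy => ?_⟩
        have := hm y hy
        rw [h y hy, h x hx] at this
        linarith
      · rintro ⟨hx, hm⟩
        refine ⟨hx, fun y hy => ?_⟩
        have := hm y hy
        rw [h y hy, h x hx]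
        linarith
    rintro (hF | ⟨F, hF, rfl⟩)
    · rcases G.eq_empty_or_nonempty with rfl | hne
      · exact isExposed_empty
      obtain ⟨l, hl⟩ := hF hne
      change G = mx B l at hl
      obtain ⟨y0, hy0⟩ := hne
      rw [hl] at hy0
      obtain ⟨l', s, h1, h2⟩ := adj l (l y0 - 1)
      rw [hl, ← mxB l l' s h1, ← mx_pyr_lt (l := l') (p := p) hy0.1
        (fun y hy => by rw [h1 y hy, h1 y0 hy0.1]; linarith [hy0.2 y hy])
        (by rw [h2, h1 y0 hy0.1]; linarith)]
      exact exposed_mx _ _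
    · rcases F.eq_empty_or_nonempty with rfl | hne
      · obtain ⟨y0, hy0⟩ := hBn
        obtain ⟨l', s, h1, h2⟩ := adj 0 1
        rw [← mx_pyr_gt (l := l') (p := p) hy0
          (fun y hy => by rw [h1 y hy, h1 y0 hy0]; simp)
          (by rw [h2, h1 y0 hy0]; simp)]
        exact exposed_mx _ _
      · obtain ⟨l, hl⟩ := hF hne
        change F = mx B l at hl
        obtain ⟨y0, hy0⟩ := hne
        rw [hl] at hy0
        obtain ⟨l', s, h1, h2⟩ := adj l (l y0)
        rw [hl, ← mxB l l' s h1, ← mx_pyr_eq (l := l') (p := p) hy0.1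
          (fun y hy => by rw [h1 y hy, h1 y0 hy0.1]; linarith [hy0.2 y hy])
          (by rw [h2, h1 y0 hy0.1])]
        exact exposed_mx _ _

lemma pyr_inj (hB : ∀ y ∈ B, φ y = c) (hp : φ p ≠ c) {F F' : Set V} (hF : F ⊆ B) (hF' : F' ⊆ B)
    (h : pyr p F = pyr p F') : F = F' := by
  have key : ∀ F : Set V, F ⊆ B → F = pyr p F ∩ {x | φ x = c} := by
    intro F hF
    ext x
    constructor
    · intro hx; exact ⟨sub_pyr p F hx, hB x (hF hx)⟩
    · rintro ⟨h1, h2⟩
      exact base_eq (fun y hy => hB y (hF hy)) hp h1 h2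
  rw [key F hF, key F' hF', h]

lemma vectorSpan_pyr (p : V) {F : Set V} {q : V} (hq : q ∈ F) :
    vectorSpan ℝ (pyr p F) = Submodule.span ℝ {p - q} ⊔ vectorSpan ℝ F := by
  apply le_antisymm
  · rw [vectorSpan_eq_span_vsub_set_right ℝ (sub_pyr p F hq), Submodule.span_le]
    rintro _ ⟨x, hx, rfl⟩
    show x - q ∈ _
    rcases mem_pyr.1 hx with rfl | ⟨y, hy, t, h0, h1, rfl⟩
    · exact Submodule.mem_sup_left (Submodule.mem_span_singleton_self _)
    · have e : (1 - t) • y + t • p - q = t • (p - q) + (1 - t) • (y - q) := by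
        module
      rw [e]
      exact Submodule.add_mem_sup (Submodule.smul_mem _ _ (Submodule.mem_span_singleton_self _))
        (Submodule.smul_mem _ _ (vsub_mem_vectorSpan ℝ hy hq))
  · apply sup_le
    · rw [Submodule.span_le, Set.singleton_subset_iff]
      exact vsub_mem_vectorSpan ℝ (apex_mem p F) (sub_pyr p F hq)
    · exact vectorSpan_mono ℝ (sub_pyr p F)

lemma fdim_pyr [FiniteDimensional ℝ V] (hB : ∀ y ∈ B, φ y = c) (hp : φ p ≠ c) {F : Set V}
    (hF : F ⊆ B) : fdim (pyr p F) = fdim F + 1 := by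
  rw [fdim_of_nonempty ⟨p, apex_mem p F⟩]
  rcases F.eq_empty_or_nonempty with rfl | ⟨q, hq⟩
  · rw [fdim_empty]
    have : pyr p (∅ : Set V) = {p} := by
      ext x; rw [mem_pyr]; simp
    rw [this, vectorSpan_singleton]
    simp
  · rw [fdim_of_nonempty ⟨q, hq⟩, vectorSpan_pyr p hq]
    have hker : ∀ v ∈ vectorSpan ℝ F, φ v = 0 := by
      intro v hv
      have : vectorSpan ℝ F ≤ LinearMap.ker (φ : V →ₗ[ℝ] ℝ) := by
        rw [vectorSpan_def, Submodule.span_le]
        rintro _ ⟨y, hy, z, hz, rfl⟩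
        show φ (y - z) = 0
        rw [map_sub, hB y (hF hy), hB z (hF hz), sub_self]
      exact this hv
    have hpq : φ (p - q) ≠ 0 := by
      rw [map_sub, hB q (hF hq)]; exact sub_ne_zero.2 hp
    have hne : p - q ≠ 0 := by
      intro h; rw [h, map_zero] at hpq; exact hpq rfl
    have hinf : Submodule.span ℝ {p - q} ⊓ vectorSpan ℝ F = ⊥ := by
      rw [eq_bot_iff]
      rintro v ⟨h1, h2⟩
      obtain ⟨r, rfl⟩ := Submodule.mem_span_singleton.1 h1
      have := hker _ h2
      rw [map_smul, smul_eq_mul] at this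
      have hr : r = 0 := (mul_eq_zero.1 this).resolve_right hpq
      simp [hr]
    have h := Submodule.finrank_sup_add_finrank_inf_eq (Submodule.span ℝ {p - q}) (vectorSpan ℝ F)
    rw [hinf, finrank_bot, add_zero, finrank_span_singleton hne] at h
    rw [h]; push_cast; ring

/-- Face numbers of pyramids. -/
theorem fNum_pyr [FiniteDimensional ℝ V] (hBc : IsCompact B) (hBn : B.Nonempty)
    (hfin : {F : Set V | IsExposed ℝ B F}.Finite)
    (hB : ∀ y ∈ B, φ y = c) (hp : φ p ≠ c) (k : ℤ) :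
    fNum (pyr p B) k = fNum B k + fNum B (k - 1) := by
  have hset : {F : Set V | IsExposed ℝ (pyr p B) F ∧ fdim F = k} =
      {F : Set V | IsExposed ℝ B F ∧ fdim F = k} ∪
      pyr p '' {F : Set V | IsExposed ℝ B F ∧ fdim F = k - 1} := by
    ext G
    simp only [mem_ofPred_eq, mem_union, mem_image]
    rw [exposed_pyr hBc hBn hB hp]
    constructor
    · rintro ⟨h | ⟨F, hF, rfl⟩, hk⟩
      · exact Or.inl ⟨h, hk⟩
      · rw [fdim_pyr hB hp hF.subset] at hk
        exact Or.inr ⟨F, ⟨hF, by linarith⟩, rfl⟩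
    · rintro (⟨h, hk⟩ | ⟨F, ⟨hF, hk⟩, rfl⟩)
      · exact ⟨Or.inl h, hk⟩
      · refine ⟨Or.inr ⟨F, hF, rfl⟩, ?_⟩
        rw [fdim_pyr hB hp hF.subset, hk]; ring
  have hpB : p ∉ B := fun h => hp (hB p h)
  have hdisj : Disjoint {F : Set V | IsExposed ℝ B F ∧ fdim F = k}
      (pyr p '' {F : Set V | IsExposed ℝ B F ∧ fdim F = k - 1}) := by
    rw [Set.disjoint_left]
    rintro G ⟨hG, -⟩ ⟨F, -, rfl⟩
    exact hpB (hG.subset (apex_mem p F))
  unfold fNum
  rw [hset, Set.ncard_union_eq hdisj (hfin.subset fun F h => h.1)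
    ((hfin.subset fun F h => h.1).image _)]
  congr 1
  apply Set.InjOn.ncard_image
  rintro F ⟨hF, -⟩ F' ⟨hF', -⟩ h
  exact pyr_inj hB hp hF.subset hF'.subset h

lemma finite_exposed_pyr (hBc : IsCompact B) (hBn : B.Nonempty)
    (hfin : {F : Set V | IsExposed ℝ B F}.Finite)
    (hB : ∀ y ∈ B, φ y = c) (hp : φ p ≠ c) : {F : Set V | IsExposed ℝ (pyr p B) F}.Finite := by
  have : {F : Set V | IsExposed ℝ (pyr p B) F} ⊆ {F : Set V | IsExposed ℝ B F} ∪
      pyr p '' {F : Set V | IsExposed ℝ B F} := by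
    intro G hG
    rcases (exposed_pyr hBc hBn hB hp G).1 hG with h | ⟨F, hF, rfl⟩
    · exact Or.inl h
    · exact Or.inr ⟨F, hF, rfl⟩
  exact (hfin.union (hfin.image _)).subset this

/-! ### Affine copies -/

variable {W : Type*} [NormedAddCommGroup W] [NormedSpace ℝ W]

lemma exposed_image (ι : V →L[ℝ] W) (r : W →L[ℝ] V) (hr : ∀ v, r (ι v) = v) (w0 : W)
    (Q : Set V) (G : Set W) : IsExposed ℝ ((fun v => ι v + w0) '' Q) G ↔
      ∃ F, IsExposed ℝ Q F ∧ G = (fun v => ι v + w0) '' F := by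
  constructor
  · intro hG
    rcases G.eq_empty_or_nonempty with rfl | hne
    · exact ⟨∅, isExposed_empty, by simp⟩
    obtain ⟨l, hl⟩ := hG hne
    refine ⟨mx Q (l.comp ι), exposed_mx _ _, ?_⟩
    rw [hl]
    ext x
    constructor
    · rintro ⟨⟨v, hv, rfl⟩, hm⟩
      refine ⟨v, ⟨hv, fun z hz => ?_⟩, rfl⟩
      have := hm _ ⟨z, hz, rfl⟩
      simp only [map_add, ContinuousLinearMap.comp_apply] at this ⊢
      linarith
    · rintro ⟨v, ⟨hv, hm⟩, rfl⟩
      refine ⟨⟨v, hv, rfl⟩, ?_⟩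
      rintro _ ⟨z, hz, rfl⟩
      have := hm z hz
      simp only [map_add, ContinuousLinearMap.comp_apply] at this ⊢
      linarith
  · rintro ⟨F, hF, rfl⟩
    rcases F.eq_empty_or_nonempty with rfl | hne
    · rw [image_empty]; exact isExposed_empty
    obtain ⟨l, hl⟩ := hF hne
    intro _
    refine ⟨l.comp r, ?_⟩
    rw [hl]
    ext x
    constructor
    · rintro ⟨v, ⟨hv, hm⟩, rfl⟩
      refine ⟨⟨v, hv, rfl⟩, ?_⟩
      rintro _ ⟨z, hz, rfl⟩
      have := hm z hz
      simp only [map_add, ContinuousLinearMap.comp_apply, hr]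
      linarith
    · rintro ⟨⟨v, hv, rfl⟩, hm⟩
      refine ⟨v, ⟨hv, fun z hz => ?_⟩, rfl⟩
      have := hm _ ⟨z, hz, rfl⟩
      simp only [map_add, ContinuousLinearMap.comp_apply, hr] at this
      linarith

lemma fdim_image (ι : V →L[ℝ] W) (r : W →L[ℝ] V) (hr : ∀ v, r (ι v) = v) (w0 : W)
    (F : Set V) : fdim ((fun v => ι v + w0) '' F) = fdim F := by
  rcases F.eq_empty_or_nonempty with rfl | hne
  · rw [image_empty, fdim_empty, fdim_empty]
  rw [fdim_of_nonempty hne, fdim_of_nonempty (hne.image _)]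
  have hvs : vectorSpan ℝ ((fun v => ι v + w0) '' F) =
      (vectorSpan ℝ F).map (ι : V →ₗ[ℝ] W) := by
    rw [vectorSpan_def, vectorSpan_def, Submodule.map_span]
    congr 1
    ext x
    constructor
    · rintro ⟨_, ⟨a, ha, rfl⟩, _, ⟨b, hb, rfl⟩, rfl⟩
      refine ⟨a - b, ⟨a, ha, b, hb, rfl⟩, ?_⟩
      show ι (a - b) = (ι a + w0) - (ι b + w0)
      rw [map_sub]; abel
    · rintro ⟨_, ⟨a, ha, b, hb, rfl⟩, rfl⟩
      refine ⟨_, ⟨a, ha, rfl⟩, _, ⟨b, hb, rfl⟩, ?_⟩
      show (ι a + w0) - (ι b + w0) = ι (a - b)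
      rw [map_sub]; abel
  rw [hvs]
  have hinj : Function.Injective (ι : V →ₗ[ℝ] W) := fun a b h => by
    have := congrArg r h
    simpa [hr] using this
  rw [LinearEquiv.finrank_eq (Submodule.equivMapOfInjective _ hinj _).symm]

lemma fNum_image (ι : V →L[ℝ] W) (r : W →L[ℝ] V) (hr : ∀ v, r (ι v) = v) (w0 : W)
    (Q : Set V) (k : ℤ) : fNum ((fun v => ι v + w0) '' Q) k = fNum Q k := by
  have hset : {G : Set W | IsExposed ℝ ((fun v => ι v + w0) '' Q) G ∧ fdim G = k} =
      (fun F => (fun v => ι v + w0) '' F) '' {F : Set V | IsExposed ℝ Q F ∧ fdim F = k} := by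
    ext G
    simp only [mem_ofPred_eq, mem_image (α := Set V)]
    rw [exposed_image ι r hr]
    constructor
    · rintro ⟨⟨F, hF, rfl⟩, hk⟩
      rw [fdim_image ι r hr] at hk
      exact ⟨F, ⟨hF, hk⟩, rfl⟩
    · rintro ⟨F, ⟨hF, hk⟩, rfl⟩
      exact ⟨⟨F, hF, rfl⟩, by rw [fdim_image ι r hr]; exact hk⟩
  unfold fNum
  rw [hset]
  apply Set.InjOn.ncard_image
  intro F _ F' _ h
  have hinj : Function.Injective (fun v => ι v + w0) := fun a b h => by
    have := congrArg r (add_right_cancel h)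
    simpa [hr] using this
  exact (Set.image_injective.2 hinj) h

lemma finite_image (ι : V →L[ℝ] W) (r : W →L[ℝ] V) (hr : ∀ v, r (ι v) = v) (w0 : W)
    (Q : Set V) (hfin : {F : Set V | IsExposed ℝ Q F}.Finite) :
    {G : Set W | IsExposed ℝ ((fun v => ι v + w0) '' Q) G}.Finite := by
  refine (hfin.image (fun F => (fun v => ι v + w0) '' F)).subset ?_
  intro G hG
  obtain ⟨F, hF, rfl⟩ := (exposed_image ι r hr w0 Q G).1 hG
  exact ⟨F, hF, rfl⟩

end Pool.Agent.V11151.Pyramid
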