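import Pool.Agent.V11151.CrownCount
import Pool.Agent.V11151.Pyramid

/-!
# Log-concavity of the face numbers of crown order polytopes, and pyramids
-/

namespace Pool.Agent.V11151.CrownLC

open Set Pool.Agent.W304.HL Pool.Agent.V11151.CrownFaces Pool.Agent.V11151.CrownPoly
open Pool.Agent.V11151.CrownCount Pool.Agent.V11151.Pyramid

section general

variable {V : Type*} [AddCommGroup V] [Module ℝ V] [TopologicalSpace V]

lemma fNum_nat (Q : Set V) (k : ℕ) : fNum Q (k : ℤ) = (facesOfDim Q k).ncard := by
  unfold fNum facesOfDim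
  congr 1
  ext F
  simp only [mem_ofPred_eq]
  constructor
  · rintro ⟨h1, h2⟩
    have hne : F.Nonempty := by
      rw [nonempty_iff_ne_empty]
      rintro rfl
      rw [fdim_empty] at h2
      omega
    refine ⟨hne, h1, ?_⟩
    rw [fdim_of_nonempty hne] at h2
    exact_mod_cast h2
  · rintro ⟨h1, h2, h3⟩
    exact ⟨h2, by rw [fdim_of_nonempty h1, h3]⟩

lemma fdim_ge (F : Set V) : -1 ≤ fdim F := by
  rcases F.eq_empty_or_nonempty with rfl | h
  · rw [fdim_empty]
  · rw [fdim_of_nonempty h]; omega

lemma fNum_neg_one (Q : Set V) : fNum Q (-1) = 1 := by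
  unfold fNum
  have : {F : Set V | IsExposed ℝ Q F ∧ fdim F = -1} = {∅} := by
    ext F
    simp only [mem_ofPred_eq, mem_singleton_iff]
    constructor
    · rintro ⟨_, h⟩
      by_contra hne
      rw [fdim_of_nonempty (nonempty_iff_ne_empty.2 hne)] at h
      omega
    · rintro rfl
      exact ⟨isExposed_empty, fdim_empty⟩
  rw [this, ncard_singleton]

lemma fNum_lt (Q : Set V) {k : ℤ} (hk : k < -1) : fNum Q k = 0 := by
  unfold fNum
  have : {F : Set V | IsExposed ℝ Q F ∧ fdim F = k} = ∅ := by
    ext F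
    simp only [mem_ofPred_eq, mem_empty_iff_false, iff_false]
    rintro ⟨_, h⟩
    have := fdim_ge F
    omega
  rw [this, ncard_empty]

end general

/-! ### Strong log-concavity -/

/-- log-concavity without internal zeros -/
def SLC (a : ℤ → ℕ) : Prop := ∀ i j, i ≤ j → a (i - 1) * a (j + 1) ≤ a i * a j

lemma SLC.pyr {a b : ℤ → ℕ} (h : SLC a) (hb : ∀ k, b k = a k + a (k - 1)) : SLC b := by
  intro i j hij
  rw [hb, hb, hb, hb, show j + 1 - 1 = j by ring]
  have h1 := h i j hij
  have h2 := h (i - 1) (j - 1) (by omega)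
  rw [show j - 1 + 1 = j by ring] at h2
  have h3 := h (i - 1) j (by omega)
  have h4 : a (i - 1) * a j ≤ a i * a (j - 1) := by
    rcases eq_or_lt_of_le hij with rfl | hlt
    · rw [mul_comm]
    · have := h i (j - 1) (by omega)
      rwa [show j - 1 + 1 = j by ring] at this
  nlinarith

lemma SLC.of {a : ℤ → ℕ} (h1 : ∀ k, a (k - 1) * a (k + 1) ≤ a k ^ 2) (h2 : ∀ k, k < -1 → a k = 0)
    (h3 : ∀ k, -1 ≤ k → a k = 0 → a (k + 1) = 0) : SLC a := by
  have h3' : ∀ k, -1 ≤ k → a k = 0 → ∀ d : ℕ, a (k + d) = 0 := by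
    intro k hk h0 d
    induction d with
    | zero => simpa using h0
    | succ d ih =>
      push_cast
      rw [← add_assoc]
      exact h3 _ (by omega) ih
  have key : ∀ d : ℕ, ∀ i, a (i - 1) * a (i + d + 1) ≤ a i * a (i + d) := by
    intro d
    induction d with
    | zero => intro i; have := h1 i; simp only [Nat.cast_zero, add_zero]; nlinarith
    | succ d ih =>
      intro i
      push_cast
      have e1 := ih i
      have e2 := h1 (i + d + 1)
      rw [show i + (d : ℤ) + 1 - 1 = i + d by ring] at e2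
      rw [show i + ((d : ℤ) + 1) = i + d + 1 by ring]
      rcases lt_or_ge i (-1) with hi | hi
      · rw [h2 (i - 1) (by omega)]; simp
      rcases lt_or_ge i 0 with hi0 | hi0
      · have : i = -1 := by omega
        subst this
        rw [h2 (-1 - 1) (by omega)]; simp
      by_cases hz : a (i + d) = 0
      · have := h3' (i + d) (by omega) hz 2
        rw [show i + (d : ℤ) + ((2 : ℕ) : ℤ) = i + d + 1 + 1 by push_cast; ring] at this
        rw [this]; simp
      by_cases hz1 : a (i + d + 1) = 0
      · have := h3 (i + d + 1) (by omega) hz1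
        rw [this]; simp
      have hp : 0 < a (i + d) * a (i + d + 1) := Nat.pos_of_ne_zero (by positivity)
      have m := Nat.mul_le_mul e1 e2
      have m2 : (a (i - 1) * a (i + d + 1 + 1)) * (a (i + d) * a (i + d + 1)) ≤
          (a i * a (i + d + 1)) * (a (i + d) * a (i + d + 1)) := by
        calc _ = a (i - 1) * a (i + d + 1) * (a (i + d) * a (i + d + 1 + 1)) := by ring
          _ ≤ _ := m
          _ = _ := by ring
      exact Nat.le_of_mul_le_mul_right m2 hp
  intro i j hij
  obtain ⟨d, rfl⟩ := Int.le.dest hij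
  exact key d i

/-! ### The crown -/

lemma FF_zero_next (m k : ℕ) (h : (FF m).coeff k = 0) : (FF m).coeff (k + 1) = 0 := by
  obtain ⟨H, _⟩ := HH_ulc m
  rcases k with _ | _ | k
  · rw [FF_zero] at h
    have := H.nonneg 0
    linarith
  · rw [show 0 + 1 = 1 from rfl, FF_one] at h
    have := H.nonneg 1
    linarith
  · rw [show k + 1 + 1 = k + 2 from rfl, FF_ge] at h
    rw [show k + 1 + 1 + 1 = (k + 1) + 2 from rfl, FF_ge]
    exact H.zero _ h

theorem crown_slc (n : ℕ) [NeZero n] : SLC (fNum (orderPolytope (Crown n))) := by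
  obtain ⟨m, rfl⟩ : ∃ m, n = m + 1 := ⟨n - 1, by have := NeZero.pos n; omega⟩
  have key : ∀ k : ℕ, ((fNum (orderPolytope (Crown (m + 1))) (k : ℤ) : ℕ) : ℝ) = (FF m).coeff k := by
    intro k
    rw [fNum_nat]
    exact faces_eq m k
  obtain ⟨f1, f2⟩ := FF_logconcave m
  apply SLC.of
  · intro k
    rcases lt_or_ge k 0 with hk | hk
    · rw [fNum_lt _ (show k - 1 < -1 by omega)]; simp
    · obtain ⟨j, rfl⟩ := Int.eq_ofNat_of_zero_le hk
      rcases j with _ | j
      · rw [show ((0 : ℕ) : ℤ) - 1 = -1 by norm_num, fNum_neg_one, one_mul,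
          show ((0 : ℕ) : ℤ) + 1 = ((1 : ℕ) : ℤ) by norm_num]
        have : ((fNum (orderPolytope (Crown (m + 1))) ((1 : ℕ) : ℤ) : ℕ) : ℝ) ≤
            ((fNum (orderPolytope (Crown (m + 1))) ((0 : ℕ) : ℤ) : ℕ) : ℝ) ^ 2 := by
          rw [key, key]; exact f1
        exact_mod_cast this
      · rw [show ((j + 1 : ℕ) : ℤ) - 1 = (j : ℤ) by push_cast; ring,
          show ((j + 1 : ℕ) : ℤ) + 1 = ((j + 2 : ℕ) : ℤ) by push_cast; ring]
        have : ((fNum (orderPolytope (Crown (m + 1))) (j : ℤ) : ℕ) : ℝ) *
            ((fNum (orderPolytope (Crown (m + 1))) ((j + 2 : ℕ) : ℤ) : ℕ) : ℝ) ≤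
            ((fNum (orderPolytope (Crown (m + 1))) ((j + 1 : ℕ) : ℤ) : ℕ) : ℝ) ^ 2 := by
          rw [key, key, key]; exact f2 j
        exact_mod_cast this
  · intro k hk; exact fNum_lt _ hk
  · intro k hk h0
    rcases lt_or_ge k 0 with hk0 | hk0
    · have : k = -1 := by omega
      subst this
      rw [fNum_neg_one] at h0
      exact absurd h0 one_ne_zero
    · obtain ⟨j, rfl⟩ := Int.eq_ofNat_of_zero_le hk0
      have h1 : (FF m).coeff j = 0 := by rw [← key, h0]; simp
      have h2 := FF_zero_next m j h1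
      rw [← key] at h2
      exact_mod_cast h2

/-! ### Order polytopes of posets with a new minimum or maximum -/

lemma isCompact_orderPolytope (P : Type*) [PartialOrder P] : IsCompact (orderPolytope P) := by
  have h : orderPolytope P ⊆ Icc (0 : P → ℝ) 1 := fun x hx =>
    ⟨fun a => (hx.1 a).1, fun a => (hx.1 a).2⟩
  refine IsCompact.of_isClosed_subset isCompact_Icc ?_ h
  have e : orderPolytope P = (⋂ a, {x : P → ℝ | 0 ≤ x a} ∩ {x : P → ℝ | x a ≤ 1}) ∩
      ⋂ a, ⋂ b, ⋂ (_ : a ≤ b), {x : P → ℝ | x a ≤ x b} := by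
    ext x
    simp only [orderPolytope, mem_inter_iff, mem_iInter]
    exact Iff.rfl
  rw [e]
  refine IsClosed.inter (isClosed_iInter fun a => IsClosed.inter ?_ ?_)
    (isClosed_iInter fun a => isClosed_iInter fun b => isClosed_iInter fun _ => ?_)
  · exact isClosed_le continuous_const (continuous_apply a)
  · exact isClosed_le (continuous_apply a) continuous_const
  · exact isClosed_le (continuous_apply a) (continuous_apply b)

lemma zero_mem_orderPolytope (P : Type*) [PartialOrder P] : (0 : P → ℝ) ∈ orderPolytope P :=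
  ⟨fun _ => ⟨le_rfl, zero_le_one⟩, fun _ _ _ => le_rfl⟩

/-- the finiteness of the set of faces -/
def FinF {V : Type*} [AddCommGroup V] [Module ℝ V] [TopologicalSpace V] (Q : Set V) : Prop :=
  {F : Set V | IsExposed ℝ Q F}.Finite

section gen

variable {P W : Type*} [Fintype P] [Fintype W]

lemma gen_fNum (io : (P → ℝ) →L[ℝ] (W → ℝ)) (rh : (W → ℝ) →L[ℝ] (P → ℝ)) (w0 : W → ℝ)
    (hr : ∀ v : P → ℝ, rh (io v) = v) (k : ℤ) (Q : Set (P → ℝ)) :
    fNum ((fun v : P → ℝ => io v + w0) '' Q) k = fNum Q k := fNum_image io rh hr w0 Q k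

lemma gen_fin (io : (P → ℝ) →L[ℝ] (W → ℝ)) (rh : (W → ℝ) →L[ℝ] (P → ℝ)) (w0 : W → ℝ)
    (hr : ∀ v : P → ℝ, rh (io v) = v) (Q : Set (P → ℝ)) (hQ : FinF Q) :
    FinF ((fun v : P → ℝ => io v + w0) '' Q) := finite_image io rh hr w0 Q hQ

lemma gen_pyr {B : Set (W → ℝ)} {p : W → ℝ} (a : W) {c : ℝ} (hBc : IsCompact B)
    (hBn : B.Nonempty) (hfin : FinF B) (hB : ∀ y ∈ B, y a = c) (hp : p a ≠ c) (k : ℤ) :
    fNum (pyr p B) k = fNum B k + fNum B (k - 1) :=
  fNum_pyr (φ := (ContinuousLinearMap.proj (R := ℝ) a : StrongDual ℝ (W → ℝ))) hBc hBn hfin hB hp k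

lemma gen_pyr_fin {B : Set (W → ℝ)} {p : W → ℝ} (a : W) {c : ℝ} (hBc : IsCompact B)
    (hBn : B.Nonempty) (hfin : FinF B) (hB : ∀ y ∈ B, y a = c) (hp : p a ≠ c) :
    FinF (pyr p B) :=
  finite_exposed_pyr (φ := (ContinuousLinearMap.proj (R := ℝ) a : StrongDual ℝ (W → ℝ)))
    hBc hBn hfin hB hp

lemma gen_all (io : (P → ℝ) →L[ℝ] (W → ℝ)) (rh : (W → ℝ) →L[ℝ] (P → ℝ)) (w0 : W → ℝ)
    (hr : ∀ v : P → ℝ, rh (io v) = v) (Q : Set (P → ℝ)) (hQ : FinF Q) (hQc : IsCompact Q)
    (hQn : Q.Nonempty) (a : W) (c : ℝ) (p : W → ℝ) (hio : ∀ v, io v a = 0) (hw : w0 a = c)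
    (hp : p a ≠ c) : FinF (pyr p ((fun v : P → ℝ => io v + w0) '' Q)) ∧
    ∀ k, fNum (pyr p ((fun v : P → ℝ => io v + w0) '' Q)) k = fNum Q k + fNum Q (k - 1) := by
  have hc : IsCompact ((fun v : P → ℝ => io v + w0) '' Q) :=
    hQc.image (io.continuous.add continuous_const)
  have hn : ((fun v : P → ℝ => io v + w0) '' Q).Nonempty := hQn.image _
  have hB : ∀ y ∈ (fun v : P → ℝ => io v + w0) '' Q, y a = c := by
    rintro _ ⟨v, _, rfl⟩
    show io v a + w0 a = c
    rw [hio, hw, zero_add]
  have hf := gen_fin io rh w0 hr Q hQ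
  refine ⟨gen_pyr_fin a hc hn hf hB hp, fun k => ?_⟩
  rw [gen_pyr a hc hn hf hB hp, gen_fNum io rh w0 hr, gen_fNum io rh w0 hr]

end gen

section bot

variable {P : Type*} [PartialOrder P] [Fintype P]

/-- extension by `0` at the bottom -/
noncomputable def iotaB : (P → ℝ) →L[ℝ] (WithBot P → ℝ) :=
  LinearMap.toContinuousLinearMap
    { toFun := fun x a => WithBot.recBotCoe (C := fun _ => ℝ) 0 x a
      map_add' := by
        intro x y
        ext a
        induction a using WithBot.recBotCoe with
        | bot => simp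
        | coe a => rfl
      map_smul' := by
        intro c x
        ext a
        induction a using WithBot.recBotCoe with
        | bot => simp
        | coe a => rfl }

/-- restriction -/
noncomputable def rhoB : (WithBot P → ℝ) →L[ℝ] (P → ℝ) :=
  LinearMap.toContinuousLinearMap
    { toFun := fun x a => x (a : WithBot P)
      map_add' := fun _ _ => rfl
      map_smul' := fun _ _ => rfl }

lemma iotaB_bot (x : P → ℝ) : iotaB x ⊥ = 0 := rfl
lemma iotaB_coe (x : P → ℝ) (a : P) : iotaB x (a : WithBot P) = x a := rfl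
lemma rhoB_apply (x : WithBot P → ℝ) (a : P) : rhoB x a = x (a : WithBot P) := rfl

lemma order_bot : orderPolytope (WithBot P) =
    pyr (fun _ => 1) ((fun v => iotaB v + 0) '' orderPolytope P) := by
  ext x
  rw [mem_pyr]
  constructor
  · rintro ⟨h1, h2⟩
    by_cases ht : x ⊥ = 1
    · left
      ext a
      have := h2 ⊥ a bot_le
      exact le_antisymm (h1 a).2 (ht ▸ this)
    · right
      have hlt : x ⊥ < 1 := lt_of_le_of_ne (h1 ⊥).2 ht
      have hpos : 0 < 1 - x ⊥ := by linarith
      refine ⟨_, ⟨fun a => (x (a : WithBot P) - x ⊥) / (1 - x ⊥), ⟨?_, ?_⟩, rfl⟩, x ⊥, (h1 ⊥).1,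
        (h1 ⊥).2, ?_⟩
      · intro a
        constructor
        · exact div_nonneg (by linarith [h2 ⊥ a bot_le]) hpos.le
        · rw [div_le_one hpos]; linarith [(h1 a).2]
      · intro a b hab
        apply div_le_div_of_nonneg_right _ hpos.le
        have := h2 a b (WithBot.coe_le_coe.2 hab)
        linarith
      · ext a
        simp only [add_zero, Pi.add_apply, Pi.smul_apply, smul_eq_mul, mul_one]
        induction a using WithBot.recBotCoe with
        | bot => rw [iotaB_bot]; ring
        | coe a => rw [iotaB_coe]; field_simp; ring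
  · rintro (rfl | ⟨_, ⟨y, ⟨hy1, hy2⟩, rfl⟩, t, h0, h1, rfl⟩)
    · exact ⟨fun _ => ⟨zero_le_one, le_rfl⟩, fun _ _ _ => le_rfl⟩
    · constructor
      · intro a
        simp only [add_zero, Pi.add_apply, Pi.smul_apply, smul_eq_mul, mul_one]
        induction a using WithBot.recBotCoe with
        | bot => rw [iotaB_bot]; constructor <;> linarith
        | coe a =>
          rw [iotaB_coe]
          have := hy1 a
          constructor <;> nlinarith [this.1, this.2]
      · intro a b hab
        simp only [add_zero, Pi.add_apply, Pi.smul_apply, smul_eq_mul, mul_one]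
        induction a using WithBot.recBotCoe with
        | bot =>
          rw [iotaB_bot]
          induction b using WithBot.recBotCoe with
          | bot => rw [iotaB_bot]
          | coe b =>
            rw [iotaB_coe]
            have := hy1 b
            nlinarith [this.1, this.2]
        | coe a =>
          induction b using WithBot.recBotCoe with
          | bot => exact absurd hab (WithBot.not_coe_le_bot a)
          | coe b =>
            rw [iotaB_coe, iotaB_coe]
            have := hy2 a b (WithBot.coe_le_coe.1 hab)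
            nlinarith

lemma fNum_bot (hP : FinF (orderPolytope P)) : FinF (orderPolytope (WithBot P)) ∧
    ∀ k, fNum (orderPolytope (WithBot P)) k =
      fNum (orderPolytope P) k + fNum (orderPolytope P) (k - 1) := by
  rw [order_bot]
  exact gen_all iotaB rhoB 0 (fun v => rfl) (orderPolytope P) hP (isCompact_orderPolytope P)
    ⟨0, zero_mem_orderPolytope P⟩ ⊥ 0 (fun _ => 1) iotaB_bot rfl one_ne_zero

end bot

section top

variable {P : Type*} [PartialOrder P] [Fintype P]

/-- extension by `0` at the top -/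
noncomputable def iotaT : (P → ℝ) →L[ℝ] (WithTop P → ℝ) :=
  LinearMap.toContinuousLinearMap
    { toFun := fun x a => WithTop.recTopCoe (C := fun _ => ℝ) 0 x a
      map_add' := by
        intro x y
        ext a
        induction a using WithTop.recTopCoe with
        | top => simp
        | coe a => rfl
      map_smul' := by
        intro c x
        ext a
        induction a using WithTop.recTopCoe with
        | top => simp
        | coe a => rfl }

/-- the indicator of the top -/
def wT : WithTop P → ℝ := fun a => WithTop.recTopCoe (C := fun _ => ℝ) 1 (fun _ => 0) a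

/-- restriction -/
noncomputable def rhoT : (WithTop P → ℝ) →L[ℝ] (P → ℝ) :=
  LinearMap.toContinuousLinearMap
    { toFun := fun x a => x (a : WithTop P)
      map_add' := fun _ _ => rfl
      map_smul' := fun _ _ => rfl }

lemma iotaT_top (x : P → ℝ) : iotaT x ⊤ = 0 := rfl
lemma iotaT_coe (x : P → ℝ) (a : P) : iotaT x (a : WithTop P) = x a := rfl
lemma wT_top : (wT : WithTop P → ℝ) ⊤ = 1 := rfl
lemma wT_coe (a : P) : (wT : WithTop P → ℝ) (a : WithTop P) = 0 := rfl

lemma order_top : orderPolytope (WithTop P) =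
    pyr (fun _ => 0) ((fun v => iotaT v + wT) '' orderPolytope P) := by
  ext x
  rw [mem_pyr]
  constructor
  · rintro ⟨h1, h2⟩
    by_cases ht : x ⊤ = 0
    · left
      ext a
      have := h2 a ⊤ le_top
      exact le_antisymm (ht ▸ this) (h1 a).1
    · right
      have hpos : 0 < x ⊤ := lt_of_le_of_ne (h1 ⊤).1 (Ne.symm ht)
      refine ⟨_, ⟨fun a => x (a : WithTop P) / x ⊤, ⟨?_, ?_⟩, rfl⟩, 1 - x ⊤,
        by linarith [(h1 ⊤).2], by linarith, ?_⟩
      · intro a
        constructor
        · exact div_nonneg (h1 a).1 hpos.le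
        · rw [div_le_one hpos]; exact h2 a ⊤ le_top
      · intro a b hab
        apply div_le_div_of_nonneg_right _ hpos.le
        exact h2 a b (WithTop.coe_le_coe.2 hab)
      · ext a
        simp only [Pi.add_apply, Pi.smul_apply, smul_eq_mul, mul_zero, add_zero]
        induction a using WithTop.recTopCoe with
        | top => rw [iotaT_top, wT_top]; ring
        | coe a => rw [iotaT_coe, wT_coe]; field_simp; ring
  · rintro (rfl | ⟨_, ⟨y, ⟨hy1, hy2⟩, rfl⟩, t, h0, h1, rfl⟩)
    · exact ⟨fun _ => ⟨le_rfl, zero_le_one⟩, fun _ _ _ => le_rfl⟩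
    · constructor
      · intro a
        simp only [Pi.add_apply, Pi.smul_apply, smul_eq_mul, mul_zero, add_zero]
        induction a using WithTop.recTopCoe with
        | top => rw [iotaT_top, wT_top]; constructor <;> linarith
        | coe a =>
          rw [iotaT_coe, wT_coe]
          have := hy1 a
          constructor <;> nlinarith [this.1, this.2]
      · intro a b hab
        simp only [Pi.add_apply, Pi.smul_apply, smul_eq_mul, mul_zero, add_zero]
        induction b using WithTop.recTopCoe with
        | top =>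
          rw [iotaT_top, wT_top]
          induction a using WithTop.recTopCoe with
          | top => rw [iotaT_top, wT_top]
          | coe a =>
            rw [iotaT_coe, wT_coe]
            have := hy1 a
            nlinarith [this.1, this.2]
        | coe b =>
          induction a using WithTop.recTopCoe with
          | top => exact absurd hab (WithTop.not_top_le_coe b)
          | coe a =>
            rw [iotaT_coe, iotaT_coe, wT_coe, wT_coe]
            have := hy2 a b (WithTop.coe_le_coe.1 hab)
            nlinarith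

lemma fNum_top (hP : FinF (orderPolytope P)) : FinF (orderPolytope (WithTop P)) ∧
    ∀ k, fNum (orderPolytope (WithTop P)) k =
      fNum (orderPolytope P) k + fNum (orderPolytope P) (k - 1) := by
  rw [order_top]
  exact gen_all iotaT rhoT wT (fun v => rfl) (orderPolytope P) hP (isCompact_orderPolytope P)
    ⟨0, zero_mem_orderPolytope P⟩ ⊤ 1 (fun _ => 0) iotaT_top wT_top zero_ne_one

end top

lemma finF_crown (m : ℕ) : FinF (orderPolytope (Crown (m + 1))) := by
  unfold FinF
  have h : {F : Set (Crown (m + 1) → ℝ) | IsExposed ℝ (orderPolytope (Crown (m + 1))) F} ⊆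
      {∅} ∪ ⋃ k ∈ Finset.range (Module.finrank ℝ (Crown (m + 1) → ℝ) + 1),
        facesOfDim (orderPolytope (Crown (m + 1))) k := by
    intro F hF
    rcases F.eq_empty_or_nonempty with rfl | hne
    · exact Or.inl rfl
    · right
      simp only [mem_iUnion]
      exact ⟨Module.finrank ℝ (vectorSpan ℝ F), Finset.mem_range.2
        (Nat.lt_succ_of_le (Submodule.finrank_le _)), hne, hF, rfl⟩
  refine Set.Finite.subset ?_ h
  refine (finite_singleton _).union ?_
  refine Set.Finite.biUnion (Finset.finite_toSet _) fun k _ => ?_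
  rw [orderPolytope_eq]
  exact finite_faces _ _ k

theorem polygon_slc (n : ℕ) [NeZero n] :
    SLC (fNum (orderPolytope (WithBot (WithTop (Crown n))))) := by
  have h0 := crown_slc n
  obtain ⟨m, rfl⟩ : ∃ m, n = m + 1 := ⟨n - 1, by have := NeZero.pos n; omega⟩
  obtain ⟨f1, e1⟩ := fNum_top (finF_crown m)
  obtain ⟨f2, e2⟩ := fNum_bot f1
  exact (h0.pyr e1).pyr e2

end Pool.Agent.V11151.CrownLC
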