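import Pool.Agent.V11151.Explicit

/-!
# Vertex enumeration in dimension three
-/

namespace Pool.Agent.V11151.Enum3

open Pool.Agent.V11151.HV Pool.Agent.V11151.Explicit

/-- a determinant -/
def d3 (a1 a2 a3 b1 b2 b3 c1 c2 c3 : ℤ) : ℤ :=
  a1 * b2 * c3 - a1 * b3 * c2 - a2 * b1 * c3 + a2 * b3 * c1 + a3 * b1 * c2 - a3 * b2 * c1

/-- the determinant of three rows -/
def dd {m : ℕ} (la : Fin m → Fin 3 → ℤ) (i j k : Fin m) : ℤ :=
  d3 (la i 0) (la i 1) (la i 2) (la j 0) (la j 1) (la j 2) (la k 0) (la k 1) (la k 2)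

/-- Cramer numerators -/
def cr {m : ℕ} (la : Fin m → Fin 3 → ℤ) (lb : Fin m → ℤ) (i j k : Fin m) (t : Fin 3) : ℤ :=
  match t with
  | 0 => d3 (lb i) (la i 1) (la i 2) (lb j) (la j 1) (la j 2) (lb k) (la k 1) (la k 2)
  | 1 => d3 (la i 0) (lb i) (la i 2) (la j 0) (lb j) (la j 2) (la k 0) (lb k) (la k 2)
  | 2 => d3 (la i 0) (la i 1) (lb i) (la j 0) (la j 1) (lb j) (la k 0) (la k 1) (lb k)

/-- the polyhedron given by the inequalities -/
def PH {m d : ℕ} (la : Fin m → Fin d → ℤ) (lb : Fin m → ℤ) : Set (Fin d → ℝ) :=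
  {y | ∀ i, pt (la i) ⬝ᵥ y ≤ (lb i : ℝ)}

lemma PH_eq {m d : ℕ} (la : Fin m → Fin d → ℤ) (lb : Fin m → ℤ) :
    PH la lb = ⋂ i, {y : Fin d → ℝ | pt (la i) ⬝ᵥ y ≤ (lb i : ℝ)} := by
  ext y; simp [PH]

lemma PH_closed {m d : ℕ} (la : Fin m → Fin d → ℤ) (lb : Fin m → ℤ) : IsClosed (PH la lb) := by
  rw [PH_eq]
  apply isClosed_iInter
  intro i
  apply isClosed_le _ continuous_const
  show Continuous fun y : Fin d → ℝ => ∑ k, pt (la i) k * y k
  fun_prop

lemma PH_convex {m d : ℕ} (la : Fin m → Fin d → ℤ) (lb : Fin m → ℤ) : Convex ℝ (PH la lb) := by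
  rw [PH_eq]
  apply convex_iInter
  intro i
  exact convex_halfSpace_le (IsLinearMap.mk (fun x y => dotProduct_add _ x y)
    (fun c x => dotProduct_smul c _ x)) _

theorem extreme_sub {m n : ℕ} (la : Fin m → Fin 3 → ℤ) (lb : Fin m → ℤ) (V : Fin n → Fin 3 → ℤ)
    (check : ∀ i j k : Fin m, dd la i j k ≠ 0 →
      (∃ r : Fin n, ∀ t : Fin 3, cr la lb i j k t = dd la i j k * V r t) ∨
      (∃ l : Fin m, lb l * dd la i j k ^ 2 < dd la i j k *
        (la l 0 * cr la lb i j k 0 + la l 1 * cr la lb i j k 1 + la l 2 * cr la lb i j k 2))) :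
    (PH la lb).extremePoints ℝ ⊆ Set.range fun r => pt (V r) := by
  intro y hy
  obtain ⟨s, hs1, hs2⟩ := extreme_tight (fun i => pt (la i)) (fun i => (lb i : ℝ)) hy
  have hdet : (Matrix.of fun k => pt (la (s k))).det ≠ 0 := by
    have := (Matrix.linearIndependent_rows_iff_isUnit (A := Matrix.of fun k => pt (la (s k)))).1 hs2
    rw [Matrix.isUnit_iff_isUnit_det] at this
    exact this.ne_zero
  rw [Matrix.det_fin_three] at hdet
  simp only [Matrix.of_apply, pt] at hdet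
  have hD : dd la (s 0) (s 1) (s 2) ≠ 0 := by
    intro h
    apply hdet
    have h' : ((dd la (s 0) (s 1) (s 2) : ℤ) : ℝ) = 0 := by rw [h]; norm_num
    unfold dd d3 at h'
    push_cast at h'
    linarith
  have e : ∀ k, (la (s k) 0 : ℝ) * y 0 + (la (s k) 1 : ℝ) * y 1 + (la (s k) 2 : ℝ) * y 2 =
      (lb (s k) : ℝ) := by
    intro k
    have := hs1 k
    simp only [dotProduct, Fin.sum_univ_three, pt] at this
    exact this
  have e0 := e 0
  have e1 := e 1
  have e2 := e 2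
  generalize s 0 = i at *
  generalize s 1 = j at *
  generalize s 2 = k at *
  have c0 : (dd la i j k : ℝ) * y 0 = (cr la lb i j k 0 : ℝ) := by
    simp only [cr, dd, d3]
    push_cast
    rw [← e0, ← e1, ← e2]
    ring
  have c1 : (dd la i j k : ℝ) * y 1 = (cr la lb i j k 1 : ℝ) := by
    simp only [cr, dd, d3]
    push_cast
    rw [← e0, ← e1, ← e2]
    ring
  have c2 : (dd la i j k : ℝ) * y 2 = (cr la lb i j k 2 : ℝ) := by
    simp only [cr, dd, d3]
    push_cast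
    rw [← e0, ← e1, ← e2]
    ring
  have hD' : (dd la i j k : ℝ) ≠ 0 := by exact_mod_cast hD
  rcases check i j k hD with ⟨n, hn⟩ | ⟨l, hl⟩
  · refine ⟨n, ?_⟩
    funext t
    have h0 := hn t
    have h1 : (cr la lb i j k t : ℝ) = (dd la i j k : ℝ) * (V n t : ℝ) := by
      exact_mod_cast h0
    have h2 : (dd la i j k : ℝ) * y t = (cr la lb i j k t : ℝ) := by
      fin_cases t
      · exact c0
      · exact c1
      · exact c2
    rw [h1] at h2
    exact (mul_left_cancel₀ hD' h2).symm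
  · exfalso
    have h1 := hy.1 l
    simp only [dotProduct, Fin.sum_univ_three, pt] at h1
    have h2 : (lb l : ℝ) * (dd la i j k : ℝ) ^ 2 < (dd la i j k : ℝ) *
      ((la l 0 : ℝ) * (cr la lb i j k 0 : ℝ) + (la l 1 : ℝ) * (cr la lb i j k 1 : ℝ) +
        (la l 2 : ℝ) * (cr la lb i j k 2 : ℝ)) := by exact_mod_cast hl
    rw [← c0, ← c1, ← c2] at h2
    have h3 := mul_le_mul_of_nonneg_right h1 (sq_nonneg (dd la i j k : ℝ))
    nlinarith

theorem PH_sub {m n : ℕ} (la : Fin m → Fin 3 → ℤ) (lb : Fin m → ℤ) (V : Fin n → Fin 3 → ℤ)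
    (lo hi : Fin 3 → ℝ) (hb : PH la lb ⊆ Set.Icc lo hi)
    (check : ∀ i j k : Fin m, dd la i j k ≠ 0 →
      (∃ r : Fin n, ∀ t : Fin 3, cr la lb i j k t = dd la i j k * V r t) ∨
      (∃ l : Fin m, lb l * dd la i j k ^ 2 < dd la i j k *
        (la l 0 * cr la lb i j k 0 + la l 1 * cr la lb i j k 1 + la l 2 * cr la lb i j k 2))) :
    PH la lb ⊆ convexHull ℝ (Set.range fun r => pt (V r)) :=
  subset_hull_of_extreme (isCompact_Icc.of_isClosed_subset (PH_closed la lb) hb) (PH_convex la lb)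
    (Set.finite_range _) (extreme_sub la lb V check)

end Pool.Agent.V11151.Enum3
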