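import Pool.Agent.V11151.Enum3

/-!
# Vertex enumeration in dimension four
-/

namespace Pool.Agent.V11151.Enum4

open Pool.Agent.V11151.HV Pool.Agent.V11151.Explicit Pool.Agent.V11151.Enum3

/-- a determinant -/
def d4 (a1 a2 a3 a4 b1 b2 b3 b4 c1 c2 c3 c4 e1 e2 e3 e4 : ℤ) : ℤ :=
  a1 * d3 b2 b3 b4 c2 c3 c4 e2 e3 e4 - a2 * d3 b1 b3 b4 c1 c3 c4 e1 e3 e4 +
    a3 * d3 b1 b2 b4 c1 c2 c4 e1 e2 e4 - a4 * d3 b1 b2 b3 c1 c2 c3 e1 e2 e3

/-- the determinant of four rows -/
def dd4 {m : ℕ} (la : Fin m → Fin 4 → ℤ) (i j k l : Fin m) : ℤ :=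
  d4 (la i 0) (la i 1) (la i 2) (la i 3) (la j 0) (la j 1) (la j 2) (la j 3)
    (la k 0) (la k 1) (la k 2) (la k 3) (la l 0) (la l 1) (la l 2) (la l 3)

/-- Cramer numerators -/
def cr4 {m : ℕ} (la : Fin m → Fin 4 → ℤ) (lb : Fin m → ℤ) (i j k l : Fin m) (t : Fin 4) : ℤ :=
  match t with
  | 0 => d4 (lb i) (la i 1) (la i 2) (la i 3) (lb j) (la j 1) (la j 2) (la j 3)
    (lb k) (la k 1) (la k 2) (la k 3) (lb l) (la l 1) (la l 2) (la l 3)
  | 1 => d4 (la i 0) (lb i) (la i 2) (la i 3) (la j 0) (lb j) (la j 2) (la j 3)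
    (la k 0) (lb k) (la k 2) (la k 3) (la l 0) (lb l) (la l 2) (la l 3)
  | 2 => d4 (la i 0) (la i 1) (lb i) (la i 3) (la j 0) (la j 1) (lb j) (la j 3)
    (la k 0) (la k 1) (lb k) (la k 3) (la l 0) (la l 1) (lb l) (la l 3)
  | 3 => d4 (la i 0) (la i 1) (la i 2) (lb i) (la j 0) (la j 1) (la j 2) (lb j)
    (la k 0) (la k 1) (la k 2) (lb k) (la l 0) (la l 1) (la l 2) (lb l)

/-- The check: for every four inequalities with independent normals, the common point is one of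
the given points `V r / W r`, or violates one of the inequalities. -/
def Check4 {m n : ℕ} (la : Fin m → Fin 4 → ℤ) (lb : Fin m → ℤ) (V : Fin n → Fin 4 → ℤ)
    (W : Fin n → ℤ) (i j k l : Fin m) : Prop :=
  dd4 la i j k l ≠ 0 →
      (∃ r : Fin n, ∀ t : Fin 4, cr4 la lb i j k l t * W r = dd4 la i j k l * V r t) ∨
      (∃ q : Fin m, lb q * dd4 la i j k l ^ 2 < dd4 la i j k l *
        (la q 0 * cr4 la lb i j k l 0 + la q 1 * cr4 la lb i j k l 1 +
          la q 2 * cr4 la lb i j k l 2 + la q 3 * cr4 la lb i j k l 3))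

instance {m n : ℕ} (la : Fin m → Fin 4 → ℤ) (lb : Fin m → ℤ) (V : Fin n → Fin 4 → ℤ)
    (W : Fin n → ℤ) (i j k l : Fin m) : Decidable (Check4 la lb V W i j k l) := by
  unfold Check4; infer_instance

/-- a real point from homogeneous integer coordinates -/
noncomputable def hpt {n d : ℕ} (V : Fin n → Fin d → ℤ) (W : Fin n → ℤ) (r : Fin n) : Fin d → ℝ :=
  fun t => (V r t : ℝ) / (W r : ℝ)

theorem extreme_sub4 {m n : ℕ} (la : Fin m → Fin 4 → ℤ) (lb : Fin m → ℤ) (V : Fin n → Fin 4 → ℤ)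
    (W : Fin n → ℤ) (hW : ∀ r, W r ≠ 0)
    (check : ∀ i j, i < j → ∀ k, j < k → ∀ l, k < l → Check4 la lb V W i j k l) :
    (PH la lb).extremePoints ℝ ⊆ Set.range (hpt V W) := by
  intro y hy
  obtain ⟨s0, hs01, hs02⟩ := extreme_tight (fun i => pt (la i)) (fun i => (lb i : ℝ)) hy
  obtain ⟨s, hs1, hs2, hmono⟩ : ∃ s : Fin 4 → Fin m, (∀ k, pt (la (s k)) ⬝ᵥ y = (lb (s k) : ℝ)) ∧
      LinearIndependent ℝ (fun k => pt (la (s k))) ∧ StrictMono s := by
    let σ := Tuple.sort s0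
    refine ⟨s0 ∘ σ, fun k => hs01 (σ k), hs02.comp σ σ.injective, ?_⟩
    have hinj : Function.Injective (s0 ∘ σ) := by
      have : Function.Injective s0 := by
        intro a b hab
        apply hs02.injective
        show pt (la (s0 a)) = pt (la (s0 b))
        rw [hab]
      exact this.comp σ.injective
    exact (Tuple.monotone_sort s0).strictMono_of_injective hinj
  have hdet : (Matrix.of fun k => pt (la (s k))).det ≠ 0 := by
    have := (Matrix.linearIndependent_rows_iff_isUnit (A := Matrix.of fun k => pt (la (s k)))).1 hs2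
    rw [Matrix.isUnit_iff_isUnit_det] at this
    exact this.ne_zero
  have hd : (Matrix.of fun k => pt (la (s k))).det = (dd4 la (s 0) (s 1) (s 2) (s 3) : ℝ) := by
    rw [Matrix.det_succ_row_zero]
    simp only [Fin.sum_univ_four, Matrix.det_fin_three, Matrix.submatrix_apply, Matrix.of_apply, pt]
    unfold dd4 d4 d3
    push_cast
    simp [Fin.succAbove, Fin.succ]
    ring
  have hD : dd4 la (s 0) (s 1) (s 2) (s 3) ≠ 0 := by
    intro h
    apply hdet
    rw [hd, h]; norm_num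
  have e : ∀ k, (la (s k) 0 : ℝ) * y 0 + (la (s k) 1 : ℝ) * y 1 + (la (s k) 2 : ℝ) * y 2 +
      (la (s k) 3 : ℝ) * y 3 = (lb (s k) : ℝ) := by
    intro k
    have := hs1 k
    simp only [dotProduct, Fin.sum_univ_four, pt] at this
    exact this
  have e0 := e 0
  have e1 := e 1
  have e2 := e 2
  have e3 := e 3
  have hij : s 0 < s 1 := hmono (by decide)
  have hjk : s 1 < s 2 := hmono (by decide)
  have hkl : s 2 < s 3 := hmono (by decide)
  clear hd hdet hs2 hs1 e hmono hs01 hs02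
  generalize s 0 = i at *
  generalize s 1 = j at *
  generalize s 2 = k at *
  generalize s 3 = l at *
  have c0 : (dd4 la i j k l : ℝ) * y 0 = (cr4 la lb i j k l 0 : ℝ) := by
    simp only [cr4, dd4, d4, d3]
    push_cast
    rw [← e0, ← e1, ← e2, ← e3]
    ring
  have c1 : (dd4 la i j k l : ℝ) * y 1 = (cr4 la lb i j k l 1 : ℝ) := by
    simp only [cr4, dd4, d4, d3]
    push_cast
    rw [← e0, ← e1, ← e2, ← e3]
    ring
  have c2 : (dd4 la i j k l : ℝ) * y 2 = (cr4 la lb i j k l 2 : ℝ) := by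
    simp only [cr4, dd4, d4, d3]
    push_cast
    rw [← e0, ← e1, ← e2, ← e3]
    ring
  have c3 : (dd4 la i j k l : ℝ) * y 3 = (cr4 la lb i j k l 3 : ℝ) := by
    simp only [cr4, dd4, d4, d3]
    push_cast
    rw [← e0, ← e1, ← e2, ← e3]
    ring
  have hD' : (dd4 la i j k l : ℝ) ≠ 0 := by exact_mod_cast hD
  rcases check i j hij k hjk l hkl hD with ⟨n, hn⟩ | ⟨q, hq⟩
  · refine ⟨n, ?_⟩
    funext t
    have hWn : (W n : ℝ) ≠ 0 := by exact_mod_cast hW n
    have h0 := hn t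
    have h1 : (cr4 la lb i j k l t : ℝ) * (W n : ℝ) = (dd4 la i j k l : ℝ) * (V n t : ℝ) := by
      exact_mod_cast h0
    have h2 : (dd4 la i j k l : ℝ) * y t = (cr4 la lb i j k l t : ℝ) := by
      fin_cases t
      · exact c0
      · exact c1
      · exact c2
      · exact c3
    rw [← h2, mul_assoc] at h1
    have h3 := mul_left_cancel₀ hD' h1
    show (V n t : ℝ) / (W n : ℝ) = y t
    rw [← h3]
    field_simp
  · exfalso
    have h1 := hy.1 q
    simp only [dotProduct, Fin.sum_univ_four, pt] at h1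
    have h2 : (lb q : ℝ) * (dd4 la i j k l : ℝ) ^ 2 < (dd4 la i j k l : ℝ) *
      ((la q 0 : ℝ) * (cr4 la lb i j k l 0 : ℝ) + (la q 1 : ℝ) * (cr4 la lb i j k l 1 : ℝ) +
        (la q 2 : ℝ) * (cr4 la lb i j k l 2 : ℝ) + (la q 3 : ℝ) * (cr4 la lb i j k l 3 : ℝ)) := by
      exact_mod_cast hq
    rw [← c0, ← c1, ← c2, ← c3] at h2
    have h3 := mul_le_mul_of_nonneg_right h1 (sq_nonneg (dd4 la i j k l : ℝ))
    nlinarith

/-- boundedness certificate: nonnegative combinations of the inequalities -/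
theorem PH_bounded {m d : ℕ} (la : Fin m → Fin d → ℤ) (lb : Fin m → ℤ) (N : ℤ) (hN : 0 < N)
    (P M : Fin d → Fin m → ℤ) (hP0 : ∀ t i, 0 ≤ P t i) (hM0 : ∀ t i, 0 ≤ M t i)
    (hP : ∀ t k, ∑ i, P t i * la i k = if k = t then N else 0)
    (hM : ∀ t k, ∑ i, M t i * la i k = if k = t then -N else 0) :
    PH la lb ⊆ Set.Icc (fun t => -(∑ i, (M t i : ℝ) * (lb i : ℝ)) / (N : ℝ))
      (fun t => (∑ i, (P t i : ℝ) * (lb i : ℝ)) / (N : ℝ)) := by
  have hN' : (0 : ℝ) < N := by exact_mod_cast hN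
  intro y hy
  have key : ∀ (L : Fin m → ℤ), (∀ i, 0 ≤ L i) → ∑ i, (L i : ℝ) * (pt (la i) ⬝ᵥ y) ≤
      ∑ i, (L i : ℝ) * (lb i : ℝ) := by
    intro L hL
    apply Finset.sum_le_sum
    intro i _
    exact mul_le_mul_of_nonneg_left (hy i) (by exact_mod_cast hL i)
  have key2 : ∀ (L : Fin m → ℤ), ∑ i, (L i : ℝ) * (pt (la i) ⬝ᵥ y) =
      ∑ k, ((∑ i, L i * la i k : ℤ) : ℝ) * y k := by
    intro L
    simp only [dotProduct, pt, Finset.mul_sum]
    rw [Finset.sum_comm]
    apply Finset.sum_congr rfl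
    intro k _
    push_cast
    rw [Finset.sum_mul]
    apply Finset.sum_congr rfl
    intro i _
    ring
  constructor
  · intro t
    have h1 := key (M t) (hM0 t)
    rw [key2] at h1
    have h2 : ∑ k, ((∑ i, M t i * la i k : ℤ) : ℝ) * y k = -(N : ℝ) * y t := by
      have : ∀ k, ((∑ i, M t i * la i k : ℤ) : ℝ) * y k = if k = t then -(N : ℝ) * y t else 0 := by
        intro k
        rw [hM]
        split_ifs with h
        · rw [h]; push_cast; ring
        · simp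
      simp only [this, Finset.sum_ite_eq', Finset.mem_univ, if_true]
    rw [h2] at h1
    show -(∑ i, (M t i : ℝ) * (lb i : ℝ)) / (N : ℝ) ≤ y t
    rw [div_le_iff₀ hN']
    linarith
  · intro t
    have h1 := key (P t) (hP0 t)
    rw [key2] at h1
    have h2 : ∑ k, ((∑ i, P t i * la i k : ℤ) : ℝ) * y k = (N : ℝ) * y t := by
      have : ∀ k, ((∑ i, P t i * la i k : ℤ) : ℝ) * y k = if k = t then (N : ℝ) * y t else 0 := by
        intro k
        rw [hP]
        split_ifs with h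
        · rw [h]
        · simp
      simp only [this, Finset.sum_ite_eq', Finset.mem_univ, if_true]
    rw [h2] at h1
    show y t ≤ (∑ i, (P t i : ℝ) * (lb i : ℝ)) / (N : ℝ)
    rw [le_div_iff₀ hN']
    linarith

theorem PH_sub4 {m n : ℕ} (la : Fin m → Fin 4 → ℤ) (lb : Fin m → ℤ) (V : Fin n → Fin 4 → ℤ)
    (W : Fin n → ℤ) (hW : ∀ r, W r ≠ 0) (N : ℤ) (hN : 0 < N)
    (P M : Fin 4 → Fin m → ℤ) (hP0 : ∀ t i, 0 ≤ P t i) (hM0 : ∀ t i, 0 ≤ M t i)
    (hP : ∀ t k, ∑ i, P t i * la i k = if k = t then N else 0)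
    (hM : ∀ t k, ∑ i, M t i * la i k = if k = t then -N else 0)
    (check : ∀ i j, i < j → ∀ k, j < k → ∀ l, k < l → Check4 la lb V W i j k l) :
    PH la lb ⊆ convexHull ℝ (Set.range (hpt V W)) :=
  subset_hull_of_extreme
    (isCompact_Icc.of_isClosed_subset (PH_closed la lb) (PH_bounded la lb N hN P M hP0 hM0 hP hM))
    (PH_convex la lb) (Set.finite_range _) (extreme_sub4 la lb V W hW check)

end Pool.Agent.V11151.Enum4
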