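import Pool.Agent.V11151.Poly

/-!
# Vertex enumeration for polyhedra given by inequalities
-/

namespace Pool.Agent.V11151.HV

open Pool.Agent.V11151.Poly

/-- At an extreme point of a polyhedron there are tight constraints with linearly independent
normals. -/
theorem extreme_tight {d m : ℕ} (a : Fin m → Fin d → ℝ) (b : Fin m → ℝ) {x : Fin d → ℝ}
    (hx : x ∈ Set.extremePoints ℝ {x : Fin d → ℝ | ∀ i, a i ⬝ᵥ x ≤ b i}) :
    ∃ s : Fin d → Fin m, (∀ k, a (s k) ⬝ᵥ x = b (s k)) ∧
      LinearIndependent ℝ (fun k => a (s k)) := by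
  classical
  let T : Set (Fin m) := {i | a i ⬝ᵥ x = b i}
  have hxP : ∀ i, a i ⬝ᵥ x ≤ b i := hx.1
  have hspan : Submodule.span ℝ (a '' T) = ⊤ := by
    by_contra hne
    have hlt : Submodule.span ℝ (a '' T) < ⊤ := lt_top_iff_ne_top.2 hne
    obtain ⟨f, hf0, hf⟩ := Submodule.exists_le_ker_of_lt_top _ hlt
    let z : Fin d → ℝ := fun j => f (Pi.single j 1)
    have hfz : ∀ v : Fin d → ℝ, f v = v ⬝ᵥ z := by
      intro v
      have : v = ∑ j, v j • (Pi.single j (1 : ℝ) : Fin d → ℝ) := by
        funext i
        simp [Finset.sum_apply, Pi.single_apply]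
      conv_lhs => rw [this]
      rw [map_sum]
      simp only [map_smul, smul_eq_mul, dotProduct, z]
    have hz0 : z ≠ 0 := by
      intro hz
      apply hf0
      ext v
      simp only [LinearMap.comp_apply, LinearMap.coe_single, LinearMap.zero_apply]
      exact congrFun hz v
    have hzT : ∀ i ∈ T, a i ⬝ᵥ z = 0 := by
      intro i hi
      rw [← hfz]
      exact hf (Submodule.subset_span ⟨i, hi, rfl⟩)
    have hev : ∀ᶠ ε in nhds (0 : ℝ), ∀ i, a i ⬝ᵥ (x + ε • z) ≤ b i ∧ a i ⬝ᵥ (x - ε • z) ≤ b i := by
      rw [Filter.eventually_all]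
      intro i
      by_cases hi : i ∈ T
      · apply Filter.Eventually.of_forall
        intro ε
        rw [dotProduct_add, dotProduct_sub, dotProduct_smul, hzT i hi]
        simp [hxP i]
      · have hlt : a i ⬝ᵥ x < b i := lt_of_le_of_ne (hxP i) hi
        have hc1 : Continuous fun ε : ℝ => a i ⬝ᵥ (x + ε • z) := by
          have : (fun ε : ℝ => a i ⬝ᵥ (x + ε • z)) = fun ε => a i ⬝ᵥ x + ε * (a i ⬝ᵥ z) := by
            funext ε
            rw [dotProduct_add, dotProduct_smul, smul_eq_mul]
          rw [this]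
          fun_prop
        have hc2 : Continuous fun ε : ℝ => a i ⬝ᵥ (x - ε • z) := by
          have : (fun ε : ℝ => a i ⬝ᵥ (x - ε • z)) = fun ε => a i ⬝ᵥ x - ε * (a i ⬝ᵥ z) := by
            funext ε
            rw [dotProduct_sub, dotProduct_smul, smul_eq_mul]
          rw [this]
          fun_prop
        have e1 : ∀ᶠ ε in nhds (0 : ℝ), a i ⬝ᵥ (x + ε • z) < b i := by
          apply hc1.continuousAt.eventually_lt_const
          simpa using hlt
        have e2 : ∀ᶠ ε in nhds (0 : ℝ), a i ⬝ᵥ (x - ε • z) < b i := by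
          apply hc2.continuousAt.eventually_lt_const
          simpa using hlt
        filter_upwards [e1, e2] with ε h1 h2
        exact ⟨h1.le, h2.le⟩
    obtain ⟨δ, hδ, hball⟩ := Metric.eventually_nhds_iff.1 hev
    have h1 := hball (y := δ / 2) (by
      rw [Real.dist_eq, sub_zero, abs_of_pos (half_pos hδ)]
      exact half_lt_self hδ)
    have h2 := hx.2 (x₁ := x + (δ / 2) • z) (fun i => (h1 i).1) (x₂ := x - (δ / 2) • z)
      (fun i => (h1 i).2) (by
        rw [openSegment_eq_image]
        refine ⟨1 / 2, ⟨by norm_num, by norm_num⟩, ?_⟩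
        funext i
        simp only [Pi.add_apply, Pi.smul_apply, Pi.sub_apply, smul_eq_mul]
        ring)
    have h3 : (δ / 2) • z = 0 := by
      have := h2
      rwa [add_eq_left] at this
    rcases smul_eq_zero.1 h3 with h4 | h4
    · linarith
    · exact hz0 h4
  obtain ⟨B, hB1, hB2, hB3⟩ := exists_linearIndependent ℝ (a '' T)
  rw [hspan] at hB2
  have hfin : B.Finite := hB3.setFinite
  have hcard : Nat.card B = d := by
    let bas := Module.Basis.mk hB3 (by rw [Subtype.range_coe, hB2])
    have h1 := Module.finrank_eq_nat_card_basis bas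
    rw [← h1]
    simp
  have : Finite B := hfin
  let e : Fin d ≃ B := (Finite.equivFinOfCardEq hcard).symm
  have hsel : ∀ k : Fin d, ∃ i, i ∈ T ∧ a i = (e k : Fin d → ℝ) := by
    intro k
    obtain ⟨i, hi, h⟩ := hB1 (e k).2
    exact ⟨i, hi, h⟩
  choose s hs1 hs2 using hsel
  refine ⟨s, fun k => hs1 k, ?_⟩
  have : (fun k => a (s k)) = (Subtype.val : B → Fin d → ℝ) ∘ e := by
    funext k
    exact hs2 k
  rw [this]
  exact hB3.comp e e.injective

/-- A compact convex set is contained in the convex hull of any finite set that contains its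
extreme points. -/
theorem subset_hull_of_extreme {E : Type*} [NormedAddCommGroup E] [NormedSpace ℝ E]
    {K S : Set E} (hK : IsCompact K) (hc : Convex ℝ K) (hS : S.Finite)
    (h : K.extremePoints ℝ ⊆ S) : K ⊆ convexHull ℝ S := by
  have h1 := closure_convexHull_extremePoints hK hc
  rw [← h1]
  refine closure_minimal (convexHull_mono h) ?_
  exact (hS.isCompact_convexHull ℝ).isClosed

end Pool.Agent.V11151.HV
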