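import Pool.Agent.V11151.Facets
import Pool.Agent.V11151.HV

/-!
# Explicit polytopes with integer coordinates
-/

namespace Pool.Agent.V11151.Explicit

open Pool.Agent.V11151.Poly Pool.Agent.V11151.Facets

/-- integer scalar product -/
def idot {d : ℕ} (a x : Fin d → ℤ) : ℤ := ((List.finRange d).map fun k => a k * x k).sum

lemma idot_eq {d : ℕ} (a x : Fin d → ℤ) : idot a x = ∑ k, a k * x k := by
  unfold idot
  rw [← List.sum_ofFn, List.ofFn_eq_map]

/-- a real point from an integer point -/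
def pt {d : ℕ} (x : Fin d → ℤ) : Fin d → ℝ := fun k => (x k : ℝ)

/-- the linear functional with given integer coefficients -/
noncomputable def fn {d : ℕ} (a : Fin d → ℤ) : StrongDual ℝ (Fin d → ℝ) :=
  LinearMap.toContinuousLinearMap
    { toFun := fun x => ∑ k, (a k : ℝ) * x k
      map_add' := by
        intro x y
        rw [← Finset.sum_add_distrib]
        apply Finset.sum_congr rfl
        intro k _
        simp only [Pi.add_apply]; ring
      map_smul' := by
        intro c x
        simp only [Pi.smul_apply, smul_eq_mul, RingHom.id_apply, Finset.mul_sum]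
        apply Finset.sum_congr rfl
        intro k _
        ring }

lemma fn_apply {d : ℕ} (a : Fin d → ℤ) (x : Fin d → ℝ) : fn a x = ∑ k, (a k : ℝ) * x k := rfl

lemma fn_pt {d : ℕ} (a x : Fin d → ℤ) : fn a (pt x) = (idot a x : ℝ) := by
  rw [fn_apply, idot_eq]; unfold pt; push_cast; rfl

lemma pt_inj {d : ℕ} {x y : Fin d → ℤ} (h : pt x = pt y) : x = y := by
  funext i
  have := congrFun h i
  simpa [pt] using this

/-- the polytope spanned by integer points -/
def poly {n d : ℕ} (x : Fin n → Fin d → ℤ) : Set (Fin d → ℝ) :=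
  convexHull ℝ (Set.range fun i => pt (x i))

lemma extreme_of_cert {n m d : ℕ} (x : Fin n → Fin d → ℤ) (F : Fin m → Fin d → ℤ) (c : Fin m → ℤ)
    (h1 : ∀ j i, c j ≤ idot (F j) (x i))
    (h2 : ∀ i k, k ≠ i → ∃ j, idot (F j) (x i) = c j ∧ idot (F j) (x k) ≠ c j) (i : Fin n) :
    pt (x i) ∈ (poly x).extremePoints ℝ := by
  classical
  refine mem_extreme_of_functional ⟨i, rfl⟩
    (∑ j ∈ Finset.univ.filter (fun j => idot (F j) (x i) = c j), -fn (F j)) ?_
  rintro _ ⟨k, rfl⟩ hne
  have hki : k ≠ i := fun h => hne (by rw [h])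
  have e : ∀ y : Fin d → ℝ,
      (∑ j ∈ Finset.univ.filter (fun j => idot (F j) (x i) = c j), -fn (F j)) y =
      ∑ j ∈ Finset.univ.filter (fun j => idot (F j) (x i) = c j), -(fn (F j) y) := by
    intro y
    rw [_root_.sum_apply]
    rfl
  rw [e, e]
  apply Finset.sum_lt_sum
  · intro j hj
    rw [fn_pt, fn_pt, (Finset.mem_filter.1 hj).2]
    have := h1 j k
    have h3 : (c j : ℝ) ≤ (idot (F j) (x k) : ℝ) := by exact_mod_cast this
    linarith
  · obtain ⟨j, hj1, hj2⟩ := h2 i k hki
    refine ⟨j, Finset.mem_filter.2 ⟨Finset.mem_univ j, hj1⟩, ?_⟩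
    rw [fn_pt, fn_pt, hj1]
    have h3 : c j < idot (F j) (x k) := lt_of_le_of_ne (h1 j k) (Ne.symm hj2)
    have h4 : (c j : ℝ) < (idot (F j) (x k) : ℝ) := by exact_mod_cast h3
    linarith

lemma affineSpan_top {n d : ℕ} [NeZero n] (x : Fin n → Fin d → ℤ) (c : Fin d → Fin n → ℤ)
    (D : ℤ) (hD : D ≠ 0) (h : ∀ j k, ∑ i, c j i * x i k = if k = j then D else 0)
    (h0 : ∀ j, ∑ i, c j i = 0) : affineSpan ℝ (poly x) = ⊤ := by
  unfold poly
  rw [affineSpan_convexHull, AffineSubspace.affineSpan_eq_top_iff_vectorSpan_eq_top_of_nonempty _ _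
    _ (Set.range_nonempty _)]
  have hD' : (D : ℝ) ≠ 0 := by exact_mod_cast hD
  have key : ∀ j : Fin d, Pi.single j (1 : ℝ) ∈
      vectorSpan ℝ (Set.range fun i => pt (x i)) := by
    intro j
    have h1 : ∀ i, (pt (x i) -ᵥ pt (x 0)) ∈ vectorSpan ℝ (Set.range fun i => pt (x i)) :=
      fun i => vsub_mem_vectorSpan ℝ ⟨i, rfl⟩ ⟨0, rfl⟩
    have h2 : (Pi.single j (1 : ℝ) : Fin d → ℝ) =
        (1 / (D : ℝ)) • ∑ i, (c j i : ℝ) • (pt (x i) -ᵥ pt (x 0)) := by
      funext k
      simp only [Pi.smul_apply, Finset.sum_apply, vsub_eq_sub, Pi.sub_apply, pt, smul_eq_mul,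
        Pi.single_apply]
      have e1 : ∑ i, (c j i : ℝ) * ((x i k : ℝ) - (x 0 k : ℝ)) =
          (∑ i, (c j i : ℝ) * (x i k : ℝ)) - (∑ i, (c j i : ℝ)) * (x 0 k : ℝ) := by
        rw [Finset.sum_mul, ← Finset.sum_sub_distrib]
        apply Finset.sum_congr rfl
        intro i _
        ring
      have e2 : (∑ i, (c j i : ℝ)) = 0 := by exact_mod_cast h0 j
      have e3 : (∑ i, (c j i : ℝ) * (x i k : ℝ)) = if k = j then (D : ℝ) else 0 := by
        have := h j k
        have h4 : ((∑ i, c j i * x i k : ℤ) : ℝ) = ((if k = j then D else 0 : ℤ) : ℝ) := by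
          rw [this]
        push_cast at h4
        exact h4
      rw [e1, e2, e3]
      split_ifs
      · field_simp; ring
      · simp
    rw [h2]
    exact Submodule.smul_mem _ _ (Submodule.sum_mem _ fun i _ => Submodule.smul_mem _ _ (h1 i))
  rw [eq_top_iff]
  intro y _
  have : y = ∑ j, y j • (Pi.single j (1 : ℝ) : Fin d → ℝ) := by
    funext i
    simp [Finset.sum_apply, Pi.single_apply]
  rw [this]
  exact Submodule.sum_mem _ (fun j _ => Submodule.smul_mem _ _ (key j))

end Pool.Agent.V11151.Explicit
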