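import Pool.Agent.V11151.Poly

/-!
# Facets as maximal proper faces, and free joins
-/

namespace Pool.Agent.V11151.Facets

open Pool.Agent.V11151.Poly

variable {E : Type*} [NormedAddCommGroup E] [NormedSpace ℝ E]

/-- The facets of a polytope: the maximal proper (exposed) faces. -/
def facets (P : Set E) : Set (Set E) :=
  {F | IsExposed ℝ P F ∧ F ≠ P ∧ ∀ G, IsExposed ℝ P G → F ⊆ G → G = F ∨ G = P}

/-- If `P` is the hull of finitely many points and is also given by finitely many inequalities then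
every proper exposed face lies in one of the hyperplanes. -/
lemma proper_face_sub {n m : ℕ} [NeZero m] (p : Fin n → E) (f : Fin m → StrongDual ℝ E)
    (c : Fin m → ℝ)
    (hvalid : ∀ j i, c j ≤ f j (p i))
    (hcomp : ∀ x, (∀ j, c j ≤ f j x) → x ∈ convexHull ℝ (Set.range p))
    {G : Set E} (hG : IsExposed ℝ (convexHull ℝ (Set.range p)) G)
    (hne : G ≠ convexHull ℝ (Set.range p)) : ∃ j, ∀ x ∈ G, f j x = c j := by
  rcases G.eq_empty_or_nonempty with h0 | h0
  · exact ⟨0, fun x hx => by rw [h0] at hx; exact absurd hx (Set.notMem_empty x)⟩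
  obtain ⟨l, M, hl1, hl2, _⟩ := face_data hG h0
  have hGsub : G ⊆ convexHull ℝ (Set.range p) := hG.subset
  have hGconv : Convex ℝ G := hG.convex (convex_convexHull ℝ _)
  have hPle : ∀ x ∈ convexHull ℝ (Set.range p), ∀ j, c j ≤ f j x := by
    intro x hx j
    have hc : Convex ℝ {x | c j ≤ f j x} := convex_halfSpace_ge (f j : E →ₗ[ℝ] ℝ).isLinear (c j)
    refine convexHull_min ?_ hc hx
    rintro _ ⟨i, rfl⟩
    exact hvalid j i
  by_contra hcon
  push Not at hcon
  choose x hx1 hx2 using hcon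
  -- the average
  have hm : (0 : ℝ) < m := by exact_mod_cast Nat.pos_of_ne_zero (NeZero.ne m)
  let y : E := ∑ j, ((1 : ℝ) / m) • x j
  have hyG : y ∈ G := by
    apply hGconv.sum_mem
    · intro j _; positivity
    · rw [Finset.sum_const, Finset.card_univ, Fintype.card_fin, nsmul_eq_mul]
      field_simp
    · intro j _; exact hx1 j
  have hyf : ∀ j, c j < f j y := by
    intro j
    have h1 : f j y = ∑ i, ((1 : ℝ) / m) * f j (x i) := by
      simp only [y, map_sum, map_smul, smul_eq_mul]
    have h2 : c j = ∑ i : Fin m, ((1 : ℝ) / m) * c j := by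
      rw [Finset.sum_const, Finset.card_univ, Fintype.card_fin, nsmul_eq_mul]
      field_simp
    rw [h1]
    conv_lhs => rw [h2]
    apply Finset.sum_lt_sum
    · intro i _
      apply mul_le_mul_of_nonneg_left _ (by positivity)
      exact hPle _ (hGsub (hx1 i)) j
    · refine ⟨j, Finset.mem_univ j, ?_⟩
      apply mul_lt_mul_of_pos_left _ (by positivity)
      exact lt_of_le_of_ne (hPle _ (hGsub (hx1 j)) j) (Ne.symm (hx2 j))
  obtain ⟨z, hz, hzG⟩ : ∃ z ∈ convexHull ℝ (Set.range p), z ∉ G := by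
    by_contra hcon
    push Not at hcon
    exact hne (Set.Subset.antisymm hGsub hcon)
  have hzM : l z < M := by
    apply lt_of_le_of_ne (hl1 z hz)
    intro h
    apply hzG
    rw [hl2]
    exact ⟨hz, h⟩
  have hyM : l y = M := by
    rw [hl2] at hyG
    exact hyG.2
  have hev : ∀ᶠ ε in nhds (0 : ℝ), ∀ j, c j ≤ f j (y + ε • (y - z)) := by
    rw [Filter.eventually_all]
    intro j
    have hcont : Continuous fun ε : ℝ => f j (y + ε • (y - z)) := by fun_prop
    have : ∀ᶠ ε in nhds (0 : ℝ), c j < f j (y + ε • (y - z)) := by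
      apply hcont.continuousAt.eventually_const_lt
      simpa using hyf j
    filter_upwards [this] with ε h
    exact h.le
  obtain ⟨δ, hδ, hball⟩ := Metric.eventually_nhds_iff.1 hev
  have h1 := hball (y := δ / 2) (by
    rw [Real.dist_eq, sub_zero, abs_of_pos (half_pos hδ)]
    exact half_lt_self hδ)
  have h2 := hl1 _ (hcomp _ h1)
  rw [map_add, map_smul, map_sub, smul_eq_mul, hyM] at h2
  have h3 : 0 < δ / 2 * (M - l z) := mul_pos (half_pos hδ) (by linarith)
  linarith

/-- the face cut out by a valid inequality -/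
def fc {n : ℕ} (p : Fin n → E) (f : StrongDual ℝ E) (c : ℝ) : Set E :=
  {x | x ∈ convexHull ℝ (Set.range p) ∧ f x = c}

lemma fc_exposed {n : ℕ} (p : Fin n → E) (f : StrongDual ℝ E) (c : ℝ)
    (hv : ∀ i, c ≤ f (p i)) : IsExposed ℝ (convexHull ℝ (Set.range p)) (fc p f c) := by
  rintro ⟨x0, hx0, hx0'⟩
  refine ⟨-f, ?_⟩
  have hle : ∀ x ∈ convexHull ℝ (Set.range p), c ≤ f x := by
    intro x hx
    have hc : Convex ℝ {x | c ≤ f x} := convex_halfSpace_ge (f : E →ₗ[ℝ] ℝ).isLinear c
    refine convexHull_min ?_ hc hx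
    rintro _ ⟨i, rfl⟩
    exact hv i
  ext x
  simp only [fc, Set.mem_ofPred_eq, _root_.neg_apply, neg_le_neg_iff]
  constructor
  · rintro ⟨h1, h2⟩
    exact ⟨h1, fun y hy => by rw [h2]; exact hle y hy⟩
  · rintro ⟨h1, h2⟩
    refine ⟨h1, le_antisymm ?_ (hle x h1)⟩
    rw [← hx0']
    exact h2 x0 hx0

/-- description of the facets from the two descriptions of the polytope -/
lemma facets_sub {n m : ℕ} [NeZero m] (p : Fin n → E) (f : Fin m → StrongDual ℝ E)
    (c : Fin m → ℝ)
    (hvalid : ∀ j i, c j ≤ f j (p i))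
    (hcomp : ∀ x, (∀ j, c j ≤ f j x) → x ∈ convexHull ℝ (Set.range p))
    (hprop : ∀ j, ∃ i, c j < f j (p i)) :
    facets (convexHull ℝ (Set.range p)) ⊆ Set.range fun j => fc p (f j) (c j) := by
  rintro F ⟨hF, hne, hmax⟩
  obtain ⟨j, hj⟩ := proper_face_sub p f c hvalid hcomp hF hne
  refine ⟨j, ?_⟩
  have h1 : F ⊆ fc p (f j) (c j) := fun x hx => ⟨hF.subset hx, hj x hx⟩
  rcases hmax _ (fc_exposed p (f j) (c j) (hvalid j)) h1 with h | h
  · exact h
  · exfalso
    obtain ⟨i, hi⟩ := hprop j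
    have h2 : p i ∈ fc p (f j) (c j) := by
      rw [h]; exact subset_convexHull ℝ _ ⟨i, rfl⟩
    have := h2.2
    linarith

lemma fc_mem_facets {n m : ℕ} [NeZero m] (p : Fin n → E) (f : Fin m → StrongDual ℝ E)
    (c : Fin m → ℝ)
    (hvalid : ∀ j i, c j ≤ f j (p i))
    (hcomp : ∀ x, (∀ j, c j ≤ f j x) → x ∈ convexHull ℝ (Set.range p))
    (j : Fin m) (hprop : ∃ i, c j < f j (p i))
    (hnc : ∀ k, k ≠ j → ∃ i, f j (p i) = c j ∧ f k (p i) ≠ c k) :
    fc p (f j) (c j) ∈ facets (convexHull ℝ (Set.range p)) := by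
  refine ⟨fc_exposed p _ _ (hvalid j), ?_, ?_⟩
  · intro h
    obtain ⟨i, hi⟩ := hprop
    have h2 : p i ∈ fc p (f j) (c j) := by
      rw [h]; exact subset_convexHull ℝ _ ⟨i, rfl⟩
    have := h2.2
    linarith
  · intro G hG hsub
    by_cases hGP : G = convexHull ℝ (Set.range p)
    · exact Or.inr hGP
    left
    obtain ⟨k, hk⟩ := proper_face_sub p f c hvalid hcomp hG hGP
    by_cases hkj : k = j
    · subst hkj
      apply Set.Subset.antisymm _ hsub
      intro x hx
      exact ⟨hG.subset hx, hk x hx⟩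
    · exfalso
      obtain ⟨i, hi1, hi2⟩ := hnc k hkj
      apply hi2
      apply hk
      apply hsub
      exact ⟨subset_convexHull ℝ _ ⟨i, rfl⟩, hi1⟩

/-! ### Free joins -/

/-- The faces of a polytope. -/
def Faces (P : Set E) : Type _ := {F : Set E // IsExposed ℝ P F}

instance (P : Set E) : PartialOrder (Faces P) :=
  inferInstanceAs (PartialOrder {F : Set E // IsExposed ℝ P F})

/-- `A` and `B` span affine subspaces in join position. -/
def JoinPos (A B : Set E) : Prop :=
  Module.finrank ℝ (vectorSpan ℝ (A ∪ B)) =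
    Module.finrank ℝ (vectorSpan ℝ A) + Module.finrank ℝ (vectorSpan ℝ B) + 1

/-- functional on a join with given values: constant on one factor, given on the other -/
lemma join_functional [FiniteDimensional ℝ E] {A B : Set E} (hA : A.Nonempty) (hB : B.Nonempty)
    (hj : JoinPos A B) (l : E →ₗ[ℝ] ℝ) (r M : ℝ) :
    ∃ (φ : StrongDual ℝ E) (t : ℝ), (∀ a ∈ A, φ a + t = M) ∧ (∀ b ∈ B, φ b + t = l b + r) := by
  obtain ⟨a0, ha0⟩ := hA
  obtain ⟨b0, hb0⟩ := hB
  let VA := vectorSpan ℝ A
  let VB := vectorSpan ℝ B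
  let U : Submodule ℝ E := VB ⊔ Submodule.span ℝ {b0 - a0}
  have hle : vectorSpan ℝ (A ∪ B) ≤ VA ⊔ U := by
    rw [vectorSpan_eq_span_vsub_set_right ℝ (Set.mem_union_left B ha0), Submodule.span_le]
    rintro _ ⟨x, hx | hx, rfl⟩
    · exact Submodule.mem_sup_left (vsub_mem_vectorSpan ℝ hx ha0)
    · have : x -ᵥ a0 = (x -ᵥ b0) + (b0 - a0) := by simp
      show x -ᵥ a0 ∈ _
      rw [this]
      exact Submodule.mem_sup_right (Submodule.add_mem_sup (vsub_mem_vectorSpan ℝ hx hb0)
        (Submodule.mem_span_singleton_self _))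
  have hU : Module.finrank ℝ U ≤ Module.finrank ℝ VB + 1 := by
    have h1 := Submodule.finrank_add_le_finrank_add_finrank VB (Submodule.span ℝ {b0 - a0})
    have h2 : Module.finrank ℝ (Submodule.span ℝ {b0 - a0}) ≤ 1 := by
      simpa using finrank_span_le_card (R := ℝ) ({b0 - a0} : Set E)
    exact h1.trans (by omega)
  have h3 := Submodule.finrank_mono hle
  have h4 := Submodule.finrank_sup_add_finrank_inf_eq VA U
  have hj' : Module.finrank ℝ (vectorSpan ℝ (A ∪ B)) =
    Module.finrank ℝ VA + Module.finrank ℝ VB + 1 := hj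
  have h5 : Module.finrank ℝ (VA ⊓ U : Submodule ℝ E) = 0 := by omega
  have hdis : Disjoint VA U := by
    rw [disjoint_iff]
    exact Submodule.finrank_eq_zero.1 h5
  have hUeq : Module.finrank ℝ U = Module.finrank ℝ VB + 1 := by omega
  -- `b0 - a0` is not in `VB`
  have hnot : b0 - a0 ∉ VB := by
    intro hmem
    have : U = VB := by
      apply le_antisymm
      · exact sup_le le_rfl ((Submodule.span_singleton_le_iff_mem _ _).2 hmem)
      · exact le_sup_left
    rw [this] at hUeq
    omega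
  -- a functional that is `l` on `VB` and given on `b0 - a0`, zero on `VA`
  -- first correct the value on `b0 - a0`
  obtain ⟨g, hg1, hg2⟩ : ∃ g : E →ₗ[ℝ] ℝ, g (b0 - a0) ≠ 0 ∧ VB ≤ LinearMap.ker g := by
    obtain ⟨g, hg1, hg2⟩ := Submodule.exists_le_ker_of_notMem hnot
    exact ⟨g, hg1, hg2⟩
  let ψ : E →ₗ[ℝ] ℝ := l + ((l b0 + r - M - l (b0 - a0)) / g (b0 - a0)) • g
  obtain ⟨W, hW1, hW2⟩ := hdis.exists_isCompl
  let π : E →ₗ[ℝ] U := U.projectionOnto W hW2.symm
  let φ : E →ₗ[ℝ] ℝ := (ψ.comp U.subtype).comp π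
  have hφU : ∀ u ∈ U, φ u = ψ u := by
    intro u hu
    have : π u = ⟨u, hu⟩ := Submodule.projectionOnto_apply_left hW2.symm ⟨u, hu⟩
    simp only [φ, LinearMap.comp_apply, this, Submodule.subtype_apply]
  have hφA : ∀ v ∈ VA, φ v = 0 := by
    intro v hv
    have : π v = 0 := (Submodule.projectionOnto_apply_eq_zero_iff hW2.symm).2 (hW1 hv)
    simp only [φ, LinearMap.comp_apply, this, map_zero]
  refine ⟨LinearMap.toContinuousLinearMap φ, M - φ a0, ?_, ?_⟩
  · intro a ha
    have h6 : φ (a - a0) = 0 := hφA _ (vsub_mem_vectorSpan ℝ ha ha0)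
    rw [map_sub] at h6
    show φ a + (M - φ a0) = M
    linarith
  · intro b hb
    have h6 : φ (b - b0) = ψ (b - b0) :=
      hφU _ (Submodule.mem_sup_left (vsub_mem_vectorSpan ℝ hb hb0))
    have h7 : φ (b0 - a0) = ψ (b0 - a0) :=
      hφU _ (Submodule.mem_sup_right (Submodule.mem_span_singleton_self _))
    have h8 : ψ (b - b0) = l b - l b0 := by
      have h10 : g (b - b0) = 0 := hg2 (vsub_mem_vectorSpan ℝ hb hb0)
      have h11 : ψ (b - b0) = l (b - b0) +
        ((l b0 + r - M - l (b0 - a0)) / g (b0 - a0)) • g (b - b0) := rfl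
      rw [h11, h10, smul_zero, add_zero, map_sub]
    have h9 : ψ (b0 - a0) = l b0 + r - M := by
      simp only [ψ, LinearMap.add_apply, LinearMap.smul_apply, smul_eq_mul]
      rw [div_mul_cancel₀ _ hg1]
      ring
    rw [h8, map_sub] at h6
    rw [h9, map_sub] at h7
    show φ b + (M - φ a0) = l b + r
    linarith

/-- the two factors of a join are separated by parallel hyperplanes -/
lemma join_sep [FiniteDimensional ℝ E] {A B : Set E} (hA : A.Nonempty) (hB : B.Nonempty)
    (hj : JoinPos A B) :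
    ∃ (φ : StrongDual ℝ E) (t : ℝ), (∀ a ∈ A, φ a + t = 0) ∧ (∀ b ∈ B, φ b + t = 1) := by
  obtain ⟨φ, t, h1, h2⟩ := join_functional hA hB hj 0 1 0
  refine ⟨φ, t, h1, fun b hb => ?_⟩
  rw [h2 b hb]; simp

/-- a maximal proper face of a join contains one of the factors -/
lemma join_max [FiniteDimensional ℝ E] {A B : Set E} (hA : A.Nonempty) (hB : B.Nonempty)
    (hj : JoinPos A B) {G : Set E} (hG : IsExposed ℝ (convexHull ℝ (A ∪ B)) G)
    (hmax : ∀ H, IsExposed ℝ (convexHull ℝ (A ∪ B)) H → G ⊆ H → H = G ∨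
      H = convexHull ℝ (A ∪ B)) : A ⊆ G ∨ B ⊆ G := by
  by_cases hBG : B ⊆ G
  · exact Or.inr hBG
  left
  rcases G.eq_empty_or_nonempty with h0 | h0
  · -- the empty face is contained in the face spanned by `A`
    subst h0
    obtain ⟨φ, t, h1, h2⟩ := join_sep hA hB hj
    have hexp : IsExposed ℝ (convexHull ℝ (A ∪ B)) (convexHull ℝ A) := by
      refine exposed_of_functional (-φ) t Set.subset_union_left ?_ ?_
      · intro x hx
        have := h1 x hx
        rw [_root_.neg_apply]; linarith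
      · rintro x (hx | hx) hxA
        · exact absurd hx hxA
        · have := h2 x hx
          rw [_root_.neg_apply]; linarith
    rcases hmax _ hexp (Set.empty_subset _) with h | h
    · exfalso
      obtain ⟨a, ha⟩ := hA
      have := subset_convexHull ℝ A ha
      rw [h] at this
      exact this
    · exfalso
      obtain ⟨b, hb⟩ := hB
      have h3 : b ∈ convexHull ℝ A := by
        rw [h]; exact subset_convexHull ℝ _ (Or.inr hb)
      have h4 : convexHull ℝ A ⊆ {x | φ x = -t} := by
        refine convexHull_min ?_ (convex_hyperplane (φ : E →ₗ[ℝ] ℝ).isLinear _)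
        intro x hx
        have := h1 x hx
        show φ x = -t
        linarith
      have h5 : φ b = -t := h4 h3
      have := h2 b hb
      linarith
  obtain ⟨l, M, hl1, hl2, hl3⟩ := face_data hG h0
  obtain ⟨φ, t, h1, h2⟩ := join_functional hA hB hj (l : E →ₗ[ℝ] ℝ) 0 M
  have h2' : ∀ b ∈ B, φ b + t = l b := fun b hb => by rw [h2 b hb]; simp
  let S : Set E := A ∪ (B ∩ G)
  have hexp : IsExposed ℝ (convexHull ℝ (A ∪ B)) (convexHull ℝ S) := by
    refine exposed_of_functional φ (M - t) ?_ ?_ ?_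
    · rintro x (hx | hx)
      · exact Or.inl hx
      · exact Or.inr hx.1
    · rintro x (hx | hx)
      · have := h1 x hx
        linarith
      · have h3 := h2' x hx.1
        have h4 := hx.2
        rw [hl2] at h4
        linarith [h4.2]
    · rintro x (hx | hx) hxS
      · exact absurd (Or.inl hx) hxS
      · have h3 := h2' x hx
        have hxP : x ∈ convexHull ℝ (A ∪ B) := subset_convexHull ℝ _ (Or.inr hx)
        have h4 : l x < M := by
          apply lt_of_le_of_ne (hl1 x hxP)
          intro h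
          apply hxS
          refine Or.inr ⟨hx, ?_⟩
          rw [hl2]
          exact ⟨hxP, h⟩
        linarith
  have hsub : G ⊆ convexHull ℝ S := by
    rw [hl3]
    apply convexHull_mono
    rintro x ⟨hx | hx, hxG⟩
    · exact Or.inl hx
    · exact Or.inr ⟨hx, hxG⟩
  rcases hmax _ hexp hsub with h | h
  · rw [← h]
    intro a ha
    exact subset_convexHull ℝ _ (Or.inl ha)
  · exfalso
    apply hBG
    intro b hb
    have hxP : b ∈ convexHull ℝ (A ∪ B) := subset_convexHull ℝ _ (Or.inr hb)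
    have h3 : b ∈ convexHull ℝ S := by rw [h]; exact hxP
    have h4 : convexHull ℝ S ⊆ {x | φ x = M - t} := by
      refine convexHull_min ?_ (convex_hyperplane (φ : E →ₗ[ℝ] ℝ).isLinear _)
      rintro x (hx | hx)
      · have := h1 x hx
        show φ x = M - t
        linarith
      · have h5 := h2' x hx.1
        have h6 := hx.2
        rw [hl2] at h6
        show φ x = M - t
        linarith [h6.2]
    have h5 : φ b = M - t := h4 h3
    rw [hl2]
    refine ⟨hxP, ?_⟩
    have := h2' b hb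
    linarith

/-- extreme points of a polytope are exposed -/
lemma exposed_of_extreme {S : Set E} (hS : S.Finite) {w : E}
    (hw : w ∈ (convexHull ℝ S).extremePoints ℝ) : IsExposed ℝ (convexHull ℝ S) {w} := by
  have hwS : w ∈ S := extremePoints_convexHull_subset hw
  have h1 : w ∉ convexHull ℝ (S \ {w}) := by
    intro h
    have h2 := ((convex_convexHull ℝ S).mem_extremePoints_iff_convex_sdiff.1 hw).2
    have h3 : convexHull ℝ (S \ {w}) ⊆ convexHull ℝ S \ {w} := by
      refine convexHull_min ?_ h2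
      intro x hx
      exact ⟨subset_convexHull ℝ S hx.1, hx.2⟩
    exact (h3 h).2 rfl
  have hfin : (S \ {w}).Finite := hS.subset Set.sdiff_subset
  have hcl : IsClosed (convexHull ℝ (S \ {w})) := (hfin.isCompact_convexHull ℝ).isClosed
  obtain ⟨l, r, hl1, hl2⟩ := geometric_hahn_banach_closed_point (convex_convexHull ℝ _) hcl h1
  have h4 := exposed_of_functional (A := S) (B := {w}) l (l w) (by simpa using hwS)
    (by intro x hx; rw [Set.mem_singleton_iff.1 hx]) (by
      intro x hx hxw
      have := hl1 x (subset_convexHull ℝ _ ⟨hx, hxw⟩)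
      linarith)
  rwa [convexHull_singleton] at h4

/-- If `P` is combinatorially a free join then it has nonempty faces `σ₁`, `σ₂` such that
every facet contains one of them, and every vertex is in one of them. -/
theorem join_prop {E' : Type*} [NormedAddCommGroup E'] [NormedSpace ℝ E'] [FiniteDimensional ℝ E']
    {P : Set E} {S : Set E} (hS : S.Finite) (hP : P = convexHull ℝ S)
    {A B : Set E'} (hA : A.Finite) (hB : B.Finite) (hA0 : A.Nonempty) (hB0 : B.Nonempty)
    (hj : JoinPos A B) (φ : Faces P ≃o Faces (convexHull ℝ (A ∪ B))) :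
    ∃ σ τ : Set E, IsExposed ℝ P σ ∧ IsExposed ℝ P τ ∧ σ.Nonempty ∧ τ.Nonempty ∧
      (∀ F ∈ facets P, σ ⊆ F ∨ τ ⊆ F) ∧ (∀ v ∈ P.extremePoints ℝ, v ∈ σ ∨ v ∈ τ) := by
  obtain ⟨f, t, hf1, hf2⟩ := join_sep hA0 hB0 hj
  have expA : IsExposed ℝ (convexHull ℝ (A ∪ B)) (convexHull ℝ A) := by
    refine exposed_of_functional (-f) t Set.subset_union_left ?_ ?_
    · intro x hx
      have := hf1 x hx
      rw [_root_.neg_apply]; linarith
    · rintro x (hx | hx) hxA
      · exact absurd hx hxA
      · have := hf2 x hx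
        rw [_root_.neg_apply]; linarith
  have expB : IsExposed ℝ (convexHull ℝ (A ∪ B)) (convexHull ℝ B) := by
    refine exposed_of_functional f (1 - t) Set.subset_union_right ?_ ?_
    · intro x hx
      have := hf2 x hx
      linarith
    · rintro x (hx | hx) hxB
      · have := hf1 x hx
        linarith
      · exact absurd hx hxB
  have hempty : ∀ X : Faces P, X.1 = ∅ ↔ (φ X).1 = ∅ := by
    intro X
    have e1 : IsExposed ℝ P (∅ : Set E) := isExposed_empty
    have e2 : IsExposed ℝ (convexHull ℝ (A ∪ B)) (∅ : Set E') := isExposed_empty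
    constructor
    · intro h
      have h1 : X ≤ φ.symm ⟨∅, e2⟩ := by
        show X.1 ⊆ _
        rw [h]; exact Set.empty_subset _
      have h2 : φ X ≤ ⟨∅, e2⟩ := (φ.le_symm_apply).1 h1
      exact Set.subset_empty_iff.1 h2
    · intro h
      have h1 : φ X ≤ φ ⟨∅, e1⟩ := by
        show (φ X).1 ⊆ _
        rw [h]; exact Set.empty_subset _
      have h2 : X ≤ ⟨∅, e1⟩ := φ.le_iff_le.1 h1
      exact Set.subset_empty_iff.1 h2
  let σ : Faces P := φ.symm ⟨convexHull ℝ A, expA⟩
  let τ : Faces P := φ.symm ⟨convexHull ℝ B, expB⟩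
  have hσ : φ σ = ⟨convexHull ℝ A, expA⟩ := φ.apply_symm_apply _
  have hτ : φ τ = ⟨convexHull ℝ B, expB⟩ := φ.apply_symm_apply _
  refine ⟨σ.1, τ.1, σ.2, τ.2, ?_, ?_, ?_, ?_⟩
  · rw [Set.nonempty_iff_ne_empty]
    intro h
    have h1 := (hempty σ).1 h
    rw [hσ] at h1
    obtain ⟨a, ha⟩ := hA0
    have h2 : a ∈ convexHull ℝ A := subset_convexHull ℝ _ ha
    rw [show convexHull ℝ A = ∅ from h1] at h2
    exact h2
  · rw [Set.nonempty_iff_ne_empty]
    intro h
    have h1 := (hempty τ).1 h
    rw [hτ] at h1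
    obtain ⟨a, ha⟩ := hB0
    have h2 : a ∈ convexHull ℝ B := subset_convexHull ℝ _ ha
    rw [show convexHull ℝ B = ∅ from h1] at h2
    exact h2
  · rintro F ⟨hF1, hF2, hF3⟩
    have hmax : ∀ H, IsExposed ℝ (convexHull ℝ (A ∪ B)) H → (φ ⟨F, hF1⟩).1 ⊆ H →
        H = (φ ⟨F, hF1⟩).1 ∨ H = convexHull ℝ (A ∪ B) := by
      intro H hH hsub
      have h1 : φ ⟨F, hF1⟩ ≤ ⟨H, hH⟩ := hsub
      have h2 : (⟨F, hF1⟩ : Faces P) ≤ φ.symm ⟨H, hH⟩ := (φ.le_symm_apply).2 h1
      rcases hF3 _ (φ.symm ⟨H, hH⟩).2 h2 with h | h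
      · left
        have h3 : φ.symm ⟨H, hH⟩ = ⟨F, hF1⟩ := Subtype.ext h
        rw [← h3, φ.apply_symm_apply]
      · right
        have h4 : φ ⟨P, IsExposed.refl P⟩ ≤ ⟨H, hH⟩ := by
          rw [← φ.le_symm_apply]
          show P ⊆ _
          rw [h]
        have h5 : ∀ X : Faces (convexHull ℝ (A ∪ B)), X ≤ φ ⟨P, IsExposed.refl P⟩ := by
          intro X
          have : φ.symm X ≤ ⟨P, IsExposed.refl P⟩ := (φ.symm X).2.subset
          exact (φ.symm_apply_le).1 this
        have h6 := (h5 ⟨_, IsExposed.refl _⟩).trans h4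
        exact Set.Subset.antisymm hH.subset h6
    rcases join_max hA0 hB0 hj (φ ⟨F, hF1⟩).2 hmax with h | h
    · left
      have h1 : φ σ ≤ φ ⟨F, hF1⟩ := by
        rw [hσ]
        exact convexHull_min h ((φ ⟨F, hF1⟩).2.convex (convex_convexHull ℝ _))
      exact φ.le_iff_le.1 h1
    · right
      have h1 : φ τ ≤ φ ⟨F, hF1⟩ := by
        rw [hτ]
        exact convexHull_min h ((φ ⟨F, hF1⟩).2.convex (convex_convexHull ℝ _))
      exact φ.le_iff_le.1 h1
  · intro v hv
    have hv1 : IsExposed ℝ P {v} := by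
      rw [hP] at hv ⊢
      exact exposed_of_extreme hS hv
    let X : Faces P := ⟨{v}, hv1⟩
    have hXne : (φ X).1.Nonempty := by
      rw [Set.nonempty_iff_ne_empty]
      intro h
      have := (hempty X).2 h
      exact (Set.singleton_ne_empty v) this
    have hfinAB : (A ∪ B).Finite := hA.union hB
    have hcomp : IsCompact (φ X).1 :=
      (φ X).2.isCompact (hfinAB.isCompact_convexHull ℝ)
    obtain ⟨w, hw⟩ := hcomp.extremePoints_nonempty hXne
    have hw2 : w ∈ (convexHull ℝ (A ∪ B)).extremePoints ℝ :=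
      (φ X).2.isExtreme.extremePoints_subset_extremePoints hw
    have hw3 := exposed_of_extreme hfinAB hw2
    have hle : (⟨{w}, hw3⟩ : Faces _) ≤ φ X := Set.singleton_subset_iff.2 hw.1
    have hle2 : φ.symm ⟨{w}, hw3⟩ ≤ X := (φ.symm_apply_le).2 hle
    have hne2 : (φ.symm ⟨{w}, hw3⟩).1 ≠ ∅ := by
      intro h
      have := (hempty _).1 h
      rw [φ.apply_symm_apply] at this
      exact Set.singleton_ne_empty w this
    have heq : φ.symm ⟨{w}, hw3⟩ = X := by
      apply Subtype.ext
      rcases Set.subset_singleton_iff_eq.1 (show (φ.symm ⟨{w}, hw3⟩).1 ⊆ {v} from hle2) with h | h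
      · exact absurd h hne2
      · exact h
    rcases extremePoints_convexHull_subset hw2 with h | h
    · left
      have h1 : (⟨{w}, hw3⟩ : Faces _) ≤ φ σ := by
        rw [hσ]
        exact Set.singleton_subset_iff.2 (subset_convexHull ℝ _ h)
      have h2 : X ≤ σ := by
        rw [← heq]
        exact (φ.symm_apply_le).2 h1
      exact h2 rfl
    · right
      have h1 : (⟨{w}, hw3⟩ : Faces _) ≤ φ τ := by
        rw [hτ]
        exact Set.singleton_subset_iff.2 (subset_convexHull ℝ _ h)
      have h2 : X ≤ τ := by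
        rw [← heq]
        exact (φ.symm_apply_le).2 h1
      exact h2 rfl

end Pool.Agent.V11151.Facets
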