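import Pool.Agent.V11151.Lattice
import Pool.Agent.V11151.Enum4

/-!
# Face lattices of explicit polytopes
-/

namespace Pool.Agent.V11151.HVLattice

open Pool.Agent.V11151.Facets Pool.Agent.V11151.Explicit Pool.Agent.V11151.Enum3
  Pool.Agent.V11151.Enum4 Pool.Agent.V11151.Lattice

lemma fn_hpt {n d : ℕ} (a : Fin d → ℤ) (V : Fin n → Fin d → ℤ) (W : Fin n → ℤ) (i : Fin n) :
    fn a (hpt V W i) = (idot a (V i) : ℝ) / (W i : ℝ) := by
  rw [fn_apply, idot_eq]
  push_cast
  rw [Finset.sum_div]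
  apply Finset.sum_congr rfl
  intro k _
  unfold hpt
  ring

lemma fn_neg {d : ℕ} (a : Fin d → ℤ) (x : Fin d → ℝ) : fn (-a) x = -fn a x := by
  rw [fn_apply, fn_apply, ← Finset.sum_neg_distrib]
  apply Finset.sum_congr rfl
  intro k _
  simp

lemma fn_dot {d : ℕ} (a : Fin d → ℤ) (x : Fin d → ℝ) : fn a x = pt a ⬝ᵥ x := rfl

/-- closed sets of equivalent relations -/
def relIso {α β : Type*} (r s : α → β → Prop) (h : ∀ a b, r a b ↔ s a b) :
    Closed r ≃o Closed s :=
  congrIso r s (Equiv.refl α) (Equiv.refl β) h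

/-- The face lattice of an explicit polytope. -/
noncomputable def facesOf {n m d : ℕ} (la : Fin m → Fin d → ℤ) (lb : Fin m → ℤ)
    (V : Fin n → Fin d → ℤ) (W : Fin n → ℤ) (hW : ∀ i, 0 < W i)
    (hvalid : ∀ j i, idot (la j) (V i) ≤ lb j * W i)
    (hsub : PH la lb ⊆ convexHull ℝ (Set.range (hpt V W)))
    (hne : ∀ i, ∃ j, idot (la j) (V i) ≠ lb j * W i) :
    Faces (convexHull ℝ (Set.range (hpt V W))) ≃o
      Closed (fun i j => idot (la j) (V i) = lb j * W i) :=
  have hW' : ∀ i, (0 : ℝ) < (W i : ℝ) := fun i => by exact_mod_cast hW i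
  have key : ∀ i j, (fn (-la j) (hpt V W i) = (-lb j : ℤ)) ↔ idot (la j) (V i) = lb j * W i := by
    intro i j
    rw [fn_neg, fn_hpt]
    push_cast
    rw [neg_inj, div_eq_iff (hW' i).ne']
    exact_mod_cast Iff.rfl
  (facesIso (hpt V W) (fun j => fn (-la j)) (fun j => ((-lb j : ℤ) : ℝ))
    (by
      intro j i
      rw [fn_neg, fn_hpt]
      push_cast
      rw [neg_le_neg_iff, div_le_iff₀ (hW' i)]
      exact_mod_cast hvalid j i)
    (by
      intro x hx
      apply hsub
      intro j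
      have := hx j
      rw [fn_neg] at this
      push_cast at this
      rw [← fn_dot]
      linarith)
    (by
      intro i
      obtain ⟨j, hj⟩ := hne i
      exact ⟨j, fun h => hj ((key i j).1 h)⟩)).trans (relIso _ _ key)

end Pool.Agent.V11151.HVLattice
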