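import Pool.Agent.V11151.Facets

/-!
# The face lattice of a polytope from its vertex-facet incidences
-/

namespace Pool.Agent.V11151.Lattice

open Pool.Agent.V11151.Poly Pool.Agent.V11151.Facets

variable {E : Type*} [NormedAddCommGroup E] [NormedSpace ℝ E]

/-- the closure of a set with respect to an incidence relation -/
def cl {α β : Type*} (r : α → β → Prop) (S : Set α) : Set α :=
  {i | ∀ j, (∀ k ∈ S, r k j) → r i j}

lemma subset_cl {α β : Type*} (r : α → β → Prop) (S : Set α) : S ⊆ cl r S :=
  fun _ hi _ hj => hj _ hi

/-- the closed sets of an incidence relation -/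
def Closed {α β : Type*} (r : α → β → Prop) : Type _ := {S : Set α // cl r S ⊆ S}

instance {α β : Type*} (r : α → β → Prop) : PartialOrder (Closed r) :=
  inferInstanceAs (PartialOrder {S : Set α // cl r S ⊆ S})

/-- the polar of a set -/
def up {α β : Type*} (r : α → β → Prop) (S : Set α) : Set β := {j | ∀ k ∈ S, r k j}

/-- The closed sets of a relation are anti-isomorphic to the closed sets of its transpose. -/
def dualIso {α β : Type*} (r : α → β → Prop) : Closed r ≃o (Closed fun b a => r a b)ᵒᵈ where
  toFun S := OrderDual.toDual ⟨up r S.1, by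
    intro j hj i hi
    exact hj i fun k hk => hk i hi⟩
  invFun T := ⟨up (fun b a => r a b) (OrderDual.ofDual T).1, by
    intro i hi j hj
    exact hi j fun k hk => hk j hj⟩
  left_inv S := by
    apply Subtype.ext
    apply Set.Subset.antisymm
    · intro i hi
      apply S.2
      intro j hj
      exact hi j hj
    · intro i hi j hj
      exact hj i hi
  right_inv T := by
    apply congrArg OrderDual.toDual
    apply Subtype.ext
    apply Set.Subset.antisymm
    · intro j hj
      apply (OrderDual.ofDual T).2
      intro i hi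
      exact hj i hi
    · intro j hj i hi
      exact hi j hj
  map_rel_iff' := by
    intro S T
    constructor
    · intro h i hi
      apply T.2
      intro j hj
      exact h (show j ∈ up r T.1 from hj) i hi
    · intro h j hj i hi
      exact hj i (h hi)

/-- relabelling of closed sets -/
def congrIso {α β γ δ : Type*} (r : α → β → Prop) (s : γ → δ → Prop) (e : α ≃ γ) (f : β ≃ δ)
    (h : ∀ a b, r a b ↔ s (e a) (f b)) : Closed r ≃o Closed s where
  toFun S := ⟨e '' S.1, by
    intro i hi
    refine ⟨e.symm i, ?_, e.apply_symm_apply i⟩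
    apply S.2
    intro j hj
    rw [h, e.apply_symm_apply]
    apply hi
    rintro _ ⟨k, hk, rfl⟩
    exact (h k j).1 (hj k hk)⟩
  invFun T := ⟨e.symm '' T.1, by
    intro i hi
    refine ⟨e i, ?_, e.symm_apply_apply i⟩
    apply T.2
    intro j hj
    have := hi (f.symm j) (by
      rintro _ ⟨k, hk, rfl⟩
      rw [h, e.apply_symm_apply, f.apply_symm_apply]
      exact hj k hk)
    rwa [h, f.apply_symm_apply] at this⟩
  left_inv S := by
    apply Subtype.ext
    show e.symm '' (e '' S.1) = S.1
    rw [← Set.image_comp]
    simp
  right_inv S := by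
    apply Subtype.ext
    show e '' (e.symm '' S.1) = S.1
    rw [← Set.image_comp]
    simp
  map_rel_iff' := by
    intro S T
    exact Set.image_subset_image_iff e.injective

/-- The face lattice of a polytope that is given both as the hull of points and by inequalities is
isomorphic to the lattice of closed sets of the vertex-facet incidences. -/
noncomputable def facesIso {n m : ℕ} (p : Fin n → E) (f : Fin m → StrongDual ℝ E) (c : Fin m → ℝ)
    (hvalid : ∀ j i, c j ≤ f j (p i))
    (hcomp : ∀ x, (∀ j, c j ≤ f j x) → x ∈ convexHull ℝ (Set.range p))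
    (hne : ∀ i, ∃ j, f j (p i) ≠ c j) :
    Faces (convexHull ℝ (Set.range p)) ≃o Closed (fun i j => f j (p i) = c j) :=
  have hle : ∀ x ∈ convexHull ℝ (Set.range p), ∀ j, c j ≤ f j x := by
    intro x hx j
    have hc : Convex ℝ {x | c j ≤ f j x} := convex_halfSpace_ge (f j : E →ₗ[ℝ] ℝ).isLinear (c j)
    refine convexHull_min ?_ hc hx
    rintro _ ⟨i, rfl⟩
    exact hvalid j i
  have key : ∀ F : Set E, IsExposed ℝ (convexHull ℝ (Set.range p)) F →
      cl (fun i j => f j (p i) = c j) {i | p i ∈ F} ⊆ {i | p i ∈ F} := by
    intro F hF i hi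
    rcases F.eq_empty_or_nonempty with h0 | h0
    · exfalso
      obtain ⟨j, hj⟩ := hne i
      apply hj
      apply hi j
      intro k hk
      rw [h0] at hk
      exact absurd hk (Set.notMem_empty _)
    obtain ⟨l, M, hl1, hl2, hl3⟩ := face_data hF h0
    have hFconv : Convex ℝ F := hF.convex (convex_convexHull ℝ _)
    -- a point of `F` that satisfies strictly all inequalities not tight on `F`
    have hex : ∀ s : Finset (Fin m), ∃ y ∈ F, ∀ j ∈ s, (∃ k, p k ∈ F ∧ f j (p k) ≠ c j) →
        c j < f j y := by
      intro s
      induction s using Finset.induction_on with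
      | empty =>
        obtain ⟨y, hy⟩ := h0
        exact ⟨y, hy, fun j hj => absurd hj (Finset.notMem_empty j)⟩
      | insert a s _ ih =>
        obtain ⟨y, hy, hys⟩ := ih
        by_cases ha : ∃ k, p k ∈ F ∧ f a (p k) ≠ c a
        · obtain ⟨k, hk1, hk2⟩ := ha
          refine ⟨(1 / 2 : ℝ) • y + (1 / 2 : ℝ) • p k,
            hFconv hy hk1 (by norm_num) (by norm_num) (by norm_num), ?_⟩
          intro j hj hjk
          rw [map_add, map_smul, map_smul, smul_eq_mul, smul_eq_mul]
          have h1 := hle y (hF.subset hy) j
          have h2 := hle (p k) (hF.subset hk1) j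
          rcases Finset.mem_insert.1 hj with rfl | hjs
          · have h3 := lt_of_le_of_ne h2 (Ne.symm hk2)
            linarith
          · have h3 := hys j hjs hjk
            linarith
        · refine ⟨y, hy, ?_⟩
          intro j hj hjk
          rcases Finset.mem_insert.1 hj with rfl | hjs
          · exact absurd hjk ha
          · exact hys j hjs hjk
    obtain ⟨y, hy, hys⟩ := hex Finset.univ
    have hyM : l y = M := by
      rw [hl2] at hy
      exact hy.2
    have hev : ∀ᶠ ε in nhds (0 : ℝ), ∀ j, 0 ≤ ε → c j ≤ f j (y + ε • (y - p i)) := by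
      rw [Filter.eventually_all]
      intro j
      by_cases hj : ∃ k, p k ∈ F ∧ f j (p k) ≠ c j
      · have hcont : Continuous fun ε : ℝ => f j (y + ε • (y - p i)) := by fun_prop
        have : ∀ᶠ ε in nhds (0 : ℝ), c j < f j (y + ε • (y - p i)) := by
          apply hcont.continuousAt.eventually_const_lt
          simpa using hys j (Finset.mem_univ j) hj
        filter_upwards [this] with ε h _
        exact h.le
      · apply Filter.Eventually.of_forall
        intro ε _
        push Not at hj
        have h1 : f j (p i) = c j := hi j fun k hk => hj k hk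
        have h2 : f j y = c j := by
          have hsub : F ⊆ {x | f j x = c j} := by
            rw [hl3]
            refine convexHull_min ?_ (convex_hyperplane (f j : E →ₗ[ℝ] ℝ).isLinear _)
            rintro _ ⟨⟨k, rfl⟩, hk⟩
            exact hj k hk
          exact hsub hy
        rw [map_add, map_smul, map_sub, h1, h2]
        simp
    obtain ⟨δ, hδ, hball⟩ := Metric.eventually_nhds_iff.1 hev
    have h1 := hball (y := δ / 2) (by
      rw [Real.dist_eq, sub_zero, abs_of_pos (half_pos hδ)]
      exact half_lt_self hδ)
    have h2 := hl1 _ (hcomp _ fun j => h1 j (half_pos hδ).le)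
    rw [map_add, map_smul, map_sub, smul_eq_mul, hyM] at h2
    have hpi : p i ∈ convexHull ℝ (Set.range p) := subset_convexHull ℝ _ ⟨i, rfl⟩
    have h3 : M ≤ l (p i) := by
      by_contra hlt
      push Not at hlt
      have : 0 < δ / 2 * (M - l (p i)) := mul_pos (half_pos hδ) (by linarith)
      linarith
    show p i ∈ F
    rw [hl2]
    exact ⟨hpi, le_antisymm (hl1 _ hpi) h3⟩
  have key2 : ∀ S : Set (Fin n), cl (fun i j => f j (p i) = c j) S ⊆ S →
      IsExposed ℝ (convexHull ℝ (Set.range p)) (convexHull ℝ (p '' S)) ∧
        ∀ i, p i ∈ convexHull ℝ (p '' S) → i ∈ S := by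
    intro S hS
    classical
    let J : Finset (Fin m) := Finset.univ.filter fun j => ∀ k ∈ S, f j (p k) = c j
    let l : StrongDual ℝ E := ∑ j ∈ J, -f j
    have hl : ∀ x, l x = ∑ j ∈ J, -(f j x) := by
      intro x
      show (∑ j ∈ J, -f j) x = _
      rw [_root_.sum_apply]
      rfl
    have hS1 : ∀ i ∈ S, l (p i) = ∑ j ∈ J, -c j := by
      intro i hi
      rw [hl]
      apply Finset.sum_congr rfl
      intro j hj
      rw [(Finset.mem_filter.1 hj).2 i hi]
    have hS2 : ∀ i, i ∉ S → l (p i) < ∑ j ∈ J, -c j := by
      intro i hi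
      rw [hl]
      have : ∃ j ∈ J, f j (p i) ≠ c j := by
        by_contra hcon
        push Not at hcon
        apply hi
        apply hS
        intro j hj
        exact hcon j (Finset.mem_filter.2 ⟨Finset.mem_univ j, hj⟩)
      obtain ⟨j, hj, hji⟩ := this
      apply Finset.sum_lt_sum
      · intro j _
        exact neg_le_neg (hvalid j i)
      · exact ⟨j, hj, neg_lt_neg (lt_of_le_of_ne (hvalid j i) (Ne.symm hji))⟩
    constructor
    · refine exposed_of_functional l (∑ j ∈ J, -c j) (Set.image_subset_range p S) ?_ ?_
      · rintro _ ⟨i, hi, rfl⟩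
        exact hS1 i hi
      · rintro _ ⟨i, rfl⟩ hi
        exact hS2 i fun h => hi ⟨i, h, rfl⟩
    · intro i hi
      by_contra hiS
      have h1 := hS2 i hiS
      have h2 : convexHull ℝ (p '' S) ⊆ {x | l x = ∑ j ∈ J, -c j} := by
        refine convexHull_min ?_ (convex_hyperplane (l : E →ₗ[ℝ] ℝ).isLinear _)
        rintro _ ⟨k, hk, rfl⟩
        exact hS1 k hk
      have h3 : l (p i) = ∑ j ∈ J, -c j := h2 hi
      linarith
  { toFun := fun F => ⟨{i | p i ∈ F.1}, key F.1 F.2⟩
    invFun := fun S => ⟨convexHull ℝ (p '' S.1), (key2 S.1 S.2).1⟩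
    left_inv := by
      intro F
      apply Subtype.ext
      show convexHull ℝ (p '' {i | p i ∈ F.1}) = F.1
      have h1 := face_eq_hull F.2
      have h2 : p '' {i | p i ∈ F.1} = Set.range p ∩ F.1 := by
        ext x
        constructor
        · rintro ⟨i, hi, rfl⟩
          exact ⟨⟨i, rfl⟩, hi⟩
        · rintro ⟨⟨i, rfl⟩, hi⟩
          exact ⟨i, hi, rfl⟩
      rw [h2]
      exact h1.symm
    right_inv := by
      intro S
      apply Subtype.ext
      show {i | p i ∈ convexHull ℝ (p '' S.1)} = S.1
      apply Set.Subset.antisymm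
      · intro i hi
        exact (key2 S.1 S.2).2 i hi
      · intro i hi
        exact subset_convexHull ℝ _ ⟨i, hi, rfl⟩
    map_rel_iff' := by
      intro F G
      constructor
      · intro h
        show F.1 ⊆ G.1
        rw [face_eq_hull F.2]
        refine convexHull_min ?_ (G.2.convex (convex_convexHull ℝ _))
        rintro _ ⟨⟨i, rfl⟩, hi⟩
        exact h hi
      · intro h i hi
        exact h hi }

end Pool.Agent.V11151.Lattice
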