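import Pool.Agent.V11151.MedDefs
import Pool.Agent.Helper703.KL.Cox

/-! Coxeter group lemmas and the obstruction to embedding, for `MP_b747c0_co`. -/

namespace Pool.Agent.V11151.Med

open CoxeterSystem

universe u v

section Cox

variable {B W : Type*} [Group W] {M : CoxeterMatrix B} (cs : CoxeterSystem M W)

lemma mul_self (i : B) : cs.simple i * cs.simple i = 1 := cs.simple_mul_simple_self i

lemma length_two {i j : B} (h : cs.simple i ≠ cs.simple j) :
    cs.length (cs.simple i * cs.simple j) = 2 := by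
  have h1 := cs.length_mul_mod_two (cs.simple i) (cs.simple j)
  have h2 := cs.length_mul_le (cs.simple i) (cs.simple j)
  have h3 : cs.length (cs.simple i * cs.simple j) ≠ 0 := by
    intro h0
    rw [cs.length_eq_zero_iff] at h0
    apply h
    have : cs.simple i = (cs.simple j)⁻¹ := eq_inv_of_mul_eq_one_left h0
    rw [this, cs.inv_simple]
  rw [cs.length_simple, cs.length_simple] at h1 h2
  omega

lemma exch_two (i j k : B) (h : cs.length (cs.simple k * (cs.simple i * cs.simple j)) <
    cs.length (cs.simple i * cs.simple j)) :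
    cs.simple k * (cs.simple i * cs.simple j) = cs.simple j ∨
    cs.simple k * (cs.simple i * cs.simple j) = cs.simple i := by
  have hw : cs.wordProd [i, j] = cs.simple i * cs.simple j := by
    simp [wordProd_cons]
  rw [← hw] at h
  obtain ⟨t, ht, he⟩ := Pool.Agent.Helper703.Cox.exchange cs [i, j] k h
  rw [hw] at he
  rw [he]
  simp only [List.length_cons, List.length_nil] at ht
  interval_cases t
  · left; simp [List.eraseIdx]
  · right; simp [List.eraseIdx]

/-- Products of two distinct simple reflections: `a b = c d` forces `(c,d) = (a,b)` or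
`(c,d) = (b,a)`. -/
lemma comm_of_eq {a b c d : B} (hab : cs.simple a ≠ cs.simple b) (hac : cs.simple a ≠ cs.simple c)
    (h : cs.simple a * cs.simple b = cs.simple c * cs.simple d) :
    cs.simple c = cs.simple b ∧ cs.simple d = cs.simple a := by
  have h1 : cs.simple c * (cs.simple a * cs.simple b) = cs.simple d := by
    rw [h, ← mul_assoc, mul_self, one_mul]
  have h2 := exch_two cs a b c (by rw [h1, length_two cs hab, cs.length_simple]; omega)
  rw [h1] at h2
  have h3 : cs.simple d = cs.simple a := by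
    rcases h2 with h2 | h2
    · exfalso
      rw [h2] at h
      exact hac (mul_right_cancel h)
    · exact h2
  refine ⟨?_, h3⟩
  have h4 : cs.simple d * (cs.simple b * cs.simple a) = cs.simple c := by
    have h5 : (cs.simple a * cs.simple b)⁻¹ = (cs.simple c * cs.simple d)⁻¹ := by rw [h]
    rw [mul_inv_rev, mul_inv_rev, cs.inv_simple, cs.inv_simple, cs.inv_simple, cs.inv_simple] at h5
    rw [h5, ← mul_assoc, mul_self, one_mul]
  have h6 := exch_two cs b a d (by rw [h4, length_two cs hab.symm, cs.length_simple]; omega)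
  rw [h4] at h6
  rcases h6 with h6 | h6
  · exact absurd h6.symm hac
  · exact h6

/-- The hexagon lemma. -/
lemma hexagon {s p q a b d : B}
    (h : cs.simple s * cs.simple p * cs.simple q = cs.simple a * cs.simple b * cs.simple d)
    (hsa : cs.simple s * cs.simple a ≠ cs.simple a * cs.simple s)
    (hsp : cs.simple s * cs.simple p ≠ cs.simple p * cs.simple s)
    (h1 : ∀ r, cs.simple s * cs.simple p * cs.simple q ≠ cs.simple r) :
    cs.simple b = cs.simple s := by
  have hne : cs.simple a ≠ cs.simple s := fun he => hsa (by rw [he])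
  have hne' : cs.simple s ≠ cs.simple p := fun he => hsp (by rw [he])
  have hl1 : cs.length (cs.simple s * cs.simple p * cs.simple q) ≠ 1 := by
    intro h0
    rw [cs.length_eq_one_iff] at h0
    obtain ⟨r, hr⟩ := h0
    exact h1 r hr
  have hl2 := cs.length_mul_mod_two (cs.simple s * cs.simple p) (cs.simple q)
  have hl3 := cs.length_mul_le (cs.simple s * cs.simple p) (cs.simple q)
  rw [length_two cs hne', cs.length_simple] at hl2 hl3
  have hl : cs.length (cs.simple s * cs.simple p * cs.simple q) = 3 := by omega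
  have haw : cs.simple a * (cs.simple s * cs.simple p * cs.simple q) =
      cs.simple b * cs.simple d := by
    rw [h, mul_assoc, ← mul_assoc, mul_self, one_mul]
  have hlb := cs.length_mul_le (cs.simple b) (cs.simple d)
  rw [cs.length_simple, cs.length_simple] at hlb
  have hw : cs.wordProd [s, p, q] = cs.simple s * cs.simple p * cs.simple q := by
    simp [wordProd_cons, mul_assoc]
  obtain ⟨t, ht, he⟩ := Pool.Agent.Helper703.Cox.exchange cs [s, p, q] a
    (by rw [hw, haw, hl]; omega)
  rw [hw] at he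
  simp only [List.length_cons, List.length_nil] at ht
  interval_cases t
  · exfalso
    have e1 : cs.wordProd ([s, p, q].eraseIdx 0) = cs.simple p * cs.simple q := by
      simp [List.eraseIdx, wordProd_cons]
    rw [e1, mul_assoc (cs.simple s), ← mul_assoc] at he
    have e2 : cs.simple a * cs.simple s = 1 := mul_eq_right.mp he
    apply hne
    rw [eq_inv_of_mul_eq_one_left e2, cs.inv_simple]
  · exfalso
    have e1 : cs.wordProd ([s, p, q].eraseIdx 1) = cs.simple s * cs.simple q := by
      simp [List.eraseIdx, wordProd_cons]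
    rw [e1, ← mul_assoc] at he
    have e2 : cs.simple a * (cs.simple s * cs.simple p) = cs.simple s := mul_right_cancel he
    have e3 : cs.simple a * cs.simple s = cs.simple s * cs.simple p := by
      calc cs.simple a * cs.simple s
          = cs.simple a * (cs.simple s * cs.simple p) * cs.simple p := by
            rw [mul_assoc, mul_assoc, mul_self, mul_one]
        _ = cs.simple s * cs.simple p := by rw [e2]
    have e4 := comm_of_eq cs hne hne e3
    apply hsa
    rw [e3, e4.2]
  · have e1 : cs.wordProd ([s, p, q].eraseIdx 2) = cs.simple s * cs.simple p := by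
      simp [List.eraseIdx, wordProd_cons]
    rw [e1, haw] at he
    by_contra hc
    have e4 := comm_of_eq cs hne' (fun h => hc h.symm) he.symm
    apply hsp
    rw [← he, e4.1, e4.2]

end Cox

section Embed

variable {V : Type*} {G : SimpleGraph V} {I : Type u} {F : I → Type v}
  {H : ∀ i, SimpleGraph (F i)} {φ : V → ∀ i, F i}

/-- The data of an embedding with convex image. -/
structure Emb (G : SimpleGraph V) (H : ∀ i, SimpleGraph (F i)) (φ : V → ∀ i, F i) : Prop where
  inj : Function.Injective φ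
  adj : ∀ x y, (cartProd H).Adj (φ x) (φ y) ↔ G.Adj x y
  conv : IsConvex (cartProd H) (Set.range φ)

/-- The direction of an edge. -/
def Dir (H : ∀ i, SimpleGraph (F i)) (φ : V → ∀ i, F i) (x y : V) (i : I) : Prop :=
  (H i).Adj (φ x i) (φ y i) ∧ ∀ j, j ≠ i → φ x j = φ y j

lemma Emb.exists_dir (E : Emb G H φ) {x y : V} (h : G.Adj x y) : ∃ i, Dir H φ x y i :=
  (E.adj x y).mpr h

lemma Dir.symm {x y : V} {i : I} (h : Dir H φ x y i) : Dir H φ y x i :=
  ⟨h.1.symm, fun j hj => (h.2 j hj).symm⟩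

/-- Common neighbours of two image points at distance two lie in the image. -/
lemma Emb.fill (E : Emb G H φ) {x y : V} (hxy : x ≠ y) (hn : ¬ G.Adj x y) {p : ∀ i, F i}
    (h1 : (cartProd H).Adj (φ x) p) (h2 : (cartProd H).Adj p (φ y)) :
    ∃ z, φ z = p ∧ G.Adj x z ∧ G.Adj z y := by
  have hd1 : (cartProd H).dist (φ x) p = 1 := SimpleGraph.dist_eq_one_iff_adj.mpr h1
  have hd2 : (cartProd H).dist p (φ y) = 1 := SimpleGraph.dist_eq_one_iff_adj.mpr h2
  have hr := h1.reachable.trans h2.reachable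
  have hd : (cartProd H).dist (φ x) (φ y) = 2 := by
    have l1 : (cartProd H).dist (φ x) (φ y) ≤ 2 := by
      have := SimpleGraph.dist_le (SimpleGraph.Walk.cons h1 (SimpleGraph.Walk.cons h2 .nil))
      simpa using this
    have l2 : (cartProd H).dist (φ x) (φ y) ≠ 0 := by
      rw [Ne, hr.dist_eq_zero_iff]
      exact fun h => hxy (E.inj h)
    have l3 : (cartProd H).dist (φ x) (φ y) ≠ 1 := by
      rw [Ne, SimpleGraph.dist_eq_one_iff_adj, E.adj]
      exact hn
    omega
  obtain ⟨z, hz⟩ := E.conv (φ x) ⟨x, rfl⟩ (φ y) ⟨y, rfl⟩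
    (show p ∈ Interval (cartProd H) (φ x) (φ y) from
      ⟨h1.reachable, h2.reachable, by rw [hd, hd1, hd2]⟩)
  refine ⟨z, hz, ?_, ?_⟩
  · rw [← E.adj, hz]; exact h1
  · rw [← E.adj, hz]; exact h2

/-- `z` is the only common neighbour of `x` and `y`. -/
def Only (G : SimpleGraph V) (x y z : V) : Prop :=
  x ≠ y ∧ ¬ G.Adj x y ∧ ∀ w, G.Adj x w → G.Adj w y → w = z

lemma Emb.dir_eq (E : Emb G H φ) {x y z : V} {i j : I} (hx : Dir H φ z x i) (hy : Dir H φ z y j)
    (h : Only G x y z) : j = i := by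
  classical
  by_contra hij
  have hij' : i ≠ j := fun h => hij h.symm
  obtain ⟨w, hw, hw1, hw2⟩ := E.fill (p := Function.update (φ x) j (φ y j)) h.1 h.2.1
    ⟨j, by
      rw [Function.update_self, ← hx.2 j hij]
      exact hy.1, fun k hk => by rw [Function.update_of_ne hk]⟩
    ⟨i, by
      rw [Function.update_of_ne hij', ← hy.2 i hij']
      exact hx.1.symm, fun k hk => by
        by_cases hkj : k = j
        · subst hkj; rw [Function.update_self]
        · rw [Function.update_of_ne hkj, ← hx.2 k hk, hy.2 k hkj]⟩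
  have hwz := h.2.2 w hw1 hw2
  subst hwz
  have h1 : φ w j = φ y j := by rw [hw, Function.update_self]
  exact hy.1.ne h1

lemma Emb.not_top (E : Emb G H φ) {x y z : V} {i : I} (hx : Dir H φ z x i) (hy : Dir H φ z y i)
    (hxy : x ≠ y) (hn : ¬ G.Adj x y) : H i ≠ ⊤ := by
  intro ht
  have hc : ∀ j, j ≠ i → φ x j = φ y j := fun j hj => by rw [← hx.2 j hj, hy.2 j hj]
  by_cases h : φ x i = φ y i
  · apply hxy
    apply E.inj
    funext j
    by_cases hj : j = i
    · subst hj; exact h
    · exact hc j hj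
  · apply hn
    rw [← E.adj]
    refine ⟨i, ?_, hc⟩
    rw [ht]
    exact h

/-- All coordinates except possibly the `i`-th agree with those of `φ o`. -/
def InPlane (φ : V → ∀ i, F i) (o : V) (i : I) (x : V) : Prop := ∀ j, j ≠ i → φ x j = φ o j

lemma Dir.inPlane {o x y : V} {i : I} (h : Dir H φ x y i) (hx : InPlane φ o i x) :
    InPlane φ o i y := fun j hj => by rw [← h.2 j hj, hx j hj]

lemma Emb.adj_iff (E : Emb G H φ) {o x y : V} {i : I} (hx : InPlane φ o i x)
    (hy : InPlane φ o i y) : G.Adj x y ↔ (H i).Adj (φ x i) (φ y i) := by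
  rw [← E.adj]
  constructor
  · rintro ⟨j, h1, _⟩
    by_cases hj : j = i
    · subst hj; exact h1
    · exact absurd (by rw [hx j hj, hy j hj]) h1.ne
  · intro h
    exact ⟨i, h, fun j hj => by rw [hx j hj, hy j hj]⟩

lemma Emb.eq_of_coord (E : Emb G H φ) {o x y : V} {i : I} (hx : InPlane φ o i x)
    (hy : InPlane φ o i y) (h : φ x i = φ y i) : x = y := by
  apply E.inj
  funext j
  by_cases hj : j = i
  · subst hj; exact h
  · rw [hx j hj, hy j hj]

lemma Emb.only_coord (E : Emb G H φ) {o x y z : V} {i : I} (hx : InPlane φ o i x)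
    (hy : InPlane φ o i y) (h : Only G x y z) {p : F i} (h1 : (H i).Adj (φ x i) p)
    (h2 : (H i).Adj p (φ y i)) : φ z i = p := by
  classical
  obtain ⟨w, hw, hw1, hw2⟩ := E.fill (p := Function.update (φ x) i p) h.1 h.2.1
    ⟨i, by rw [Function.update_self]; exact h1, fun k hk => by rw [Function.update_of_ne hk]⟩
    ⟨i, by rw [Function.update_self]; exact h2, fun k hk => by
      rw [Function.update_of_ne hk, hx k hk, hy k hk]⟩
  have hwz := h.2.2 w hw1 hw2
  subst hwz
  rw [hw, Function.update_self]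

/-- The obstruction. -/
theorem Emb.contradiction (E : Emb G H φ) (hH : ∀ i, H i = ⊤ ∨ IsCoxeterGraph (H i))
    {x0 x1 x2 x3 x4 x5 x6 x7 x9 x12 x14 : V}
    (h06 : G.Adj x0 x6) (h01 : G.Adj x0 x1) (h03 : G.Adj x0 x3) (h12 : G.Adj x1 x2)
    (h212 : G.Adj x2 x12) (h712 : G.Adj x7 x12) (h67 : G.Adj x6 x7) (h34 : G.Adj x3 x4)
    (h414 : G.Adj x4 x14) (h914 : G.Adj x9 x14) (h69 : G.Adj x6 x9) (h15 : G.Adj x1 x5)
    (h35 : G.Adj x3 x5)
    (o61 : Only G x6 x1 x0) (o63 : Only G x6 x3 x0) (o79 : Only G x7 x9 x6)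
    (o07 : Only G x0 x7 x6) (o09 : Only G x0 x9 x6) (o02 : Only G x0 x2 x1)
    (o112 : Only G x1 x12 x2) (o04 : Only G x0 x4 x3) (o314 : Only G x3 x14 x4)
    (n012 : ¬ G.Adj x0 x12) (n014 : ¬ G.Adj x0 x14) (n05 : x5 ≠ x0) (n13 : x1 ≠ x3) :
    False := by
  obtain ⟨i, d06⟩ := E.exists_dir h06
  obtain ⟨j, d01⟩ := E.exists_dir h01
  obtain rfl := E.dir_eq d06 d01 o61
  obtain ⟨k, d03⟩ := E.exists_dir h03
  obtain rfl := E.dir_eq d06 d03 o63
  obtain ⟨k, d67⟩ := E.exists_dir h67
  obtain rfl := E.dir_eq d06.symm d67 o07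
  obtain ⟨i, d69⟩ := E.exists_dir h69
  obtain rfl := E.dir_eq d06.symm d69 o09
  obtain ⟨k, d12⟩ := E.exists_dir h12
  obtain rfl := E.dir_eq d01.symm d12 o02
  obtain ⟨i, d212⟩ := E.exists_dir h212
  obtain rfl := E.dir_eq d12.symm d212 o112
  obtain ⟨k, d34⟩ := E.exists_dir h34
  obtain rfl := E.dir_eq d03.symm d34 o04
  obtain ⟨i, d414⟩ := E.exists_dir h414
  obtain rfl := E.dir_eq d34.symm d414 o314
  have p0 : InPlane φ x0 i x0 := fun _ _ => rfl
  have p6 := d06.inPlane p0
  have p1 := d01.inPlane p0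
  have p3 := d03.inPlane p0
  have p7 := d67.inPlane p6
  have p9 := d69.inPlane p6
  have p2 := d12.inPlane p1
  have p12 := d212.inPlane p2
  have p4 := d34.inPlane p3
  have p14 := d414.inPlane p4
  have p5 : InPlane φ x0 i x5 := by
    obtain ⟨j, d15⟩ := E.exists_dir h15
    obtain ⟨k, d35⟩ := E.exists_dir h35
    by_cases hj : j = i
    · subst hj; exact d15.inPlane p1
    · exfalso
      have e1 : φ x3 j ≠ φ x5 j := by
        rw [p3 j hj, ← p1 j hj]; exact d15.1.ne
      have e2 : k = j := by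
        by_contra hk
        exact e1 (d35.2 j fun h => hk h.symm)
      subst e2
      have e3 := d35.2 i fun h => hj h.symm
      have e4 := d15.2 i fun h => hj h.symm
      exact n13 (E.eq_of_coord p1 p3 (by rw [e3, e4]))
  rcases hH i with ht | ⟨B, W, M, _, cs, ⟨ψ⟩⟩
  · exact E.not_top d06 d01 o61.1 o61.2.1 ht
  -- coordinates in the Coxeter group
  have hadj : ∀ {x y : V}, InPlane φ x0 i x → InPlane φ x0 i y → G.Adj x y →
      ∃ k, ψ (φ y i) = ψ (φ x i) * cs.simple k := fun hx hy h =>
    ψ.map_adj_iff.mpr ((E.adj_iff hx hy).mp h)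
  have hadj' : ∀ {x y : V}, InPlane φ x0 i x → InPlane φ x0 i y →
      ∀ k, ψ (φ y i) = ψ (φ x i) * cs.simple k → G.Adj x y := fun hx hy k h =>
    (E.adj_iff hx hy).mpr (ψ.map_adj_iff.mp ⟨k, h⟩)
  have hinj : ∀ {x y : V}, InPlane φ x0 i x → InPlane φ x0 i y → ψ (φ x i) = ψ (φ y i) → x = y :=
    fun hx hy h => E.eq_of_coord hx hy (ψ.injective h)
  have honly : ∀ {x y z : V}, InPlane φ x0 i x → InPlane φ x0 i y → Only G x y z →
      ∀ (w : W) (k l : B), w = ψ (φ x i) * cs.simple k → ψ (φ y i) = w * cs.simple l →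
      ψ (φ z i) = w := by
    intro x y z hx hy ho w k l h1 h2
    have e1 : (H i).Adj (φ x i) (ψ.symm w) := by
      rw [← ψ.map_adj_iff, ψ.apply_symm_apply]; exact ⟨k, h1⟩
    have e2 : (H i).Adj (ψ.symm w) (φ y i) := by
      rw [← ψ.map_adj_iff, ψ.apply_symm_apply]; exact ⟨l, h2⟩
    rw [E.only_coord hx hy ho e1 e2, ψ.apply_symm_apply]
  obtain ⟨a, ha⟩ := hadj p0 p6 h06
  obtain ⟨s, hs⟩ := hadj p0 p1 h01
  obtain ⟨t, ht⟩ := hadj p0 p3 h03
  obtain ⟨b, hb⟩ := hadj p6 p7 h67
  obtain ⟨c, hc⟩ := hadj p6 p9 h69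
  obtain ⟨p, hp⟩ := hadj p1 p2 h12
  obtain ⟨q, hq⟩ := hadj p2 p12 h212
  obtain ⟨d, hd⟩ := hadj p7 p12 h712
  obtain ⟨p', hp'⟩ := hadj p3 p4 h34
  obtain ⟨q', hq'⟩ := hadj p4 p14 h414
  obtain ⟨d', hd'⟩ := hadj p9 p14 h914
  obtain ⟨u, hu⟩ := hadj p1 p5 h15
  obtain ⟨u', hu'⟩ := hadj p3 p5 h35
  -- general hexagon step
  have key : ∀ {y1 y2 y3 y7 : V} (_ : InPlane φ x0 i y1) (_ : InPlane φ x0 i y2)
      (_ : InPlane φ x0 i y3) (_ : Only G x6 y1 x0) (_ : Only G x0 y2 y1)
      (_ : ¬ G.Adj x0 y3) {s p q b d : B}, ψ (φ y1 i) = ψ (φ x0 i) * cs.simple s →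
      ψ (φ y2 i) = ψ (φ y1 i) * cs.simple p → ψ (φ y3 i) = ψ (φ y2 i) * cs.simple q →
      ψ (φ y7 i) = ψ (φ x6 i) * cs.simple b → ψ (φ y3 i) = ψ (φ y7 i) * cs.simple d →
      cs.simple b = cs.simple s := by
    intro y1 y2 y3 y7 q1 q2 q3 o1 o2 n3 s p q b d hs hp hq hb hd
    apply hexagon cs (s := s) (p := p) (q := q) (a := a) (b := b) (d := d)
    · apply mul_left_cancel (a := ψ (φ x0 i))
      rw [← mul_assoc, ← mul_assoc, ← hs, ← hp, ← hq, ← mul_assoc, ← mul_assoc, ← ha, ← hb, ← hd]
    · intro hcomm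
      have e := honly p6 q1 o1 (ψ (φ x0 i) * cs.simple s * cs.simple a) s a
        (by rw [mul_assoc, hcomm, ← mul_assoc, ← ha])
        (by rw [mul_assoc _ (cs.simple a), mul_self, mul_one, hs])
      rw [mul_assoc] at e
      have e' : cs.simple s * cs.simple a = 1 := by simpa using e.symm
      have e'' : cs.simple s = cs.simple a := by
        rw [eq_inv_of_mul_eq_one_left e', cs.inv_simple]
      exact o1.1 (hinj p6 q1 (by rw [ha, hs, e'']))
    · intro hcomm
      have e := honly p0 q2 o2 (ψ (φ x0 i) * cs.simple p) p s rfl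
        (by rw [hp, hs, mul_assoc, mul_assoc, hcomm])
      rw [hs] at e
      have e' : cs.simple s = cs.simple p := mul_left_cancel e
      exact o2.1 (hinj p0 q2 (by rw [hp, hs, e', mul_assoc, mul_self, mul_one]))
    · intro r hr
      apply n3
      apply hadj' p0 q3 r
      rw [← hr, ← mul_assoc, ← mul_assoc, ← hs, ← hp, ← hq]
  have hbs := key p1 p2 p12 o61 o02 n012 hs hp hq hb hd
  have hct := key p3 p4 p14 o63 o04 n014 ht hp' hq' hc hd'
  have hst : cs.simple s ≠ cs.simple t := fun e => n13 (hinj p1 p3 (by rw [hs, ht, e]))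
  have hcomm : cs.simple s * cs.simple t = cs.simple t * cs.simple s := by
    have e : cs.simple s * cs.simple u = cs.simple t * cs.simple u' := by
      apply mul_left_cancel (a := ψ (φ x0 i))
      rw [← mul_assoc, ← mul_assoc, ← hs, ← ht, ← hu, ← hu']
    have hsu : cs.simple s ≠ cs.simple u := by
      intro e'
      apply n05
      apply hinj p5 p0
      rw [hu, hs, e', mul_assoc, mul_self, mul_one]
    have e2 := comm_of_eq cs hsu hst e
    rw [e2.1, e, e2.2, e2.1]
  have e := honly p7 p9 o79 (ψ (φ x6 i) * cs.simple s * cs.simple t) t s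
    (by rw [hb, hbs]) (by rw [hc, hct, mul_assoc _ _ (cs.simple t), hcomm, mul_assoc, mul_assoc,
      mul_self, mul_one])
  rw [mul_assoc] at e
  have e' : cs.simple s * cs.simple t = 1 := by simpa using e.symm
  apply hst
  rw [eq_inv_of_mul_eq_one_left e', cs.inv_simple]

end Embed

end Pool.Agent.V11151.Med
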