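import Mathlib

/-! Definitions for `MP_b747c0_co` (mediangle graphs, monoliths, Coxeter graphs, products). -/

namespace Pool.Agent.V11151.Med

universe u v

section Basic

variable {V : Type*}

/-- The interval `I(x,y) = {z : d(x,y) = d(x,z) + d(z,y)}` (all distances finite). -/
def Interval (G : SimpleGraph V) (x y : V) : Set V :=
  {z | G.Reachable x z ∧ G.Reachable z y ∧ G.dist x y = G.dist x z + G.dist z y}

/-- `S` spans a convex subgraph. -/
def IsConvex (G : SimpleGraph V) (S : Set V) : Prop :=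
  ∀ x ∈ S, ∀ y ∈ S, Interval G x y ⊆ S

/-- `S` spans a gated subgraph. -/
def IsGated (G : SimpleGraph V) (S : Set V) : Prop :=
  ∀ x, ∃ y ∈ S, ∀ z ∈ S, y ∈ Interval G x z

/-- `c` is (a parametrisation of) a convex cycle of even length `2 * n ≥ 4`: an induced cycle whose
vertex set is convex. -/
structure IsConvexEvenCycle (G : SimpleGraph V) (n : ℕ) (c : ZMod (2 * n) → V) : Prop where
  two_le : 2 ≤ n
  inj : Function.Injective c
  adj : ∀ i j, G.Adj (c i) (c j) ↔ (j = i + 1 ∨ i = j + 1)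
  convex : IsConvex G (Set.range c)

/-- The edges of the cycle `c`. -/
def cycleEdges {n : ℕ} (c : ZMod (2 * n) → V) : Set (Sym2 V) :=
  Set.range fun i => s(c i, c (i + 1))

/-- Mediangle graphs. -/
structure IsMediangle (G : SimpleGraph V) : Prop where
  connected : G.Connected
  triangle : ∀ o x y, G.dist o x = G.dist o y → G.dist x y = 1 →
    ∃ z, G.Adj z x ∧ G.Adj z y ∧ z ∈ Interval G o x ∩ Interval G o y
  noDiamond : ∀ a b c d, G.Adj a b → G.Adj a c → G.Adj b c → G.Adj b d → G.Adj c d → a ≠ d →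
    G.Adj a d
  cycle : ∀ o x y z, x ≠ y → G.dist o x = G.dist o y → G.dist o x + 1 = G.dist o z →
    G.dist x z = 1 → G.dist y z = 1 →
    ∃ (n : ℕ) (c : ZMod (2 * n) → V) (i : ZMod (2 * n)), IsConvexEvenCycle G n c ∧
      c i = z ∧ c (i + 1) = x ∧ c (i - 1) = y ∧ c (i + n) ∈ Interval G o x ∩ Interval G o y
  intersection : ∀ (n m : ℕ) (c : ZMod (2 * n) → V) (c' : ZMod (2 * m) → V),
    IsConvexEvenCycle G n c → IsConvexEvenCycle G m c' → Set.range c ≠ Set.range c' →
    ∀ e ∈ cycleEdges c ∩ cycleEdges c', ∀ f ∈ cycleEdges c ∩ cycleEdges c', e = f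

/-- The two rules generating the hyperplane relation: edges of a common `3`-cycle; opposite edges
of a convex even cycle. -/
def HypRule (G : SimpleGraph V) (e f : Sym2 V) : Prop :=
  (∃ x y z, G.Adj x y ∧ G.Adj y z ∧ G.Adj x z ∧ e = s(x, y) ∧ f = s(y, z)) ∨
  (∃ (n : ℕ) (c : ZMod (2 * n) → V) (i : ZMod (2 * n)), IsConvexEvenCycle G n c ∧
    e = s(c i, c (i + 1)) ∧ f = s(c (i + n), c (i + n + 1)))

/-- `e` and `f` lie in the same hyperplane. -/
def SameHyp (G : SimpleGraph V) : Sym2 V → Sym2 V → Prop :=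
  Relation.EqvGen (HypRule G)

/-- The hyperplanes of `e` and `f` are transverse: some edge of the first and some edge of the
second are consecutive edges of a convex even cycle. -/
def Transverse (G : SimpleGraph V) (e f : Sym2 V) : Prop :=
  ∃ (n : ℕ) (c : ZMod (2 * n) → V) (i : ZMod (2 * n)), IsConvexEvenCycle G n c ∧
    SameHyp G e s(c (i - 1), c i) ∧ SameHyp G f s(c i, c (i + 1))

/-- `Y` spans a monolith of `G`: a gated subgraph any two distinct hyperplanes of which are
transverse. -/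
def IsMonolith (G : SimpleGraph V) (Y : Set V) : Prop :=
  Y.Nonempty ∧ IsGated G Y ∧
    ∀ a ∈ Y, ∀ b ∈ Y, ∀ c ∈ Y, ∀ d ∈ Y, G.Adj a b → G.Adj c d →
      ¬ SameHyp G s(a, b) s(c, d) → Transverse G s(a, b) s(c, d)

end Basic

/-- The Cartesian product of a family of graphs. -/
def cartProd {I : Type u} {F : I → Type v} (H : ∀ i, SimpleGraph (F i)) :
    SimpleGraph (∀ i, F i) where
  Adj x y := ∃ i, (H i).Adj (x i) (y i) ∧ ∀ j, j ≠ i → x j = y j
  symm := ⟨fun _ _ ⟨i, h, h'⟩ => ⟨i, h.symm, fun j hj => (h' j hj).symm⟩⟩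
  loopless := ⟨fun _ ⟨_, h, _⟩ => h.ne rfl⟩

/-- The Cayley graph of the group of a Coxeter system with respect to its simple reflections. -/
def coxGraph {B W : Type*} [Group W] {M : CoxeterMatrix B} (cs : CoxeterSystem M W) :
    SimpleGraph W where
  Adj x y := ∃ i, y = x * cs.simple i
  symm := ⟨by
    rintro x y ⟨i, rfl⟩
    exact ⟨i, by rw [mul_assoc, cs.simple_mul_simple_self, mul_one]⟩⟩
  loopless := ⟨by
    rintro x ⟨i, h⟩
    have h1 : cs.simple i = 1 := by simpa using h
    have h2 := cs.length_simple i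
    rw [h1, cs.length_one] at h2
    omega⟩

/-- `H` is (isomorphic to) a Coxeter graph; the Coxeter group may be infinite. -/
def IsCoxeterGraph {F : Type v} (H : SimpleGraph F) : Prop :=
  ∃ (B W : Type v) (M : CoxeterMatrix B) (_ : Group W) (cs : CoxeterSystem M W),
    Nonempty (H ≃g coxGraph cs)

end Pool.Agent.V11151.Med
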