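import Mathlib

/-!
# Basic facts on faces of convex hulls of finite sets
-/

namespace Pool.Agent.V11151.Poly

variable {E : Type*} [NormedAddCommGroup E] [NormedSpace ℝ E]

lemma face_data {F : Set E} {A : Set E} (hF : IsExposed ℝ (convexHull ℝ A) F)
    (hne : F.Nonempty) :
    ∃ (l : StrongDual ℝ E) (M : ℝ), (∀ x ∈ convexHull ℝ A, l x ≤ M) ∧
      F = {x | x ∈ convexHull ℝ A ∧ l x = M} ∧ F = convexHull ℝ (A ∩ F) := by
  obtain ⟨l, hl⟩ := hF hne
  obtain ⟨x0, hx0⟩ := hne
  have hx0' := hx0
  rw [hl] at hx0'
  have hF' : F = {x | x ∈ convexHull ℝ A ∧ l x = l x0} := by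
    rw [hl]
    ext x
    constructor
    · rintro ⟨h1, h2⟩
      exact ⟨h1, le_antisymm (hx0'.2 x h1) (h2 x0 hx0'.1)⟩
    · rintro ⟨h1, h2⟩
      exact ⟨h1, fun y hy => by rw [h2]; exact hx0'.2 y hy⟩
  refine ⟨l, l x0, fun x hx => hx0'.2 x hx, hF', ?_⟩
  apply Set.Subset.antisymm
  · have key : convexHull ℝ A ⊆ {x | l x ≤ l x0 ∧ (l x = l x0 → x ∈ convexHull ℝ (A ∩ F))} := by
      apply convexHull_min
      · intro x hx
        have hxA : x ∈ convexHull ℝ A := subset_convexHull ℝ A hx
        refine ⟨hx0'.2 x hxA, fun h => subset_convexHull ℝ _ ⟨hx, ?_⟩⟩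
        rw [hF']
        exact ⟨hxA, h⟩
      · intro x hx y hy a b ha hb hab
        have hlin : l (a • x + b • y) = a * l x + b * l y := by
          rw [map_add, map_smul, map_smul]; rfl
        refine ⟨?_, ?_⟩
        · rw [hlin]
          have := mul_le_mul_of_nonneg_left hx.1 ha
          have := mul_le_mul_of_nonneg_left hy.1 hb
          have h3 : a * l x0 + b * l x0 = l x0 := by rw [← add_mul, hab, one_mul]
          linarith
        · intro h
          rw [hlin] at h
          rcases eq_or_lt_of_le ha with ha0 | ha0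
          · have hb1 : b = 1 := by linarith
            have ha0' : a = 0 := ha0.symm
            rw [ha0', hb1, zero_mul, one_mul, zero_add] at h
            rw [ha0', hb1, zero_smul, one_smul, zero_add]
            exact hy.2 h
          · rcases eq_or_lt_of_le hb with hb0 | hb0
            · have ha1 : a = 1 := by linarith
              have hb0' : b = 0 := hb0.symm
              rw [hb0', ha1, zero_mul, one_mul, add_zero] at h
              rw [hb0', ha1, zero_smul, one_smul, add_zero]
              exact hx.2 h
            · have h3 : a * l x0 + b * l x0 = l x0 := by rw [← add_mul, hab, one_mul]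
              have hx1 : l x = l x0 := by
                by_contra hne
                have : l x < l x0 := lt_of_le_of_ne hx.1 hne
                have := mul_lt_mul_of_pos_left this ha0
                have := mul_le_mul_of_nonneg_left hy.1 hb
                linarith
              have hy1 : l y = l x0 := by
                by_contra hne
                have : l y < l x0 := lt_of_le_of_ne hy.1 hne
                have := mul_lt_mul_of_pos_left this hb0
                have := mul_le_mul_of_nonneg_left hx.1 ha
                linarith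
              exact (convex_convexHull ℝ _) (hx.2 hx1) (hy.2 hy1) ha hb hab
    intro x hx
    have hx' := hx
    rw [hF'] at hx'
    exact (key hx'.1).2 hx'.2
  · apply convexHull_min (Set.inter_subset_right)
    rw [hF']
    intro x hx y hy a b ha hb hab
    refine ⟨(convex_convexHull ℝ _) hx.1 hy.1 ha hb hab, ?_⟩
    rw [map_add, map_smul, map_smul, hx.2, hy.2, ← add_smul, hab, one_smul]

lemma face_eq_hull {F : Set E} {A : Set E} (hF : IsExposed ℝ (convexHull ℝ A) F) :
    F = convexHull ℝ (A ∩ F) := by
  rcases F.eq_empty_or_nonempty with h | h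
  · rw [h]; simp
  · obtain ⟨_, _, _, _, h⟩ := face_data hF h
    exact h

lemma finite_faces {A : Set E} (hA : A.Finite) : {F | IsExposed ℝ (convexHull ℝ A) F}.Finite := by
  have h1 : (𝒫 A).Finite := hA.finite_subsets
  refine (h1.image (fun s => convexHull ℝ s)).subset ?_
  intro F hF
  exact ⟨A ∩ F, Set.inter_subset_left, (face_eq_hull hF).symm⟩

/-- exposing a face by a functional -/
lemma exposed_of_functional {A B : Set E} (l : StrongDual ℝ E) (M : ℝ) (hB : B ⊆ A)
    (h1 : ∀ x ∈ B, l x = M) (h2 : ∀ x ∈ A, x ∉ B → l x < M) :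
    IsExposed ℝ (convexHull ℝ A) (convexHull ℝ B) := by
  have hle : ∀ x ∈ convexHull ℝ A, l x ≤ M := by
    intro x hx
    have hc : Convex ℝ {x | l x ≤ M} := convex_halfSpace_le (l : E →ₗ[ℝ] ℝ).isLinear M
    refine convexHull_min ?_ hc hx
    intro y hy
    by_cases hyB : y ∈ B
    · exact (h1 y hyB).le
    · exact (h2 y hy hyB).le
  intro hne
  have hBne : B.Nonempty := by
    rcases B.eq_empty_or_nonempty with h | h
    · rw [h] at hne; simp at hne
    · exact h
  obtain ⟨b0, hb0⟩ := hBne
  refine ⟨l, ?_⟩
  have hF : IsExposed ℝ (convexHull ℝ A) {x ∈ convexHull ℝ A | ∀ y ∈ convexHull ℝ A, l y ≤ l x} :=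
    fun _ => ⟨l, rfl⟩
  have h3 := face_eq_hull hF
  rw [h3]
  congr 1
  ext x
  constructor
  · intro hx
    refine ⟨hB hx, subset_convexHull ℝ A (hB hx), ?_⟩
    intro y hy
    rw [h1 x hx]
    exact hle y hy
  · rintro ⟨hxA, hx1, hx2⟩
    by_contra hxB
    have h4 := h2 x hxA hxB
    have h5 := hx2 b0 (subset_convexHull ℝ A (hB hb0))
    rw [h1 b0 hb0] at h5
    linarith

lemma mem_extreme_of_functional {A : Set E} {a : E} (ha : a ∈ A) (l : StrongDual ℝ E)
    (h : ∀ x ∈ A, x ≠ a → l x < l a) : a ∈ (convexHull ℝ A).extremePoints ℝ := by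
  have h1 : IsExposed ℝ (convexHull ℝ A) (convexHull ℝ {a}) := by
    refine exposed_of_functional l (l a) (by simpa using ha) ?_ ?_
    · intro x hx
      rw [Set.mem_singleton_iff.1 hx]
    · intro x hx hxa
      exact h x hx hxa
  rw [convexHull_singleton] at h1
  have h2 := h1.isExtreme
  exact isExtreme_singleton.1 h2

/-- a polytope is the hull of its extreme points -/
lemma hull_extreme {A : Set E} (hA : A.Finite) :
    convexHull ℝ ((convexHull ℝ A).extremePoints ℝ) = convexHull ℝ A := by
  have hc : IsCompact (convexHull ℝ A) := hA.isCompact_convexHull ℝ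
  have h1 := closure_convexHull_extremePoints hc (convex_convexHull ℝ A)
  have h2 : ((convexHull ℝ A).extremePoints ℝ).Finite := hA.subset extremePoints_convexHull_subset
  have h3 : IsClosed (convexHull ℝ ((convexHull ℝ A).extremePoints ℝ)) :=
    (h2.isCompact_convexHull ℝ).isClosed
  rw [h3.closure_eq] at h1
  exact h1

end Pool.Agent.V11151.Poly
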